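import Pool.Agent.Lib.MP_5d3e93_al.Gr.Am

/-! Short sequences of complexes that give distinguished triangles. -/

open CategoryTheory Limits Pretriangulated ZeroObject

namespace Pool.Agent.Lib.MP_5d3e93_al.Gr

universe v u v' u' v'' u''

section Cone

open CochainComplex HomComplex mappingCone

variable {C C' : Type*} [Category* C] [Preadditive C] [HasBinaryBiproducts C] [Category* C']
  [Preadditive C'] [HasBinaryBiproducts C'] (s : ShortComplex (CochainComplex C ℤ))

/-- The comparison map from the cone to the third term. -/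
noncomputable def exaD : mappingCone s.f ⟶ s.X₃ := desc s.f 0 s.g (by simp)

theorem inr_exaD : inr s.f ≫ exaD s = s.g := inr_desc ..

/-- A graded splitting makes the cone homotopy equivalent to the third term. -/
theorem exa_he (ρ : Cochain s.X₂ s.X₁ 0) (ς : Cochain s.X₃ s.X₂ 0)
    (h1 : (Cochain.ofHom s.f).comp ρ (zero_add 0) = Cochain.ofHom (𝟙 _))
    (h2 : ς.comp (Cochain.ofHom s.g) (zero_add 0) = Cochain.ofHom (𝟙 _))
    (h3 : ρ.comp (Cochain.ofHom s.f) (zero_add 0) + (Cochain.ofHom s.g).comp ς (zero_add 0) =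
      Cochain.ofHom (𝟙 _)) :
    IsIso ((HomotopyCategory.quotient _ _).map (exaD s)) := by
  unfold exaD
  have e1 : (δ 0 1 ς).comp (Cochain.ofHom s.g) (add_zero 1) = 0 := by
    simpa [δ_comp_ofHom] using congrArg (δ 0 1) h2
  have e2 : δ 0 1 ς = ((δ 0 1 ς).comp ρ (add_zero 1)).comp (Cochain.ofHom s.f) (add_zero 1) := by
    have := congrArg (fun z => (δ 0 1 ς).comp z (add_zero 1)) h3
    simp only [Cochain.comp_add, Cochain.comp_id] at this
    rw [← Cochain.comp_assoc_of_second_is_zero_cochain _ (Cochain.ofHom s.g) ς (add_zero 1), e1,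
      Cochain.zero_comp, add_zero] at this
    rw [Cochain.comp_assoc_of_second_is_zero_cochain _ _ _ (add_zero 1), this]
  have e3 : δ 1 2 ((δ 0 1 ς).comp ρ (add_zero 1)) = 0 := by
    have := congrArg (δ 1 2) e2
    rw [δ_δ, δ_comp_ofHom] at this
    have := congrArg (fun z => z.comp ρ (add_zero 2)) this
    simp only [Cochain.zero_comp] at this
    rw [Cochain.comp_assoc_of_second_is_zero_cochain _ _ _ (add_zero 2), h1, Cochain.comp_id] at this
    exact this.symm
  have e4 : δ 0 1 ρ =
      -(Cochain.ofHom s.g).comp ((δ 0 1 ς).comp ρ (add_zero 1)) (zero_add 1) := by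
    have := congrArg (fun z => (δ 0 1 z).comp ρ (add_zero 1)) h3
    simp only [δ_add, δ_comp_ofHom, δ_ofHom_comp, Cochain.add_comp, δ_ofHom,
      Cochain.zero_comp] at this
    rw [Cochain.comp_assoc_of_second_is_zero_cochain _ _ _ (add_zero 1), h1, Cochain.comp_id,
      Cochain.comp_assoc_of_first_is_zero_cochain _ _ _ (add_zero 1)] at this
    exact eq_neg_of_add_eq_zero_left this
  let α : Cocycle s.X₃ s.X₁ 1 := Cocycle.mk (-(δ 0 1 ς).comp ρ (add_zero 1)) 2 rfl (by
    rw [δ_neg, e3, neg_zero])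
  have eq : δ 0 1 ς + α.1.comp (Cochain.ofHom s.f) (add_zero 1) = 0 := by
    simp only [α, Cocycle.mk_coe, Cochain.neg_comp, ← e2, add_neg_cancel]
  have H : Homotopy (𝟙 _) (desc s.f 0 s.g (by simp) ≫ lift s.f α ς eq) :=
    descHomotopy s.f _ _ 0 (ρ.comp (inl s.f) (zero_add (-1))) (by
      rw [← Cochain.comp_assoc_of_first_is_zero_cochain _ _ _ (zero_add (-1)), h1,
        Cochain.ofHom_comp, ← Cochain.comp_assoc_of_second_is_zero_cochain _ _ _ (add_zero (-1)),
        inl_desc]
      simp) (by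
      rw [δ_zero_cochain_comp _ _ 0 (neg_add_cancel 1), δ_inl, e4, inr_desc_assoc,
        Cochain.ofHom_comp s.g, ofHom_lift, Cochain.ofHom_comp s.f, Category.comp_id,
        ← Cochain.comp_assoc_of_first_is_zero_cochain ρ _ _ (zero_add 0),
        eq_sub_of_add_eq h3]
      simp [liftCochain, α, Cochain.comp_assoc_of_first_is_zero_cochain])
  refine ⟨(HomotopyCategory.quotient _ _).map (lift s.f α ς eq), ?_, ?_⟩
  · rw [← Functor.map_comp, ← HomotopyCategory.eq_of_homotopy _ _ H, CategoryTheory.Functor.map_id]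
  · rw [← Functor.map_comp, ← CategoryTheory.Functor.map_id]
    congr 1
    ext n
    rw [HomologicalComplex.comp_f, lift_desc_f _ _ _ _ _ _ _ n (n + 1) rfl]
    simpa using Cochain.congr_v h2 n n (add_zero n)

set_option backward.defeqAttrib.useBackward true in
set_option backward.isDefEq.respectTransparency false in
theorem exa_desc_map (F : C ⥤ C') [F.Additive] :
    (F.mapHomologicalComplex (.up ℤ)).map (exaD s) =
      (mapHomologicalComplexIso _ _).hom ≫ exaD (s.map (F.mapHomologicalComplex (.up ℤ))) := by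
  ext n
  simp [exaD, mapHomologicalComplexIso, mapHomologicalComplexXIso,
    mapHomologicalComplexXIso'_hom, Functor.mapHomologicalComplex_map_f,
    desc_f _ _ _ _ n (n + 1) rfl]

end Cone

namespace Am

variable {a : Am.{v, u}} {b : Am.{v', u'}} {c : Am.{v'', u''}}

/-- From complexes to the derived category. -/
noncomputable abbrev QQ (a : Am.{v, u}) : CochainComplex a.A ℤ ⥤ a.D := HomotopyCategory.quotient _ _ ⋙ a.Q
/-- The cone of the first map is identified with the third term. -/
def Exa (a : Am.{v, u}) (s : ShortComplex (CochainComplex a.A ℤ)) : Prop :=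
  IsIso (a.QQ.map (CochainComplex.mappingCone.desc s.f 0 s.g (by simp)))

theorem Exa.tri {s : ShortComplex (CochainComplex a.A ℤ)} (h : a.Exa s) :
    ∃ δ, Triangle.mk (a.QQ.map s.f) (a.QQ.map s.g) δ ∈ distTriang a.D := by
  have hT := a.Q.map_distinguished _ (HomotopyCategory.mappingCone_triangleh_distinguished s.f)
  have : IsIso (a.QQ.map (exaD s)) := h
  let e := asIso (a.QQ.map (exaD s))
  refine ⟨e.inv ≫
    (a.Q.mapTriangle.obj (CochainComplex.mappingCone.triangleh s.f)).mor₃,
    isomorphic_distinguished _ hT _ (Iso.symm (Triangle.isoMk _ _ (Iso.refl _) (Iso.refl _)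
      e ?_ ?_ ?_))⟩
  · exact (Category.comp_id _).trans (Category.id_comp _).symm
  · exact ((a.QQ.map_comp _ _).symm.trans
      (congrArg a.QQ.map (inr_exaD s))).trans (Category.id_comp _).symm
  · exact ((congrArg _ (CategoryTheory.Functor.map_id _ _)).trans (Category.comp_id _)).trans
      (e.hom_inv_id_assoc _).symm

theorem exa_of_split (s : ShortComplex (CochainComplex a.A ℤ))
    (h : ∀ n, Nonempty (s.map (HomologicalComplex.eval _ _ n)).Splitting) : a.Exa s := by
  have σ := fun n => (h n).some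
  have := exa_he s (.ofHoms fun n => (σ n).r) (.ofHoms fun n => (σ n).s)
    (by ext n; simpa using! (σ n).f_r) (by ext n; simpa using! (σ n).s_g)
    (by ext n; simpa using! (σ n).id)
  exact a.Q.map_isIso ((HomotopyCategory.quotient _ _).map (exaD s))

set_option backward.isDefEq.respectTransparency false in
/-- Exactness after an additive functor, read on the image of the comparison map. -/
theorem exa_map_iff (s : ShortComplex (CochainComplex a.A ℤ)) (f : Map a b) :
    b.Exa (s.map (f.F.mapHomologicalComplex _)) ↔ IsIso (b.Q.map (f.K.map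
      ((HomotopyCategory.quotient _ _).map (exaD s)))) := by
  change IsIso (b.QQ.map (exaD _)) ↔
    IsIso (b.QQ.map ((f.F.mapHomologicalComplex (.up ℤ)).map (exaD s)))
  rw [exa_desc_map, Functor.map_comp]
  exact (isIso_comp_left_iff _ _).symm

theorem Exa.map {s : ShortComplex (CochainComplex a.A ℤ)} (h : a.Exa s) (f : Map a b) :
    b.Exa (s.map (f.F.mapHomologicalComplex _)) := by
  rw [exa_map_iff, ← f.D_map]
  exact @Functor.map_isIso _ _ _ _ _ _ f.D _ h

/-- A family that detects trivial complexes detects isomorphisms. -/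
theorem isIso_of_reflect {ι : Type*} (g : ι → Map a b)
    (hg : ∀ X, (∀ j, b.Tb ((g j).K.obj X)) → a.Tb X) {X Y : Kh a.A} (φ : X ⟶ Y)
    (h : ∀ j, IsIso (b.Q.map ((g j).K.map φ))) : IsIso (a.Q.map φ) := by
  obtain ⟨Z, p, q, k⟩ := distinguished_cocone_triangle φ
  exact (Triangle.isZero₃_iff_isIso₁ _ (a.Q.map_distinguished _ k)).1 (hg Z fun j =>
    (Triangle.isZero₃_iff_isIso₁ _ (((g j).K ⋙ b.Q).map_distinguished _ k)).2 (h j))

theorem exa_of_reflect {ι : Type*} (g : ι → Map a b) (s : ShortComplex (CochainComplex a.A ℤ))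
    (hg : ∀ X, (∀ j, b.Tb ((g j).K.obj X)) → a.Tb X)
    (h : ∀ j, b.Exa (s.map ((g j).F.mapHomologicalComplex _))) : a.Exa s :=
  isIso_of_reflect g hg _ fun j => (exa_map_iff s (g j)).1 (h j)

/-- A natural short sequence of additive functors, evaluated on a complex. -/
def sesAt {f₁ f f₂ : Map a b} (α : f₁.F ⟶ f.F) (β : f.F ⟶ f₂.F) (h : α ≫ β = 0)
    (K : CochainComplex a.A ℤ) : ShortComplex (CochainComplex b.A ℤ) :=
  ⟨(NatTrans.mapHomologicalComplex α _).app K, (NatTrans.mapHomologicalComplex β _).app K, by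
    ext n
    exact NatTrans.congr_app h (K.X n)⟩
/-- A natural short sequence that is exact on `S`. -/
def Ses {f₁ f f₂ : Map a b} (α : f₁.F ⟶ f.F) (β : f.F ⟶ f₂.F) (h : α ≫ β = 0)
    (S : ObjectProperty a.D) : Prop := ∀ K, S (a.QQ.obj K) → b.Exa (sesAt α β h K)
variable {f₁ f f₂ : Map a b} {α : f₁.F ⟶ f.F} {β : f.F ⟶ f₂.F} {h : α ≫ β = 0}

theorem Ses.tri {S : ObjectProperty a.D} (k : Ses α β h S) {X : a.D} (hX : S X) :
    ∃ δ, Triangle.mk ((f₁.nat f α).app X) ((f.nat f₂ β).app X) δ ∈ distTriang b.D := by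
  obtain ⟨K, rfl⟩ := a.exists_cx X
  rw [Map.nat_app, Map.nat_app]
  exact (k K hX).tri

theorem ses_of_split (k : ∀ X, ∃ r s, α.app X ≫ r = 𝟙 _ ∧ s ≫ β.app X = 𝟙 _ ∧
    r ≫ α.app X + β.app X ≫ s = 𝟙 _) (S : ObjectProperty a.D) : Ses α β h S := fun K _ =>
  exa_of_split _ fun n => by
    obtain ⟨r, s, h1, h2, h3⟩ := k (K.X n)
    exact ⟨⟨r, s, h1, h2, h3⟩⟩

theorem ses_of_reflect {ι : Type*} (g : ι → Map b c)
    (hg : ∀ X, (∀ j, c.Tb ((g j).K.obj X)) → b.Tb X)
    (k : ∀ j X, ∃ r s, (g j).F.map (α.app X) ≫ r = 𝟙 _ ∧ s ≫ (g j).F.map (β.app X) = 𝟙 _ ∧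
      r ≫ (g j).F.map (α.app X) + (g j).F.map (β.app X) ≫ s = 𝟙 _) (S : ObjectProperty a.D) :
    Ses α β h S := fun K _ =>
  exa_of_reflect g _ hg fun j => exa_of_split _ fun n => by
    obtain ⟨r, s, h1, h2, h3⟩ := k j (K.X n)
    exact ⟨⟨r, s, h1, h2, h3⟩⟩

end Am

end Pool.Agent.Lib.MP_5d3e93_al.Gr
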