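import Pool.Agent.Lib.MP_5d3e93_al.Gr.Zoo

/-! The subquotients as functors to binary complexes; the two adjoints of the terms. -/

open CategoryTheory Limits ZeroObject

namespace Pool.Agent.Lib.MP_5d3e93_al.Gr

universe v u v' u'

variable {C : Type u} [Category.{v} C] [Preadditive C]

theorem Bin.isIso_of {P Q : Bin C} (f : P ⟶ Q) (h : ∀ n, IsIso (f.1 n)) : IsIso f :=
  ⟨Bin.homMk (fun n => inv (f.1 n)) fun b n => by
      rw [IsIso.inv_comp_eq, Bin.comm_assoc, IsIso.hom_inv_id, Category.comp_id],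
    Bin.hom_ext fun _ => IsIso.hom_inv_id _, Bin.hom_ext fun _ => IsIso.inv_hom_id _⟩

/-- The sum of the two differentials. -/
def Bin.D (P : Bin C) (n : ℕ) : P.X (n + 1) ⟶ P.X n := P.d true n + P.d false n

theorem Bin.D_eq (P : Bin C) (e : Bool) (n : ℕ) : P.D n = P.d e n + P.d (!e) n := by
  cases e
  · exact add_comm _ _
  · rfl

/-- Iterates of the sum of the two differentials. -/
def Bin.t (P : Bin C) : ∀ i j : ℕ, P.X i ⟶ P.X j
  | 0, j => if h : 0 = j then eqToHom (congrArg P.X h) else 0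
  | i + 1, j => if h : i + 1 = j then eqToHom (congrArg P.X h) else P.D i ≫ P.t i j

theorem Bin.t_self (P : Bin C) (i : ℕ) : P.t i i = 𝟙 _ := by cases i <;> simp [Bin.t]

theorem Bin.t_up (P : Bin C) {i j : ℕ} (h : j ≤ i) : P.t (i + 1) j = P.D i ≫ P.t i j := by
  rw [Bin.t, dif_neg (by omega)]

theorem Bin.t_down (P : Bin C) {i j : ℕ} (h : j < i) : P.t i j = P.t i (j + 1) ≫ P.D j := by
  induction i with
  | zero => omega
  | succ i ih =>
    rcases Nat.lt_succ_iff_lt_or_eq.1 h with k | rfl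
    · rw [P.t_up k.le, P.t_up k, ih k, Category.assoc]
    · rw [P.t_up le_rfl, P.t_self, P.t_self, Category.comp_id, Category.id_comp]

namespace Zoo

theorem adj_of_unit {A : Type*} [Category* A] {B : Type*} [Category* B] {L : A ⥤ B} {R : B ⥤ A}
    (η : 𝟭 A ⟶ L ⋙ R)
    (h : ∀ X Y, Function.Bijective fun g : L.obj X ⟶ Y => η.app X ≫ R.map g) :
    ∃ ad : L ⊣ R, ad.unit = η :=
  ⟨Adjunction.mkOfHomEquiv
    { homEquiv := fun X Y => Equiv.ofBijective _ (h X Y)
      homEquiv_naturality_left_symm := fun f g => by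
        rw [Equiv.symm_apply_eq, Equiv.ofBijective_apply, R.map_comp, ← Category.assoc]
        erw [← η.naturality f]
        rw [Category.assoc]
        exact congrArg (f ≫ ·) ((Equiv.ofBijective _ (h _ _)).apply_symm_apply g).symm
      homEquiv_naturality_right := fun f g => by
        simp only [Equiv.ofBijective_apply, R.map_comp, Category.assoc] },
    NatTrans.ext (funext fun X => by
      change η.app X ≫ R.map (𝟙 _) = _
      rw [R.map_id]
      exact Category.comp_id _)⟩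

theorem adj_of_counit {A : Type*} [Category* A] {B : Type*} [Category* B] {L : A ⥤ B} {R : B ⥤ A}
    (ε : R ⋙ L ⟶ 𝟭 B)
    (h : ∀ X Y, Function.Bijective fun g : X ⟶ R.obj Y => L.map g ≫ ε.app Y) :
    Nonempty (L ⊣ R) :=
  ⟨Adjunction.mkOfHomEquiv
    { homEquiv := fun X Y => (Equiv.ofBijective _ (h X Y)).symm
      homEquiv_naturality_left_symm := fun f g => by
        simp only [Equiv.symm_symm, Equiv.ofBijective_apply, L.map_comp, Category.assoc]
      homEquiv_naturality_right := fun f g => by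
        rw [Equiv.symm_apply_eq, Equiv.ofBijective_apply, L.map_comp, Category.assoc]
        erw [ε.naturality g]
        rw [← Category.assoc]
        exact congrArg (· ≫ g) ((Equiv.ofBijective _ (h _ _)).apply_symm_apply f).symm }⟩

variable [HasZeroObject C] [HasBinaryBiproducts C] {X Y : C}

/-- The slots form a subquotient. -/
def Ok (p q : ℕ → Prop) : Prop := ∀ n, p (n + 2) → q n → (p (n + 1) ↔ q (n + 1))

theorem beq_lt (c : Bool) (n : ℕ) : (c == Bin.lt true (n + 1)) = !(c == Bin.lt true n) := by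
  rw [Bin.lt]
  cases c <;> cases Bin.lt true n <;> rfl

variable (C) in
/-- The subquotient with the slots `p`, `q`. -/
noncomputable def Zo (p q : ℕ → Prop) (h : Ok p q) : C ⥤ Bin C where
  obj X := ⟨fun n => Z (p n) (q n) X, fun c n => dd (c == Bin.lt true n) _ _ _ _ X, fun c n => by
    rw [beq_lt]
    exact dd_sq _ (h n)⟩
  map f := Bin.homMk (fun _ => mp _ _ _ _ f) fun _ _ => mp_dd _ f
  map_id _ := Bin.hom_ext fun _ => mp_id
  map_comp f g := Bin.hom_ext fun _ => (mp_mp f g (fun a _ => a) fun a _ => a).symm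

variable {p q p' q' p'' q'' : ℕ → Prop} {h : Ok p q} {h' : Ok p' q'} {h'' : Ok p'' q''}

instance : (Zo C p q h).Additive := ⟨Bin.hom_ext fun _ => mp_add _ _⟩

variable (h h') in
/-- The identity matrix. -/
noncomputable def idn (h₁ : ∀ n, p (n + 1) → p' n → (p' (n + 1) ↔ p n))
    (h₂ : ∀ n, p (n + 1) → q' n → (p' (n + 1) ↔ q n))
    (h₃ : ∀ n, q (n + 1) → q' n → (q' (n + 1) ↔ q n)) : Zo C p q h ⟶ Zo C p' q' h' where
  app X := Bin.homMk (fun _ => mp _ _ _ _ (𝟙 X)) fun _ n => one_dd _ (h₁ n) (h₂ n) (h₃ n)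
  naturality _ _ f := Bin.hom_ext fun _ =>
    ((mp_mp f _ (fun a _ => a) fun a _ => a).trans (by simp)).trans
      (mp_mp _ f (fun _ a => a) fun _ a => a).symm

variable (h h') in
/-- From the first slot to the second. -/
noncomputable def swp (h₁ : ∀ n, p (n + 1) → q' n → ¬p n ∧ ¬q' (n + 1)) :
    Zo C p q h ⟶ Zo C p' q' h' where
  app X := Bin.homMk (fun _ => oa _ _ X ≫ ib _ _ X) fun _ n => swp_dd _ (h₁ n)
  naturality X Y f := Bin.hom_ext fun n => by
    change mp _ _ _ _ f ≫ oa _ _ Y ≫ ib _ _ Y = (oa _ _ X ≫ ib _ _ X) ≫ mp _ _ _ _ f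
    rw [← Category.assoc, mp_oa f id, Category.assoc, Category.assoc, ib_mp]

variable (h) in
/-- To the representing complexes. -/
noncomputable def prN (b : Bool) (k : ∀ n, p (n + 1) → p n ∧ q n) (k' : ∀ n, q (n + 1) → q n) :
    Zo C p q h ⟶ Bin.R C b where
  app X := Bin.homMk (fun _ => pr b _ _ X) fun c n => by
    change pr b _ _ X ≫ (if c = Bin.lt b n then 𝟙 X else 0) = _
    rw [lt_eq b n]
    exact pr_dd b c _ (k n) (k' n)
  naturality _ _ f := Bin.hom_ext fun _ => mp_pr b f id id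

theorem okM : Ok (fun _ => True) fun _ => True := fun _ _ _ => Iff.rfl

/-- From the representing complexes. -/
noncomputable def ncN (b : Bool) : Bin.R C b ⟶ Zo C _ _ okM where
  app X := Bin.homMk (fun _ => nc b _ _ X) fun c n => by
    change _ = (if c = Bin.lt b n then 𝟙 X else 0) ≫ nc b True True X
    rw [lt_eq b n]
    exact nc_dd b c _
  naturality _ _ f := Bin.hom_ext fun _ => nc_mp b f

variable (h) in
/-- The first coordinate of a term. -/
noncomputable def oaN (n : ℕ) : Zo C p q h ⋙ Bin.ev C n ⟶ 𝟭 C where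
  app X := oa (p n) (q n) X
  naturality _ _ f := mp_oa f id

variable (h) in
/-- The second coordinate of a term. -/
noncomputable def obN (n : ℕ) : Zo C p q h ⋙ Bin.ev C n ⟶ 𝟭 C where
  app X := ob (p n) (q n) X
  naturality _ _ f := mp_ob f id

variable (h) in
/-- The first slot of a term. -/
noncomputable def iaN (n : ℕ) : 𝟭 C ⟶ Zo C p q h ⋙ Bin.ev C n where
  app X := ia (p n) (q n) X
  naturality _ _ f := (ia_mp f).symm

variable (h) in
/-- The second slot of a term. -/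
noncomputable def ibN (n : ℕ) : 𝟭 C ⟶ Zo C p q h ⋙ Bin.ev C n where
  app X := ib (p n) (q n) X
  naturality _ _ f := (ib_mp f).symm

variable (h) in
theorem totN (n : ℕ) :
    oaN h n ≫ iaN h n + obN h n ≫ ibN h n = 𝟙 (Zo C p q h ⋙ Bin.ev C n) :=
  NatTrans.ext (funext fun _ => tot)

variable (h) in
/-- Additive functors commute with the construction. -/
noncomputable def cmN {C' : Type u'} [Category.{v'} C'] [Preadditive C'] [HasZeroObject C']
    [HasBinaryBiproducts C'] (F : C ⥤ C') [F.Additive] :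
    Zo C p q h ⋙ Bin.map F ≅ F ⋙ Zo C' p q h :=
  NatIso.ofComponents (fun X => @asIso _ _ _ _
    (Bin.homMk (P := (Bin.map F).obj ((Zo C p q h).obj X)) (Q := (Zo C' p q h).obj (F.obj X))
      (fun n => cm F (p n) (q n) X) fun _ _ => cm_dd F _) (Bin.isIso_of _ fun _ => isIso_cm F))
    fun f => Bin.hom_ext fun _ => mp_cm F f

theorem okL (i : ℕ) : Ok (fun j => j ≤ i) fun j => j < i := fun _ _ _ => by omega

theorem okC (i : ℕ) : Ok (fun j => i < j) fun j => i ≤ j := fun _ _ _ => by omega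

theorem okK (i : ℕ) : Ok (fun j => j = i + 1) fun j => j = i := fun _ _ _ => by omega

theorem okS (i : ℕ) : Ok (fun _ => False) fun j => j = i := fun _ a => a.elim

section
variable {P : Bin C} {a b a' b' : Prop} {W W' : C}

theorem left_step (e : Bool) (d : Bool → (W ⟶ W')) (φ : Z a b X ⟶ W) (φ' : Z a' b' X ⟶ W')
    (k : ∀ c, φ ≫ d c = dd (c == e) a b a' b' X ≫ φ') (ha : a) :
    ib a' b' X ≫ φ' = ia a b X ≫ φ ≫ d (!e) ∧
      ia a' b' X ≫ φ' = ia a b X ≫ φ ≫ (d e + d (!e)) := by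
  have k₁ := k e
  have k₂ := k (!e)
  rw [beq_self_eq_true] at k₁
  rw [show ((!e) == e) = false by cases e <;> rfl] at k₂
  rw [Preadditive.comp_add, k₁, k₂]
  simp [dd, ha]

theorem right_step (e : Bool) (d : Bool → (W ⟶ W')) (φ : W ⟶ Z a b X) (φ' : W' ⟶ Z a' b' X)
    (k : ∀ c, φ ≫ dd (c == e) a b a' b' X = d c ≫ φ') (hb : b') :
    φ ≫ oa a b X = -d e ≫ φ' ≫ ob a' b' X ∧
      φ ≫ ob a b X = (d e + d (!e)) ≫ φ' ≫ ob a' b' X := by
  have k₁ := k e
  have k₂ := k (!e)
  rw [beq_self_eq_true] at k₁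
  rw [show ((!e) == e) = false by cases e <;> rfl] at k₂
  rw [Preadditive.add_comp, ← reassoc_of% k₁, ← reassoc_of% k₂]
  simp [dd, hb]

theorem left_two (e : Bool) (d : Bool → (W ⟶ W')) {φ ψ : Z a b X ⟶ W} {φ' ψ' : Z a' b' X ⟶ W'}
    (k : ∀ c, φ ≫ d c = dd (c == e) a b a' b' X ≫ φ')
    (l : ∀ c, ψ ≫ d c = dd (c == e) a b a' b' X ≫ ψ') (ha : a)
    (h : ia a b X ≫ φ = ia a b X ≫ ψ) :
    ib a' b' X ≫ φ' = ib a' b' X ≫ ψ' ∧ ia a' b' X ≫ φ' = ia a' b' X ≫ ψ' := by
  rw [(left_step e d _ _ k ha).1, (left_step e d _ _ k ha).2, (left_step e d _ _ l ha).1,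
    (left_step e d _ _ l ha).2, reassoc_of% h, reassoc_of% h]
  exact ⟨rfl, rfl⟩

theorem right_two (e : Bool) (d : Bool → (W ⟶ W')) {φ ψ : W ⟶ Z a b X} {φ' ψ' : W' ⟶ Z a' b' X}
    (k : ∀ c, φ ≫ dd (c == e) a b a' b' X = d c ≫ φ')
    (l : ∀ c, ψ ≫ dd (c == e) a b a' b' X = d c ≫ ψ') (hb : b')
    (h : φ' ≫ ob a' b' X = ψ' ≫ ob a' b' X) :
    φ ≫ oa a b X = ψ ≫ oa a b X ∧ φ ≫ ob a b X = ψ ≫ ob a b X := by
  rw [(right_step e d _ _ k hb).1, (right_step e d _ _ k hb).2, (right_step e d _ _ l hb).1,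
    (right_step e d _ _ l hb).2, h]
  exact ⟨rfl, rfl⟩

end

theorem bij_left (i : ℕ) (X : C) (P : Bin C) : Function.Bijective
    fun g : (Zo C _ _ (okL i)).obj X ⟶ P =>
      (iaN (okL i) i).app X ≫ (Bin.ev C i).map g := by
  constructor
  · intro φ ψ e
    have A : ∀ j, j ≤ i → ia (j ≤ i) (j < i) X ≫ φ.1 j = ia (j ≤ i) (j < i) X ≫ ψ.1 j := by
      intro j hj
      induction hj using Nat.decreasingInduction with
      | self => exact e
      | of_succ j hj ih =>
        exact (left_two _ (fun c => P.d c j) (fun c => φ.2 c j) (fun c => ψ.2 c j) hj ih).2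
    exact Bin.hom_ext fun j => ext_from (A j) fun hj =>
      (left_two _ (fun c => P.d c j) (fun c => φ.2 c j) (fun c => ψ.2 c j) hj (A (j + 1) hj)).1
  · intro (f : X ⟶ P.X i)
    refine ⟨Bin.homMk (fun j => oa (j ≤ i) (j < i) X ≫ f ≫ P.t i j + ob (j ≤ i) (j < i) X ≫ f ≫
      P.t i (j + 1) ≫ P.d (!Bin.lt true j) j) fun c j => ?_, ?_⟩
    · change (oa _ _ X ≫ f ≫ P.t i (j + 1) + ob _ _ X ≫ f ≫ P.t i (j + 1 + 1) ≫
        P.d (!!Bin.lt true j) (j + 1)) ≫ P.d c j = dd (c == Bin.lt true j) (j + 1 ≤ i) (j + 1 < i)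
          (j ≤ i) (j < i) X ≫ (oa _ _ X ≫ f ≫ P.t i j + ob _ _ X ≫ f ≫ P.t i (j + 1) ≫
            P.d (!Bin.lt true j) j)
      generalize Bin.lt true j = e
      refine ext_from (fun a => ?_) fun a => ?_
      · have a' : j < i := a
        rw [P.t_down a', P.D_eq e]
        cases c <;> cases e <;> simp [dd, a, a', a'.le]
      · have a' : j < i := by omega
        rw [P.t_down a, P.D_eq e]
        cases c <;> cases e <;> simp [dd, a, a', P.sq]
    · change ia (i ≤ i) (i < i) X ≫ (oa _ _ X ≫ f ≫ P.t i i + ob _ _ X ≫ _) = f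
      simp [P.t_self]

/-- The first coordinate of the universal arrow to the quotient. -/
def Bin.al (P : Bin C) (i : ℕ) : ∀ j, P.X j ⟶ P.X i
  | 0 => 0
  | j + 1 => -P.d (Bin.lt true j) j ≫ P.t j i

theorem bij_right (i : ℕ) (P : Bin C) (X : C) : Function.Bijective
    fun g : P ⟶ (Zo C _ _ (okC i)).obj X =>
      (Bin.ev C i).map g ≫ (obN (okC i) i).app X := by
  constructor
  · intro φ ψ e
    have A : ∀ j, i ≤ j → φ.1 j ≫ ob (i < j) (i ≤ j) X = ψ.1 j ≫ ob (i < j) (i ≤ j) X := by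
      intro j hj
      induction j, hj using Nat.le_induction with
      | base => exact e
      | succ j hj ih =>
        exact (right_two _ (fun c => P.d c j) (fun c => φ.2 c j) (fun c => ψ.2 c j) hj ih).2
    refine Bin.hom_ext fun j => ext_to (fun hj => ?_) (A j)
    obtain ⟨j, rfl⟩ : ∃ k, j = k + 1 := ⟨j - 1, by omega⟩
    have hj' : i ≤ j := by omega
    exact (right_two _ (fun c => P.d c j) (fun c => φ.2 c j) (fun c => ψ.2 c j) hj' (A j hj')).1
  · intro (f : P.X i ⟶ X)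
    refine ⟨Bin.homMk (fun j => Bin.al P i j ≫ f ≫ ia (i < j) (i ≤ j) X +
      P.t j i ≫ f ≫ ib (i < j) (i ≤ j) X) fun c j => ?_, ?_⟩
    · change ((-P.d (Bin.lt true j) j ≫ P.t j i) ≫ f ≫ ia _ _ X + P.t (j + 1) i ≫ f ≫ ib _ _ X) ≫
        dd (c == Bin.lt true j) (i < j + 1) (i ≤ j + 1) (i < j) (i ≤ j) X =
          P.d c j ≫ (Bin.al P i j ≫ f ≫ ia _ _ X + P.t j i ≫ f ≫ ib _ _ X)
      refine ext_to (fun a => ?_) fun a => ?_
      · obtain ⟨j, rfl⟩ : ∃ k, j = k + 1 := ⟨j - 1, by omega⟩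
        have a' : i ≤ j := by omega
        have a'' : i < j + 1 + 1 := by omega
        rw [Bin.al, P.t_up a', P.D_eq (Bin.lt true j), Bin.lt]
        generalize Bin.lt true j = e
        cases c <;> cases e <;> simp [dd, a, a'', reassoc_of% P.sq]
      · have a' : i < j + 1 := by omega
        rw [P.t_up a, P.D_eq (Bin.lt true j)]
        generalize Bin.lt true j = e
        cases c <;> cases e <;> simp [dd, a, a', a'.le]
    · change (_ ≫ f ≫ ia _ _ X + P.t i i ≫ f ≫ ib _ _ X) ≫ ob (i < i) (i ≤ i) X = f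
      simp [P.t_self]

end Zoo

end Pool.Agent.Lib.MP_5d3e93_al.Gr
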