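import Pool.Agent.Lib.MP_5d3e93_al.Gr.Nat
import Pool.Agent.Lib.MP_5d3e93_al.Gr.Exa
import Pool.Agent.Lib.MP_5d3e93_al.Gr.ZooB

/-! The derived category of binary complexes has the structure `Bs`, functorially. -/

open CategoryTheory Limits Pretriangulated ZeroObject

namespace Pool.Agent.Lib.MP_5d3e93_al.Gr

universe v u v' u' v'' u'' v₁ u₁

namespace Am

open Zoo

variable {a : Am.{v, u}} {b : Am.{v', u'}} {c : Am.{v'', u''}} {d : Am.{v₁, u₁}}

theorem Tb_of_sum (F : a.A ⥤ a.A) [F.Additive] (o₁ o₂ : F ⟶ 𝟭 _) (i₁ i₂ : 𝟭 _ ⟶ F)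
    (h : o₁ ≫ i₁ + o₂ ≫ i₂ = 𝟙 F) (X : Kh a.A) (hX : a.Tb X) :
    a.Tb ((F.mapHomotopyCategory _).obj X) := by
  obtain ⟨K, rfl⟩ := HomotopyCategory.quotient_obj_surjective X
  have z : IsZero (a.QQ.obj (((𝟭 a.A).mapHomologicalComplex _).obj K)) := hX
  have e : (NatTrans.mapHomologicalComplex o₁ (ComplexShape.up ℤ)).app K ≫
      (NatTrans.mapHomologicalComplex i₁ _).app K + (NatTrans.mapHomologicalComplex o₂ _).app K ≫
        (NatTrans.mapHomologicalComplex i₂ _).app K = 𝟙 _ := by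
    ext n
    exact NatTrans.congr_app h (K.X n)
  change IsZero (a.QQ.obj ((F.mapHomologicalComplex _).obj K))
  rw [IsZero.iff_id_eq_zero, ← a.QQ.map_id, ← e, a.QQ.map_add, a.QQ.map_comp, a.QQ.map_comp,
    z.eq_of_src (a.QQ.map _) 0, z.eq_of_src (a.QQ.map _) 0, comp_zero, comp_zero, add_zero]

variable (a) in
/-- The subquotients as maps of ambient categories. -/
noncomputable def zo {p q : ℕ → Prop} (h : Ok p q) : Map a a.B where
  F := Zo a.A p q h
  add := inferInstanceAs (Zo a.A p q h).Additive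
  hT X k := a.B.le_Tb _ fun j =>
    @Tb_of_sum a (Zo a.A p q h ⋙ Bin.ev a.A j) _ _ _ _ _ (totN h j) X (a.le_Tb X k)

theorem Map.nat_app_comp (f g h : Map a b) (α : f.F ⟶ g.F) (β : g.F ⟶ h.F) (γ : f.F ⟶ h.F)
    (e : α ≫ β = γ) (X : a.D) : (f.nat g α).app X ≫ (g.nat h β).app X = (f.nat h γ).app X := by
  rw [← e, Map.nat_comp f g h, NatTrans.comp_app]

theorem Map.isIso_nat (f g : Map a b) (α : f.F ⟶ g.F) (h : ∀ X, IsIso (α.app X)) (X : a.D) :
    IsIso ((f.nat g α).app X) :=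
  have := NatIso.isIso_of_isIso_app α
  ((f.natIso g (asIso α)).app X).isIso_hom

theorem zo_tri {f₁ f f₂ : Map a a.B} {α : f₁.F ⟶ f.F} {β : f.F ⟶ f₂.F} (h : α ≫ β = 0)
    (k : ∀ j X, ∃ r s, (α.app X).1 j ≫ r = 𝟙 _ ∧ s ≫ (β.app X).1 j = 𝟙 _ ∧
      r ≫ (α.app X).1 j + (β.app X).1 j ≫ s = 𝟙 _) (X : a.D) :
    ∃ δ, Triangle.mk ((f₁.nat f α).app X) ((f.nat f₂ β).app X) δ ∈ distTriang a.B.D :=
  Ses.tri (ses_of_reflect (h := h) a.ev (fun X h => a.B.le_Tb X h) k ⊤) trivial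

variable (a) in
theorem exists_adjL (i : ℕ) : ∃ ad : (a.zo (okL i)).D ⊣ (a.ev i).D, ∀ X, ad.unit.app X =
    (a.idm.nat ((a.zo (okL i)).comp (a.ev i)) (iaN (okL i) i)).app X := by
  obtain ⟨ad, h⟩ := adj_of_unit _ (bij_left (C := a.A) i)
  obtain ⟨ad', h', -⟩ := Map.exists_adj (a.zo (okL i)) (a.ev i) ad
  exact ⟨ad', fun X => by rw [h' X, h]⟩

variable (a) in
theorem exists_adjC (i : ℕ) : Nonempty ((a.ev i).D ⊣ (a.zo (okC i)).D) := by
  obtain ⟨ad⟩ := adj_of_counit _ (bij_right (C := a.A) i)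
  exact ⟨(Map.exists_adj (a.ev i) (a.zo (okC i)) ad).choose⟩

variable (a) in
/-- The comparison with the representing complexes. -/
noncomputable def ιL (i : ℕ) (e : Bool) : (a.zo (okL i)).F ⟶ (a.R e).F :=
  prN (okL i) e (fun _ _ => by omega) fun _ _ => by omega

theorem tri_mid {D : Type*} [Category* D] [HasZeroObject D] [HasShift D ℤ] [Preadditive D]
    [∀ n : ℤ, (shiftFunctor D n).Additive] [Pretriangulated D] {X Y Y' W : D} {f : X ⟶ Y}
    {g : Y ⟶ W} {δ : W ⟶ X⟦(1 : ℤ)⟧} (h : Triangle.mk f g δ ∈ distTriang D) (e : Y ⟶ Y') [IsIso e]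
    (f' : X ⟶ Y') (k : f ≫ e = f') : Triangle.mk f' (inv e ≫ g) δ ∈ distTriang D :=
  isomorphic_distinguished _ h _ (Triangle.isoMk _ _ (Iso.refl _) (asIso e).symm (Iso.refl _)
    (show f' ≫ inv e = 𝟙 X ≫ f by simp [← k]) (show (inv e ≫ g) ≫ 𝟙 W = inv e ≫ g by simp)
    (show δ ≫ (𝟙 X)⟦(1 : ℤ)⟧' = 𝟙 W ≫ δ by simp))

variable (a) in
theorem bs_co (i : ℕ) (X : a.D) : ∃ (Z : a.B.D)
    (g : (a.R true).D.obj X ⊞ (a.R false).D.obj X ⟶ Z) (h : Z ⟶ _),
    Triangle.mk (biprod.lift (((a.zo (okL i)).nat (a.R true) (a.ιL i true)).app X)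
      (((a.zo (okL i)).nat (a.R false) (a.ιL i false)).app X)) g h ∈ distTriang a.B.D ∧
      ∀ M, IsZero ((a.ev i).D.obj M) → ∀ φ : M ⟶ Z, φ = 0 := by
  let α : (a.zo (okL i)).F ⟶ (a.zo okM).F := idn (okL i) okM
    (fun _ _ _ => by simp only [true_iff]; omega) (fun _ _ _ => by simp only [true_iff]; omega)
      fun _ _ _ => by simp only [true_iff]; omega
  let β : (a.zo okM).F ⟶ (a.zo (okC i)).F := idn okM (okC i)
    (fun _ _ _ => by simp only [iff_true]; omega) (fun _ _ _ => by simp only [iff_true]; omega)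
      fun _ _ _ => by simp only [iff_true]; omega
  let π : ∀ e, (a.zo okM).F ⟶ (a.R e).F := fun e =>
    prN okM e (fun _ _ => ⟨trivial, trivial⟩) fun _ _ => trivial
  obtain ⟨δ, hδ⟩ := zo_tri (α := α) (β := β) (NatTrans.ext (funext fun Y => Bin.hom_ext fun n =>
    mp_mp_zero _ _ (by omega) (by omega)))
    (fun j Y => split (by simp only [true_iff]; omega) (by omega)
      (by simp only [true_iff]; omega) (by omega)) X
  have := Map.biprod (a.zo okM) (a.R true) (a.R false) (π true) (π false) (ncN true) (ncN false)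
    (NatTrans.ext (funext fun Y => Bin.hom_ext fun n => nc_pr true))
    (NatTrans.ext (funext fun Y => Bin.hom_ext fun n => nc_pr false))
    (NatTrans.ext (funext fun Y => Bin.hom_ext fun n => pr_nc)) X
  have k : ∀ e, ((a.zo (okL i)).nat (a.zo okM) α).app X ≫ ((a.zo okM).nat (a.R e) (π e)).app X =
      ((a.zo (okL i)).nat (a.R e) (a.ιL i e)).app X := fun e =>
    Map.nat_app_comp _ _ _ _ _ _ (NatTrans.ext (funext fun Y => Bin.hom_ext fun n =>
      (mp_pr e _ (fun _ => trivial) fun _ => trivial).trans (Category.comp_id _))) X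
  refine ⟨_, _, δ, @tri_mid _ _ _ _ _ _ _ _ _ _ _ _ _ _ hδ _ this _ ?_, fun M hM φ => ?_⟩
  · ext
    · simp [k]
    · simp [k]
  · obtain ⟨ad⟩ := a.exists_adjC i
    exact (ad.homEquiv _ _).symm.injective (hM.eq_of_src _ _)

variable (a) in
theorem bs_up (X : a.D) : ∃ (j : ∀ i, (a.zo (okL i)).D.obj X ⟶ (a.zo (okL (i + 1))).D.obj X)
    (k c : ℕ → a.B.D),
    (∀ i e, j i ≫ ((a.zo (okL (i + 1))).nat (a.R e) (a.ιL (i + 1) e)).app X =
      ((a.zo (okL i)).nat (a.R e) (a.ιL i e)).app X) ∧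
    Nonempty (c 0 ≅ (a.zo (okL 0)).D.obj X) ∧
    (∀ i, ∃ (g : _ ⟶ k i) (h : k i ⟶ _), Triangle.mk (j i) g h ∈ distTriang a.B.D) ∧
    (∀ i, ∃ (f : c i ⟶ k i) (g : k i ⟶ c (i + 1)) (h : c (i + 1) ⟶ _),
      Triangle.mk f g h ∈ distTriang a.B.D) ∧
    ∀ i n, n < i → IsZero ((a.ev n).D.obj (c i)) := by
  let α : ∀ i, (a.zo (okL i)).F ⟶ (a.zo (okL (i + 1))).F := fun i =>
    idn (okL i) (okL (i + 1)) (fun _ _ _ => by omega) (fun _ _ _ => by omega) fun _ _ _ => by omega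
  let β : ∀ i, (a.zo (okL (i + 1))).F ⟶ (a.zo (okK i)).F := fun i =>
    idn (okL (i + 1)) (okK i) (fun _ _ _ => by omega) (fun _ _ _ => by omega) fun _ _ _ => by omega
  let γ : ∀ i, (a.zo (okS i)).F ⟶ (a.zo (okK i)).F := fun i =>
    idn (okS i) (okK i) (fun _ x => x.elim) (fun _ x => x.elim) fun _ _ _ => by omega
  let ε : ∀ i, (a.zo (okK i)).F ⟶ (a.zo (okS (i + 1))).F := fun i =>
    swp (okK i) (okS (i + 1)) fun _ _ _ => by omega
  let ζ : (a.zo (okL 0)).F ⟶ (a.zo (okS 0)).F := swp (okL 0) (okS 0) fun _ _ _ => by omega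
  refine ⟨fun i => ((a.zo (okL i)).nat _ (α i)).app X, fun i => (a.zo (okK i)).D.obj X,
    fun i => (a.zo (okS i)).D.obj X, fun i e => ?_, ?_, fun i => ?_, fun i => ?_, fun i n h => ?_⟩
  · exact Map.nat_app_comp _ _ _ _ _ _ (NatTrans.ext (funext fun Y => Bin.hom_ext fun n =>
      (mp_pr e _ (by omega) (by omega)).trans (Category.comp_id _))) X
  · have := Map.isIso_nat _ _ ζ (fun Y => Bin.isIso_of _ fun n => by
      rcases n with _ | n
      · exact isIso_swp le_rfl (lt_irrefl _) not_false rfl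
      · exact (isZero_Z (by omega) (by omega)).isIso (isZero_Z not_false (by omega)) _) X
    exact ⟨(asIso (((a.zo (okL 0)).nat _ ζ).app X)).symm⟩
  · exact ⟨_, zo_tri (α := α i) (β := β i) (NatTrans.ext (funext fun Y => Bin.hom_ext fun n =>
      mp_mp_zero _ _ (by omega) (by omega)))
      (fun j Y => split (by omega) (by omega) (by omega) (by omega)) X⟩
  · exact ⟨_, _, zo_tri (α := γ i) (β := ε i)
      (NatTrans.ext (funext fun Y => Bin.hom_ext fun n => mp_swp)) (fun j Y => split') X⟩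
  · exact ((a.zo (okS i)).comp (a.ev n)).isZero (fun Y => isZero_Z not_false h.ne) X

/-- The structure of the derived category of binary complexes. -/
noncomputable def bs (a : Am.{v, u}) : Bs (fun j => (a.ev j).D) (fun b => (a.R b).D) where
  L i := (a.zo (okL i)).D
  adj i := (a.exists_adjL i).choose
  ι i e := (a.zo (okL i)).nat (a.R e) (a.ιL i e)
  cons M h := by
    obtain ⟨K, rfl⟩ := a.B.exists_cx M
    exact a.B.le_Tb _ h
  unit i X := by
    rw [(a.exists_adjL i).choose_spec X]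
    exact Map.isIso_nat _ _ _ (fun _ => isIso_ia le_rfl (lt_irrefl _)) X
  high i j X h := ((a.zo (okL i)).comp (a.ev j)).isZero
    (fun _ => isZero_Z (not_le.2 h) (not_lt.2 h.le)) X
  low i j X h :=
    have := Map.biprod ((a.zo (okL i)).comp (a.ev j)) a.idm a.idm (oaN (okL i) j)
      (obN (okL i) j) (iaN (okL i) j) (ibN (okL i) j)
      (NatTrans.ext (funext fun _ => ia_oa.trans (if_pos h.le)))
      (NatTrans.ext (funext fun _ => ib_ob.trans (if_pos h))) (totN _ j) X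
    ⟨@asIso _ _ _ _ _ this⟩
  evι i e X := (Map.map_nat _ _ (a.ev i) (a.ιL i e) X).symm ▸
    Map.isIso_nat _ _ _ (fun _ => isIso_pr e le_rfl (lt_irrefl _)) X
  co := a.bs_co
  up := a.bs_up

theorem comp_congr {C : Type*} [Category* C] {X Y W : C} {f f' : X ⟶ Y} {g g' : Y ⟶ W}
    (h : f = f') (k : g = g') : f ≫ g = f' ≫ g' := by rw [h, k]

/-- A square of additive functors gives a square of derived functors. -/
noncomputable def Map.sq (f : Map a b) (g : Map b d) (f' : Map a c) (g' : Map c d)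
    (e : f.F ⋙ g.F ≅ f'.F ⋙ g'.F) : f.D ⋙ g.D ≅ f'.D ⋙ g'.D :=
  (f.compD g).symm ≪≫ (f.comp g).natIso (f'.comp g') e ≪≫ f'.compD g'

theorem Map.sq_hom (f : Map a b) (g : Map b d) (f' : Map a c) (g' : Map c d)
    (e : f.F ⋙ g.F ≅ f'.F ⋙ g'.F) (X : a.D) :
    (f.sq g f' g' e).hom.app X = ((f.comp g).nat (f'.comp g') e.hom).app X :=
  (Category.id_comp _).trans (Category.comp_id _)

theorem Map.sq_inv (f : Map a b) (g : Map b d) (f' : Map a c) (g' : Map c d)
    (e : f.F ⋙ g.F ≅ f'.F ⋙ g'.F) (X : a.D) :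
    (f.sq g f' g' e).inv.app X = ((f'.comp g').nat (f.comp g) e.inv).app X :=
  (Category.comp_id _).trans (Category.id_comp _)

theorem Map.sq_shift (f : Map a b) (g : Map b d) (f' : Map a c) (g' : Map c d)
    (e : f.F ⋙ g.F ≅ f'.F ⋙ g'.F) : NatTrans.CommShift (f.sq g f' g' e).hom ℤ :=
  have _ : NatTrans.CommShift (f.compD g).inv ℤ := NatTrans.CommShift.of_iso_inv _ _
  have _ : NatTrans.CommShift ((f.comp g).nat (f'.comp g') e.hom) ℤ :=
    inferInstanceAs (NatTrans.CommShift ((f.comp g).nat (f'.comp g')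
      (show (f.comp g).F ⟶ (f'.comp g').F from e.hom)) ℤ)
  have _ : NatTrans.CommShift ((f.comp g).nat (f'.comp g') e.hom ≫ (f'.compD g').hom) ℤ :=
    NatTrans.CommShift.comp ..
  NatTrans.CommShift.comp (f.compD g).inv
    ((f.comp g).nat (f'.comp g') e.hom ≫ (f'.compD g').hom) ℤ

/-- The representing complexes commute with additive functors. -/
noncomputable def Map.rIso (f : Map a b) (e : Bool) :
    (a.R e).F ⋙ f.B.F ≅ f.F ⋙ (b.R e).F :=
  NatIso.ofComponents (fun X => @asIso _ _ _ _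
    (Bin.homMk (P := (Bin.map f.F).obj ((Bin.R a.A e).obj X)) (Q := (Bin.R b.A e).obj (f.F.obj X))
      (fun _ => 𝟙 (f.F.obj X)) fun c n => by
        change 𝟙 (f.F.obj X) ≫ (if c = Bin.lt e n then 𝟙 (f.F.obj X) else 0) =
          f.F.map (if c = Bin.lt e n then 𝟙 X else 0) ≫ 𝟙 (f.F.obj X)
        split_ifs <;> simp)
    (Bin.isIso_of _ fun _ => IsIso.id (f.F.obj X)))
    fun _ => Bin.hom_ext fun _ => (Category.comp_id _).trans (Category.id_comp _).symm

/-- The structures are compatible with the degreewise extension of a map. -/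
noncomputable def Map.bm (f : Map a b) : Bm a.bs b.bs f.D f.B.D where
  eE i := f.B.sq (b.ev i) (a.ev i) f (Iso.refl _)
  eL i := (a.zo (okL i)).sq f.B f (b.zo (okL i)) (cmN (okL i) f.F)
  eR e := (a.R e).sq f.B f (b.R e) (f.rIso e)
  csR e := Map.sq_shift ..
  hη i X :=
    (comp_congr ((congrArg f.D.map ((a.exists_adjL i).choose_spec X)).trans
      (Map.map_nat a.idm ((a.zo (okL i)).comp (a.ev i)) f _ X))
      (comp_congr ((Map.sq_inv f.B (b.ev i) (a.ev i) f _ _).trans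
        (Map.nat_obj (a.zo (okL i)) ((a.ev i).comp f) (f.B.comp (b.ev i)) _ X))
        ((congrArg (b.ev i).D.map (Map.sq_hom (a.zo (okL i)) f.B f (b.zo (okL i)) _ X)).trans
          (Map.map_nat _ _ (b.ev i) _ X)))).trans
      ((comp_congr rfl (Map.nat_app_comp _ _ _ _ _ _ rfl X)).trans
        ((Map.nat_app_comp _ _ _ _ _ _ (by
          exact NatTrans.ext (funext fun _ =>
            (comp_congr rfl (Category.id_comp _)).trans (ia_cm f.F))) X).trans
          (((b.exists_adjL i).choose_spec _).trans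
            (Map.nat_obj f b.idm ((b.zo (okL i)).comp (b.ev i)) _ X)).symm))
  hι i e X :=
    (comp_congr (Map.map_nat _ _ f.B (a.ιL i e) X)
      (Map.sq_hom (a.R e) f.B f (b.R e) _ X)).trans
      ((Map.nat_app_comp _ _ _ _ _ _ rfl X).trans ((comp_congr
        (Map.sq_hom (a.zo (okL i)) f.B f (b.zo (okL i)) _ X)
        (Map.nat_obj f _ _ (b.ιL i e) X)).trans (Map.nat_app_comp _ _ _ _ _ _
          (NatTrans.ext (funext fun _ => Bin.hom_ext fun _ =>
            (cm_pr f.F e).trans (Category.comp_id _).symm)) X)).symm)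

end Am

end Pool.Agent.Lib.MP_5d3e93_al.Gr
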