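import Pool.Agent.Lib.MP_5d3e93_al.Gr.K0

/-! Fully faithful functors on generators, and first facts on localisations. -/

open CategoryTheory Limits Pretriangulated ZeroObject

namespace Pool.Agent.Lib.MP_5d3e93_al.Gr

variable {D : Type*} [Category* D] [HasZeroObject D] [HasShift D ℤ] [Preadditive D]
  [∀ n : ℤ, (shiftFunctor D n).Additive] [Pretriangulated D]
variable {D' : Type*} [Category* D'] [HasZeroObject D'] [HasShift D' ℤ] [Preadditive D']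
  [∀ n : ℤ, (shiftFunctor D' n).Additive] [Pretriangulated D']
variable {E : Type*} [Category* E] [HasZeroObject E] [HasShift E ℤ] [Preadditive E]
  [∀ n : ℤ, (shiftFunctor E n).Additive] [Pretriangulated E]

section plain

variable {C C' : Type*} [Category* C] [Category* C'] {F : C ⥤ C'}

theorem lc_iso {X X' Y Y' : C} (e : X ≅ X') (e' : Y ≅ Y')
    (h : Function.Bijective (F.map : (X ⟶ Y) → _)) :
    Function.Bijective (F.map : (X' ⟶ Y') → _) := by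
  have : (F.map : (X' ⟶ Y') → _) = ((F.mapIso e).homCongr (F.mapIso e')) ∘ F.map ∘
      (e.homCongr e').symm := funext fun f => by
    simp only [Function.comp, Iso.homCongr_apply, Iso.homCongr_symm, Functor.mapIso_hom,
      Functor.mapIso_inv, ← F.map_comp]
    simp
  rw [this]
  exact (Equiv.bijective _).comp (h.comp (Equiv.bijective _))

theorem lc_shift [HasShift C ℤ] [HasShift C' ℤ] [F.CommShift ℤ] {X Y : C} (n : ℤ)
    (h : Function.Bijective (F.map : (X ⟶ Y) → _)) :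
    Function.Bijective (F.map : (X⟦n⟧ ⟶ Y⟦n⟧) → _) := by
  refine (Function.Bijective.of_comp_iff _ ((Functor.FullyFaithful.ofFullyFaithful (shiftFunctor C n)).map_bijective X Y)).1 ?_
  have : (F.map : (X⟦n⟧ ⟶ Y⟦n⟧) → _) ∘ (shiftFunctor C n).map =
      (((F.commShiftIso n).app X).symm.homCongr ((F.commShiftIso n).app Y).symm) ∘
        (shiftFunctor C' n).map ∘ F.map := funext fun f => by simp
  rw [this]
  exact (Equiv.bijective _).comp 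
    (((Functor.FullyFaithful.ofFullyFaithful (shiftFunctor C' n)).map_bijective _ _).comp h)

end plain

variable {F : D ⥤ D'} [F.CommShift ℤ] [F.IsTriangulated] {N S G G' : ObjectProperty D}
  {S' : ObjectProperty D'}

theorem lc_zero {X Y : D} (h : IsZero X ∨ IsZero Y) :
    Function.Bijective (F.map : (X ⟶ Y) → _) := by
  rcases h with h | h
  · exact ⟨fun _ _ _ => h.eq_of_src _ _, fun _ => ⟨0, (F.map_isZero h).eq_of_src _ _⟩⟩
  · exact ⟨fun _ _ _ => h.eq_of_tgt _ _, fun _ => ⟨0, (F.map_isZero h).eq_of_tgt _ _⟩⟩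

theorem lc_inj {X Y : D} : Function.Injective (F.map : (X ⟶ Y) → _) ↔
    ∀ f : X ⟶ Y, F.map f = 0 → f = 0 := injective_iff_map_eq_zero F.mapAddHom

/-- Two consecutive maps of a distinguished triangle. -/
def Lc {A B C : D} (f : A ⟶ B) (g : B ⟶ C) : Prop := ∃ k, Triangle.mk f g k ∈ distTriang D

section five

variable {A₀ A₁ A₂ A₃ A₄ X : D} {a : A₀ ⟶ A₁} {b : A₁ ⟶ A₂} {c : A₂ ⟶ A₃} {d : A₃ ⟶ A₄}

theorem Lc.zero (h : Lc a b) : a ≫ b = 0 := comp_distTriang_mor_zero₁₂ _ h.choose_spec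

theorem Lc.yon (h : Lc a b) (u : A₁ ⟶ X) (e : a ≫ u = 0) : ∃ v : A₂ ⟶ X, u = b ≫ v :=
  Triangle.yoneda_exact₂ _ h.choose_spec u e

theorem Lc.coyon (h : Lc a b) (u : X ⟶ A₁) (e : u ≫ b = 0) : ∃ v : X ⟶ A₀, u = v ≫ a :=
  Triangle.coyoneda_exact₂ _ h.choose_spec u e

theorem Lc.map (h : Lc a b) (F : D ⥤ D') [F.CommShift ℤ] [F.IsTriangulated] :
    Lc (F.map a) (F.map b) := ⟨_, F.map_distinguished _ h.choose_spec⟩

theorem Lc.five (k₁ : Lc a b) (k₂ : Lc b c) (k₃ : Lc c d)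
    (h₀ : Function.Bijective (F.map : (A₀ ⟶ X) → _))
    (h₁ : Function.Bijective (F.map : (A₁ ⟶ X) → _))
    (h₃ : Function.Bijective (F.map : (A₃ ⟶ X) → _))
    (h₄ : Function.Bijective (F.map : (A₄ ⟶ X) → _)) :
    Function.Bijective (F.map : (A₂ ⟶ X) → _) := by
  refine ⟨lc_inj.2 fun f hf => ?_, fun φ => ?_⟩
  · obtain ⟨g, rfl⟩ := k₂.yon f (lc_inj.1 h₁.1 _ (by rw [F.map_comp, hf, comp_zero]))
    obtain ⟨ψ, e⟩ := (k₃.map F).yon (F.map g) (by rw [← F.map_comp, hf])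
    obtain ⟨k, rfl⟩ := h₄.2 ψ
    rw [h₃.1 (e.trans (F.map_comp d k).symm), ← Category.assoc, k₃.zero, zero_comp]
  · obtain ⟨u, hu⟩ := h₁.2 (F.map b ≫ φ)
    obtain ⟨v, rfl⟩ := k₁.yon u (lc_inj.1 h₀.1 _ (by
      rw [F.map_comp, hu, ← Category.assoc, (k₁.map F).zero, zero_comp]))
    obtain ⟨ψ, e⟩ := (k₂.map F).yon (φ - F.map v) (by
      rw [Preadditive.comp_sub, ← hu, F.map_comp, sub_self])
    obtain ⟨w, rfl⟩ := h₃.2 ψ
    exact ⟨c ≫ w + v, by rw [F.map_add, F.map_comp, ← e, sub_add_cancel]⟩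

theorem Lc.five' (k₁ : Lc a b) (k₂ : Lc b c) (k₃ : Lc c d)
    (h₀ : Function.Bijective (F.map : (X ⟶ A₀) → _))
    (h₁ : Function.Bijective (F.map : (X ⟶ A₁) → _))
    (h₃ : Function.Bijective (F.map : (X ⟶ A₃) → _))
    (h₄ : Function.Bijective (F.map : (X ⟶ A₄) → _)) :
    Function.Bijective (F.map : (X ⟶ A₂) → _) := by
  refine ⟨lc_inj.2 fun f hf => ?_, fun φ => ?_⟩
  · obtain ⟨g, rfl⟩ := k₂.coyon f (lc_inj.1 h₃.1 _ (by rw [F.map_comp, hf, zero_comp]))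
    obtain ⟨ψ, e⟩ := (k₁.map F).coyon (F.map g) (by rw [← F.map_comp, hf])
    obtain ⟨k, rfl⟩ := h₀.2 ψ
    rw [h₁.1 (e.trans (F.map_comp k a).symm), Category.assoc, k₁.zero, comp_zero]
  · obtain ⟨u, hu⟩ := h₃.2 (φ ≫ F.map c)
    obtain ⟨v, rfl⟩ := k₃.coyon u (lc_inj.1 h₄.1 _ (by
      rw [F.map_comp, hu, Category.assoc, (k₃.map F).zero, comp_zero]))
    obtain ⟨ψ, e⟩ := (k₂.map F).coyon (φ - F.map v) (by
      rw [Preadditive.sub_comp, ← hu, F.map_comp, sub_self])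
    obtain ⟨w, rfl⟩ := h₁.2 ψ
    exact ⟨w ≫ b + v, by rw [F.map_add, F.map_comp, ← e, sub_add_cancel]⟩

end five

/-- Five lemma in the first variable. -/
theorem lc_five {T : Triangle D} (hT : T ∈ distTriang D) {Y : D}
    (h₀ : Function.Bijective (F.map : (T.obj₃⟦(-1 : ℤ)⟧ ⟶ Y) → _))
    (h₁ : Function.Bijective (F.map : (T.obj₁ ⟶ Y) → _))
    (h₃ : Function.Bijective (F.map : (T.obj₃ ⟶ Y) → _))
    (h₄ : Function.Bijective (F.map : (T.obj₁⟦(1 : ℤ)⟧ ⟶ Y) → _)) :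
    Function.Bijective (F.map : (T.obj₂ ⟶ Y) → _) :=
  Lc.five ⟨_, inv_rot_of_distTriang T hT⟩ ⟨_, hT⟩ ⟨_, rot_of_distTriang T hT⟩ h₀ h₁ h₃ h₄

/-- Five lemma in the second variable. -/
theorem lc_five' {T : Triangle D} (hT : T ∈ distTriang D) {X : D}
    (h₀ : Function.Bijective (F.map : (X ⟶ T.obj₃⟦(-1 : ℤ)⟧) → _))
    (h₁ : Function.Bijective (F.map : (X ⟶ T.obj₁) → _))
    (h₃ : Function.Bijective (F.map : (X ⟶ T.obj₃) → _))
    (h₄ : Function.Bijective (F.map : (X ⟶ T.obj₁⟦(1 : ℤ)⟧) → _)) :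
    Function.Bijective (F.map : (X ⟶ T.obj₂) → _) :=
  Lc.five' ⟨_, inv_rot_of_distTriang T hT⟩ ⟨_, hT⟩ ⟨_, rot_of_distTriang T hT⟩ h₀ h₁ h₃ h₄

theorem isIso_of_kill [Tg N] (kill : ∀ X, N X → IsZero (F.obj X)) {X Y : D} {s : X ⟶ Y}
    (h : N.trW s) : IsIso (F.map s) := by
  obtain ⟨Z, g, k, hT, hZ⟩ := h
  exact (Triangle.isZero₃_iff_isIso₁ _ (F.map_distinguished _ hT)).1 (kill Z hZ)

theorem Tg.of_trW [Tg N] [Tg S] (le : N ≤ S) {X Y : D} {s : X ⟶ Y} (h : N.trW s) : S X ↔ S Y := by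
  obtain ⟨Z, g, k, hT, hZ⟩ := h
  exact ⟨fun a => S.ext_of_isTriangulatedClosed₂ _ hT a (le _ hZ),
    fun a => S.ext_of_isTriangulatedClosed₁ _ hT a (le _ hZ)⟩

theorem ff_of_gen [Tg S] (hS : S ≤ Cl G)
    (h : ∀ X Y, G X → S Y → Function.Bijective (F.map : (X ⟶ Y) → _)) : FF F S := by
  let P : ObjectProperty D := fun X => ∀ Y, S Y → Function.Bijective (F.map : (X ⟶ Y) → _)
  have sh : ∀ (n : ℤ) X, P X → P (X⟦n⟧) := fun n X a Y b =>
    lc_iso (Iso.refl _) ((shiftEquiv D n).counitIso.app Y) (lc_shift n (a _ (S.le_shift (-n) _ b)))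
  have : Tg P := Tg.mk' (fun _ a _ _ => lc_zero (.inl a)) sh fun T k a b Y c =>
    lc_five k (sh _ _ b Y c) (a Y c) (b Y c) (sh _ _ a Y c)
  exact fun X Y a b => Cl.le (S := P) (fun X a Y b => h X Y a b) X (hS X a) Y b

theorem ff_of_gen₂ (h : ∀ (n : ℤ) X Y, G X → G Y → Function.Bijective (F.map : (X ⟶ Y⟦n⟧) → _)) :
    FF F (Cl G) := by
  let P : ObjectProperty D := fun Y => ∀ (n : ℤ) X, G X →
    Function.Bijective (F.map : (X ⟶ Y⟦n⟧) → _)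
  have sh : ∀ Y, P Y → ∀ (m n : ℤ) X, G X → Function.Bijective (F.map : (X ⟶ Y⟦m⟧⟦n⟧) → _) :=
    fun Y a m n X b => lc_iso (Iso.refl _) ((shiftFunctorAdd D m n).app Y) (a _ X b)
  have : Tg P := Tg.mk' (fun _ a n _ _ => lc_zero (.inr ((shiftFunctor D n).map_isZero a)))
    (fun m Y a n => sh Y a m n) fun T k a b n X c =>
      lc_five' (Triangle.shift_distinguished T k n) (sh _ b n _ X c) (a n X c) (b n X c)
        (sh _ a n _ X c)
  exact ff_of_gen le_rfl fun X Y a b => lc_iso (Iso.refl _) ((shiftFunctorZero D ℤ).app Y)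
    (Cl.le (S := P) (fun Y b n X a => h n X Y a b) Y b 0 X a)

theorem FF.tg_map [Tg S] (h : FF F S) : Tg (S.map F) := by
  refine Tg.mk' (fun X a => ⟨0, Tg.zero S (isZero_zero D),
    ⟨(F.map_isZero (isZero_zero D)).iso a⟩⟩) ?_ ?_
  · rintro n _ ⟨X, a, ⟨e⟩⟩
    exact ⟨_, S.le_shift n _ a, ⟨(F.commShiftIso n).app X ≪≫ (shiftFunctor D' n).mapIso e⟩⟩
  · rintro T k ⟨A, a, ⟨e⟩⟩ ⟨C, c, ⟨e'⟩⟩
    obtain ⟨m, hm⟩ := (h c (S.le_shift 1 _ a)).2
      (e'.hom ≫ T.mor₃ ≫ e.inv⟦(1 : ℤ)⟧' ≫ (F.commShiftIso (1 : ℤ)).inv.app A)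
    obtain ⟨B, f, g, k'⟩ := distinguished_cocone_triangle₂ m
    have k₁ := F.map_distinguished _ k'
    have w : (F.mapTriangle.obj (Triangle.mk f g m)).mor₃ ≫ e.hom⟦(1 : ℤ)⟧' = e'.hom ≫ T.mor₃ := by
      change (F.map m ≫ (F.commShiftIso (1 : ℤ)).hom.app A) ≫ e.hom⟦(1 : ℤ)⟧' = e'.hom ≫ T.mor₃
      simp [hm, ← Functor.map_comp]
    obtain ⟨b, h1, h2⟩ := complete_distinguished_triangle_morphism₂ _ _ k₁ k e.hom e'.hom w
    have := isIso₂_of_isIso₁₃ (Triangle.homMk (F.mapTriangle.obj (Triangle.mk f g m)) T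
      e.hom b e'.hom h1 h2 w) k₁ k e.isIso_hom e'.isIso_hom
    exact ⟨B, S.ext_of_isTriangulatedClosed₂ _ k' a c, ⟨@asIso _ _ _ _ b this⟩⟩

theorem FF.deq (h : FF F (Cl G)) : Deq F (Cl G) (Cl (G.map F)) :=
  have := h.tg_map
  ⟨h, Cl.le fun _ a => Cl.of (G.prop_map_obj F a),
    Cl.le (S := (Cl G).map F) (ObjectProperty.map_monotone (fun _ => Cl.of) F)⟩

theorem Deq.comp {H : D' ⥤ E} {S'' : ObjectProperty E} (h : Deq F S S') (k : Deq H S' S'') :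
    Deq (F ⋙ H) S S'' :=
  ⟨fun _ _ a b => (k.ff (h.maps _ a) (h.maps _ b)).comp (h.ff a b),
    fun _ a => k.maps _ (h.maps _ a), fun Z c => by
      obtain ⟨Y, b, ⟨e⟩⟩ := k.surj Z c
      obtain ⟨X, a, ⟨e'⟩⟩ := h.surj Y b
      exact ⟨X, a, ⟨H.mapIso e' ≪≫ e⟩⟩⟩

theorem Deq.loc [Tg S] (h : Deq F S S') : Loc F Zr S S' where
  le _ a := Tg.zero S a
  kill _ a := F.map_isZero a
  full a b φ := by
    obtain ⟨f, rfl⟩ := (h.ff a b).2 φ
    exact ⟨_, 𝟙 _, f, MorphismProperty.id_mem _ _, by simp⟩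
  faith a b f e := ⟨_, 𝟙 _, MorphismProperty.id_mem _ _, by simp [lc_inj.1 (h.ff a b).1 f e]⟩
  thick X a b := (IsZero.iff_id_eq_zero X).2 (lc_inj.1 (h.ff a a).1 _ (b.eq_of_src _ _))
  maps := h.maps
  surj := h.surj

theorem Loc.deq [Tg N] (h : Loc F N S S') (hN : ∀ X, N X → IsZero X) : Deq F S S' := by
  refine ⟨fun X Y a b => ⟨lc_inj.2 fun f e => ?_, fun φ => ?_⟩, h.maps, h.surj⟩
  · obtain ⟨_, s, hs, e'⟩ := h.faith a b f e
    have : IsIso s := isIso_of_kill (F := 𝟭 D) hN hs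
    rwa [← cancel_mono s, zero_comp]
  · obtain ⟨_, s, f, hs, e⟩ := h.full a b φ
    have : IsIso s := isIso_of_kill (F := 𝟭 D) hN hs
    exact ⟨f ≫ inv s, by simp [← e]⟩

theorem LocOn.mono {S₁ : ObjectProperty D} (h : LocOn F N S) (a : N ≤ S₁) (b : S₁ ≤ S) :
    LocOn F N S₁ :=
  ⟨a, h.kill, fun x y => h.full (b _ x) (b _ y), fun x y => h.faith (b _ x) (b _ y)⟩

theorem LocOn.th [Tg N] (h : LocOn F N S) {X : D} (a : S X) (b : IsZero (F.obj X)) : Th N X := by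
  obtain ⟨Y, s, ⟨Z, g, k, hT, hZ⟩, e⟩ := h.faith a a (𝟙 X) (b.eq_of_src _ _)
  obtain ⟨i, hi⟩ := Triangle.coyoneda_exact₂ _ (inv_rot_of_distTriang _ hT) (𝟙 X) e
  exact Th.of_retract i _ hi.symm (N.le_shift (-1) _ hZ)

end Pool.Agent.Lib.MP_5d3e93_al.Gr
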