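import Pool.Agent.Lib.MP_5d3e93_al.Gr.W2
import Pool.Agent.Lib.MP_5d3e93_al.Gr.Exa

/-! Strict representatives of bounded complexes. -/

open CategoryTheory Limits Pretriangulated ZeroObject

namespace Pool.Agent.Lib.MP_5d3e93_al.Gr

universe v u

section Str
variable {C : Type u} [Category.{v} C] [Preadditive C] [HasZeroObject C] [HasBinaryBiproducts C]
  {P : ObjectProperty C}

omit [HasBinaryBiproducts C] in
theorem str_cut (p : Prop) (X : C) : ∃ (Y : C) (i : Y ⟶ X) (r : X ⟶ Y), i ≫ r = 𝟙 _ ∧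
    (p → r ≫ i = 𝟙 _) ∧ (¬p → IsZero Y) := by
  by_cases h : p
  · exact ⟨X, 𝟙 _, 𝟙 _, by simp, fun _ => by simp, fun k => (k h).elim⟩
  · exact ⟨0, 0, 0, (isZero_zero C).eq_of_src _ _, fun k => (h k).elim, fun _ => isZero_zero C⟩

/-- The brutal truncation. -/
theorem exists_trunc (K : CochainComplex C ℤ) (q : ℤ) (h : ∀ n, q < n → IsZero (K.X n)) :
    ∃ (K' : CochainComplex C ℤ)
      (f : ((HomotopyCategory.singleFunctor C 0).obj (K.X q))⟦-q⟧ ⟶
        (HomotopyCategory.quotient _ _).obj K) (g : _ ⟶ (HomotopyCategory.quotient _ _).obj K')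
      (h : _), Triangle.mk f g h ∈ distTriang (Kh C) ∧
        (∀ n, n < q → Nonempty (K'.X n ≅ K.X n)) ∧ ∀ n, q ≤ n → IsZero (K'.X n) := by
  choose Y i r ir ri z using fun n => str_cut (n < q) (K.X n)
  let K' : CochainComplex C ℤ :=
    { X := Y
      d := fun m n => i m ≫ K.d m n ≫ r n
      shape := fun m n k => by rw [K.shape m n k, zero_comp, comp_zero]
      d_comp_d' := fun l m n _ _ => by
        by_cases k : m < q
        · simp only [Category.assoc]
          rw [reassoc_of% (ri m k), K.d_comp_d_assoc, zero_comp, comp_zero]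
        · rw [(z m k).eq_of_tgt (i l ≫ K.d l m ≫ r m) 0, zero_comp] }
  let g : K ⟶ K' :=
    { f := r
      comm' := fun m n (e : m + 1 = n) => by
        by_cases k : m < q
        · change r m ≫ i m ≫ K.d m n ≫ r n = K.d m n ≫ r n
          rw [reassoc_of% (ri m k)]
        · exact (z n (by omega)).eq_of_tgt _ _ }
  let f : (CochainComplex.singleFunctor C q).obj (K.X q) ⟶ K :=
    HomologicalComplex.mkHomFromSingle (𝟙 _) fun k (e : q + 1 = k) =>
      (h k (by omega)).eq_of_tgt _ _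
  have zs : ∀ n, n ≠ q → IsZero (((CochainComplex.singleFunctor C q).obj (K.X q)).X n) :=
    fun n k => HomologicalComplex.isZero_single_obj_X _ _ _ _ k
  let s : ShortComplex (CochainComplex C ℤ) := ⟨f, g, by
    ext n
    by_cases k : n = q
    · exact (z n (by omega)).eq_of_tgt _ _
    · exact (zs n k).eq_of_src _ _⟩
  have σ : ∀ n, (s.map (HomologicalComplex.eval C _ n)).Splitting := fun n =>
    if k : n = q then ShortComplex.Splitting.ofIsIsoOfIsZero _ (by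
      subst k
      change IsIso (f.f n)
      rw [HomologicalComplex.mkHomFromSingle_f]
      exact ((HomologicalComplex.singleObjXSelf (ComplexShape.up ℤ) n (K.X n)) ≪≫
        Iso.refl _).isIso_hom) (z n (by omega))
    else ShortComplex.Splitting.ofIsZeroOfIsIso _ (zs n k) ⟨i n, by
      by_cases l : n < q
      · exact ri n l
      · exact (h n (by omega)).eq_of_src _ _, ir n⟩
  have hT := (HomotopyCategory.distinguished_iff_iso_trianglehOfDegreewiseSplit _).2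
    ⟨s, σ, ⟨Iso.refl _⟩⟩
  let e := ((HomotopyCategory.singleFunctors C).shiftIso (-q) q 0 (by omega)).app (K.X q)
  refine ⟨K', e.hom ≫ (HomotopyCategory.quotient _ _).map f, (HomotopyCategory.quotient _ _).map g,
    (CochainComplex.trianglehOfDegreewiseSplit s σ).mor₃ ≫ e.inv⟦(1 : ℤ)⟧', ?_,
    fun n k => ⟨⟨i n, r n, ir n, ri n k⟩⟩, fun n k => z n (by omega)⟩
  refine isomorphic_distinguished _ hT _ (Triangle.isoMk _ _ e (Iso.refl _) (Iso.refl _)
    (Category.comp_id _) ((Category.comp_id _).trans (Category.id_comp _).symm) ?_)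
  change (_ ≫ e.inv⟦(1 : ℤ)⟧') ≫ e.hom⟦(1 : ℤ)⟧' = 𝟙 _ ≫ _
  rw [Category.assoc, ← Functor.map_comp, e.inv_hom_id, CategoryTheory.Functor.map_id,
    Category.comp_id, Category.id_comp]

theorem Sb.genK [Ad P] {K : CochainComplex C ℤ} (h : Sb P K) :
    genK P ((HomotopyCategory.quotient _ _).obj K) := by
  obtain ⟨hP, p, q, h⟩ := h
  obtain ⟨m, hm⟩ : ∃ m : ℕ, q < p + m := ⟨(q - p + 1).toNat, by omega⟩
  induction m generalizing K q with
  | zero =>
    refine Cl.zero (Functor.map_isZero _ ((IsZero.iff_id_eq_zero _).2 ?_))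
    ext n
    exact (h n (by omega)).eq_of_src _ _
  | succ m ih =>
    obtain ⟨K', f, g, t, hT, a, b⟩ := exists_trunc K q fun n k => h n (Or.inr k)
    refine Cl.ext _ hT (Cl.shift _ (Cl.of ⟨_, hP q, ⟨Iso.refl _⟩⟩))
      (ih (q := q - 1) (fun n => ?_) (fun n k => ?_) (by omega))
    · by_cases k : n < q
      · exact Ad.iso (a n k).some.symm (hP n)
      · exact Ad.zero _ (b n (by omega))
    · by_cases l : n < q
      · exact (h n (by omega)).of_iso (a n l).some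
      · exact b n (by omega)

theorem Sb.cone [Ad P] {K L : CochainComplex C ℤ} (h : Sb P K) (k : Sb P L) (φ : K ⟶ L) :
    Sb P (CochainComplex.mappingCone φ) := by
  obtain ⟨a, p, q, h⟩ := h
  obtain ⟨b, p', q', k⟩ := k
  refine ⟨fun n => ?_, min (p - 1) p', max q q', fun n l =>
    (CochainComplex.mappingCone.isZero_X_iff φ n).2 ⟨h _ (by omega), k _ (by omega)⟩⟩
  exact Ad.iso (HomologicalComplex.homotopyCofiber.XIsoBiprod φ n (n + 1) rfl).symm
    (Ad.add _ _ (a _) (b _))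

omit [HasZeroObject C] [HasBinaryBiproducts C] in
theorem Sb.shift {K : CochainComplex C ℤ} (h : Sb P K) (n : ℤ) : Sb P (K⟦n⟧) := by
  obtain ⟨a, p, q, h⟩ := h
  exact ⟨fun m => a (m + n), p - n, q - n, fun m l => h (m + n) (by omega)⟩

theorem Sb.single [Ad P] {X : C} (h : P X) (q : ℤ) :
    Sb P ((CochainComplex.singleFunctor C q).obj X) := by
  refine ⟨fun n => ?_, q, q, fun n k =>
    HomologicalComplex.isZero_single_obj_X _ _ _ _ (by omega)⟩
  by_cases k : n = q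
  · exact Ad.iso (HomologicalComplex.singleObjXIsoOfEq _ q X n k).symm h
  · exact Ad.zero _ (HomologicalComplex.isZero_single_obj_X _ _ _ _ k)

theorem genK_strict [Ad P] {X : Kh C} (h : genK P X) :
    ∃ K, Sb P K ∧ Nonempty (X ≅ (HomotopyCategory.quotient _ _).obj K) := by
  let S : ObjectProperty (Kh C) := fun X =>
    ∃ K, Sb P K ∧ Nonempty (X ≅ (HomotopyCategory.quotient _ _).obj K)
  have h1 : ∀ (n : ℤ) X, S X → S (X⟦n⟧) := by
    rintro n X ⟨K, a, ⟨e⟩⟩
    exact ⟨K⟦n⟧, a.shift n, ⟨(shiftFunctor _ n).mapIso e ≪≫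
      (((HomotopyCategory.quotient _ _).commShiftIso n).app K).symm⟩⟩
  have : Tg S := Tg.mk' (fun X a => ⟨_, Sb.single (Ad.zero _ (isZero_zero C)) 0,
      ⟨a.iso ((HomotopyCategory.singleFunctor C 0).map_isZero (isZero_zero C))⟩⟩) h1 (by
    rintro T hT ⟨L, b, ⟨e₂⟩⟩ c
    obtain ⟨K, a, ⟨e₁⟩⟩ := h1 (-1) _ c
    obtain ⟨φ, hφ⟩ := (HomotopyCategory.quotient _ _).map_surjective
      (e₁.inv ≫ T.invRotate.mor₁ ≫ e₂.hom)
    exact ⟨_, a.cone b φ, ⟨Triangle.π₃.mapIso (isoTriangleOfIso₁₂ _ _ (inv_rot_of_distTriang _ hT)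
      (HomotopyCategory.mappingCone_triangleh_distinguished φ) e₁ e₂ (by
        change _ = e₁.hom ≫ (HomotopyCategory.quotient _ _).map φ
        rw [hφ, e₁.hom_inv_id_assoc]
        rfl))⟩⟩)
  refine Cl.le (S := S) ?_ _ h
  rintro _ ⟨Y, a, ⟨e⟩⟩
  exact ⟨_, Sb.single a 0, ⟨e.symm⟩⟩

theorem Am.gen_of_genK (a : Am.{v, u}) {P : ObjectProperty a.A} {X : Kh a.A} (h : genK P X) :
    a.gen P (a.Q.obj X) := by
  refine Cl.le (S := (a.gen P).inverseImage a.Q) ?_ _ h
  rintro _ ⟨Y, k, ⟨e⟩⟩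
  exact Cl.of ⟨Y, k, ⟨a.Q.mapIso e⟩⟩

/-- If the trivial complexes are bounded with terms in `P`, every object of the closure in the
derived category comes from the closure in the homotopy category. -/
theorem Am.exists_genK (a : Am.{v, u}) {P : ObjectProperty a.A} (hT : a.T ≤ genK P) {Y : a.D}
    (h : a.gen P Y) : ∃ X, genK P X ∧ Nonempty (a.Q.obj X ≅ Y) := by
  have h1 : ∀ (n : ℤ) X, (genK P).map a.Q X → (genK P).map a.Q (X⟦n⟧) := by
    rintro n _ ⟨X, k, ⟨e⟩⟩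
    exact ⟨X⟦n⟧, Cl.shift n k, ⟨(a.Q.commShiftIso n).app X ≪≫ (shiftFunctor _ n).mapIso e⟩⟩
  have : Tg ((genK P).map a.Q) := Tg.mk' (fun X k => ⟨0, Cl.zero (isZero_zero _),
      ⟨(a.Q.map_isZero (isZero_zero _)).iso k⟩⟩) h1 (by
    rintro T hT' ⟨L, b, ⟨e₂⟩⟩ c
    obtain ⟨K, k, ⟨e₁⟩⟩ := h1 (-1) _ c
    obtain ⟨ψ, hψ⟩ : ∃ ψ : T.obj₃⟦(-1 : ℤ)⟧ ⟶ T.obj₁, ψ = T.invRotate.mor₁ := ⟨_, rfl⟩
    obtain ⟨φ, hφ⟩ := Localization.exists_leftFraction a.Q a.T.trW (e₁.hom ≫ ψ ≫ e₂.inv)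
    have := Localization.inverts a.Q a.T.trW φ.s φ.hs
    obtain ⟨Z, g, t, hZ, z⟩ := φ.hs
    have l : genK P φ.Y' := Cl.ext _ hZ b (hT _ z)
    obtain ⟨M, g', t', hM⟩ := distinguished_cocone_triangle φ.f
    refine ⟨M, (genK P).ext_of_isTriangulatedClosed₃ _ hM k l, ⟨Triangle.π₃.mapIso
      (isoTriangleOfIso₁₂ _ _ (a.Q.map_distinguished _ hM) (inv_rot_of_distTriang _ hT') e₁
        ((asIso (a.Q.map φ.s)).symm ≪≫ e₂) ?_)⟩⟩
    rw [← hψ]
    change a.Q.map φ.f ≫ inv (a.Q.map φ.s) ≫ e₂.hom = e₁.hom ≫ ψ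
    rw [← φ.map_comp_map_s a.Q (Localization.inverts _ _), ← hφ]
    simp)
  refine Cl.le (S := (genK P).map a.Q) ?_ _ h
  rintro _ ⟨X, k, ⟨e⟩⟩
  exact ⟨_, Cl.of ⟨X, k, ⟨Iso.refl _⟩⟩, ⟨e⟩⟩

/-- If the complexes that vanish in the derived category are bounded with terms in `P`, nothing is
added by localising. -/
theorem Am.genK_of_gen (a : Am.{v, u}) {P : ObjectProperty a.A} (hT : a.Tb ≤ genK P) {X : Kh a.A}
    (h : a.gen P (a.Q.obj X)) : genK P X := by
  obtain ⟨Y, k, ⟨e⟩⟩ := a.exists_genK (a.le_Tb.trans hT) h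
  obtain ⟨φ, hφ⟩ := Localization.exists_leftFraction a.Q a.T.trW e.inv
  have := Localization.inverts a.Q a.T.trW φ.s φ.hs
  have i : IsIso (a.Q.map φ.f) := by
    rw [← φ.map_comp_map_s a.Q (Localization.inverts _ _), ← hφ]
    infer_instance
  obtain ⟨Z, g, t, hZ, z⟩ := φ.hs
  obtain ⟨M, g', t', hM⟩ := distinguished_cocone_triangle φ.f
  have l : genK P φ.Y' := Cl.ext _ hZ k (hT _ (a.le_Tb _ z))
  exact (genK P).ext_of_isTriangulatedClosed₁ _ hM l
    (hT _ ((Triangle.isZero₃_iff_isIso₁ _ (a.Q.map_distinguished _ hM)).2 i))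

end Str

end Pool.Agent.Lib.MP_5d3e93_al.Gr
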