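import Pool.Agent.Lib.MP_5d3e93_al.Gr.Tri

/-! Five lemmas for universal arrows and for classes of test objects. -/

set_option linter.unusedSectionVars false

open CategoryTheory Limits Pretriangulated ZeroObject

namespace Pool.Agent.Lib.MP_5d3e93_al.Gr

variable {D : Type*} [Category* D] [HasZeroObject D] [HasShift D ℤ] [Preadditive D]
  [∀ n : ℤ, (shiftFunctor D n).Additive] [Pretriangulated D]
variable {E : Type*} [Category* E] [HasZeroObject E] [HasShift E ℤ] [Preadditive E]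
  [∀ n : ℤ, (shiftFunctor E n).Additive] [Pretriangulated E]

theorem five_bij_post {C : Type*} [Category* C] {X Y Z : C} (e : Y ≅ Z) :
    Function.Bijective fun g : X ⟶ Y => g ≫ e.hom :=
  ⟨fun a b h => (cancel_mono e.hom).1 h, fun k => ⟨k ≫ e.inv, by simp⟩⟩

theorem five_bij_pre {C : Type*} [Category* C] {X Y Z : C} (e : X ≅ Y) :
    Function.Bijective fun g : Y ⟶ Z => e.hom ≫ g :=
  ⟨fun a b h => (cancel_epi e.hom).1 h, fun k => ⟨e.inv ≫ k, by simp⟩⟩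

theorem five_bij_map {C C' : Type*} [Category* C] [Category* C'] (F : C ⥤ C') [F.Full] [F.Faithful]
    (X Y : C) : Function.Bijective (F.map : (X ⟶ Y) → _) :=
  ⟨F.map_injective, F.map_surjective⟩

theorem un_shift (R : D ⥤ E) [R.CommShift ℤ] {M : E} {P : D} {u : M ⟶ R.obj P} (h : Un R u)
    (n : ℤ) : Un R (u⟦n⟧' ≫ (R.commShiftIso n).inv.app P) := by
  intro Y
  obtain ⟨Y', ⟨e⟩⟩ : ∃ Y' : D, Nonempty (Y'⟦n⟧ ≅ Y) :=
    ⟨_, ⟨(shiftFunctor D n).objObjPreimageIso Y⟩⟩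
  have b1 : Function.Bijective fun g : P ⟶ Y' => g⟦n⟧' ≫ e.hom :=
    (five_bij_post e).comp (five_bij_map (shiftFunctor D n) P Y')
  have b2 : Function.Bijective fun k : M ⟶ R.obj Y' =>
      k⟦n⟧' ≫ (((R.commShiftIso n).app Y').symm ≪≫ R.mapIso e).hom :=
    (five_bij_post _).comp (five_bij_map (shiftFunctor E n) M (R.obj Y'))
  rw [← Function.Bijective.of_comp_iff _ b1]
  convert b2.comp (h Y') using 1
  funext g
  have := (R.commShiftIso n).inv.naturality g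
  simp only [Functor.comp_map] at this
  simp [reassoc_of% this]

/-- Five lemma for universal arrows. -/
theorem un_cone (R : D ⥤ E) [R.CommShift ℤ] [R.IsTriangulated] {T : Triangle E}
    (hT : T ∈ distTriang E) {T' : Triangle D} (hT' : T' ∈ distTriang D)
    (φ : T ⟶ R.mapTriangle.obj T') (h₁ : Un R (P := T'.obj₁) φ.hom₁)
    (h₂ : Un R (P := T'.obj₂) φ.hom₂) : Un R (P := T'.obj₃) φ.hom₃ := by
  obtain ⟨u₁, e₁⟩ : ∃ u : T.obj₁ ⟶ R.obj T'.obj₁, u = φ.hom₁ := ⟨_, rfl⟩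
  obtain ⟨u₂, e₂⟩ : ∃ u : T.obj₂ ⟶ R.obj T'.obj₂, u = φ.hom₂ := ⟨_, rfl⟩
  obtain ⟨u₃, e₃⟩ : ∃ u : T.obj₃ ⟶ R.obj T'.obj₃, u = φ.hom₃ := ⟨_, rfl⟩
  have c₁ : T.mor₁ ≫ u₂ = u₁ ≫ R.map T'.mor₁ := by rw [e₁, e₂]; exact φ.comm₁
  have c₂ : T.mor₂ ≫ u₃ = u₂ ≫ R.map T'.mor₂ := by rw [e₂, e₃]; exact φ.comm₂
  have c₃' : T.mor₃ ≫ u₁⟦(1 : ℤ)⟧' =
      u₃ ≫ R.map T'.mor₃ ≫ (R.commShiftIso (1 : ℤ)).hom.app T'.obj₁ := by
    rw [e₁, e₃]; exact φ.comm₃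
  have k₁ : Un R u₁ := e₁ ▸ h₁
  have k₂ : Un R u₂ := e₂ ▸ h₂
  suffices H : Un R u₃ from e₃ ▸ H
  have s₁ := un_shift R k₁ 1
  have s₂ := un_shift R k₂ 1
  obtain ⟨v₁, f₁⟩ : ∃ v, v = u₁⟦(1 : ℤ)⟧' ≫ (R.commShiftIso (1 : ℤ)).inv.app T'.obj₁ := ⟨_, rfl⟩
  obtain ⟨v₂, f₂⟩ : ∃ v, v = u₂⟦(1 : ℤ)⟧' ≫ (R.commShiftIso (1 : ℤ)).inv.app T'.obj₂ := ⟨_, rfl⟩
  have c₃ : T.mor₃ ≫ v₁ = u₃ ≫ R.map T'.mor₃ := by
    rw [f₁, reassoc_of% c₃']; simp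
  have c₄ : T.mor₁⟦(1 : ℤ)⟧' ≫ v₂ = v₁ ≫ R.map (T'.mor₁⟦(1 : ℤ)⟧') := by
    have := (R.commShiftIso (1 : ℤ)).inv.naturality T'.mor₁
    simp only [Functor.comp_map] at this
    rw [f₁, f₂, ← Functor.map_comp_assoc, c₁, Functor.map_comp_assoc, this, Category.assoc]
  rw [← f₁] at s₁
  rw [← f₂] at s₂
  intro Y
  constructor
  · have key : ∀ g : T'.obj₃ ⟶ Y, u₃ ≫ R.map g = 0 → g = 0 := fun g hg => by
      have a1 : T'.mor₂ ≫ g = 0 := (k₂ Y).1 (by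
        simp only [Functor.map_comp, Functor.map_zero, comp_zero]
        rw [← reassoc_of% c₂, hg, comp_zero])
      obtain ⟨a, rfl⟩ := Triangle.yoneda_exact₃ T' hT' g a1
      have a2 : T.mor₃ ≫ v₁ ≫ R.map a = 0 := by
        rw [reassoc_of% c₃, ← Functor.map_comp, hg]
      obtain ⟨b', hb'⟩ := Triangle.yoneda_exact₃ _ (rot_of_distTriang _ hT) _ a2
      obtain ⟨b, rfl⟩ := (s₂ Y).2 b'
      have a3 : a = -(T'.mor₁⟦(1 : ℤ)⟧' ≫ b) := (s₁ Y).1 (by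
        simp only [Functor.map_neg, Functor.map_comp, Preadditive.comp_neg]
        rw [← reassoc_of% c₄, hb']
        exact Preadditive.neg_comp _ _)
      rw [a3, Preadditive.comp_neg, reassoc_of% (comp_distTriang_mor_zero₃₁ _ hT'), zero_comp,
        neg_zero]
    intro g g' hg
    refine sub_eq_zero.1 (key _ ?_)
    rw [Functor.map_sub, Preadditive.comp_sub]
    exact sub_eq_zero.2 hg
  · intro ψ
    obtain ⟨c, hc⟩ := (k₂ Y).2 (T.mor₂ ≫ ψ)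
    replace hc : u₂ ≫ R.map c = T.mor₂ ≫ ψ := hc
    have a1 : T'.mor₁ ≫ c = 0 := (k₁ Y).1 (by
      simp only [Functor.map_comp, Functor.map_zero, comp_zero]
      rw [← reassoc_of% c₁, hc, reassoc_of% (comp_distTriang_mor_zero₁₂ _ hT), zero_comp])
    obtain ⟨d, rfl⟩ := Triangle.yoneda_exact₂ T' hT' c a1
    have a2 : T.mor₂ ≫ (ψ - u₃ ≫ R.map d) = 0 := by
      rw [Preadditive.comp_sub, ← hc, reassoc_of% c₂, Functor.map_comp, sub_self]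
    obtain ⟨a', ha'⟩ := Triangle.yoneda_exact₃ T hT _ a2
    obtain ⟨a, rfl⟩ := (s₁ Y).2 a'
    refine ⟨d + T'.mor₃ ≫ a, ?_⟩
    simp only [Functor.map_add, Functor.map_comp, Preadditive.comp_add]
    rw [← reassoc_of% c₃, ← ha']
    abel

theorem Un.uniq {R : D ⥤ E} {M : E} {P P' : D} {u : M ⟶ R.obj P} {u' : M ⟶ R.obj P'}
    (h : Un R u) (h' : Un R u') : ∃ e : P ≅ P', u ≫ R.map e.hom = u' := by
  obtain ⟨a, ha⟩ := (h P').2 u'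
  obtain ⟨b, hb⟩ := (h' P).2 u
  replace ha : u ≫ R.map a = u' := ha
  replace hb : u' ≫ R.map b = u := hb
  refine ⟨⟨a, b, (h P).1 ?_, (h' P').1 ?_⟩, ha⟩
  · simp [reassoc_of% ha, hb]
  · simp [reassoc_of% hb, ha]

theorem Un.isZero_iff {R : D ⥤ E} [R.Additive] {M : E} {P : D} {u : M ⟶ R.obj P} (h : Un R u) :
    IsZero P ↔ ∀ Y (φ : M ⟶ R.obj Y), φ = 0 := by
  constructor
  · intro z Y φ
    obtain ⟨g, rfl⟩ := (h Y).2 φ
    simp [z.eq_of_src g 0]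
  · intro z
    rw [IsZero.iff_id_eq_zero]
    exact (h P).1 ((z _ _).trans (z _ _).symm)

theorem un_tri (R : D ⥤ E) [R.CommShift ℤ] [R.IsTriangulated] {T : Triangle E}
    (hT : T ∈ distTriang E) {P₁ P₂ P₃ : D} {u₁ : T.obj₁ ⟶ R.obj P₁} {u₂ : T.obj₂ ⟶ R.obj P₂}
    {u₃ : T.obj₃ ⟶ R.obj P₃} (h₁ : Un R u₁) (h₂ : Un R u₂) (h₃ : Un R u₃) :
    ∃ (f : P₁ ⟶ P₂) (g : P₂ ⟶ P₃) (h : P₃ ⟶ P₁⟦(1 : ℤ)⟧), Triangle.mk f g h ∈ distTriang D := by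
  obtain ⟨f, hf⟩ := (h₁ P₂).2 (T.mor₁ ≫ u₂)
  obtain ⟨Q, g, h, hQ⟩ := distinguished_cocone_triangle f
  obtain ⟨c, hc₂, hc₃⟩ := complete_distinguished_triangle_morphism T _ hT
    (R.map_distinguished _ hQ) u₁ u₂ hf.symm
  obtain ⟨e : Q ≅ P₃, -⟩ := (un_cone R hT hQ ⟨u₁, u₂, c, hf.symm, hc₂, hc₃⟩ h₁ h₂).uniq h₃
  refine ⟨f, g ≫ e.hom, e.inv ≫ h, isomorphic_distinguished _ hQ _
    (Triangle.isoMk _ _ (Iso.refl P₁) (Iso.refl P₂) e.symm ?_ ?_ ?_)⟩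
  · exact (Category.comp_id f).trans (Category.id_comp f).symm
  · change (g ≫ e.hom) ≫ e.inv = 𝟙 P₂ ≫ g
    simp
  · change (e.inv ≫ h) ≫ (𝟙 P₁)⟦(1 : ℤ)⟧' = e.inv ≫ h
    simp

theorem five_shift (𝓜 : ObjectProperty E) (hs : ∀ (n : ℤ) M, 𝓜 M → 𝓜 (M⟦n⟧)) {X Y : E}
    {f : X ⟶ Y} (h : ∀ M, 𝓜 M → Function.Bijective fun g : M ⟶ X => g ≫ f) (n : ℤ) (M : E)
    (hM : 𝓜 M) : Function.Bijective fun g : M ⟶ X⟦n⟧ => g ≫ f⟦n⟧' := by
  have e : M ≅ M⟦-n⟧⟦n⟧ := (shiftNegShift M n).symm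
  have b : ∀ Z : E, Function.Bijective fun g : M⟦-n⟧ ⟶ Z => e.hom ≫ g⟦n⟧' := fun Z =>
    (five_bij_pre e).comp (five_bij_map (shiftFunctor E n) _ Z)
  rw [← Function.Bijective.of_comp_iff _ (b X)]
  convert (b Y).comp (h _ (hs (-n) M hM)) using 1
  funext g
  simp

/-- Five lemma for a shift stable class of test objects. -/
theorem bij_cone (𝓜 : ObjectProperty E) (hs : ∀ (n : ℤ) M, 𝓜 M → 𝓜 (M⟦n⟧)) {T T' : Triangle E}
    (hT : T ∈ distTriang E) (hT' : T' ∈ distTriang E) (φ : T ⟶ T')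
    (h₁ : ∀ M, 𝓜 M → Function.Bijective fun g : M ⟶ T.obj₁ => g ≫ φ.hom₁)
    (h₂ : ∀ M, 𝓜 M → Function.Bijective fun g : M ⟶ T.obj₂ => g ≫ φ.hom₂) :
    ∀ M, 𝓜 M → Function.Bijective fun g : M ⟶ T.obj₃ => g ≫ φ.hom₃ := by
  intro M hM
  have k₁ := h₁ M hM
  have k₂ := h₂ M hM
  have s₁ := five_shift 𝓜 hs h₁ 1 M hM
  have s₂ := five_shift 𝓜 hs h₂ 1 M hM
  have c₁ := φ.comm₁
  have c₂ := φ.comm₂
  have c₃ := φ.comm₃
  constructor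
  · have key : ∀ g : M ⟶ T.obj₃, g ≫ φ.hom₃ = 0 → g = 0 := fun g hg => by
      have a1 : g ≫ T.mor₃ = 0 := s₁.1 (by
        simp only [Category.assoc, zero_comp]
        rw [c₃, reassoc_of% hg, zero_comp])
      obtain ⟨a, rfl⟩ := Triangle.coyoneda_exact₃ T hT g a1
      have a2 : (a ≫ φ.hom₂) ≫ T'.mor₂ = 0 := by
        rw [Category.assoc, ← c₂, ← Category.assoc, hg]
      obtain ⟨b', hb'⟩ := Triangle.coyoneda_exact₂ T' hT' _ a2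
      obtain ⟨b, rfl⟩ := k₁.2 b'
      have a3 : a = b ≫ T.mor₁ := k₂.1 (by
        simp only [Category.assoc]
        rw [c₁, hb', Category.assoc])
      rw [a3, Category.assoc, comp_distTriang_mor_zero₁₂ _ hT, comp_zero]
    intro g g' hg
    refine sub_eq_zero.1 (key _ ?_)
    rw [Preadditive.sub_comp]
    exact sub_eq_zero.2 hg
  · intro ψ
    obtain ⟨c, hc⟩ := s₁.2 (ψ ≫ T'.mor₃)
    replace hc : c ≫ φ.hom₁⟦(1 : ℤ)⟧' = ψ ≫ T'.mor₃ := hc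
    have a1 : c ≫ T.mor₁⟦(1 : ℤ)⟧' = 0 := s₂.1 (by
      simp only [Category.assoc, zero_comp]
      rw [← Functor.map_comp, c₁, Functor.map_comp, reassoc_of% hc,
        comp_distTriang_mor_zero₃₁ _ hT', comp_zero])
    obtain ⟨d, rfl⟩ := Triangle.coyoneda_exact₁ T hT c a1
    have a2 : (ψ - d ≫ φ.hom₃) ≫ T'.mor₃ = 0 := by
      rw [Preadditive.sub_comp, ← hc, Category.assoc, Category.assoc, c₃, sub_self]
    obtain ⟨a', ha'⟩ := Triangle.coyoneda_exact₃ T' hT' _ a2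
    obtain ⟨a, rfl⟩ := k₂.2 a'
    refine ⟨d + a ≫ T.mor₂, ?_⟩
    simp only [Preadditive.add_comp, Category.assoc] at ha' ⊢
    rw [c₂, ← ha']
    abel

end Pool.Agent.Lib.MP_5d3e93_al.Gr
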