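import Pool.Agent.Lib.MP_5d3e93_al.Gr.Kn

/-! Localisation sequences, decompositions and directed unions in all degrees. -/

open CategoryTheory Limits Pretriangulated ZeroObject

namespace Pool.Agent.Lib.MP_5d3e93_al.Gr

universe v u v' u'

namespace Am

variable {a : Am.{v, u}} {b : Am.{v', u'}}

theorem knl_V_le {N S : ObjectProperty a.D} (h : N ≤ S) : V N ≤ V S := a.idm.V_map h

theorem knl_succ (n : ℕ) {N S : ObjectProperty a.D} (h : N ≤ S) (k : V N ≤ V S) :
    Kinc (n + 1) h = Kinc n k := rfl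

theorem knl_mk {N S : ObjectProperty a.D} (h : N ≤ S) (X : a.D) (x : N X) :
    Kinc 0 h (K0.mk X x) = K0.mk X (h X x) := K0.map_mk a.idm.D h X x

theorem knl_comp (n : ℕ) {N S U : ObjectProperty a.D} (h : N ≤ S) (k : S ≤ U) (x : Kn n a N) :
    Kinc n k (Kinc n h x) = Kinc n (h.trans k) x :=
  (Kmap_comp n a.idm a.idm h k (h.trans k) x).symm

theorem knl_zero {S : ObjectProperty a.D} (h : ∀ X, S X → IsZero X) : Z S :=
  Z_of_null (le_refl S) fun n => Kmap_zero n a.idm h _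

theorem knl_locV {N S : ObjectProperty a.D} {S' : ObjectProperty b.D} [Tg N] [Tg S] [Tg S']
    {f : Map a b} (h : Loc f.D N S S') (z : Function.Injective (Kinc 0 h.le)) :
    Loc f.B.D (V N) (V S) (V S') :=
  f.bm.locV h fun X Y x y e => z ((knl_mk h.le X x).trans (e.trans (knl_mk h.le Y y).symm))

theorem knl_inj0 {N S : ObjectProperty a.D} {S' : ObjectProperty b.D} [Tg N] [Tg S] [Tg S']
    {f : Map a b} (h : Loc f.D N S S') (z : Subsingleton (Kn 1 b S')) :
    Function.Injective (Kinc 0 h.le) := fun x y e => by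
  obtain ⟨X, p, rfl⟩ := K0.mk_surj (S := N) x
  obtain ⟨Y, q, rfl⟩ := K0.mk_surj (S := N) y
  exact f.bm.inj h z X Y p q ((knl_mk h.le X p).symm.trans (e.trans (knl_mk h.le Y q)))

theorem knl_exact : ∀ (n : ℕ) {a : Am.{v, u}} {b : Am.{v', u'}} {N S : ObjectProperty a.D}
    {S' : ObjectProperty b.D} [Tg N] [Tg S] [Tg S'] {f : Map a b} (h : Loc f.D N S S'),
    (∀ j, j < n → Function.Injective (Kinc j h.le)) → Function.Surjective (Kmap n f h.maps) ∧
      ∀ x, Kmap n f h.maps x = 0 → ∃ y, Kinc n h.le y = x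
  | 0, _, _, _, _, _, _, _, _, _, h, _ => ⟨h.k0_surj, fun x e => by
      obtain ⟨X, p, rfl⟩ := h.k0_exact x e
      exact ⟨K0.mk X p, knl_mk h.le X p⟩⟩
  | n + 1, _, _, _, _, _, _, _, _, _, h, z =>
      knl_exact n (knl_locV h (z 0 n.succ_pos)) fun j k => z (j + 1) (Nat.succ_lt_succ k)

theorem knl_inj : ∀ (n : ℕ) {a : Am.{v, u}} {b : Am.{v', u'}} {N S : ObjectProperty a.D}
    {S' : ObjectProperty b.D} [Tg N] [Tg S] [Tg S'] {f : Map a b} (h : Loc f.D N S S'),
    (∀ j, j ≤ n + 1 → Subsingleton (Kn j b S')) → Function.Injective (Kinc n h.le)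
  | 0, _, _, _, _, _, _, _, _, _, h, z => knl_inj0 h (z 1 le_rfl)
  | n + 1, _, _, _, _, _, _, _, _, _, h, z =>
      knl_inj n (knl_locV h (knl_inj0 h (z 1 (by omega)))) fun j k => z (j + 1) (by omega)

theorem knl_sod : ∀ (n : ℕ) {a : Am.{v, u}} {S₁ S₂ S : ObjectProperty a.D} [Tg S₁] [Tg S₂] [Tg S]
    (h : Sod S₁ S₂ S), Function.Bijective fun p : Kn n a S₁ × Kn n a S₂ =>
      Kinc n h.le₁ p.1 + Kinc n h.le₂ p.2
  | 0, a, S₁, S₂, S, _, _, _, h => by
      have e : ∀ {N : ObjectProperty a.D} (k : N ≤ S),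
          Kinc 0 k = K0.map (𝟭 a.D) (S' := S) k := fun k =>
        K0.hom_ext fun X x => (knl_mk k X x).trans (K0.map_mk (𝟭 a.D) (S' := S) k X x).symm
      rw [e, e]
      exact h.k0_bij
  | n + 1, a, _, _, _, _, _, _, h => knl_sod n (a.bs.sod h)

theorem knl_dir {α ι : Type*} [Preorder α] [Nonempty ι] {P : ι → α} (hd : Directed (· ≤ ·) P)
    (s : ℕ → ι) (m : ℕ) : ∃ i, ∀ j, j < m → P (s j) ≤ P i := by
  induction m with
  | zero => exact ⟨Classical.arbitrary ι, fun _ h => absurd h (Nat.not_lt_zero _)⟩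
  | succ m ih =>
    obtain ⟨i, hi⟩ := ih
    obtain ⟨k, h₁, h₂⟩ := hd i (s m)
    refine ⟨k, fun j hj => ?_⟩
    rcases Nat.lt_succ_iff_lt_or_eq.1 hj with h | rfl
    · exact (hi j h).trans h₁
    · exact h₂

theorem knl_unionV {ι : Type*} [Nonempty ι] {S : ObjectProperty a.D} (P : ι → ObjectProperty a.D)
    [∀ i, Tg (P i)] (hd : Directed (· ≤ ·) P) (h : ∀ X, S X → ∃ i, P i X) (M : a.B.D)
    (k : V S M) : ∃ i, V (P i) M := by
  obtain ⟨⟨k₁, m, k₂⟩, k₃⟩ := k
  choose s hs using fun j => h _ (k₁ j)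
  obtain ⟨i, hi⟩ := knl_dir hd s m
  refine ⟨i, ⟨fun j => ?_, m, k₂⟩, k₃⟩
  rcases lt_or_ge j m with c | c
  · exact hi j c _ (hs j)
  · exact Tg.zero _ (k₂ j c)

theorem knl_dirV {ι : Type*} {P : ι → ObjectProperty a.D} (hd : Directed (· ≤ ·) P) :
    Directed (· ≤ ·) fun i => V (P i) := fun i j => by
  obtain ⟨k, h₁, h₂⟩ := hd i j
  exact ⟨k, knl_V_le h₁, knl_V_le h₂⟩

theorem knl_usurj {ι : Type*} [Nonempty ι] : ∀ (n : ℕ) {a : Am.{v, u}} {S : ObjectProperty a.D}
    [Tg S] (P : ι → ObjectProperty a.D) [∀ i, Tg (P i)] (_ : Directed (· ≤ ·) P)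
    (le : ∀ i, P i ≤ S) (_ : ∀ X, S X → ∃ i, P i X) (x : Kn n a S), ∃ i y, Kinc n (le i) y = x
  | 0, _, S, _, _, _, _, le, h, x => by
      obtain ⟨X, p, rfl⟩ := K0.mk_surj (S := S) x
      obtain ⟨i, q⟩ := h X p
      exact ⟨i, K0.mk X q, knl_mk (le i) X q⟩
  | n + 1, _, _, _, P, _, hd, le, h, x =>
      knl_usurj n (fun i => V (P i)) (knl_dirV hd) (fun i => knl_V_le (le i))
        (knl_unionV P hd h) x

open Classical in
/-- The class in a subcategory, zero for the objects outside it. -/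
noncomputable def knlRes (S U : ObjectProperty a.D) : FreeAbelianGroup {X // S X} →+ K0 U :=
  FreeAbelianGroup.lift fun X => if h : U X.1 then K0.mk X.1 h else 0

theorem knlRes_of {S U : ObjectProperty a.D} (X : a.D) (p : S X) (q : U X) :
    knlRes S U (.of ⟨X, p⟩) = K0.mk X q := by
  simp [knlRes, q]

theorem knl_rel {ι : Type*} [Nonempty ι] {S : ObjectProperty a.D} (P : ι → ObjectProperty a.D)
    (hd : Directed (· ≤ ·) P) (h : ∀ X, S X → ∃ i, P i X) {z : FreeAbelianGroup {X // S X}}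
    (hz : z ∈ K0r S) : ∃ i, ∀ j, P i ≤ P j → knlRes S (P j) z = 0 := by
  induction hz using AddSubgroup.closure_induction with
  | mem x hx =>
    obtain ⟨T, hT, p, q, r, rfl⟩ := hx
    obtain ⟨i₁, h₁⟩ := h _ p
    obtain ⟨i₂, h₂⟩ := h _ q
    obtain ⟨i₃, h₃⟩ := h _ r
    obtain ⟨k, k₁, k₂⟩ := hd i₁ i₂
    obtain ⟨l, l₁, l₂⟩ := hd k i₃
    refine ⟨l, fun j e => ?_⟩
    rw [map_sub, map_sub, knlRes_of _ _ (e _ (l₁ _ (k₂ _ h₂))),
      knlRes_of _ _ (e _ (l₁ _ (k₁ _ h₁))), knlRes_of _ _ (e _ (l₂ _ h₃)),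
      K0.mk_tri hT (e _ (l₁ _ (k₁ _ h₁))) _ (e _ (l₂ _ h₃))]
    abel
  | zero => exact ⟨Classical.arbitrary ι, fun _ _ => map_zero _⟩
  | add x y _ _ hx hy =>
    obtain ⟨i, hi⟩ := hx
    obtain ⟨k, hk⟩ := hy
    obtain ⟨l, l₁, l₂⟩ := hd i k
    exact ⟨l, fun j e => by rw [map_add, hi j (l₁.trans e), hk j (l₂.trans e), add_zero]⟩
  | neg x _ hx =>
    obtain ⟨i, hi⟩ := hx
    exact ⟨i, fun j e => by rw [map_neg, hi j e, neg_zero]⟩

theorem knl_uinj {ι : Type*} [Nonempty ι] : ∀ (n : ℕ) {a : Am.{v, u}} {S : ObjectProperty a.D}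
    (P : ι → ObjectProperty a.D) [∀ i, Tg (P i)] (_ : Directed (· ≤ ·) P)
    (le : ∀ i, P i ≤ S) (_ : ∀ X, S X → ∃ i, P i X) (i : ι) (y : Kn n a (P i))
    (_ : Kinc n (le i) y = 0), ∃ (j : ι) (k : P i ≤ P j), Kinc n k y = 0
  | 0, _, S, P, _, hd, le, h, i, y, e => by
      obtain ⟨Y, p, rfl⟩ := K0.mk_surj (S := P i) y
      have e' : K0.mk Y (le i Y p) = 0 := (knl_mk (le i) Y p).symm.trans e
      obtain ⟨j, hj⟩ := knl_rel P hd h ((QuotientAddGroup.eq_zero_iff _).1 e')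
      obtain ⟨l, l₁, l₂⟩ := hd i j
      exact ⟨l, l₁, (knl_mk l₁ Y p).trans ((knlRes_of Y _ _).symm.trans (hj l l₂))⟩
  | n + 1, _, _, P, _, hd, le, h, i, y, e => by
      obtain ⟨j, k, hk⟩ := knl_uinj n (fun i => V (P i)) (knl_dirV hd) (fun i => knl_V_le (le i))
        (knl_unionV P hd h) i y e
      obtain ⟨l, l₁, l₂⟩ := hd i j
      refine ⟨l, l₁, ?_⟩
      have := knl_comp n k (knl_V_le l₂) y
      rw [hk, map_zero] at this
      exact this.symm

variable {N S : ObjectProperty a.D} {S' : ObjectProperty b.D} (n : ℕ)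
variable [Tg N] [Tg S] [Tg S'] {f : Map a b}

theorem loc_surj (h : Loc f.D N S S') (z : ∀ j, j < n → Subsingleton (Kn j a N)) :
    Function.Surjective (Kmap n f h.maps) :=
  (knl_exact n h fun j k => have := z j k; Function.injective_of_subsingleton _).1

theorem loc_exact (h : Loc f.D N S S') (z : ∀ j, j < n → Subsingleton (Kn j a N)) (x : Kn n a S)
    (hx : Kmap n f h.maps x = 0) : ∃ y, Kinc n h.le y = x :=
  (knl_exact n h fun j k => have := z j k; Function.injective_of_subsingleton _).2 x hx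

theorem loc_inc_surj (h : Loc f.D N S S') (z : ∀ j, j ≤ n → Subsingleton (Kn j b S')) :
    Function.Surjective (Kinc n h.le) := fun x =>
  (knl_exact n h fun j k => knl_inj j h fun i l => z i (by omega)).2 x
    ((z n le_rfl).elim _ _)

theorem loc_inc_inj (h : Loc f.D N S S') (z : ∀ j, j ≤ n + 1 → Subsingleton (Kn j b S')) :
    Function.Injective (Kinc n h.le) := knl_inj n h z

/-- If all `Kinc j`, `j < n`, are injective the sequence is exact in degree `n`. -/
theorem loc_exact' (h : Loc f.D N S S') (z : ∀ j, j < n → Function.Injective (Kinc j h.le)) :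
    Function.Surjective (Kmap n f h.maps) ∧
      ∀ x, Kmap n f h.maps x = 0 → ∃ y, Kinc n h.le y = x := knl_exact n h z

theorem loc_bij (h : Loc f.D N S S') (z : Z N) : Function.Bijective (Kmap n f h.maps) := by
  refine ⟨(injective_iff_map_eq_zero _).2 fun x e => ?_, loc_surj n h fun j _ => z j⟩
  obtain ⟨y, rfl⟩ := loc_exact n h (fun j _ => z j) x e
  rw [(z n).elim y 0, map_zero]

theorem deq_bij (h : Deq f.D S S') : Function.Bijective (Kmap n f h.maps) :=
  loc_bij n h.loc (knl_zero fun _ k => k)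

theorem deq_B (h : Deq f.D S S') : Deq f.B.D (V S) (V S') :=
  (knl_locV h.loc (have := knl_zero (a := a) (S := Zr) (fun _ k => k) 0
    Function.injective_of_subsingleton _)).deq fun X k => a.bs.cons X k.1.1

theorem locW (h : Loc f.D N S S') : Loc f.B.D (W N) (W S) (W S') := f.bm.locW h

theorem Z_deq (h : Deq f.D S S') : Z S ↔ Z S' :=
  ⟨fun z n => have := z n; (deq_bij n h).2.subsingleton,
    fun z n => have := z n; (deq_bij n h).1.subsingleton⟩

theorem Z_quo (h : Loc f.D N S S') (z : Z N) (z' : Z S) : Z S' := fun n =>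
  have := z' n; (loc_surj n h fun j _ => z j).subsingleton

theorem Z_mid (h : Loc f.D N S S') (z : Z N) (z' : Z S') : Z S := fun n =>
  have := z n; (loc_inc_surj n h fun j _ => z' j).subsingleton

theorem Z_sub (h : Loc f.D N S S') (z : Z S) (z' : Z S') : Z N := fun n =>
  have := z n; (loc_inc_inj n h fun j _ => z' j).subsingleton

theorem π_isLocalization : (a.π N).D.IsLocalization N.trW := by
  have e : (a.quo N).Q ≅ a.Q ⋙ (a.π N).D :=
    (Functor.rightUnitor _).symm ≪≫ Functor.isoWhiskerLeft _ (a.quo N).idD.symm ≪≫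
      eqToIso ((a.quo N).idm.fac.trans (a.π N).fac.symm)
  have : (a.Q ⋙ (a.π N).D).IsLocalization (N.inverseImage a.Q).trW :=
    Functor.IsLocalization.of_iso (L₁ := (a.quo N).Q) (a.quo N).T.trW e
  refine Functor.IsLocalization.of_comp a.Q (a.π N).D a.T.trW N.trW (N.inverseImage a.Q).trW
    (ObjectProperty.trW_monotone fun X h => Tg.zero N (a.le_Tb X h)) ?_
  have := Localization.essSurj_mapArrow a.Q a.T.trW
  ext X Y φ
  constructor
  · intro h
    have i := a.Q.mapArrow.objObjPreimageIso (Arrow.mk φ)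
    exact ⟨_, _, (a.Q.mapArrow.objPreimage (Arrow.mk φ)).hom,
      (N.inverseImage_trW_iff a.Q _).2 ((N.trW.arrow_mk_iso_iff i).2 h), ⟨i⟩⟩
  · rintro ⟨_, _, ψ, h, ⟨i⟩⟩
    exact (N.trW.arrow_mk_iso_iff i).1 ((N.inverseImage_trW_iff a.Q _).1 h)

theorem quo_loc (le : N ≤ S) (th : ∀ X, S X → Th N X → N X) :
    Loc (a.π N).D N S (S.map (a.π N).D) :=
  have := π_isLocalization (N := N)
  (locOn_of_isLocalization le).loc th

variable {S₁ S₂ : ObjectProperty a.D} [Tg S₁] [Tg S₂]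

theorem sod_bij (h : Sod S₁ S₂ S) : Function.Bijective fun p : Kn n a S₁ × Kn n a S₂ =>
    Kinc n h.le₁ p.1 + Kinc n h.le₂ p.2 := knl_sod n h

theorem Z_sod (h : Sod S₁ S₂ S) : Z S ↔ Z S₁ ∧ Z S₂ := by
  refine ⟨fun z => ?_, fun z n => ?_⟩
  · have k : ∀ n, Subsingleton (Kn n a S₁ × Kn n a S₂) := fun n =>
      have := z n; (sod_bij n h).1.subsingleton
    exact ⟨fun n => ⟨fun x y => congrArg Prod.fst ((k n).elim (x, 0) (y, 0))⟩,
      fun n => ⟨fun x y => congrArg Prod.snd ((k n).elim (0, x) (0, y))⟩⟩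
  · have := z.1 n
    have := z.2 n
    exact (sod_bij n h).2.subsingleton

theorem union_surj {ι : Type*} [Nonempty ι] (P : ι → ObjectProperty a.D) [∀ i, Tg (P i)]
    (hd : Directed (· ≤ ·) P) (le : ∀ i, P i ≤ S) (h : ∀ X, S X → ∃ i, P i X) (x : Kn n a S) :
    ∃ i y, Kinc n (le i) y = x := knl_usurj n P hd le h x

theorem union_inj {ι : Type*} [Nonempty ι] (P : ι → ObjectProperty a.D) [∀ i, Tg (P i)]
    (hd : Directed (· ≤ ·) P) (le : ∀ i, P i ≤ S) (h : ∀ X, S X → ∃ i, P i X) (i : ι)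
    (y : Kn n a (P i)) (e : Kinc n (le i) y = 0) : ∃ (j : ι) (k : P i ≤ P j), Kinc n k y = 0 :=
  knl_uinj n P hd le h i y e

/-- Binary complexes with terms in `S` that vanish from degree `m` on. -/
def knlW (S : ObjectProperty a.D) (m : ℕ) : ObjectProperty a.B.D :=
  W S ⊓ fun M => ∀ j, m ≤ j → IsZero ((a.ev j).D.obj M)

instance (m : ℕ) : Tg (knlW S m) :=
  have : Tg (fun M : a.B.D => ∀ j, m ≤ j → IsZero ((a.ev j).D.obj M) : ObjectProperty _) :=
    Tg.mk' (fun _ h j _ => (a.ev j).D.map_isZero h)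
      (fun n X h j k => (Zr.inverseImage (a.ev j).D).le_shift n X (h j k))
      fun T e h h' j k => (Zr.inverseImage (a.ev j).D).ext_of_isTriangulatedClosed₂ T e (h j k)
        (h' j k)
  inferInstanceAs (Tg (W S ⊓ _))

theorem knlW_mono {m m' : ℕ} (h : m ≤ m') : knlW S m ≤ knlW S m' :=
  fun _ k => ⟨k.1, fun j l => k.2 j (h.trans l)⟩

theorem knlW_L (m : ℕ) {X : a.D} (h : S X) : knlW S (m + 1) ((a.bs.L m).obj X) :=
  ⟨a.bs.W_L m h, fun j k => a.bs.high m j X k⟩

theorem knlW_counit (m : ℕ) {M : a.B.D} (h : knlW S (m + 1) M) :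
    (knlW S m).trW ((a.bs.adj m).counit.app M) := by
  obtain ⟨C, g, k, hT⟩ := distinguished_cocone_triangle ((a.bs.adj m).counit.app M)
  have c : knlW S (m + 1) C := (knlW S (m + 1)).ext_of_isTriangulatedClosed₃ _ hT
    (knlW_L m (h.1.1 m)) h
  refine ⟨C, g, k, hT, c.1, fun j l => ?_⟩
  rcases l.eq_or_lt with rfl | l
  · have := a.bs.unit m ((a.ev m).D.obj M)
    have : IsIso ((a.ev m).D.map ((a.bs.adj m).counit.app M)) :=
      IsIso.of_isIso_fac_left ((a.bs.adj m).right_triangle_components M)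
    exact (Triangle.isZero₃_iff_isIso₁ _ ((a.ev m).D.map_distinguished _ hT)).2 this
  · exact c.2 j l

theorem knlW_loc (m : ℕ) : Loc (a.ev m).D (knlW S m) (knlW S (m + 1)) S where
  toLocOn := locOn_of_gen (G := knlW S (m + 1)) (knlW_mono m.le_succ) (fun _ h => h.2 m le_rfl)
    (fun _ => Cl.of)
    (fun X Y h _ φ => ⟨_, _, (a.bs.L m).map φ ≫ (a.bs.adj m).counit.app Y, knlW_counit m h, by
      have := a.bs.unit m ((a.ev m).D.obj X)
      rw [← cancel_epi ((a.bs.adj m).unit.app ((a.ev m).D.obj X)), Functor.map_comp,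
        (a.bs.adj m).right_triangle_components_assoc]
      exact ((((a.bs.adj m).unit_naturality_assoc φ _).trans (congrArg (φ ≫ ·)
        ((a.bs.adj m).right_triangle_components Y))).trans (Category.comp_id _)).symm⟩)
    fun X Y h _ φ e => ⟨_, _, knlW_counit m h, by
      rw [← (a.bs.adj m).counit_naturality, e, Functor.map_zero, zero_comp]⟩
  thick X h e := ⟨h.1, fun j l => by
    rcases l.eq_or_lt with rfl | l
    · exact e
    · exact h.2 j l⟩
  maps _ h := h.1.1 m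
  surj Y h := ⟨_, knlW_L m h, have := a.bs.unit m Y; ⟨(asIso ((a.bs.adj m).unit.app Y)).symm⟩⟩

theorem Z_W (z : ∀ j, j < n → Subsingleton (Kn j a S)) :
    ∀ j, j < n → Subsingleton (Kn j a.B (W S)) := fun j hj => by
  have k : ∀ m, Subsingleton (Kn j a.B (knlW S m)) := fun m => by
    induction m with
    | zero => exact knl_zero (fun X h => a.bs.cons X fun i => h.2 i i.zero_le) j
    | succ m ih =>
      exact (loc_inc_surj j (knlW_loc (S := S) m) fun i l => z i (l.trans_lt hj)).subsingleton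
  have e : ∀ x : Kn j a.B (W S), x = 0 := fun x => by
    obtain ⟨m, y, rfl⟩ := union_surj j (knlW S)
      (fun p q => ⟨max p q, knlW_mono (le_max_left ..), knlW_mono (le_max_right ..)⟩)
      (fun _ => inf_le_left) (fun X h => h.2.imp fun _ c => ⟨h, c⟩) x
    rw [(k m).elim y 0, map_zero]
  exact ⟨fun x y => (e x).trans (e y).symm⟩

end Am

end Pool.Agent.Lib.MP_5d3e93_al.Gr
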