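import Pool.Agent.Lib.MP_5d3e93_al.Gr.LocB

/-! Composition, transport and cofinal restriction of localisation sequences. -/

open CategoryTheory Limits Pretriangulated ZeroObject

namespace Pool.Agent.Lib.MP_5d3e93_al.Gr

section LocC
variable {D : Type*} [Category* D] [HasZeroObject D] [HasShift D ℤ] [Preadditive D]
  [∀ n : ℤ, (shiftFunctor D n).Additive] [Pretriangulated D] [IsTriangulated D]
variable {D' : Type*} [Category* D'] [HasZeroObject D'] [HasShift D' ℤ] [Preadditive D']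
  [∀ n : ℤ, (shiftFunctor D' n).Additive] [Pretriangulated D']
variable {E : Type*} [Category* E] [HasZeroObject E] [HasShift E ℤ] [Preadditive E]
  [∀ n : ℤ, (shiftFunctor E n).Additive] [Pretriangulated E]
variable {F : D ⥤ D'} [F.CommShift ℤ] [F.IsTriangulated] {N S : ObjectProperty D}
  {N' S' : ObjectProperty D'} [Tg N] [Tg S]

omit [IsTriangulated D] in
theorem locc_trW {X Y : D} (a : S X) (b : S Y) (s : X ⟶ Y) [IsIso (F.map s)] :
    (S ⊓ Zr.inverseImage F).trW s := by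
  obtain ⟨Z, g, k, hd⟩ := distinguished_cocone_triangle s
  exact ⟨Z, g, k, hd, S.ext_of_isTriangulatedClosed₃ _ hd a b,
    (Triangle.isZero₃_iff_isIso₁ _ (F.map_distinguished _ hd)).2 ‹_›⟩

omit [IsTriangulated D] [Tg N] in
theorem locc_inf {X Y : D} (a : S X) (b : S Y) {s : X ⟶ Y} (h : N.trW s) : (S ⊓ N).trW s := by
  obtain ⟨Z, g, k, hd, c⟩ := h
  exact ⟨Z, g, k, hd, S.ext_of_isTriangulatedClosed₃ _ hd a b, c⟩

omit [IsTriangulated D] in
theorem locc_lift (h : Loc F N S S') {X : D} (a : S X) {Y : D'} (b : S' Y) (φ : F.obj X ⟶ Y) :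
    ∃ (Z : D) (f : X ⟶ Z) (e : Y ≅ F.obj Z), S Z ∧ φ ≫ e.hom = F.map f := by
  obtain ⟨Y₁, c, ⟨e⟩⟩ := h.surj Y b
  obtain ⟨Z, t, f, ht, q⟩ := h.full a c (φ ≫ e.inv)
  have := isIso_of_kill h.kill ht
  exact ⟨Z, f, e.symm ≪≫ asIso (F.map t), (Tg.of_trW h.le ht).1 c, by simpa using q⟩

set_option linter.unusedSectionVars false in
theorem Loc.comp [IsTriangulated D'] [Tg N'] [Tg S'] {G : D' ⥤ E} [G.CommShift ℤ] [G.IsTriangulated]
    {S'' : ObjectProperty E} (h : Loc F N S S') (k : Loc G N' S' S'') :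
    Loc (F ⋙ G) (S ⊓ Zr.inverseImage (F ⋙ G)) S S'' where
  le := inf_le_left
  kill _ a := a.2
  thick _ a b := ⟨a, b⟩
  maps X a := k.maps _ (h.maps X a)
  surj Y a := by
    obtain ⟨Y₁, b, ⟨e⟩⟩ := k.surj Y a
    obtain ⟨X, c, ⟨e'⟩⟩ := h.surj Y₁ b
    exact ⟨X, c, ⟨G.mapIso e' ≪≫ e⟩⟩
  full {X Y} a b φ := by
    obtain ⟨Y', s, f, hs, q⟩ := k.full (h.maps X a) (h.maps Y b) φ
    obtain ⟨Z, s₂, e, c, q₂⟩ := locc_lift h b ((Tg.of_trW k.le hs).1 (h.maps Y b)) s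
    obtain ⟨W, t, f₃, ht, q₃⟩ := h.full a c (f ≫ e.hom)
    have := isIso_of_kill k.kill hs
    have := isIso_of_kill h.kill ht
    have : IsIso ((F ⋙ G).map (s₂ ≫ t)) := by
      rw [Functor.comp_map, F.map_comp, ← q₂, G.map_comp, G.map_comp]
      infer_instance
    refine ⟨W, s₂ ≫ t, f₃, locc_trW b ((Tg.of_trW h.le ht).1 c) _, ?_⟩
    rw [Functor.comp_map, Functor.comp_map, F.map_comp, ← q₂, ← q₃]
    simp only [G.map_comp, ← q, Category.assoc]
  faith {X Y} a b f z := by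
    obtain ⟨Y', s, hs, q⟩ := k.faith (h.maps X a) (h.maps Y b) (F.map f) z
    obtain ⟨Z, s₂, e, c, q₂⟩ := locc_lift h b ((Tg.of_trW k.le hs).1 (h.maps Y b)) s
    obtain ⟨W, t, ht, q₃⟩ := h.faith a c (f ≫ s₂) (by
      rw [F.map_comp, ← q₂, reassoc_of% q, zero_comp])
    have := isIso_of_kill k.kill hs
    have := isIso_of_kill h.kill ht
    have : IsIso ((F ⋙ G).map (s₂ ≫ t)) := by
      rw [Functor.comp_map, F.map_comp, ← q₂, G.map_comp, G.map_comp]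
      infer_instance
    exact ⟨W, s₂ ≫ t, locc_trW b ((Tg.of_trW h.le ht).1 c) _, by rw [← q₃, Category.assoc]⟩

set_option linter.unusedSectionVars false in
theorem Loc.of_iso {F' : D ⥤ D'} (e : F ≅ F') [Tg S'] (h : Loc F N S S') : Loc F' N S S' where
  le := h.le
  kill X a := (h.kill X a).of_iso (e.app X).symm
  thick X a b := h.thick X a (b.of_iso (e.app X))
  maps X a := S'.prop_of_iso (e.app X) (h.maps X a)
  surj Y a := (h.surj Y a).imp fun X b => ⟨b.1, ⟨(e.app X).symm ≪≫ b.2.some⟩⟩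
  full {X Y} a b φ := by
    obtain ⟨Y', s, f, hs, q⟩ := h.full a b (e.hom.app X ≫ φ ≫ e.inv.app Y)
    refine ⟨Y', s, f, hs, (cancel_epi (e.hom.app X)).1 ?_⟩
    rw [← e.hom.naturality f, ← q, Category.assoc, Category.assoc, Category.assoc,
      e.hom.naturality s, Iso.inv_hom_id_app_assoc]
  faith {X Y} a b f z := h.faith a b f ((cancel_mono (e.hom.app Y)).1 (by
    rw [e.hom.naturality f, z, comp_zero, zero_comp]))

set_option linter.unusedSectionVars false in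
theorem Loc.ker_eq (h : Loc F N S S') : N = S ⊓ Zr.inverseImage F :=
  le_antisymm (fun X a => ⟨h.le X a, h.kill X a⟩) fun X a => h.thick X a.1 a.2

theorem Loc.cofinal (h : Loc F N S S') {S₀ : ObjectProperty D} [Tg S₀] (le : S₀ ≤ S)
    (c : ∀ X, S X → ∃ (Z : D) (s : X ⟶ Z), S₀ Z ∧ N.trW s) : Loc F (S₀ ⊓ N) S₀ S' where
  le := inf_le_left
  kill X a := h.kill X a.2
  thick X a b := ⟨a, h.thick X (le X a) b⟩
  maps := le.trans h.maps
  surj Y a := by
    obtain ⟨X, b, ⟨e⟩⟩ := h.surj Y a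
    obtain ⟨Z, s, z, hs⟩ := c X b
    have := isIso_of_kill h.kill hs
    exact ⟨Z, z, ⟨(asIso (F.map s)).symm ≪≫ e⟩⟩
  full {X Y} a b φ := by
    obtain ⟨Y', s, f, hs, q⟩ := h.full (le X a) (le Y b) φ
    obtain ⟨Z, t, z, ht⟩ := c Y' ((Tg.of_trW h.le hs).1 (le Y b))
    exact ⟨Z, s ≫ t, f ≫ t, locc_inf b z (N.trW.comp_mem _ _ hs ht), by
      rw [F.map_comp, F.map_comp, reassoc_of% q]⟩
  faith {X Y} a b f e := by
    obtain ⟨Y', s, hs, q⟩ := h.faith (le X a) (le Y b) f e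
    obtain ⟨Z, t, z, ht⟩ := c Y' ((Tg.of_trW h.le hs).1 (le Y b))
    exact ⟨Z, s ≫ t, locc_inf b z (N.trW.comp_mem _ _ hs ht), by rw [reassoc_of% q, zero_comp]⟩

theorem Loc.cofinal' (h : Loc F N S S') {S₀ : ObjectProperty D} [Tg S₀] (le : S₀ ≤ S)
    (c : ∀ X, S X → ∃ (Z : D) (s : Z ⟶ X), S₀ Z ∧ N.trW s) : Loc F (S₀ ⊓ N) S₀ S' where
  toLocOn := locOn_of_gen (G := S₀) inf_le_left (fun X a => h.kill X a.2) (fun _ => Cl.of)
    (fun X Y a b φ => by
      obtain ⟨X', s, f, hs, q⟩ := h.toLocOn.full' (le X a) (le Y b) φ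
      obtain ⟨Z, t, z, ht⟩ := c X' ((Tg.of_trW h.le hs).2 (le X a))
      exact ⟨Z, t ≫ s, t ≫ f, locc_inf z a (N.trW.comp_mem _ _ ht hs), by
        rw [F.map_comp, F.map_comp, Category.assoc, q]⟩)
    fun X Y a b f e => by
      obtain ⟨X', s, hs, q⟩ := h.toLocOn.faith' (le X a) (le Y b) f e
      obtain ⟨Z, t, z, ht⟩ := c X' ((Tg.of_trW h.le hs).2 (le X a))
      exact ⟨Z, t ≫ s, locc_inf z a (N.trW.comp_mem _ _ ht hs), by
        rw [Category.assoc, q, comp_zero]⟩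
  thick X a b := ⟨a, h.thick X (le X a) b⟩
  maps := le.trans h.maps
  surj Y a := by
    obtain ⟨X, b, ⟨e⟩⟩ := h.surj Y a
    obtain ⟨Z, s, z, hs⟩ := c X b
    have := isIso_of_kill h.kill hs
    exact ⟨Z, z, ⟨asIso (F.map s) ≪≫ e⟩⟩

end LocC

end Pool.Agent.Lib.MP_5d3e93_al.Gr
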