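import Pool.Agent.Lib.MP_5d3e93_al.Gr.Am

/-! Derived functors are 2-functorial. -/

open CategoryTheory Limits Pretriangulated ZeroObject

namespace Pool.Agent.Lib.MP_5d3e93_al.Gr

universe v u v' u' v'' u''

theorem nat_hid {C : Type*} [Category* C] {C' : Type*} [Category* C'] (S : C ⥤ C') {A : C'}
    {Y : C} {p q : A ⟶ S.obj Y} (h : p ≫ S.map (𝟙 Y) = 𝟙 A ≫ q) : p = q := by
  simpa using h

theorem nat_sq {C : Type*} [Category* C] {A A' A₁ B B' E E' F' : C} (e : A ⟶ A') [Epi e]
    {c₁ : A' ⟶ B} {t : B ⟶ B'} {s : A' ⟶ E'} {c₂ : E' ⟶ B'} {p : A ⟶ A₁} {q : A₁ ⟶ B}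
    {s' : A ⟶ E} {e' : E ⟶ E'} {p' : E ⟶ F'} {q' : F' ⟶ B'} {t' : A₁ ⟶ F'}
    (h₁ : e ≫ c₁ = p ≫ q) (h₂ : e' ≫ c₂ = p' ≫ q') (h₃ : e ≫ s = s' ≫ e')
    (h₄ : t' ≫ q' = q ≫ t) (h₅ : p ≫ t' = s' ≫ p') : c₁ ≫ t = s ≫ c₂ := by
  rw [← cancel_epi e, reassoc_of% h₁, reassoc_of% h₃, h₂, ← h₄, reassoc_of% h₅]

namespace Am

variable {a : Am.{v, u}} {b : Am.{v', u'}} {c : Am.{v'', u''}}

/-- Complexes as objects of the derived category. -/
noncomputable abbrev nq (a : Am.{v, u}) : CochainComplex a.A ℤ ⥤ a.D :=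
  HomotopyCategory.quotient _ _ ⋙ a.Q

theorem nq_ind {P : a.D → Prop} (h : ∀ K, P (a.nq.obj K)) (X : a.D) : P X := by
  obtain ⟨K, rfl⟩ := a.exists_cx X
  exact h K

theorem Map.nq_map (f : Map a b) {K L : CochainComplex a.A ℤ} (φ : K ⟶ L) :
    f.D.map (a.nq.map φ) = b.nq.map ((f.F.mapHomologicalComplex _).map φ) := f.D_map _

theorem Map.nq_nat (f g : Map a b) (α : f.F ⟶ g.F) (K : CochainComplex a.A ℤ) :
    (f.nat g α).app (a.nq.obj K) = b.nq.map ((NatTrans.mapHomologicalComplex α _).app K) :=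
  f.nat_app g α _

theorem Map.comp_D (f : Map a b) (g : Map b c) : (f.comp g).D = f.D ⋙ g.D := by
  apply Localization.Construction.uniq
  rw [(f.comp g).fac, ← Functor.assoc, f.fac, Functor.assoc, g.fac, ← Functor.assoc]
  congr 1
  refine CategoryTheory.Functor.ext (fun _ => rfl) ?_
  rintro ⟨K⟩ ⟨L⟩ ⟨φ⟩
  exact ((Category.id_comp _).trans (Category.comp_id _)).symm

theorem Map.comp_map (f : Map a b) (g : Map b c) {X Y : a.D} (φ : X ⟶ Y) :
    (f.comp g).D.map φ = g.D.map (f.D.map φ) :=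
  (Functor.congr_hom (f.comp_D g) φ).trans ((Category.id_comp _).trans (Category.comp_id _))

theorem idm_D : a.idm.D = 𝟭 _ := by
  apply Localization.Construction.uniq
  rw [a.idm.fac]
  refine CategoryTheory.Functor.ext (fun _ => rfl) ?_
  rintro ⟨K⟩ ⟨L⟩ ⟨φ⟩
  exact ((Category.id_comp _).trans (Category.comp_id _)).symm

theorem idm_map {X Y : a.D} (φ : X ⟶ Y) : a.idm.D.map φ = φ :=
  (Functor.congr_hom idm_D φ).trans ((Category.id_comp _).trans (Category.comp_id _))

/-- The derived functor of a composition. -/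
noncomputable def Map.compD (f : Map a b) (g : Map b c) : (f.comp g).D ≅ f.D ⋙ g.D :=
  NatIso.ofComponents (fun _ => Iso.refl _) fun φ =>
    (Category.comp_id _).trans ((f.comp_map g φ).trans (Category.id_comp _).symm)

/-- The derived functor of the identity. -/
noncomputable def idD (a : Am.{v, u}) : a.idm.D ≅ 𝟭 _ :=
  NatIso.ofComponents (fun _ => Iso.refl _) fun φ =>
    (Category.comp_id _).trans ((idm_map φ).trans (Category.id_comp _).symm)

theorem Map.cs_K (f : Map a b) (n : ℤ) (K : CochainComplex a.A ℤ) :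
    f.K.map (((HomotopyCategory.quotient _ _).commShiftIso n).hom.app K) ≫
      (f.K.commShiftIso n).hom.app ((HomotopyCategory.quotient _ _).obj K) =
    (HomotopyCategory.quotient _ _).map
      (((f.F.mapHomologicalComplex _).commShiftIso n).hom.app K) ≫
      ((HomotopyCategory.quotient _ _).commShiftIso n).hom.app
        ((f.F.mapHomologicalComplex _).obj K) := by
  have h := NatTrans.shift_app_comm
    (f.F.mapHomotopyCategoryFactors (ComplexShape.up ℤ)).hom n K
  have e : ∀ K, (f.F.mapHomotopyCategoryFactors (ComplexShape.up ℤ)).hom.app K = 𝟙 _ :=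
    fun _ => rfl
  rw [e, e, Functor.commShiftIso_comp_hom_app, Functor.commShiftIso_comp_hom_app] at h
  exact nat_hid (shiftFunctor _ n) h

theorem Map.cs_D (f : Map a b) (n : ℤ) (X : Kh a.A) :
    f.D.map ((a.Q.commShiftIso n).hom.app X) ≫ (f.D.commShiftIso n).hom.app (a.Q.obj X) =
      b.Q.map ((f.K.commShiftIso n).hom.app X) ≫ (b.Q.commShiftIso n).hom.app (f.K.obj X) := by
  have := NatTrans.commShift_iso_hom_of_localization a.Q a.T.trW ℤ (f.K ⋙ b.Q) f.D
  have h := NatTrans.shift_app_comm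
    (Localization.Lifting.iso a.Q a.T.trW (f.K ⋙ b.Q) f.D).hom n X
  have e : ∀ X, (Localization.Lifting.iso a.Q a.T.trW (f.K ⋙ b.Q) f.D).hom.app X = 𝟙 _ :=
    fun X => eqToHom_app f.fac X
  rw [e, e, Functor.commShiftIso_comp_hom_app, Functor.commShiftIso_comp_hom_app] at h
  exact nat_hid (shiftFunctor _ n) h

theorem Map.cs_nq (f : Map a b) (n : ℤ) (K : CochainComplex a.A ℤ) :
    f.D.map ((a.nq.commShiftIso n).hom.app K) ≫ (f.D.commShiftIso n).hom.app (a.nq.obj K) =
      b.nq.map (((f.F.mapHomologicalComplex _).commShiftIso n).hom.app K) ≫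
        (b.nq.commShiftIso n).hom.app ((f.F.mapHomologicalComplex _).obj K) := by
  rw [Functor.commShiftIso_comp_hom_app, Functor.commShiftIso_comp_hom_app, Functor.map_comp,
    Category.assoc]
  refine (congrArg _ (f.cs_D n _)).trans ?_
  have k := ((b.Q.map_comp _ _).symm.trans (congrArg b.Q.map (f.cs_K n K))).trans
    (b.Q.map_comp _ _)
  rw [f.D_map]
  exact ((Category.assoc _ _ _).symm.trans (congrArg (· ≫ _) k)).trans (Category.assoc _ _ _)

instance (f : Map a b) (g : Map b c) : NatTrans.CommShift (f.compD g).hom ℤ := ⟨fun n => by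
  ext X
  induction X using nq_ind with | h K => ?_
  have h1 := (f.comp g).cs_nq n K
  have h2 := (((g.D.map_comp _ _).symm.trans (congrArg g.D.map (f.cs_nq n K))).trans
    (g.D.map_comp _ _)).trans (congrArg (· ≫ _) (g.nq_map _))
  have h3 := g.cs_nq n ((f.F.mapHomologicalComplex _).obj K)
  have h5 : (((f.comp g).F.mapHomologicalComplex _).commShiftIso n).hom.app K =
      (g.F.mapHomologicalComplex _).map
        (((f.F.mapHomologicalComplex _).commShiftIso n).hom.app K) ≫
      ((g.F.mapHomologicalComplex _).commShiftIso n).hom.app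
        ((f.F.mapHomologicalComplex _).obj K) := by
    ext i
    exact ((Category.comp_id _).trans (g.F.map_id _)).symm
  have h6 : ((f.comp g).D.commShiftIso n).hom.app (a.nq.obj K) =
      g.D.map ((f.D.commShiftIso n).hom.app (a.nq.obj K)) ≫
        (g.D.commShiftIso n).hom.app (f.D.obj (a.nq.obj K)) := by
    refine (cancel_epi ((f.comp g).D.map ((a.nq.commShiftIso n).hom.app K))).1 (h1.trans ?_)
    rw [h5, f.comp_map g]
    refine Eq.trans ?_ (Category.assoc _ _ _)
    refine Eq.trans ?_ (congrArg (· ≫ _) h2.symm)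
    refine Eq.trans ?_ (Category.assoc _ _ _).symm
    refine Eq.trans ?_ (congrArg (_ ≫ ·) h3.symm)
    exact (congrArg (· ≫ _) (c.nq.map_comp _ _)).trans (Category.assoc _ _ _)
  refine Eq.trans (congrArg (_ ≫ ·) ((shiftFunctor c.D n).map_id _)) ?_
  refine (Category.comp_id _).trans (h6.trans ?_)
  exact ((Category.id_comp _).trans (Functor.commShiftIso_comp_hom_app ..)).symm⟩

instance : NatTrans.CommShift a.idD.hom ℤ := ⟨fun n => by
  ext X
  induction X using nq_ind with | h K => ?_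
  have h1 := a.idm.cs_nq n K
  have h5 : ((a.idm.F.mapHomologicalComplex _).commShiftIso n).hom.app K = 𝟙 _ := by
    ext i
    rfl
  have h6 : (a.idm.D.commShiftIso n).hom.app (a.nq.obj K) = 𝟙 _ := by
    refine (cancel_epi (a.idm.D.map ((a.nq.commShiftIso n).hom.app K))).1 (h1.trans ?_)
    rw [h5, idm_map]
    exact ((congrArg (· ≫ _) (a.nq.map_id _)).trans (Category.id_comp _)).trans
      (Category.comp_id _).symm
  refine Eq.trans (congrArg (_ ≫ ·) ((shiftFunctor a.D n).map_id _)) ?_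
  refine (Category.comp_id _).trans (h6.trans ?_)
  exact ((Category.id_comp _).trans (Functor.commShiftIso_id_hom_app ..)).symm⟩

instance (f g : Map a b) (α : f.F ⟶ g.F) : NatTrans.CommShift (f.nat g α) ℤ := ⟨fun n => by
  ext X
  induction X using nq_ind with | h K => ?_
  have h3 := (f.nat g α).naturality ((a.nq.commShiftIso n).hom.app K)
  have h4 := (b.nq.commShiftIso n).hom.naturality ((NatTrans.mapHomologicalComplex α _).app K)
  have h5 : ((f.F.mapHomologicalComplex _).commShiftIso n).hom.app K ≫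
      ((NatTrans.mapHomologicalComplex α _).app K)⟦n⟧' =
      (NatTrans.mapHomologicalComplex α _).app (K⟦n⟧) ≫
        ((g.F.mapHomologicalComplex _).commShiftIso n).hom.app K := by
    ext i
    exact (Category.id_comp _).trans (Category.comp_id _).symm
  have h6 := congrArg b.nq.map h5
  rw [Functor.map_comp, Functor.map_comp, ← f.nq_nat g α] at h6
  refine nat_sq _ (f.cs_nq n K) (g.cs_nq n K) h3 (h4.trans ?_) h6
  exact congrArg (fun t => _ ≫ (shiftFunctor b.D n).map t) (f.nq_nat g α K).symm⟩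

theorem Map.nat_id (f : Map a b) : f.nat f (𝟙 _) = 𝟙 _ := by
  ext X
  induction X using nq_ind with | h K => ?_
  exact (f.nq_nat f _ K).trans (b.nq.map_id _)

theorem Map.nat_comp (f g h : Map a b) (α : f.F ⟶ g.F) (β : g.F ⟶ h.F) :
    f.nat h (α ≫ β) = f.nat g α ≫ g.nat h β := by
  ext X
  induction X using nq_ind with | h K => ?_
  rw [NatTrans.comp_app, nq_nat, nq_nat, nq_nat]
  exact b.nq.map_comp ((NatTrans.mapHomologicalComplex α _).app K)
    ((NatTrans.mapHomologicalComplex β _).app K)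

theorem Map.nat_add (f g : Map a b) (α β : f.F ⟶ g.F) :
    f.nat g (α + β) = f.nat g α + f.nat g β := by
  ext X
  induction X using nq_ind with | h K => ?_
  rw [NatTrans.app_add, nq_nat, nq_nat, nq_nat]
  exact b.nq.map_add (f := (NatTrans.mapHomologicalComplex α _).app K)
    (g := (NatTrans.mapHomologicalComplex β _).app K)

theorem Map.nat_zero (f g : Map a b) : f.nat g 0 = 0 := by
  have h := f.nat_add g 0 0
  rw [add_zero] at h
  exact left_eq_add.1 h

theorem Map.map_nat (f g : Map a b) (h : Map b c) (α : f.F ⟶ g.F) (X : a.D) :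
    h.D.map ((f.nat g α).app X) =
      ((f.comp h).nat (g.comp h) (Functor.whiskerRight α h.F)).app X := by
  induction X using nq_ind with | h K => ?_
  rw [nq_nat, nq_nat]
  exact h.nq_map _

theorem Map.nat_obj (f : Map a b) (g h : Map b c) (α : g.F ⟶ h.F) (X : a.D) :
    (g.nat h α).app (f.D.obj X) =
      ((f.comp g).nat (f.comp h) (Functor.whiskerLeft f.F α)).app X := by
  induction X using nq_ind with | h K => ?_
  rw [nq_nat]
  exact g.nq_nat h α ((f.F.mapHomologicalComplex _).obj K)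

/-- The isomorphism of derived functors induced by one of additive functors. -/
noncomputable def Map.natIso (f g : Map a b) (e : f.F ≅ g.F) : f.D ≅ g.D :=
  ⟨f.nat g e.hom, g.nat f e.inv, by rw [← Map.nat_comp, e.hom_inv_id, Map.nat_id],
    by rw [← Map.nat_comp, e.inv_hom_id, Map.nat_id]⟩

theorem Map.exists_adj (f : Map a b) (g : Map b a) (ad : f.F ⊣ g.F) : ∃ ad' : f.D ⊣ g.D,
    (∀ X, ad'.unit.app X = (a.idm.nat (f.comp g) ad.unit).app X) ∧
      ∀ Y, ad'.counit.app Y = ((g.comp f).nat b.idm ad.counit).app Y := by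
  have hu : ∀ X, (a.idD.inv ≫ a.idm.nat (f.comp g) ad.unit ≫ (f.compD g).hom).app X =
      (a.idm.nat (f.comp g) ad.unit).app X := fun X =>
    (Category.id_comp _).trans (Category.comp_id _)
  have hc : ∀ Y, ((g.compD f).inv ≫ (g.comp f).nat b.idm ad.counit ≫ b.idD.hom).app Y =
      ((g.comp f).nat b.idm ad.counit).app Y := fun X =>
    (Category.id_comp _).trans (Category.comp_id _)
  refine ⟨⟨_, _, fun X => ?_, fun Y => ?_⟩, hu, hc⟩
  · rw [hu, hc]
    induction X using nq_ind with | h K => ?_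
    rw [nq_nat]
    refine (congrArg₂ (· ≫ ·) (f.nq_map _) ((g.comp f).nq_nat b.idm ad.counit
      ((f.F.mapHomologicalComplex _).obj K))).trans ((b.nq.map_comp _ _).symm.trans ?_)
    refine (congrArg b.nq.map ?_).trans (b.nq.map_id _)
    ext i
    exact ad.left_triangle_components _
  · rw [hu, hc]
    induction Y using nq_ind with | h K => ?_
    rw [nq_nat]
    refine (congrArg₂ (· ≫ ·) (a.idm.nq_nat (f.comp g) ad.unit
      ((g.F.mapHomologicalComplex _).obj K)) (g.nq_map _)).trans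
        ((a.nq.map_comp _ _).symm.trans ?_)
    refine (congrArg a.nq.map ?_).trans (a.nq.map_id _)
    ext i
    exact ad.right_triangle_components _

theorem Map.isZero (f : Map a b) (h : ∀ X, IsZero (f.F.obj X)) (Y : a.D) :
    IsZero (f.D.obj Y) := by
  have e : 𝟙 f.F = 0 := by
    ext X
    exact (h X).eq_of_src _ _
  have k := f.nat_id
  rw [e, nat_zero] at k
  exact (IsZero.iff_id_eq_zero _).2 (NatTrans.congr_app k Y).symm

theorem Map.biprod (f f₁ f₂ : Map a b) (p₁ : f.F ⟶ f₁.F) (p₂ : f.F ⟶ f₂.F) (i₁ : f₁.F ⟶ f.F)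
    (i₂ : f₂.F ⟶ f.F) (h₁ : i₁ ≫ p₁ = 𝟙 _) (h₂ : i₂ ≫ p₂ = 𝟙 _) (h₃ : p₁ ≫ i₁ + p₂ ≫ i₂ = 𝟙 _)
    (X : a.D) : IsIso (biprod.lift ((f.nat f₁ p₁).app X) ((f.nat f₂ p₂).app X)) := by
  have e₁ : i₁ ≫ p₂ = 0 := by
    have k : p₂ = p₁ ≫ i₁ ≫ p₂ + p₂ := by
      conv_lhs => rw [← Category.id_comp p₂, ← h₃]
      rw [Preadditive.add_comp, Category.assoc, Category.assoc, h₂, Category.comp_id]
    have k' := congrArg (i₁ ≫ ·) (right_eq_add.1 k)
    simpa [reassoc_of% h₁] using k'
  have e₂ : i₂ ≫ p₁ = 0 := by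
    have k : p₁ = p₁ + p₂ ≫ i₂ ≫ p₁ := by
      conv_lhs => rw [← Category.id_comp p₁, ← h₃]
      rw [Preadditive.add_comp, Category.assoc, Category.assoc, h₁, Category.comp_id]
    have k' := congrArg (i₂ ≫ ·) (left_eq_add.1 k)
    simpa [reassoc_of% h₂] using k'
  have m : ∀ {g g' g'' : Map a b} (α : g.F ⟶ g'.F) (β : g'.F ⟶ g''.F),
      (g.nat g' α).app X ≫ (g'.nat g'' β).app X = (g.nat g'' (α ≫ β)).app X := fun α β => by
    rw [nat_comp, NatTrans.comp_app]
  refine ⟨Limits.biprod.desc ((f₁.nat f i₁).app X) ((f₂.nat f i₂).app X), ?_, ?_⟩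
  · rw [biprod.lift_desc, m, m, ← NatTrans.app_add, ← nat_add, h₃, nat_id, NatTrans.id_app]
  · ext <;> simp [m, h₁, h₂, e₁, e₂, nat_id, nat_zero]

/-- Derived functors of single objects. -/
theorem Map.sg_iso (f : Map a b) : Nonempty (a.sg ⋙ f.D ≅ f.F ⋙ b.sg) :=
  ⟨NatIso.ofComponents (fun X => b.nq.mapIso
    ((HomologicalComplex.singleMapHomologicalComplex f.F (ComplexShape.up ℤ) 0).app X))
    fun φ => by
      have k := congrArg b.nq.map
        ((HomologicalComplex.singleMapHomologicalComplex f.F (ComplexShape.up ℤ) 0).hom.naturality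
          φ)
      rw [Functor.map_comp, Functor.map_comp] at k
      exact (congrArg (· ≫ _) (f.nq_map _)).trans k⟩

theorem Map.gen_map (f : Map a b) {P : ObjectProperty a.A} {P' : ObjectProperty b.A}
    (h : P ≤ P'.inverseImage f.F) : a.gen P ≤ (b.gen P').inverseImage f.D := by
  obtain ⟨e⟩ := f.sg_iso
  have : Tg (b.gen P') := inferInstanceAs (Tg (Cl _))
  refine Cl.le ?_
  rintro _ ⟨X, hX, ⟨i⟩⟩
  exact Cl.iso ((e.app X).symm ≪≫ f.D.mapIso i) (Cl.of ⟨_, h X hX, ⟨Iso.refl _⟩⟩)

theorem Map.bdd_map (f : Map a b) : a.bdd ≤ b.bdd.inverseImage f.D :=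
  f.gen_map fun _ _ => trivial

end Am

end Pool.Agent.Lib.MP_5d3e93_al.Gr
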