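import Pool.Agent.Lib.MP_5d3e93_al.Gr.W2
import Pool.Agent.Lib.MP_5d3e93_al.Gr.Nat
import Pool.Agent.Lib.MP_5d3e93_al.Gr.LocC

/-! Split categories, projective objects and the pro-adjoint criterion. -/

open CategoryTheory Limits Pretriangulated ZeroObject

namespace Pool.Agent.Lib.MP_5d3e93_al.Gr

universe v u v' u' v'' u''

/-- Objects in degree zero form a full subcategory of the homotopy category. -/
theorem of_single_bij {C : Type u} [Category.{v} C] [Preadditive C] [HasZeroObject C] (X Y : C) :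
    Function.Bijective ((HomotopyCategory.singleFunctor C 0).map : (X ⟶ Y) → _) := by
  refine ⟨fun f g h => ?_, fun φ => ?_⟩
  · have k : Homotopy ((CochainComplex.singleFunctor C 0).map f)
        ((CochainComplex.singleFunctor C 0).map g) := HomotopyCategory.homotopyOfEq _ _ h
    refine (CochainComplex.singleFunctor C 0).map_injective
      (HomologicalComplex.from_single_hom_ext ?_)
    have e := k.comm 0
    rw [dNext_eq _ (show (ComplexShape.up ℤ).Rel 0 1 by simp),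
      prevD_eq _ (show (ComplexShape.up ℤ).Rel (-1) 0 by simp)] at e
    simpa using! e
  · obtain ⟨ψ, rfl⟩ := (HomotopyCategory.quotient C (ComplexShape.up ℤ)).map_surjective
      (X := (CochainComplex.singleFunctor C 0).obj X)
      (Y := (CochainComplex.singleFunctor C 0).obj Y) φ
    obtain ⟨f, rfl⟩ := (CochainComplex.singleFunctor C 0).map_surjective ψ
    exact ⟨f, rfl⟩

namespace Am

variable {a : Am.{v, u}} {b : Am.{v', u'}}

section Of
variable {A : Type (max u v)} [Category.{v} A] [Preadditive A] [HasZeroObject A]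
  [HasBinaryBiproducts A]

theorem of_Q_ff : FF (of A).Q ⊤ := fun _ Y _ _ =>
  ObjectProperty.leftOrthogonal.map_bijective_of_isTriangulated (P := (of A).T)
    (fun _ _ h => IsZero.eq_of_tgt h _ _) (of A).Q Y

theorem of_Tb (X : Kh A) : (of A).Tb X ↔ IsZero X :=
  ⟨fun h => (IsZero.iff_id_eq_zero _).2
    ((of_Q_ff (A := A) (X := X) (Y := X) trivial trivial).1 (IsZero.eq_of_src h _ _)),
    fun h => (of A).Q.map_isZero h⟩

theorem of_pj (X : A) : (of A).Pj X := fun _ h _ => IsZero.eq_of_tgt h _ _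

theorem Q_loc (a : Am.{v, u}) : Loc a.Q a.Tb ⊤ ⊤ :=
  have h : LocOn a.Q a.T ⊤ := locOn_of_isLocalization le_top
  { le := le_top
    kill := fun _ k => k
    full := fun p q φ => by
      obtain ⟨Y', s, f, k, e⟩ := h.full p q φ
      exact ⟨Y', s, f, ObjectProperty.trW_monotone a.le_Tb _ k, e⟩
    faith := fun p q f e => by
      obtain ⟨Y', s, k, e⟩ := h.faith p q f e
      exact ⟨Y', s, ObjectProperty.trW_monotone a.le_Tb _ k, e⟩
    thick := fun _ _ k => k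
    maps := fun _ _ => trivial
    surj := fun Y _ => by
      obtain ⟨K, rfl⟩ := a.exists_cx Y
      exact ⟨_, trivial, ⟨Iso.refl _⟩⟩ }

theorem ρ_map (a : Am.{v, u}) {X Y : Kh a.A} (φ : X ⟶ Y) :
    a.ρ.D.map ((of a.A).Q.map φ) = a.Q.map φ := by
  refine (a.ρ.D_map φ).trans (congrArg a.Q.map ?_)
  obtain ⟨φ⟩ := φ
  rfl

theorem ρ_loc (a : Am.{v, u}) : Loc a.ρ.D (a.ρ.ker ⊤) ⊤ ⊤ :=
  have w : ∀ {X Y : Kh a.A} {s : X ⟶ Y}, a.Tb.trW s → (a.ρ.ker ⊤).trW ((of a.A).Q.map s) :=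
    fun {_ _ s} k => by
      have : IsIso (a.ρ.D.map ((of a.A).Q.map s)) := by
        rw [ρ_map]
        exact isIso_of_kill a.Q_loc.kill k
      exact locc_trW trivial trivial _
  { le := le_top
    kill := fun _ k => k.2
    full := fun {X Y} _ _ φ => by
      obtain ⟨K, rfl⟩ := (of a.A).exists_cx X
      obtain ⟨L, rfl⟩ := (of a.A).exists_cx Y
      obtain ⟨Y', s, f, k, e⟩ := a.Q_loc.full (X := (HomotopyCategory.quotient _ _).obj K)
        (Y := (HomotopyCategory.quotient _ _).obj L) trivial trivial φ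
      refine ⟨_, (of a.A).Q.map s, (of a.A).Q.map f, w k, ?_⟩
      rw [ρ_map, ρ_map]
      exact e
    faith := fun {X Y} _ _ f e => by
      obtain ⟨K, rfl⟩ := (of a.A).exists_cx X
      obtain ⟨L, rfl⟩ := (of a.A).exists_cx Y
      obtain ⟨f, rfl⟩ := (of_Q_ff (A := a.A) trivial trivial).2 f
      obtain ⟨Y', s, k, e⟩ := a.Q_loc.faith trivial trivial f ((a.ρ_map f).symm.trans e)
      exact ⟨_, (of a.A).Q.map s, w k, (((of a.A).Q.map_comp _ _).symm.trans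
        (congrArg _ e)).trans ((of a.A).Q.map_zero _ _)⟩
    thick := fun _ _ k => ⟨trivial, k⟩
    maps := fun _ _ => trivial
    surj := fun Y _ => by
      obtain ⟨K, rfl⟩ := a.exists_cx Y
      exact ⟨(of a.A).Q.obj ((HomotopyCategory.quotient _ _).obj K), trivial, ⟨Iso.refl _⟩⟩ }

theorem Pj.Q_bij {X : a.A} (h : a.Pj X) (Y : Kh a.A) : Function.Bijective
    (a.Q.map : ((HomotopyCategory.singleFunctor a.A 0).obj X ⟶ Y) → _) :=
  ObjectProperty.leftOrthogonal.map_bijective_of_isTriangulated (P := a.T)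
    (fun t φ k => h t k φ) a.Q Y

theorem Pj.sg_bij {X : a.A} (h : a.Pj X) (Y : a.A) :
    Function.Bijective (a.sg.map : (X ⟶ Y) → _) :=
  (h.Q_bij _).comp (of_single_bij X Y)

theorem Pj.cx_zero {X : a.A} (h : a.Pj X) (K : CochainComplex a.A ℤ) (k : IsZero (K.X 0))
    (φ : a.sg.obj X ⟶ a.nq.obj K) : φ = 0 := by
  obtain ⟨ψ, rfl⟩ := (h.Q_bij ((HomotopyCategory.quotient _ _).obj K)).2 φ
  obtain ⟨χ, rfl⟩ := (HomotopyCategory.quotient a.A (ComplexShape.up ℤ)).map_surjective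
    (X := (CochainComplex.singleFunctor a.A 0).obj X) ψ
  obtain rfl : χ = 0 := HomologicalComplex.from_single_hom_ext (k.eq_of_tgt _ _)
  exact a.nq.map_zero _ _

theorem Pj.ext_zero {X : a.A} (h : a.Pj X) (Y : a.A) {n : ℤ} (hn : n ≠ 0)
    (φ : a.sg.obj X ⟶ (a.sg.obj Y)⟦n⟧) : φ = 0 := by
  have e : a.nq.obj (((CochainComplex.singleFunctor a.A 0).obj Y)⟦n⟧) ≅ (a.sg.obj Y)⟦n⟧ :=
    (a.nq.commShiftIso n).app _
  rw [← cancel_mono e.inv, zero_comp]
  exact h.cx_zero _ (HomologicalComplex.isZero_single_obj_X (ComplexShape.up ℤ) 0 Y (0 + n)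
    (by simpa using hn)) _

/-- A left adjoint of a map preserves projectives. -/
theorem Pj.adj (g : Map a b) {L : b.A ⥤ a.A} (ad : L ⊣ g.F) {X : b.A} (h : b.Pj X) :
    a.Pj (L.obj X) := by
  have := ad.left_adjoint_additive
  rintro ⟨t⟩ ht φ
  let K := (CochainComplex.singleFunctor b.A 0).obj X
  let e : (L.mapHomologicalComplex _).obj K ≅ (CochainComplex.singleFunctor a.A 0).obj (L.obj X) :=
    (HomologicalComplex.singleMapHomologicalComplex L (ComplexShape.up ℤ) 0).app X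
  obtain ⟨ψ, rfl⟩ := (HomotopyCategory.quotient a.A (ComplexShape.up ℤ)).map_surjective
    (X := (CochainComplex.singleFunctor a.A 0).obj (L.obj X)) (Y := t) φ
  let χ : K ⟶ (g.F.mapHomologicalComplex _).obj t :=
    (NatTrans.mapHomologicalComplex ad.unit _).app K ≫
      (g.F.mapHomologicalComplex _).map (e.hom ≫ ψ)
  let ε : (L.mapHomologicalComplex _).obj ((g.F.mapHomologicalComplex _).obj t) ⟶ t :=
    (NatTrans.mapHomologicalComplex ad.counit _).app t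
  have h1 : (HomotopyCategory.quotient _ _).map χ = 0 :=
    (h.Q_bij (g.K.obj ⟨t⟩)).1 (IsZero.eq_of_tgt (g.hT _ ht) _ _)
  have h2 : ψ = e.inv ≫ (L.mapHomologicalComplex _).map χ ≫ ε := by
    rw [Iso.eq_inv_comp]
    refine HomologicalComplex.hom_ext _ _ fun i => ?_
    exact ((ad.homEquiv _ _).symm_apply_apply _).symm.trans
      ((congrArg _ (ad.homEquiv_unit _ _ _)).trans (ad.homEquiv_counit _ _ _))
  have h3 : (HomotopyCategory.quotient _ _).map ((L.mapHomologicalComplex _).map χ) = 0 :=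
    (congrArg (L.mapHomotopyCategory _).map h1).trans (Functor.map_zero _ _ _)
  rw [h2, Functor.map_comp, Functor.map_comp, h3, zero_comp]
  exact comp_zero

theorem Map.of_zero (f : Map a b) {g : a.A} (h : b.Pj (f.F.obj g)) (P : a.A) {n : ℤ} (hn : n ≠ 0)
    (φ : f.D.obj (a.sg.obj g) ⟶ f.D.obj ((a.sg.obj P)⟦n⟧)) : φ = 0 := by
  obtain ⟨e⟩ := f.sg_iso
  have i : b.sg.obj (f.F.obj g) ≅ f.D.obj (a.sg.obj g) := (e.app g).symm
  have j : f.D.obj ((a.sg.obj P)⟦n⟧) ≅ (b.sg.obj (f.F.obj P))⟦n⟧ :=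
    (f.D.commShiftIso n).app _ ≪≫ (shiftFunctor _ n).mapIso (e.app P)
  rw [← cancel_mono j.hom, ← cancel_epi i.hom, zero_comp, comp_zero]
  exact h.ext_zero _ hn _

theorem Map.of_iso (f : Map a b) : ∃ e : ∀ X, f.D.obj (a.sg.obj X) ≅ b.sg.obj (f.F.obj X),
    ∀ {X Y} (φ : X ⟶ Y), f.D.map (a.sg.map φ) = (e X).hom ≫ b.sg.map (f.F.map φ) ≫ (e Y).inv := by
  obtain ⟨e⟩ := f.sg_iso
  exact ⟨fun X => e.app X, fun φ => (NatIso.naturality_2 e φ).symm⟩

theorem of_gen_le (G : ObjectProperty a.A) :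
    a.gen G ≤ Cl fun Y => ∃ g, G g ∧ Y = a.sg.obj g := Cl.le (by
  rintro _ ⟨g, h, ⟨i⟩⟩
  exact Cl.iso i (Cl.of ⟨g, h, rfl⟩))

theorem proadj (f : Map a b) {N : ObjectProperty a.D} [Tg N] {G G' : ObjectProperty a.A}
    (le : N ≤ a.gen G') (kill : ∀ X, N X → IsZero (f.D.obj X)) (hG : a.gen G' ≤ a.gen G)
    (pa : ∀ g, G g → a.Pj g) (pb : ∀ g, G g → b.Pj (f.F.obj g))
    (full : ∀ g P, G g → G' P → ∀ φ : f.F.obj g ⟶ f.F.obj P, ∃ (g₁ : a.A) (s : g₁ ⟶ g)
      (ψ : g₁ ⟶ P), G g₁ ∧ N.trW (a.sg.map s) ∧ f.F.map s ≫ φ = f.F.map ψ)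
    (faith : ∀ g P, G g → G' P → ∀ ψ : g ⟶ P, f.F.map ψ = 0 → ∃ (g₁ : a.A) (s : g₁ ⟶ g),
      G g₁ ∧ N.trW (a.sg.map s) ∧ s ≫ ψ = 0) : LocOn f.D N (a.gen G') := by
  obtain ⟨e, he⟩ := f.of_iso
  refine locOn_of_pro le kill (hG.trans (of_gen_le G)) (of_gen_le G') ?_ ?_
  · rintro n X _ hX ⟨P, hP, rfl⟩
    by_cases hn : n = 0
    · subst hn
      refine LbFull.iso (F := f.D) (N := N) ((shiftFunctorZero a.D ℤ).symm.app (a.sg.obj P))
        ?_ X hX
      rintro _ ⟨g, hg, rfl⟩ φ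
      obtain ⟨φ₀, h⟩ := ((pb g hg).sg_bij (f.F.obj P)).2 ((e g).inv ≫ φ ≫ (e P).hom)
      obtain ⟨g₁, s, ψ, p, q, r⟩ := full g P hg hP φ₀
      refine ⟨_, a.sg.map s, a.sg.map ψ, ⟨g₁, p, rfl⟩, q, ?_⟩
      rw [he, he, ← r, Functor.map_comp, h]
      simp
    · obtain ⟨g, hg, rfl⟩ := hX
      exact fun φ => ⟨_, 𝟙 _, 0, ⟨g, hg, rfl⟩, N.trW_of_isIso _,
        (f.of_zero (pb g hg) P hn _).trans (f.of_zero (pb g hg) P hn _).symm⟩
  · rintro n X _ hX ⟨P, hP, rfl⟩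
    by_cases hn : n = 0
    · subst hn
      refine LbFaith.iso (F := f.D) (N := N) ((shiftFunctorZero a.D ℤ).symm.app (a.sg.obj P))
        ?_ X hX
      rintro _ ⟨g, hg, rfl⟩ φ h
      obtain ⟨ψ, rfl⟩ := ((pa g hg).sg_bij P).2 φ
      have k : f.F.map ψ = 0 := ((pb g hg).sg_bij _).1 (by
        rw [he, Preadditive.IsIso.comp_left_eq_zero, Preadditive.IsIso.comp_right_eq_zero] at h
        exact h.trans (b.Q.map_zero _ _).symm |>.trans
          (congrArg b.Q.map ((HomotopyCategory.singleFunctor b.A 0).map_zero _ _).symm))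
      obtain ⟨g₁, s, p, q, r⟩ := faith g P hg hP ψ k
      refine ⟨_, a.sg.map s, ⟨g₁, p, rfl⟩, q, ?_⟩
      rw [← Functor.map_comp, r]
      exact (congrArg a.Q.map ((HomotopyCategory.singleFunctor a.A 0).map_zero _ _)).trans
        (a.Q.map_zero _ _)
    · obtain ⟨g, hg, rfl⟩ := hX
      exact fun φ _ => ⟨_, 𝟙 _, ⟨g, hg, rfl⟩, N.trW_of_isIso _, (pa g hg).ext_zero P hn _⟩

theorem Map.of_bij (f : Map a b) {g g' : a.A} (pa : a.Pj g) (pb : b.Pj (f.F.obj g))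
    (h : Function.Bijective (f.F.map : (g ⟶ g') → _)) :
    Function.Bijective (f.D.map : (a.sg.obj g ⟶ a.sg.obj g') → _) := by
  obtain ⟨e, he⟩ := f.of_iso
  rw [← Function.Bijective.of_comp_iff _ (pa.sg_bij g')]
  have k := (Iso.homCongr (e g).symm (e g').symm).bijective.comp
    ((pb.sg_bij (f.F.obj g')).comp h)
  have q : (f.D.map ∘ a.sg.map : (g ⟶ g') → _) = _ := funext fun φ => he φ
  rw [q]
  exact k

theorem ff_of_pj (f : Map a b) {G : ObjectProperty a.A} (pa : ∀ g, G g → a.Pj g)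
    (pb : ∀ g, G g → b.Pj (f.F.obj g))
    (h : ∀ g g', G g → G g' → Function.Bijective (f.F.map : (g ⟶ g') → _)) : FF f.D (a.gen G) := by
  refine ff_of_gen₂ ?_
  rintro n _ _ ⟨g, hg, ⟨i⟩⟩ ⟨g', hg', ⟨j⟩⟩
  refine lc_iso i ((shiftFunctor _ n).mapIso j) ?_
  by_cases hn : n = 0
  · subst hn
    exact lc_iso (Iso.refl _) ((shiftFunctorZero a.D ℤ).symm.app _)
      (f.of_bij (pa g hg) (pb g hg) (h g g' hg hg'))
  · exact ⟨fun p q _ => ((pa g hg).ext_zero g' hn p).trans ((pa g hg).ext_zero g' hn q).symm,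
      fun φ => ⟨0, (f.of_zero (pb g hg) g' hn _).trans (f.of_zero (pb g hg) g' hn φ).symm⟩⟩

theorem gen_map_eq (f : Map a b) (G : ObjectProperty a.A) :
    Cl ((G.map a.sg).map f.D) = b.gen (G.map f.F) := by
  obtain ⟨e, -⟩ := f.of_iso
  refine congrArg Cl (funext fun Y => propext ⟨?_, ?_⟩)
  · rintro ⟨_, ⟨g, hg, ⟨i⟩⟩, ⟨j⟩⟩
    exact ⟨_, ⟨g, hg, ⟨Iso.refl _⟩⟩, ⟨(e g).symm ≪≫ f.D.mapIso i ≪≫ j⟩⟩
  · rintro ⟨_, ⟨g, hg, ⟨i⟩⟩, ⟨j⟩⟩
    exact ⟨_, ⟨g, hg, ⟨Iso.refl _⟩⟩, ⟨e g ≪≫ b.sg.mapIso i ≪≫ j⟩⟩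

theorem FF.deq_gen (f : Map a b) {G : ObjectProperty a.A} (h : FF f.D (a.gen G)) :
    Deq f.D (a.gen G) (b.gen (G.map f.F)) := gen_map_eq f G ▸ Gr.FF.deq h

theorem orth_of_pj {G G' : ObjectProperty a.A} (pa : ∀ g, G g → a.Pj g)
    (h : ∀ g g' (φ : g ⟶ g'), G g → G' g' → φ = 0) :
    ∀ X Y (φ : X ⟶ Y), a.gen G X → a.gen G' Y → φ = 0 := by
  have k : ∀ g, G g → ∀ Y, a.gen G' Y → ∀ (n : ℤ) (φ : a.sg.obj g ⟶ Y⟦n⟧), φ = 0 := by
    intro g hg Y hY
    induction hY with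
    | of hY =>
      obtain ⟨g', hg', ⟨j⟩⟩ := hY
      intro n φ
      rw [← cancel_mono ((shiftFunctor _ n).mapIso j).inv, zero_comp]
      by_cases hn : n = 0
      · subst hn
        rw [← cancel_mono ((shiftFunctorZero a.D ℤ).hom.app _), zero_comp]
        obtain ⟨ψ, e⟩ := ((pa g hg).sg_bij g').2 ((φ ≫ ((shiftFunctor _ (0 : ℤ)).mapIso j).inv) ≫
          (shiftFunctorZero a.D ℤ).hom.app _)
        rw [h g g' ψ hg hg'] at e
        exact e.symm.trans ((congrArg a.Q.map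
          ((HomotopyCategory.singleFunctor a.A 0).map_zero _ _)).trans (a.Q.map_zero _ _))
      · exact (pa g hg).ext_zero g' hn _
    | zero z => exact fun n _ => ((shiftFunctor _ n).map_isZero z).eq_of_tgt _ _
    | shift m _ ih =>
      intro n φ
      rw [← cancel_mono ((shiftFunctorAdd a.D m n).inv.app _), zero_comp]
      exact ih _ _
    | ext T hT _ _ i₁ i₃ =>
      intro n φ
      obtain ⟨ψ, e⟩ := Triangle.coyoneda_exact₂ _ (Triangle.shift_distinguished T hT n) φ (i₃ n _)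
      rw [e, i₁ n ψ]
      exact zero_comp
  have : Tg (a.gen G').leftOrthogonal := {}
  have l : a.gen G ≤ (a.gen G').leftOrthogonal := Cl.le (by
    rintro _ ⟨g, hg, ⟨i⟩⟩ Y φ hY
    rw [← cancel_epi i.hom, ← cancel_mono ((shiftFunctorZero a.D ℤ).inv.app Y), comp_zero,
      zero_comp]
    exact k g hg Y hY 0 _)
  exact fun X Y φ p q => l X p φ q

end Of

end Am

end Pool.Agent.Lib.MP_5d3e93_al.Gr
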