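import Pool.Agent.Lib.MP_5d3e93_al.Gr.ZooB

/-! The two adjoints of the terms of a binary complex, at the additive level. -/

open CategoryTheory Limits ZeroObject

namespace Pool.Agent.Lib.MP_5d3e93_al.Gr

universe v u

open Zoo

variable (C : Type u) [Category.{v} C] [Preadditive C] [HasZeroObject C] [HasBinaryBiproducts C]

/-- The left adjoint of the term of degree `i`. -/
noncomputable def Bin.L (i : ℕ) : C ⥤ Bin C := Zo C _ _ (okL i)

instance (i : ℕ) : (Bin.L C i).Additive := inferInstanceAs (Zo C _ _ (okL i)).Additive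

/-- The adjunction. -/
noncomputable def Bin.adjL (i : ℕ) : Bin.L C i ⊣ Bin.ev C i :=
  (adj_of_unit _ (bij_left (C := C) i)).choose

theorem Bin.adjL_unit (i : ℕ) : (Bin.adjL C i).unit = iaN (okL i) i :=
  (adj_of_unit _ (bij_left (C := C) i)).choose_spec

theorem Bin.unit (i : ℕ) (X : C) : IsIso ((Bin.adjL C i).unit.app X) := by
  rw [Bin.adjL_unit]
  exact isIso_ia le_rfl (lt_irrefl _)

theorem Bin.high (i j : ℕ) (X : C) (h : i < j) : IsZero (((Bin.L C i).obj X).X j) :=
  isZero_Z (not_le.2 h) (not_lt.2 h.le)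

theorem Zoo.iso_both {p q : Prop} (h : p) (k : q) (X : C) : Nonempty (Z p q X ≅ X ⊞ X) :=
  ⟨biprod.mapIso (eqToIso (cut_pos h X)) (eqToIso (cut_pos k X))⟩

theorem Bin.low (i j : ℕ) (X : C) (h : j < i) : Nonempty (((Bin.L C i).obj X).X j ≅ X ⊞ X) :=
  iso_both C h.le h X

/-- The right adjoint of the term of degree `i`. -/
noncomputable def Bin.co (i : ℕ) : C ⥤ Bin C := Zo C _ _ (okC i)

instance (i : ℕ) : (Bin.co C i).Additive := inferInstanceAs (Zo C _ _ (okC i)).Additive

/-- The adjunction. -/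
noncomputable def Bin.adjCo (i : ℕ) : Bin.ev C i ⊣ Bin.co C i :=
  (adj_of_counit _ (bij_right (C := C) i)).some

theorem Bin.co_low (i j : ℕ) (X : C) (h : j < i) : IsZero (((Bin.co C i).obj X).X j) :=
  isZero_Z (not_lt.2 h.le) (not_le.2 h)

theorem Bin.co_high (i j : ℕ) (X : C) (h : i < j) :
    Nonempty (((Bin.co C i).obj X).X j ≅ X ⊞ X) := iso_both C h h.le X

theorem Bin.co_self (i : ℕ) (X : C) : Nonempty (((Bin.co C i).obj X).X i ≅ X) :=
  ⟨⟨ob _ _ X, ib _ _ X, ext_from (fun a => (lt_irrefl _ a).elim) fun _ =>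
    (ib_ob_assoc _).trans ((if_pos le_rfl).trans (Category.comp_id _).symm),
    ib_ob.trans (if_pos le_rfl)⟩⟩

end Pool.Agent.Lib.MP_5d3e93_al.Gr
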