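import Pool.Agent.Lib.MP_5d3e93_al.Gr.AlpA
import Pool.Agent.Lib.MP_5d3e93_al.Gr.Of
import Pool.Agent.Lib.MP_5d3e93_al.Gr.ZooC

/-! The first step of the comparison with exact categories. -/

open CategoryTheory Limits Pretriangulated ZeroObject

namespace Pool.Agent.Lib.MP_5d3e93_al.Gr

universe v u

variable {A : Type (max u v)} [Category.{v} A] [Preadditive A]
  [HasZeroObject A] [HasBinaryBiproducts A]

/-- From complexes of binary complexes to the degreewise split derived category. -/
def Am.σ (A : Type (max u v)) [Category.{v} A] [Preadditive A] [HasZeroObject A]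
    [HasBinaryBiproducts A] : Am.Map (Am.of (Bin A)) (Am.of A).B := (Am.of A).B.ρ

theorem alpha (P : ObjectProperty A) [Ad P] :
    Loc (Am.σ A).D ((Am.σ A).ker ((Am.of (Bin A)).gen (Pb P))) ((Am.of (Bin A)).gen (Pb P))
      (Am.W ((Am.of A).gen P)) :=
  alp_of P (Bin.L A) (Bin.adjL A) (Bin.unit A) (Bin.high A) (fun i j X h => by
    rcases lt_trichotomy i j with l | rfl | l
    · exact Ad.zero _ (Bin.high A i j X l)
    · exact Ad.iso (@asIso _ _ _ _ ((Bin.adjL A i).unit.app X) (Bin.unit A i X)) h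
    · exact Ad.iso (Bin.low A i j X l).some.symm (Ad.add _ _ h h)) (Am.ρ_loc _)

end Pool.Agent.Lib.MP_5d3e93_al.Gr
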