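import Pool.Agent.Lib.MP_5d3e93_al.Gr.W2

/-! The internal shift and the internal cone of binary complexes. -/

open CategoryTheory Limits ZeroObject

namespace Pool.Agent.Lib.MP_5d3e93_al.Gr

universe v u v' u'

variable {C : Type u} [Category.{v} C] [Preadditive C]

theorem Ctr.betMap {C' : Type u'} [Category.{v'} C'] [Preadditive C'] (F : C ⥤ C') [F.Additive]
    {Q : Bin C} {b : Bool} (h : Ctr Q b) : Ctr ((Bin.map F).obj Q) b := by
  obtain ⟨s, h₀, h₁⟩ := h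
  refine ⟨fun n => F.map (s n), ?_, fun n => ?_⟩
  · exact (F.map_comp _ _).symm.trans ((congrArg F.map h₀).trans (F.map_id _))
  · have := congrArg F.map (h₁ n)
    rw [F.map_add, F.map_comp, F.map_comp, F.map_id] at this
    exact this

variable [HasZeroObject C]

namespace Bin

/-- The terms of the internal shift. -/
noncomputable def shX (D : Bin C) : ℕ → C
  | 0 => 0
  | n + 1 => D.X n

/-- The differentials of the internal shift. -/
noncomputable def shd (D : Bin C) (b : Bool) : ∀ n, D.X n ⟶ D.shX n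
  | 0 => 0
  | n + 1 => -D.d b n

/-- The internal shift of a morphism. -/
noncomputable def shf {D D' : Bin C} (f : D ⟶ D') : ∀ n, D.shX n ⟶ D'.shX n
  | 0 => 0
  | n + 1 => f.1 n

theorem d_shd (D : Bin C) (b : Bool) (n : ℕ) : D.d b n ≫ D.shd b n = 0 := by
  cases n with
  | zero => exact comp_zero
  | succ n => exact (Preadditive.comp_neg _ _).trans (neg_eq_zero.2 (D.sq b n))

theorem shf_comm {D D' : Bin C} (f : D ⟶ D') (b : Bool) (n : ℕ) :
    f.1 n ≫ D'.shd b n = D.shd b n ≫ shf f n := by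
  cases n with
  | zero => exact comp_zero.trans zero_comp.symm
  | succ n =>
    exact (Preadditive.comp_neg _ _).trans ((congrArg Neg.neg (comm f b n)).trans
      (Preadditive.neg_comp _ _).symm)

theorem shX_zero {D : Bin C} (n : ℕ) (h : ∀ k, k + 1 = n → IsZero (D.X k)) : IsZero (D.shX n) := by
  cases n with
  | zero => exact isZero_zero C
  | succ n => exact h n rfl

variable (C) in
/-- The internal shift. -/
noncomputable def sh : Bin C ⥤ Bin C where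
  obj D := ⟨D.shX, D.shd, fun b n => (Preadditive.neg_comp _ _).trans
    (neg_eq_zero.2 (D.d_shd b n))⟩
  map f := homMk (shf f) (shf_comm f)
  map_id _ := hom_ext fun n => by
    cases n with
    | zero => exact (isZero_zero C).eq_of_src _ _
    | succ n => rfl
  map_comp _ _ := hom_ext fun n => by
    cases n with
    | zero => exact (isZero_zero C).eq_of_src _ _
    | succ n => rfl

instance : (sh C).Additive := ⟨hom_ext fun n => by
  cases n with
  | zero => exact (isZero_zero C).eq_of_src _ _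
  | succ n => rfl⟩

variable [HasBinaryBiproducts C] {D D' D'' Y Y' Y'' : Bin C}

/-- The differentials of the internal cone. -/
noncomputable def cnd (g : D ⟶ Y) (b : Bool) (n : ℕ) : Y.X (n + 1) ⊞ D.X n ⟶ Y.X n ⊞ D.shX n :=
  biprod.desc (Y.d b n ≫ biprod.inl) (g.1 n ≫ biprod.inl + D.shd b n ≫ biprod.inr)

theorem cnd_sq (g : D ⟶ Y) (b : Bool) (n : ℕ) :
    (biprod.desc (Y.d b (n + 1) ≫ biprod.inl) (g.1 (n + 1) ≫ biprod.inl +
      (-D.d b n) ≫ biprod.inr) : Y.X (n + 2) ⊞ D.X (n + 1) ⟶ Y.X (n + 1) ⊞ D.X n) ≫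
      cnd g b n = 0 := by
  refine biprod.hom_ext' _ _ ?_ ?_
  · simp [cnd, reassoc_of% (Y.sq b n)]
  · simp [cnd, comm_assoc, reassoc_of% (D.d_shd b n)]

/-- The internal cone. -/
noncomputable def cn (g : D ⟶ Y) : Bin C :=
  ⟨fun n => Y.X n ⊞ D.shX n, cnd g, cnd_sq g⟩

/-- The inclusion of the target. -/
noncomputable def cnI (g : D ⟶ Y) : Y ⟶ cn g :=
  homMk (fun _ => biprod.inl) fun _ _ => biprod.inl_desc _ _

theorem cnP_comm (g : D ⟶ Y) (b : Bool) (n : ℕ) :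
    biprod.snd ≫ D.shd b n = cnd g b n ≫ biprod.snd := by
  refine biprod.hom_ext' _ _ ?_ ?_ <;> simp [cnd]

/-- The projection to the shift of the source. -/
noncomputable def cnP (g : D ⟶ Y) : cn g ⟶ (sh C).obj D :=
  homMk (fun _ => biprod.snd) (cnP_comm g)

theorem cnM_comm {g : D ⟶ Y} {g' : D' ⟶ Y'} (u : D ⟶ D') (v : Y ⟶ Y') (h : g ≫ v = u ≫ g')
    (b : Bool) (n : ℕ) : biprod.map (v.1 (n + 1)) (u.1 n) ≫ cnd g' b n =
      cnd g b n ≫ biprod.map (v.1 n) (shf u n) := by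
  have e : g.1 n ≫ v.1 n = u.1 n ≫ g'.1 n := congrArg (fun t : D ⟶ Y' => t.1 n) h
  refine biprod.hom_ext' _ _ ?_ ?_
  · simp [cnd, comm_assoc]
  · simp [cnd, reassoc_of% e, reassoc_of% (shf_comm u b n)]

/-- The cone is functorial. -/
noncomputable def cnM {g : D ⟶ Y} {g' : D' ⟶ Y'} (u : D ⟶ D') (v : Y ⟶ Y')
    (h : g ≫ v = u ≫ g') : cn g ⟶ cn g' :=
  homMk (fun n => biprod.map (v.1 n) (shf u n)) (cnM_comm u v h)

theorem cnM_zero {g : D ⟶ Y} {g' : D' ⟶ Y'} {u : D ⟶ D'} {v : Y ⟶ Y'} (h : g ≫ v = u ≫ g')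
    (a : u = 0) (c : v = 0) : cnM u v h = 0 := by
  subst a c
  refine hom_ext fun n => ?_
  have e : shf (0 : D ⟶ D') n = 0 := congrArg (fun t => t.1 n) ((sh C).map_zero D D')
  change biprod.map (0 : Y.X n ⟶ Y'.X n) (shf (0 : D ⟶ D') n) = 0
  rw [e]
  ext <;> simp

theorem cnM_comp {g : D ⟶ Y} {g' : D' ⟶ Y'} {g'' : D'' ⟶ Y''} {u : D ⟶ D'} {v : Y ⟶ Y'}
    {u' : D' ⟶ D''} {v' : Y' ⟶ Y''} (h : g ≫ v = u ≫ g') (h' : g' ≫ v' = u' ≫ g'')
    (k : g ≫ v ≫ v' = (u ≫ u') ≫ g'') : cnM u v h ≫ cnM u' v' h' = cnM (u ≫ u') (v ≫ v') k := by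
  refine hom_ext fun n => ?_
  have e : shf (u ≫ u') n = shf u n ≫ shf u' n :=
    congrArg (fun t => t.1 n) ((sh C).map_comp u u')
  change biprod.map (v.1 n) (shf u n) ≫ biprod.map (v'.1 n) (shf u' n) =
    biprod.map (v.1 n ≫ v'.1 n) (shf (u ≫ u') n)
  rw [e]
  ext <;> simp

theorem cnI_cnM {g : D ⟶ Y} {g' : D' ⟶ Y'} {u : D ⟶ D'} {v : Y ⟶ Y'} (h : g ≫ v = u ≫ g') :
    cnI g ≫ cnM u v h = v ≫ cnI g' := hom_ext fun _ => biprod.inl_map _ _

theorem cnM_cnP {g : D ⟶ Y} {g' : D' ⟶ Y'} {u : D ⟶ D'} {v : Y ⟶ Y'} (h : g ≫ v = u ≫ g') :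
    cnM u v h ≫ cnP g' = cnP g ≫ (sh C).map u := hom_ext fun _ => biprod.map_snd _ _

theorem cnI_cnP (g : D ⟶ Y) : cnI g ≫ cnP g = 0 := hom_ext fun _ => biprod.inl_snd

/-- The cone of a map from a zero object. -/
noncomputable def cnIso (g : D ⟶ Y) (h : IsZero D) : Y ≅ cn g :=
  have z : ∀ n, IsZero (D.X n) := fun n => (ev C n).map_isZero h
  { hom := cnI g
    inv := homMk (fun _ => biprod.fst) fun b n => by
      change (biprod.fst : Y.X (n + 1) ⊞ D.X n ⟶ _) ≫ _ = cnd g b n ≫ biprod.fst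
      refine biprod.hom_ext' _ _ ?_ ((z n).eq_of_src _ _)
      simp [cnd]
    hom_inv_id := hom_ext fun _ => biprod.inl_fst
    inv_hom_id := hom_ext fun n => by
      change (biprod.fst : Y.X n ⊞ D.shX n ⟶ _) ≫ biprod.inl = 𝟙 (Y.X n ⊞ D.shX n)
      refine biprod.hom_ext' _ _ ?_ ((shX_zero n fun k _ => z k).eq_of_src _ _)
      simp }

theorem cn_ctr' (e : D ≅ Y) (c : ∀ n, e.inv.1 n ≫ e.hom.1 n = 𝟙 _)
    (a : ∀ n, e.hom.1 n ≫ e.inv.1 n = 𝟙 _) (b : Bool) (n : ℕ) :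
    (biprod.fst ≫ e.inv.1 (n + 1) ≫ biprod.inr : Y.X (n + 1) ⊞ D.X n ⟶ Y.X (n + 2) ⊞ D.X (n + 1)) ≫
      (biprod.desc (Y.d b (n + 1) ≫ biprod.inl) (e.hom.1 (n + 1) ≫ biprod.inl +
        (-D.d b n) ≫ biprod.inr) : Y.X (n + 2) ⊞ D.X (n + 1) ⟶ Y.X (n + 1) ⊞ D.X n) +
      cnd e.hom b n ≫ biprod.fst ≫ e.inv.1 n ≫ biprod.inr = 𝟙 (Y.X (n + 1) ⊞ D.X n) := by
  refine biprod.hom_ext' _ _ ?_ ?_
  · simp [cnd, reassoc_of% (c (n + 1)), comm_assoc]
  · simp [cnd, reassoc_of% (a n)]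

theorem cn_ctr (e : D ≅ Y) (b : Bool) : Ctr (cn e.hom) b := by
  have a : ∀ n, e.hom.1 n ≫ e.inv.1 n = 𝟙 _ := fun n => congrArg (fun t => t.1 n) e.hom_inv_id
  have c : ∀ n, e.inv.1 n ≫ e.hom.1 n = 𝟙 _ := fun n => congrArg (fun t => t.1 n) e.inv_hom_id
  refine ⟨fun n => (biprod.fst ≫ e.inv.1 n ≫ biprod.inr : Y.X n ⊞ D.shX n ⟶ Y.X (n + 1) ⊞ D.X n),
    ?_, fun n => ?_⟩
  · change (biprod.fst ≫ e.inv.1 0 ≫ biprod.inr : Y.X 0 ⊞ D.shX 0 ⟶ _) ≫ cnd e.hom b 0 = 𝟙 _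
    refine biprod.hom_ext' _ _ ?_ ((isZero_zero C).eq_of_src _ _)
    simp [cnd, reassoc_of% (c 0), shd]
  · exact cn_ctr' e c a b n

end Bin

variable [HasBinaryBiproducts C]

theorem Pb.cn {P : ObjectProperty C} [Ad P] {D Y : Bin C} (g : D ⟶ Y) (h : Pb P D) (k : Pb P Y) :
    Pb P (Bin.cn g) := by
  obtain ⟨⟨m, h₁⟩, h₂⟩ := h
  obtain ⟨⟨m', k₁⟩, k₂⟩ := k
  refine ⟨⟨max (m + 1) m', fun n e => ?_⟩, fun n => Ad.add _ _ (k₂ n) ?_⟩
  · exact (biprod_isZero_iff _ _).2 ⟨k₁ n (by omega), Bin.shX_zero n fun j l => h₁ j (by omega)⟩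
  · cases n with
    | zero => exact Ad.zero _ (isZero_zero C)
    | succ n => exact h₂ n

/-- The internal cone of a map of complexes of binary complexes. -/
noncomputable def betCn {D Y : CochainComplex (Bin C) ℤ} (g : D ⟶ Y) : CochainComplex (Bin C) ℤ where
  X k := Bin.cn (g.f k)
  d i j := Bin.cnM (D.d i j) (Y.d i j) (g.comm i j)
  shape i j h := Bin.cnM_zero _ (D.shape i j h) (Y.shape i j h)
  d_comp_d' i j k _ _ := (Bin.cnM_comp _ _ (by simp)).trans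
    (Bin.cnM_zero _ (D.d_comp_d i j k) (Y.d_comp_d i j k))

/-- The short sequence of the internal cone. -/
noncomputable def betSes {D Y : CochainComplex (Bin C) ℤ} (g : D ⟶ Y) :
    ShortComplex (CochainComplex (Bin C) ℤ) where
  X₁ := Y
  X₂ := betCn g
  X₃ := ((Bin.sh C).mapHomologicalComplex _).obj D
  f := ⟨fun k => Bin.cnI (g.f k), fun i j _ => Bin.cnI_cnM (g.comm i j)⟩
  g := ⟨fun k => Bin.cnP (g.f k), fun i j _ => (Bin.cnM_cnP (g.comm i j)).symm⟩
  zero := HomologicalComplex.hom_ext _ _ fun k => Bin.cnI_cnP (g.f k)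

theorem bet_double {A : Type u} [Category.{v} A] [Preadditive A] [HasZeroObject A] (X : A) (r : ℤ)
    (h : (ComplexShape.up ℤ).Rel r (r + 1)) :
    IsZero ((HomotopyCategory.quotient _ _).obj (HomologicalComplex.double (𝟙 X) h)) := by
  have ne : r ≠ r + 1 := by omega
  let s : ∀ i j, (ComplexShape.up ℤ).Rel j i →
      ((HomologicalComplex.double (𝟙 X) h).X i ⟶ (HomologicalComplex.double (𝟙 X) h).X j) :=
    fun i j l => if e : j = r then
      ((HomologicalComplex.double (𝟙 X) h).XIsoOfEq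
        (show i = r + 1 by simpa [e] using l.symm)).hom ≫
        (HomologicalComplex.doubleXIso₁ _ h ne).hom ≫ (HomologicalComplex.doubleXIso₀ _ h).inv ≫
          ((HomologicalComplex.double (𝟙 X) h).XIsoOfEq e.symm).hom else 0
  have s₁ : s (r + 1) r h = (HomologicalComplex.doubleXIso₁ _ h ne).hom ≫
      (HomologicalComplex.doubleXIso₀ _ h).inv := by simp [s]
  have e : 𝟙 _ = Homotopy.nullHomotopicMap' s := by
    refine HomologicalComplex.from_double_hom_ext ?_ ?_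
    · rw [Homotopy.nullHomotopicMap'_f (k₂ := r - 1) (by simp) h, s₁,
        HomologicalComplex.double_d _ h ne,
        HomologicalComplex.double_d_eq_zero₀ _ h (r - 1) r (by omega)]
      simp
    · rw [Homotopy.nullHomotopicMap'_f (k₀ := r + 1 + 1) h (by simp), s₁,
        HomologicalComplex.double_d _ h ne,
        HomologicalComplex.double_d_eq_zero₀ _ h (r + 1) (r + 1 + 1) ne.symm]
      simp
  exact (HomotopyCategory.isZero_quotient_obj_iff _).2
    ⟨(Homotopy.ofEq e).trans (Homotopy.nullHomotopy' s)⟩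

end Pool.Agent.Lib.MP_5d3e93_al.Gr
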