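import Pool.Agent.Lib.MP_5d3e93_al.Gr.W2

/-! Contractible differentials and pointwise split exact structures on binary complexes. -/

open CategoryTheory Limits Pretriangulated ZeroObject

set_option linter.unusedSectionVars false

namespace Pool.Agent.Lib.MP_5d3e93_al.Gr

universe v u v' u' v'' u''

section Add
variable {C : Type u'} [Category.{v'} C] [Preadditive C]

theorem ct_comp {X Y Z : C} {i : X ⟶ Y} {p : Y ⟶ Z} (h : Spl i p) : i ≫ p = 0 := by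
  obtain ⟨r, s, a, b, c⟩ := h
  have e := congrArg (fun t => i ≫ t ≫ p) c
  simp only [Preadditive.add_comp, Preadditive.comp_add, Category.assoc, b, reassoc_of% a,
    Category.comp_id, Category.id_comp] at e
  exact left_eq_add.1 e.symm

theorem ct_mono {X Y Z : C} {i : X ⟶ Y} {p : Y ⟶ Z} (h : Spl i p) : Mono i := by
  obtain ⟨r, s, a, -, -⟩ := h
  exact (SplitMono.mk r a).mono

theorem ct_map {C' : Type u''} [Category.{v''} C'] [Preadditive C'] (F : C ⥤ C') [F.Additive]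
    {X Y Z : C} {i : X ⟶ Y} {p : Y ⟶ Z} (h : Spl i p) : Spl (F.map i) (F.map p) := by
  obtain ⟨r, s, a, b, c⟩ := h
  refine ⟨F.map r, F.map s, ?_, ?_, ?_⟩
  · rw [← F.map_comp, a, F.map_id]
  · rw [← F.map_comp, b, F.map_id]
  · rw [← F.map_comp, ← F.map_comp, ← F.map_add, c, F.map_id]

theorem ct_biprod (X Y : C) [HasBinaryBiproduct X Y] :
    Spl (biprod.inl : X ⟶ X ⊞ Y) biprod.snd :=
  ⟨biprod.fst, biprod.inr, biprod.inl_fst, biprod.inr_snd, biprod.total⟩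

/-- Graded maps that commute with one differential. -/
def CtC (b : Bool) {P Q : Bin C} (f : ∀ n, P.X n ⟶ Q.X n) : Prop :=
  ∀ n, f (n + 1) ≫ Q.d b n = P.d b n ≫ f n

/-- Graded maps that are homotopic to zero for one differential. -/
def CtN (b : Bool) {P Q : Bin C} (f : ∀ n, P.X n ⟶ Q.X n) : Prop :=
  ∃ h : ∀ n, P.X n ⟶ Q.X (n + 1),
    h 0 ≫ Q.d b 0 = f 0 ∧ ∀ n, h (n + 1) ≫ Q.d b (n + 1) + P.d b n ≫ h n = f (n + 1)

theorem ct_fac {b : Bool} {P Q R : Bin C} {f : ∀ n, P.X n ⟶ Q.X n} {g : ∀ n, Q.X n ⟶ R.X n}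
    (hf : CtC b f) (hg : CtC b g) (h : Ctr Q b) : CtN b fun n => f n ≫ g n := by
  obtain ⟨t, a, c⟩ := h
  refine ⟨fun n => f n ≫ t n ≫ g (n + 1), ?_, fun n => ?_⟩
  · simp only [Category.assoc]
    rw [hg 0, reassoc_of% a]
  · simp only [Category.assoc]
    rw [hg (n + 1), ← reassoc_of% (hf n), ← Preadditive.comp_add, ← Category.assoc (t _),
      ← Category.assoc (Q.d b n), ← Preadditive.add_comp, c, Category.id_comp]

theorem CtN.add {b : Bool} {P Q : Bin C} {f g : ∀ n, P.X n ⟶ Q.X n} (hf : CtN b f)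
    (hg : CtN b g) : CtN b fun n => f n + g n := by
  obtain ⟨t, a, c⟩ := hf
  obtain ⟨t', a', c'⟩ := hg
  refine ⟨fun n => t n + t' n, ?_, fun n => ?_⟩
  · rw [Preadditive.add_comp, a, a']
  · simp only [Preadditive.add_comp, Preadditive.comp_add]
    rw [← c, ← c']
    abel

theorem CtN.ctr {b : Bool} {P : Bin C} {f : ∀ n, P.X n ⟶ P.X n} (h : CtN b f)
    (e : ∀ n, f n = 𝟙 _) : Ctr P b := by
  obtain rfl : f = fun _ => 𝟙 _ := funext e
  exact h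

theorem ct_zero {P : Bin C} (h : ∀ n, IsZero (P.X n)) (b : Bool) : Ctr P b :=
  ⟨fun _ => 0, (h _).eq_of_src _ _, fun _ => (h _).eq_of_src _ _⟩

end Add

theorem Ctr.iso {C : Type u'} [Category.{v'} C] [Preadditive C] {X Y : Bin C} (e : X ≅ Y) {b : Bool}
    (h : Ctr X b) : Ctr Y b :=
  (ct_fac (e.inv.2 b) (e.hom.2 b) h).ctr fun n => congrArg (fun t => t.1 n) e.inv_hom_id

theorem Ctr.of_spl {C : Type u'} [Category.{v'} C] [Preadditive C] {X Y Z : Bin C} (i : X ⟶ Y)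
    (p : Y ⟶ Z) (h : ∀ n, Spl (i.1 n) (p.1 n)) {b : Bool} (k : Ctr Z b) : Ctr X b ↔ Ctr Y b := by
  have z := fun n => ct_comp (h n)
  have m := fun n => ct_mono (h n)
  choose r s e₁ e₂ e₃ using h
  have hi : CtC b i.1 := i.2 b
  have hp : CtC b p.1 := p.2 b
  obtain ⟨s', hs, e₄⟩ : ∃ s' : ∀ n, Z.X n ⟶ Y.X n, CtC b s' ∧ ∀ n, s' n ≫ p.1 n = 𝟙 _ := by
    obtain ⟨t, a, c⟩ := k
    refine ⟨fun n => match n with
      | 0 => t 0 ≫ s 1 ≫ Y.d b 0
      | n + 1 => t (n + 1) ≫ s (n + 2) ≫ Y.d b (n + 1) + Z.d b n ≫ t n ≫ s (n + 1), ?_, ?_⟩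
    · rintro (_ | n)
      · simp [Y.sq]
      · simp [Y.sq, reassoc_of% (Z.sq b n)]
    · rintro (_ | n)
      · simp only [Category.assoc]
        rw [← hp 0, reassoc_of% (e₂ 1), a]
      · simp only [Category.assoc, Preadditive.add_comp]
        rw [← hp (n + 1), reassoc_of% (e₂ (n + 2)), e₂, Category.comp_id, c]
  have e₅ : ∀ n, ((𝟙 _ - p.1 n ≫ s' n) ≫ r n) ≫ i.1 n = 𝟙 _ - p.1 n ≫ s' n := fun n => by
    rw [Category.assoc, eq_sub_of_add_eq (e₃ n)]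
    simp [reassoc_of% (e₄ n)]
  have hr : CtC b fun n => (𝟙 _ - p.1 n ≫ s' n) ≫ r n := fun n => by
    rw [← cancel_mono (i.1 n), Category.assoc, ← hi n, ← Category.assoc, e₅, Category.assoc, e₅]
    simp [hs n, reassoc_of% (hp n)]
  refine ⟨fun a => ((ct_fac hr hi a).add (ct_fac hp hs k)).ctr fun n => ?_,
    fun a => (ct_fac hi hr a).ctr fun n => ?_⟩
  · rw [e₅, sub_add_cancel]
  · simp [e₁, reassoc_of% (z n)]

theorem Ctr.of_splice {C : Type u'} [Category.{v'} C] [Preadditive C] (Q : Bin C) (b : Bool)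
    (Z : ℕ → C) (i : ∀ n, Z (n + 1) ⟶ Q.X n) (p : ∀ n, Q.X n ⟶ Z n) (h0 : IsZero (Z 0))
    (h : ∀ n, Spl (i n) (p n) ∧ Q.d b n = p (n + 1) ≫ i n) : Ctr Q b := by
  choose r s e₁ e₂ e₃ using fun n => (h n).1
  refine ⟨fun n => r n ≫ s (n + 1), ?_, fun n => ?_⟩
  · rw [(h 0).2, Category.assoc, reassoc_of% (e₂ 1), ← e₃ 0, h0.eq_of_src (s 0) 0, comp_zero,
      add_zero]
  · rw [(h (n + 1)).2, (h n).2, Category.assoc, Category.assoc, reassoc_of% (e₂ (n + 2)),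
      reassoc_of% (e₁ n), e₃]

section Bridge
variable {a : Am.{v, u}} {A : Type (max u v)} [Category.{v} A] [Preadditive A]
  [HasZeroObject A] [HasBinaryBiproducts A] {P : ObjectProperty a.A}

theorem Pt.ct_comp (pt : Pt a A P) {X Y Z : a.A} {i : X ⟶ Y} {p : Y ⟶ Z}
    (h : ∀ k, Spl ((pt.e k).F.map i) ((pt.e k).F.map p)) : i ≫ p = 0 :=
  pt.faith _ fun k => by rw [Functor.map_comp, Gr.ct_comp (h k)]

theorem Pt.ct_mono (pt : Pt a A P) {X Y Z : a.A} {i : X ⟶ Y} {p : Y ⟶ Z}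
    (h : ∀ k, Spl ((pt.e k).F.map i) ((pt.e k).F.map p)) : Mono i :=
  Preadditive.mono_of_cancel_zero _ fun g e => pt.faith _ fun k => by
    have := Gr.ct_mono (h k)
    rw [← cancel_mono ((pt.e k).F.map i), ← Functor.map_comp, e, Functor.map_zero, zero_comp]

theorem Pt.ct_zero (pt : Pt a A P) {X Y Z : a.A} {i : X ⟶ Y} {p : Y ⟶ Z}
    (h : ∀ k, Spl ((pt.e k).F.map i) ((pt.e k).F.map p)) (z : IsZero Z) :
    IsZero X ↔ IsZero Y := by
  constructor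
  · intro x
    refine (IsZero.iff_id_eq_zero _).2 (pt.faith _ fun k => ?_)
    obtain ⟨r, s, -, -, e⟩ := h k
    rw [(pt.e k).F.map_id, ← e, x.eq_of_src i 0, z.eq_of_tgt p 0]
    simp
  · intro y
    have := pt.ct_mono h
    exact y.of_mono i

/-- The data of one step of the splicing. -/
structure Pt.St (pt : Pt a A P) (Q : Bin a.A) (b : Bool) (n : ℕ) where
  Z : a.A
  p : Q.X n ⟶ Z
  mem : P Z
  epi : ∀ k, ∃ s, s ≫ (pt.e k).F.map p = 𝟙 _
  cx : Q.d b n ≫ p = 0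
  ex : ∀ k, ∃ h u, h ≫ (pt.e k).F.map (Q.d b n) + (pt.e k).F.map p ≫ u = 𝟙 _

theorem Pt.ct_step (pt : Pt a A P) (Q : Bin a.A) (hQ : ∀ n, P (Q.X n)) (b : Bool)
    (h : ∀ k, Ctr ((Bin.map (pt.e k).F).obj Q) b) (n : ℕ) (S : pt.St Q b n) :
    ∃ (S' : pt.St Q b (n + 1)) (i : S'.Z ⟶ Q.X n),
      (∀ k, Spl ((pt.e k).F.map i) ((pt.e k).F.map S.p)) ∧ Q.d b n = S'.p ≫ i := by
  obtain ⟨X, i, hi, un⟩ := pt.ker S.p S.epi
  obtain ⟨q, hq⟩ := un _ _ S.cx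
  have := pt.ct_mono hi
  refine ⟨⟨X, q, (pt.ext i S.p hi S.mem).2 (hQ n), fun k => ?_, ?_, fun k => ?_⟩, i, hi, hq.symm⟩
  · obtain ⟨t, w, e⟩ := S.ex k
    have := Gr.ct_mono (hi k)
    refine ⟨(pt.e k).F.map i ≫ t, ?_⟩
    rw [← cancel_mono ((pt.e k).F.map i), Category.assoc, Category.assoc, ← Functor.map_comp, hq,
      eq_sub_of_add_eq e]
    simp [reassoc_of% (Gr.ct_comp (hi k))]
  · rw [← cancel_mono i, Category.assoc, hq, Q.sq, zero_comp]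
  · obtain ⟨t, -, e⟩ := h k
    refine ⟨t (n + 1), (pt.e k).F.map i ≫ t n, ?_⟩
    rw [← Functor.map_comp_assoc, hq]
    exact e n

theorem Pt.splice (pt : Pt a A P) (Q : Bin a.A) (hQ : ∀ n, P (Q.X n)) (b : Bool)
    (h : ∀ k, Ctr ((Bin.map (pt.e k).F).obj Q) b) : ∃ (Z : ℕ → a.A) (i : ∀ n, Z (n + 1) ⟶ Q.X n)
      (p : ∀ n, Q.X n ⟶ Z n), IsZero (Z 0) ∧ ∀ n, P (Z n) ∧
        (∀ k, Spl ((pt.e k).F.map (i n)) ((pt.e k).F.map (p n))) ∧ Q.d b n = p (n + 1) ≫ i n := by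
  choose nx i hi hd using pt.ct_step Q hQ b h
  let S₀ : pt.St Q b 0 := ⟨0, 0, pt.ad.zero _ (isZero_zero _),
    fun k => ⟨0, ((pt.e k).F.map_isZero (isZero_zero _)).eq_of_src _ _⟩, comp_zero, fun k => by
      obtain ⟨t, e, -⟩ := h k
      exact ⟨t 0, 0, by rw [comp_zero, add_zero]; exact e⟩⟩
  let S : ∀ n, pt.St Q b n := fun n => Nat.rec S₀ nx n
  exact ⟨fun n => (S n).Z, fun n => i n (S n), fun n => (S n).p, isZero_zero _,
    fun n => ⟨(S n).mem, hi n (S n), hd n (S n)⟩⟩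

instance {C : Type u'} [Category.{v'} C] [Preadditive C] [HasZeroObject C] [HasBinaryBiproducts C]
    (P : ObjectProperty C) [Ad P] : Ad (Pb P) where
  zero X h := ⟨⟨0, fun n _ => (Bin.ev C n).map_isZero h⟩,
    fun n => Ad.zero _ ((Bin.ev C n).map_isZero h)⟩
  iso e h := ⟨h.1.imp fun _ k n hn => (k n hn).of_iso ((Bin.ev C n).mapIso e).symm,
    fun n => Ad.iso ((Bin.ev C n).mapIso e) (h.2 n)⟩
  add X Y h k := by
    have e : ∀ n, (X ⊞ Y).X n ≅ X.X n ⊞ Y.X n := fun n =>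
      have := preservesBinaryBiproduct_of_preservesBiproduct (Bin.ev C n) X Y
      (Bin.ev C n).mapBiprod X Y
    obtain ⟨m, hm⟩ := h.1
    obtain ⟨m', hm'⟩ := k.1
    exact ⟨⟨max m m', fun n hn => ((biprod_isZero_iff _ _).2
      ⟨hm n (le_of_max_le_left hn), hm' n (le_of_max_le_right hn)⟩).of_iso (e n)⟩,
      fun n => Ad.iso (e n).symm (Ad.add _ _ (h.2 n) (k.2 n))⟩

theorem Pt.ct_ker (pt : Pt a A P) {Y Z : Bin a.A} (p : Y ⟶ Z)
    (h : ∀ n k, ∃ s, s ≫ (pt.e k).F.map (p.1 n) = 𝟙 _) : ∃ (X : Bin a.A) (i : X ⟶ Y),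
      (∀ n k, Spl ((pt.e k).F.map (i.1 n)) ((pt.e k).F.map (p.1 n))) ∧
        ∀ (W : Bin a.A) (t : W ⟶ Y), t ≫ p = 0 → ∃ l, l ≫ i = t := by
  choose X i hi un using fun n => pt.ker (p.1 n) (h n)
  have m := fun n => pt.ct_mono (hi n)
  choose d hd using fun b n => un n _ (i (n + 1) ≫ Y.d b n) (by
    rw [Category.assoc, ← Bin.comm, reassoc_of% (pt.ct_comp (hi (n + 1))), zero_comp])
  refine ⟨⟨X, d, fun b n => ?_⟩, Bin.homMk i fun b n => (hd b n).symm, hi, fun W t e => ?_⟩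
  · rw [← cancel_mono (i n), Category.assoc, hd, reassoc_of% (hd b (n + 1)), Y.sq, comp_zero,
      zero_comp]
  · choose l hl using fun n => un n _ (t.1 n) (congrArg (fun s => s.1 n) e)
    refine ⟨Bin.homMk l fun b n => ?_, Bin.hom_ext hl⟩
    rw [← cancel_mono (i n), Category.assoc, Category.assoc, hl]
    change l (n + 1) ≫ d b n ≫ i n = _
    rw [hd, reassoc_of% (hl (n + 1)), Bin.comm]

theorem Pt.ct_ext (pt : Pt a A P) {X Y Z : Bin a.A} (i : X ⟶ Y) (p : Y ⟶ Z)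
    (h : ∀ n k, Spl ((pt.e k).F.map (i.1 n)) ((pt.e k).F.map (p.1 n))) (z : pt.Pq Z) :
    pt.Pq X ↔ pt.Pq Y := by
  obtain ⟨⟨⟨m, hm⟩, z₁⟩, z₂⟩ := z
  refine and_congr (and_congr ⟨?_, ?_⟩ (forall_congr' fun n => pt.ext _ _ (h n) (z₁ n)))
    (forall₂_congr fun b k => Ctr.of_spl ((Bin.map (pt.e k).F).map i) ((Bin.map (pt.e k).F).map p)
      (fun n => h n k) (z₂ b k))
  · rintro ⟨m', hm'⟩
    exact ⟨max m m', fun n hn => (pt.ct_zero (h n) (hm n (le_of_max_le_left hn))).1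
      (hm' n (le_of_max_le_right hn))⟩
  · rintro ⟨m', hm'⟩
    exact ⟨max m m', fun n hn => (pt.ct_zero (h n) (hm n (le_of_max_le_left hn))).2
      (hm' n (le_of_max_le_right hn))⟩

theorem Pt.ct_ad (pt : Pt a A P) : Ad pt.Pq :=
  have := pt.ad
  { zero := fun X h => ⟨Ad.zero X h, fun b k => Gr.ct_zero
      (fun n => (pt.e k).F.map_isZero ((Bin.ev a.A n).map_isZero h)) b⟩
    iso := fun e h => ⟨Ad.iso e h.1, fun b k => (h.2 b k).iso ((Bin.map (pt.e k).F).mapIso e)⟩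
    add := fun X Y h k => (pt.ct_ext _ _
      (fun n j => ct_map (Bin.ev a.A n ⋙ (pt.e j).F) (ct_biprod X Y)) k).1 h }

/-- The pointwise structure on binary complexes. -/
def Pt.B (pt : Pt a A P) : Pt a.B A pt.Pq where
  κ := ℕ × pt.κ
  e k := (a.ev k.1).comp (pt.e k.2)
  refl X h := a.B.le_Tb X fun j => pt.refl _ fun k => h (j, k)
  faith f h := Bin.hom_ext fun n => pt.faith _ fun k => h (n, k)
  ker p h := by
    obtain ⟨X, i, c, d⟩ := pt.ct_ker p fun n k => h (n, k)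
    exact ⟨X, i, fun k => c k.1 k.2, d⟩
  ad := pt.ct_ad
  ext i p h z := pt.ct_ext i p (fun n k => h (n, k)) z

theorem ct_base {C : Type u'} [Category.{v'} C] [Preadditive C] [IsIdempotentComplete C]
    {Y Z : C} (p : Y ⟶ Z) (s : Z ⟶ Y) (h : s ≫ p = 𝟙 _) :
    ∃ (X : C) (i : X ⟶ Y), Spl i p ∧ ∀ (W : C) (t : W ⟶ Y), t ≫ p = 0 → ∃ l, l ≫ i = t := by
  obtain ⟨X, i, r, e₁, e₂⟩ := IsIdempotentComplete.idempotents_split Y (𝟙 _ - p ≫ s)
    (by simp [reassoc_of% h])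
  exact ⟨X, i, ⟨r, s, e₁, h, by rw [e₂, sub_add_cancel]⟩, fun W t e => ⟨t ≫ r, by
    rw [Category.assoc, e₂]
    simp [reassoc_of% e]⟩⟩

/-- The base: an idempotent complete category with its split structure. -/
def Pt.base [IsIdempotentComplete A] : Pt (Am.of A) A ⊤ where
  κ := Unit
  e _ := (Am.of A).idm
  refl _ h := h ()
  faith _ h := h ()
  ker p h := by
    obtain ⟨s, hs⟩ := h ()
    have : IsIdempotentComplete (Am.of.{v, u} A).A := ‹IsIdempotentComplete A›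
    obtain ⟨X, i, c, d⟩ := ct_base p s hs
    exact ⟨X, i, fun _ => c, d⟩
  ad := inferInstance
  ext _ _ _ _ := Iff.rfl

end Bridge

end Pool.Agent.Lib.MP_5d3e93_al.Gr
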