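import Pool.Agent.Lib.MP_5d3e93_al.Gr.Det
import Pool.Agent.Lib.MP_5d3e93_al.Gr.Ctr
import Pool.Agent.Lib.MP_5d3e93_al.Gr.Str
import Pool.Agent.Lib.MP_5d3e93_al.Gr.BetA

/-! Resolving acyclic complexes of binary complexes by pointwise contractible ones. -/

open CategoryTheory Limits Pretriangulated ZeroObject

namespace Pool.Agent.Lib.MP_5d3e93_al.Gr

universe v u

variable {a : Am.{v, u}} {A : Type (max u v)} [Category.{v} A] [Preadditive A]
  [HasZeroObject A] [HasBinaryBiproducts A] {P : ObjectProperty a.A}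

/-- From complexes of binary complexes to the derived category. -/
noncomputable def betQ (a : Am.{v, u}) : CochainComplex (Bin a.A) ℤ ⥤ a.B.D := a.B.QQ

/-- The same on the homotopy category. -/
noncomputable def betK (a : Am.{v, u}) : Kh (Bin a.A) ⥤ a.B.D := a.B.Q

theorem bet_exa {D Y : CochainComplex (Bin a.A) ℤ} (g : D ⟶ Y) : a.B.Exa (betSes g) :=
  Am.exa_of_reflect a.ev (betSes g) (fun X h => a.B.le_Tb X h) fun j =>
    Am.exa_of_split _ fun n => ⟨ShortComplex.Splitting.ofHasBinaryBiproduct ((Y.X n).X j)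
      ((D.X n).shX j)⟩

theorem bet_iso {D Y : CochainComplex (Bin a.A) ℤ} (g : D ⟶ Y)
    (h : IsZero ((HomotopyCategory.quotient _ _).obj D)) : IsIso ((betQ a).map (betSes g).f) := by
  obtain ⟨δ, k⟩ := (bet_exa g).tri
  exact (Triangle.isZero₃_iff_isIso₁ _ k).1
    (a.B.Q.map_isZero (((Bin.sh a.A).mapHomotopyCategory (.up ℤ)).map_isZero h))

theorem bet_step (pt : Pt a A P) (K : CochainComplex (Bin a.A) ℤ) (r q : ℤ) (hr : r < q)
    (h₁ : ∀ n, Pb P (K.X n)) (h₂ : ∀ n, n < r → pt.Pq (K.X n)) :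
    ∃ (K' : CochainComplex (Bin a.A) ℤ) (s : K ⟶ K'), IsIso ((betQ a).map s) ∧
      (∀ n, Pb P (K'.X n)) ∧ (∀ n, n < r + 1 → pt.Pq (K'.X n)) ∧
        ∀ n, n < r ∨ q < n → Nonempty (K.X n ≅ K'.X n) := by
  have := pt.ad
  have ad : Ad pt.Pq := pt.B.ad
  have rel : (ComplexShape.up ℤ).Rel r (r + 1) := rfl
  have ne : r ≠ r + 1 := by omega
  let g : HomologicalComplex.double (𝟙 (K.X r)) rel ⟶ K :=
    HomologicalComplex.mkHomFromDouble rel ne (𝟙 _) (K.d r (r + 1)) rfl fun k _ => K.d_comp_d ..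
  have i : ∀ n, n < r ∨ q < n → (K.X n ≅ (betCn g).X n) := fun n l =>
    Bin.cnIso (g.f n) (HomologicalComplex.isZero_double_X _ rel n (by omega) (by omega))
  have p : ∀ n, Pb P ((betCn g).X n) := fun n => by
    refine Pb.cn (g.f n) ?_ (h₁ n)
    by_cases e : n = r
    · subst e
      exact Ad.iso (HomologicalComplex.doubleXIso₀ _ rel).symm (h₁ n)
    · by_cases e' : n = r + 1
      · subst e'
        exact Ad.iso (HomologicalComplex.doubleXIso₁ _ rel ne).symm (h₁ r)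
      · exact Ad.zero _ (HomologicalComplex.isZero_double_X _ rel n e e')
  refine ⟨betCn g, (betSes g).f, bet_iso g (bet_double _ r rel), p, fun n l => ?_,
    fun n l => ⟨i n l⟩⟩
  rcases (Int.lt_add_one_iff.1 l).lt_or_eq with l | rfl
  · exact Ad.iso (i n (.inl l)) (h₂ n l)
  · refine ⟨p n, fun b k => Ctr.betMap _ ?_⟩
    have e : g.f n = (HomologicalComplex.doubleXIso₀ _ rel).hom :=
      (HomologicalComplex.mkHomFromDouble_f₀ ..).trans (Category.comp_id _)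
    change Ctr (Bin.cn (g.f n)) b
    rw [e]
    exact Bin.cn_ctr _ b

theorem bet_steps (pt : Pt a A P) (K : CochainComplex (Bin a.A) ℤ) (p q : ℤ)
    (h₁ : ∀ n, Pb P (K.X n)) (h₂ : ∀ n, n < p ∨ q < n → IsZero (K.X n)) (m : ℕ) (hm : p + m ≤ q) :
    ∃ (K' : CochainComplex (Bin a.A) ℤ) (s : K ⟶ K'), IsIso ((betQ a).map s) ∧
      (∀ n, Pb P (K'.X n)) ∧ (∀ n, n < p + m → pt.Pq (K'.X n)) ∧
        ∀ n, n < p ∨ q < n → IsZero (K'.X n) := by
  have ad : Ad pt.Pq := pt.B.ad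
  induction m with
  | zero => exact ⟨K, 𝟙 K, inferInstance, h₁, fun n l => Ad.zero _ (h₂ n (.inl (by omega))), h₂⟩
  | succ m ih =>
    obtain ⟨K', s, c₁, c₂, c₃, c₄⟩ := ih (by omega)
    obtain ⟨K'', s', d₁, d₂, d₃, d₄⟩ := bet_step pt K' (p + m) q (by omega) c₂ c₃
    refine ⟨K'', s ≫ s', ?_, d₂, fun n l => d₃ n (by omega), fun n l => ?_⟩
    · rw [Functor.map_comp]
      infer_instance
    · obtain ⟨e⟩ := d₄ n (by omega)
      exact (c₄ n l).of_iso e.symm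

theorem bet_last (pt : Pt a A P) (K : CochainComplex (Bin a.A) ℤ) (p q : ℤ)
    (h₁ : Pb P (K.X q)) (h₂ : ∀ n, n < q → pt.Pq (K.X n))
    (h₃ : ∀ n, n < p ∨ q < n → IsZero (K.X n)) (hV : Ac (fun b => (a.R b).D) (a.B.QQ.obj K)) :
    Sb pt.Pq K := by
  have ad : Ad pt.Pq := pt.B.ad
  have le : a.B.gen pt.Pq ≤ Ac fun b => (a.R b).D := Cl.le (by
    rintro _ ⟨Q, k, ⟨e⟩⟩
    exact (Ac fun b => (a.R b).D).prop_of_iso e ((pt.det Q k.1.1).2 k.2))
  obtain ⟨K', f, g, h, hT, c₁, c₂⟩ := exists_trunc K q fun n l => h₃ n (.inr l)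
  have sb : Sb pt.Pq K' := ⟨fun n => by
    rcases lt_or_ge n q with l | l
    · obtain ⟨e⟩ := c₁ n l
      exact Ad.iso e.symm (h₂ n l)
    · exact Ad.zero _ (c₂ n l), min p q, q, fun n l => by
    rcases l with l | l
    · obtain ⟨e⟩ := c₁ n (by omega)
      exact (h₃ n (.inl (by omega))).of_iso e
    · exact c₂ n l.le⟩
  let S : ObjectProperty (Kh (Bin a.A)) := (Ac fun b => (a.R b).D).inverseImage a.B.Q
  have tg : Tg S := inferInstanceAs (Tg ((Ac fun b => (a.R b).D).inverseImage a.B.Q))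
  have k₁ : S _ := S.ext_of_isTriangulatedClosed₁ _ hT hV (le _ (a.B.gen_of_genK sb.genK))
  have k₂ : S ((HomotopyCategory.singleFunctor (Bin a.A) 0).obj (K.X q)) :=
    S.prop_of_iso (shiftNegShift _ q) (S.le_shift q _ k₁)
  refine ⟨fun n => ?_, p, q, h₃⟩
  rcases lt_trichotomy n q with l | rfl | l
  · exact h₂ n l
  · exact ⟨h₁, (pt.det _ h₁.1).1 k₂⟩
  · exact Ad.zero _ (h₃ n (.inr l))

theorem Pt.beta (pt : Pt a A P) (X : (Am.of (Bin a.A)).D) (hX : (Am.of (Bin a.A)).gen (Pb P) X)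
    (hV : Ac (fun b => (a.R b).D) (a.B.ρ.D.obj X)) : ∃ (Z : (Am.of (Bin a.A)).D) (s : X ⟶ Z),
      (Am.of (Bin a.A)).gen pt.Pq Z ∧ (a.B.ρ.ker ((Am.of (Bin a.A)).gen (Pb P))).trW s := by
  have := pt.ad
  have ad : Ad pt.Pq := pt.B.ad
  obtain ⟨K₀, rfl⟩ := (Am.of (Bin a.A)).exists_cx X
  change CochainComplex (Bin a.A) ℤ at K₀
  have g₀ : genK (Pb P) ((HomotopyCategory.quotient _ _).obj K₀) :=
    (Am.of (Bin a.A)).genK_of_gen (P := Pb P) (fun Y h => Tg.zero (genK (Pb P))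
      ((Am.of_Tb Y).1 h)) hX
  obtain ⟨K, ⟨h₁, p, q, h₂⟩, ⟨e⟩⟩ := genK_strict g₀
  obtain ⟨K', s, c₁, c₂, c₃, c₄⟩ := bet_steps pt K p (max p q) h₁
    (fun n l => h₂ n (by omega)) (max p q - p).toNat (by omega)
  let t : (HomotopyCategory.quotient _ _).obj K₀ ⟶ (HomotopyCategory.quotient _ _).obj K' :=
    e.hom ≫ (HomotopyCategory.quotient _ _).map s
  have i : IsIso ((betK a).map t) := by
    have : IsIso ((betK a).map ((HomotopyCategory.quotient _ _).map s)) := c₁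
    rw [Functor.map_comp]
    infer_instance
  have sb : Sb pt.Pq K' := bet_last pt K' p (max p q) (c₂ _) (fun n l => c₃ n (by omega)) c₄
    ((Ac fun b => (a.R b).D).prop_of_iso (@asIso _ _ _ _ _ i) hV)
  refine ⟨_, (Am.of (Bin a.A)).Q.map t, (Am.of (Bin a.A)).gen_of_genK sb.genK, ?_⟩
  obtain ⟨C, g, h, hT⟩ := distinguished_cocone_triangle ((Am.of (Bin a.A)).Q.map t)
  have g₁ : genK (Pb P) ((HomotopyCategory.quotient _ _).obj K') := Sb.genK ⟨c₂, p, max p q, c₄⟩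
  let G : ObjectProperty (Am.of (Bin a.A)).D := (Am.of (Bin a.A)).gen (Pb P)
  have tg : Tg G := inferInstanceAs (Tg (Cl _))
  refine ⟨C, g, h, hT, G.ext_of_isTriangulatedClosed₃ _ hT hX
    ((Am.of (Bin a.A)).gen_of_genK g₁), ?_⟩
  refine (Triangle.isZero₃_iff_isIso₁ _ (a.B.ρ.D.map_distinguished _ hT)).2 ?_
  have l : a.B.ρ.K.map t = t := by
    obtain ⟨t', l⟩ := (HomotopyCategory.quotient _ _).map_surjective t
    rw [← l]
    rfl
  have m : a.B.ρ.D.map ((Am.of (Bin a.A)).Q.map t) = a.B.Q.map t :=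
    (a.B.ρ.D_map t).trans (congrArg a.B.Q.map l)
  exact (congrArg IsIso m).mpr i

end Pool.Agent.Lib.MP_5d3e93_al.Gr
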