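import Pool.Agent.Lib.MP_5d3e93_al.Gr.Chi
import Pool.Agent.Lib.MP_5d3e93_al.Gr.Bet
import Pool.Agent.Lib.MP_5d3e93_al.Gr.Alp
import Pool.Agent.Lib.MP_5d3e93_al.Gr.KnL

/-! Models of exact categories are stable under Grayson's construction. -/

open CategoryTheory Limits Pretriangulated ZeroObject

namespace Pool.Agent.Lib.MP_5d3e93_al.Gr

universe v u v' u' v'' u''

section Add

variable {C : Type u'} [Category.{v'} C] [Preadditive C]
  {C' : Type u''} [Category.{v''} C'] [Preadditive C']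

theorem brg_spl {X Y Z X' Y' Z' : C} {i : X ⟶ Y} {p : Y ⟶ Z} (h : Spl i p) (x : X' ≅ X)
    (y : Y' ≅ Y) (z : Z' ≅ Z) : Spl (x.hom ≫ i ≫ y.inv) (y.hom ≫ p ≫ z.inv) := by
  obtain ⟨r, s, h1, h2, h3⟩ := h
  refine ⟨y.hom ≫ r ≫ x.inv, z.hom ≫ s ≫ y.inv, ?_, ?_, ?_⟩
  · simp [reassoc_of% h1]
  · simp [reassoc_of% h2]
  · have := congrArg (fun t => y.hom ≫ t ≫ y.inv) h3
    simpa using this

theorem brg_spl' (F : C ⥤ C') {X Y Z X' Y' Z' : C} {i : X ⟶ Y} {p : Y ⟶ Z}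
    (h : Spl (F.map i) (F.map p)) (x : X' ≅ X) (y : Y' ≅ Y) (z : Z' ≅ Z) :
    Spl (F.map (x.hom ≫ i ≫ y.inv)) (F.map (y.hom ≫ p ≫ z.inv)) := by
  simp only [Functor.map_comp]
  exact brg_spl h (F.mapIso x) (F.mapIso y) (F.mapIso z)

theorem brg_faith (F : C ⥤ C') [F.Additive] [F.Faithful] : (Bin.map F).Faithful :=
  ⟨fun h => Bin.hom_ext fun n => F.map_injective (congrFun (congrArg Subtype.val h) n)⟩

theorem brg_full (F : C ⥤ C') [F.Additive] [F.Full] [F.Faithful] : (Bin.map F).Full :=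
  ⟨fun {P Q} g => ⟨Bin.homMk (fun n => F.preimage (g.1 n)) fun b n => F.map_injective (by
    have e : ∀ n, F.map (F.preimage (X := P.X n) (Y := Q.X n) (g.1 n)) = g.1 n :=
      fun n => F.map_preimage _
    rw [F.map_comp, F.map_comp, e, e]
    exact g.2 b n), Bin.hom_ext fun n => F.map_preimage _⟩⟩

theorem brg_zero (F : C ⥤ C') [F.Additive] [F.Faithful] {X : C} {Y : C'} (e : F.obj X ≅ Y)
    (h : IsZero Y) : IsZero X :=
  (IsZero.iff_id_eq_zero _).2 (F.map_injective ((h.of_iso e).eq_of_src _ _))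

/-- A binary complex whose terms are in the image of a fully faithful functor. -/
noncomputable def brgLift (F : C ⥤ C') [F.Additive] [F.Full] [F.Faithful] (X : Bin C') (Y : ℕ → C)
    (e : ∀ n, F.obj (Y n) ≅ X.X n) : Bin C :=
  ⟨Y, fun b n => F.preimage ((e (n + 1)).hom ≫ X.d b n ≫ (e n).inv), fun b n =>
    F.map_injective (by simp [reassoc_of% (X.sq b n)])⟩

/-- The image of the lift is the given complex. -/
noncomputable def brgIso (F : C ⥤ C') [F.Additive] [F.Full] [F.Faithful] (X : Bin C') (Y : ℕ → C)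
    (e : ∀ n, F.obj (Y n) ≅ X.X n) : (Bin.map F).obj (brgLift F X Y e) ≅ X where
  hom := Bin.homMk (fun n => (e n).hom) fun b n => by simp [Bin.map, brgLift]
  inv := Bin.homMk (fun n => (e n).inv) fun b n => by simp [Bin.map, brgLift]
  hom_inv_id := Bin.hom_ext fun n => (e n).hom_inv_id
  inv_hom_id := Bin.hom_ext fun n => (e n).inv_hom_id

end Add

section Tri

variable {D : Type*} [Category* D] [HasZeroObject D] [HasShift D ℤ] [Preadditive D]
  [∀ n : ℤ, (shiftFunctor D n).Additive] [Pretriangulated D] [IsTriangulated D]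
variable {D' : Type*} [Category* D'] [HasZeroObject D'] [HasShift D' ℤ] [Preadditive D']
  [∀ n : ℤ, (shiftFunctor D' n).Additive] [Pretriangulated D']
variable {F : D ⥤ D'} [F.CommShift ℤ] [F.IsTriangulated] {N S : ObjectProperty D}
  {S' : ObjectProperty D'} [Tg N] [Tg S]

theorem brg_ker (h : Loc F N S S') : Loc F (S ⊓ Zr.inverseImage F) S S' := by
  rw [← h.ker_eq]
  exact h

theorem brg_id : Loc (𝟭 D) Zr S S :=
  Deq.loc ⟨fun _ _ _ _ => Function.bijective_id, le_rfl, fun Y h => ⟨Y, h, ⟨Iso.refl _⟩⟩⟩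

end Tri

variable {a : Am.{v, u}} {A : Type (max u v)} [Category.{v} A] [Preadditive A]
  [HasZeroObject A] [HasBinaryBiproducts A] {P : ObjectProperty a.A}

theorem brg_tg {x y : Am.{v, u}} (f : Am.Map x y) (G : ObjectProperty x.A) :
    Tg (f.ker (x.gen G)) := inferInstance

theorem brg_comp {x y z : Am.{v, u}} (f : Am.Map x y) (g : Am.Map y z) {G : ObjectProperty x.A}
    {N' W : ObjectProperty y.D} [Tg N'] [Tg W] {W' : ObjectProperty z.D} [Tg W']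
    (h : Loc f.D (f.ker (x.gen G)) (x.gen G) W) (k : Loc g.D N' W W') :
    Loc (f.comp g).D ((f.comp g).ker (x.gen G)) (x.gen G) W' :=
  brg_ker (Loc.of_iso (f.compD g).symm (h.comp k))

theorem brg_cof {x z : Am.{v, u}} (f : Am.Map x z) {G G₀ : ObjectProperty x.A}
    {W V : ObjectProperty z.D} [Tg V] (h : Loc f.D (f.ker (x.gen G)) (x.gen G) W) (hV : V ≤ W)
    (le : G₀ ≤ G) (le' : ∀ Q, G₀ Q → V (z.sg.obj (f.F.obj Q)))
    (c : ∀ X, x.gen G X → V (f.D.obj X) → ∃ (Z : x.D) (s : X ⟶ Z), x.gen G₀ Z ∧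
      (f.ker (x.gen G)).trW s) : Loc f.D (f.ker (x.gen G₀)) (x.gen G₀) V := by
  refine brg_ker ((h.restrict hV).cofinal (S₀ := x.gen G₀) (Cl.le ?_) fun X hX => c X hX.1 hX.2)
  rintro X ⟨Q, hQ, ⟨e⟩⟩
  obtain ⟨k⟩ := f.sg_iso
  exact ⟨Cl.of ⟨Q, le Q hQ, ⟨e⟩⟩, V.prop_of_iso ((k.app Q).symm ≪≫ f.D.mapIso e) (le' Q hQ)⟩

theorem brg_W {x y : Am.{v, u}} (f : Am.Map x y) {G : ObjectProperty x.A} {S : ObjectProperty y.D}
    [Tg S] (h : Loc f.D (f.ker (x.gen G)) (x.gen G) S) {z : Am.{v, u}} (g : Am.Map z x.B)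
    {H : ObjectProperty z.A} (k : Loc g.D (g.ker (z.gen H)) (z.gen H) (Am.W (x.gen G))) :
    Loc (g.comp f.B).D ((g.comp f.B).ker (z.gen H)) (z.gen H) (Am.W S) :=
  brg_comp g f.B k (Am.locW h)

theorem brg_loc {S : ObjectProperty a.D} [Tg S] (pt : Pt a A P)
    (h : Loc a.ρ.D (a.ρ.ker ((Am.of a.A).gen P)) ((Am.of a.A).gen P) S) :
    Loc a.B.ρ.D (a.B.ρ.ker ((Am.of a.B.A).gen pt.Pq)) ((Am.of a.B.A).gen pt.Pq) (Am.V S) := by
  have := pt.ad
  have h2 : Loc a.B.ρ.D (a.B.ρ.ker ((Am.of (Bin a.A)).gen (Pb P))) ((Am.of (Bin a.A)).gen (Pb P))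
    (Am.W S) := brg_W a.ρ h (Am.σ a.A) (alpha P)
  obtain ⟨k⟩ := a.B.ρ.sg_iso
  exact brg_cof a.B.ρ h2 inf_le_left (fun _ h => h.1) (fun Q hQ => ⟨(Am.W S).prop_of_iso (k.app Q)
    (h2.maps _ (Cl.of ⟨Q, hQ.1, ⟨Iso.refl _⟩⟩)), (pt.det Q hQ.1.1).2 hQ.2⟩) fun X hX hV =>
      pt.beta X hX hV.2

theorem brg_img {E : Ex.{v, u}} {S : ObjectProperty a.D} (m : Mo E a A S) (X : Bin a.A) :
    m.pt.Pq X ↔ ∃ Q, E.Acyc Q ∧ Nonempty (haveI := m.add; (Bin.map m.ι).obj Q ≅ X) := by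
  have := m.add
  have := m.full
  have := m.faith
  constructor
  · rintro ⟨⟨⟨l, hl⟩, hP⟩, hc⟩
    choose Y e using fun n => (m.img _).1 (hP n)
    replace e := fun n => (e n).some
    refine ⟨brgLift m.ι X Y e, ⟨⟨l, fun n hn => brg_zero m.ι (e n) (hl n hn)⟩, fun b => ?_⟩,
      ⟨brgIso m.ι X Y e⟩⟩
    obtain ⟨Z, i, p, h0, h⟩ := m.pt.splice X hP b (hc b)
    choose Z' e' using fun n => (m.img _).1 (h n).1
    replace e' := fun n => (e' n).some
    refine ⟨Z', fun n => m.ι.preimage ((e' (n + 1)).hom ≫ i n ≫ (e n).inv),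
      fun n => m.ι.preimage ((e n).hom ≫ p n ≫ (e' n).inv), brg_zero m.ι (e' 0) h0, fun n =>
        ⟨(m.ses _ _).2 fun k => ?_, m.ι.map_injective ?_⟩⟩
    · rw [m.ι.map_preimage, m.ι.map_preimage]
      exact brg_spl' _ ((h n).2.1 k) (e' (n + 1)) (e n) (e' n)
    · simp [brgLift, (h n).2.2]
  · rintro ⟨Q, ⟨⟨l, hl⟩, h⟩, ⟨e⟩⟩
    refine m.pt.B.ad.iso e ⟨⟨⟨l, fun n hn => m.ι.map_isZero (hl n hn)⟩, fun n =>
      (m.img _).2 (m.ι.obj_mem_essImage _)⟩, fun b k => ?_⟩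
    obtain ⟨Z, i, p, h0, h⟩ := h b
    refine Ctr.of_splice _ b (fun n => (m.pt.e k).F.obj (m.ι.obj (Z n)))
      (fun n => (m.pt.e k).F.map (m.ι.map (i n))) (fun n => (m.pt.e k).F.map (m.ι.map (p n)))
      ((m.pt.e k).F.map_isZero (m.ι.map_isZero h0)) fun n => ⟨(m.ses _ _).1 (h n).1 k, ?_⟩
    change (m.pt.e k).F.map (m.ι.map (Q.d b n)) = _
    rw [(h n).2, Functor.map_comp, Functor.map_comp]
    rfl

theorem Mo.B {E : Ex.{v, u}} {S : ObjectProperty a.D} (m : Mo E a A S) :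
    Nonempty (Mo E.Bq a.B A (Am.V S)) :=
  have := m.add
  have := m.full
  have := m.faith
  have := m.tg
  have := brg_full m.ι
  have := brg_faith m.ι
  ⟨{ ι := ObjectProperty.ι E.Acyc ⋙ Bin.map m.ι
     add := inferInstanceAs (ObjectProperty.ι E.Acyc ⋙ Bin.map m.ι).Additive
     full := inferInstanceAs (ObjectProperty.ι E.Acyc ⋙ Bin.map m.ι).Full
     faith := inferInstanceAs (ObjectProperty.ι E.Acyc ⋙ Bin.map m.ι).Faithful
     P := m.pt.Pq
     pt := m.pt.B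
     img := fun X => (brg_img m X).trans ⟨fun ⟨Q, h, e⟩ => ⟨⟨Q, h⟩, e⟩, fun ⟨Q, e⟩ => ⟨Q.1, Q.2, e⟩⟩
     ses := fun _ _ => ⟨fun h k => (m.ses _ _).1 (h k.1) k.2,
       fun h n => (m.ses _ _).2 fun k => h (n, k)⟩
     loc := brg_loc m.pt m.loc }⟩

theorem brg_base (a : Am.{v, u}) : Loc a.idm.D (a.idm.ker a.bdd) a.bdd a.bdd :=
  brg_ker (Loc.of_iso a.idD.symm brg_id)

theorem Mo.base [IsIdempotentComplete A] : Nonempty (Mo (spl A) (Am.of A) A (Am.of A).bdd) :=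
  ⟨{ ι := 𝟭 A
     add := inferInstanceAs (𝟭 A).Additive
     full := inferInstanceAs (𝟭 A).Full
     faith := inferInstanceAs (𝟭 A).Faithful
     P := ⊤
     pt := Pt.base
     img := fun X => ⟨fun _ => ⟨X, ⟨Iso.refl _⟩⟩, fun _ => trivial⟩
     ses := fun _ _ => ⟨fun h _ => h, fun h => h ()⟩
     loc := brg_base (Am.of A) }⟩

theorem brg_iter (n : ℕ) : ∀ {a : Am.{v, u}} {E : Ex.{v, u}} {S : ObjectProperty a.D},
    Mo E a A S → (Subsingleton (Ex.Bq^[n] E).K0 ↔ Subsingleton (Am.Kn n a S)) := by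
  induction n with
  | zero => exact fun m => m.k0
  | succ n ih => exact fun m => m.B.elim fun m' => ih m'

theorem bridge (C : Type u) [Category.{v} C] [Preadditive C]
    [HasZeroObject (Idempotents.Karoubi C)] [HasBinaryBiproducts (Idempotents.Karoubi C)] :
    KZero C ↔ Am.Z (Am.of.{v, u} (Idempotents.Karoubi C)).bdd :=
  (Mo.base.{v, u} (A := Idempotents.Karoubi C)).elim fun m => forall_congr' fun n => brg_iter n m

end Pool.Agent.Lib.MP_5d3e93_al.Gr
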