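import Pool.Agent.Lib.MP_5d3e93_al.Gr.Exa
import Pool.Agent.Lib.MP_5d3e93_al.Gr.Str

/-! Exactness of a natural short sequence can be tested on generators. -/

open CategoryTheory Limits Pretriangulated ZeroObject

namespace Pool.Agent.Lib.MP_5d3e93_al.Gr

universe v u v' u'

/-- A class with two out of three in all positions is triangulated. -/
theorem eg_tg {D : Type*} [Category* D] [HasZeroObject D] [HasShift D ℤ] [Preadditive D]
    [∀ n : ℤ, (shiftFunctor D n).Additive] [Pretriangulated D] {S : ObjectProperty D}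
    (iso : ∀ {X Y}, (X ≅ Y) → S X → S Y) (h0 : S 0)
    (h : ∀ T ∈ distTriang D, (S T.obj₂ → (S T.obj₁ ↔ S T.obj₃)) ∧
      (S T.obj₁ → S T.obj₃ → S T.obj₂)) : Tg S := by
  have h1 : ∀ X, S X ↔ S (X⟦(1 : ℤ)⟧) := fun X => (h _ (contractible_distinguished₂ X)).1 h0
  refine Tg.mk' (fun X hX => iso ((isZero_zero D).iso hX) h0) (fun n X hX => ?_)
    fun T k => (h T k).2
  induction n using Int.induction_on with
  | zero => exact iso ((shiftFunctorZero D ℤ).app X).symm hX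
  | succ n ih => exact iso ((shiftFunctorAdd' D (n : ℤ) 1 _ rfl).app X).symm ((h1 _).1 ih)
  | pred n ih =>
    exact (h1 _).2 (iso ((shiftFunctorAdd' D (-(n : ℤ) - 1) 1 _ (by lia)).app X) ih)

section Cone

open CochainComplex HomComplex mappingCone

variable {C : Type*} [Category* C] [Preadditive C] [HasBinaryBiproducts C]
  {t t' : ShortComplex (CochainComplex C ℤ)}

theorem exaD_nat (τ : t ⟶ t') :
    mappingCone.map t.f t'.f τ.τ₁ τ.τ₂ τ.comm₁₂.symm ≫ exaD t' = exaD t ≫ τ.τ₃ := by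
  ext n
  apply ext_from _ (n + 1) n rfl
  · simp [mappingCone.map, exaD]
  · simp [mappingCone.map, exaD, ← HomologicalComplex.comp_f, τ.comm₂₃]

/-- The cones of the components of a morphism of short sequences. -/
noncomputable def egC (τ : t ⟶ t') : ShortComplex (CochainComplex C ℤ) :=
  .mk (mappingCone.map τ.τ₁ τ.τ₂ t.f t'.f τ.comm₁₂) (mappingCone.map τ.τ₂ τ.τ₃ t.g t'.g τ.comm₂₃) (by
    ext n
    have a := congrArg (·.f (n + 1)) t.zero
    have b := congrArg (·.f n) t'.zero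
    dsimp at a b
    apply ext_from _ (n + 1) n rfl <;> simp [mappingCone.map, reassoc_of% a, reassoc_of% b])

set_option backward.defeqAttrib.useBackward true in
set_option backward.isDefEq.respectTransparency false in
theorem egC_split (τ : t ⟶ t') (σ : ∀ n, (t.map (HomologicalComplex.eval _ _ n)).Splitting)
    (σ' : ∀ n, (t'.map (HomologicalComplex.eval _ _ n)).Splitting) (n : ℤ) :
    Nonempty ((egC τ).map (HomologicalComplex.eval _ _ n)).Splitting := by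
  have a1 := (σ (n + 1)).f_r
  have a2 := (σ (n + 1)).s_g
  have a3 := (σ (n + 1)).r_f
  have b1 := (σ' n).f_r
  have b2 := (σ' n).s_g
  have b3 := (σ' n).r_f
  dsimp at a1 a2 a3 b1 b2 b3
  refine ⟨⟨(fst τ.τ₂).1.v n (n + 1) rfl ≫ (σ (n + 1)).r ≫ (inl τ.τ₁).v (n + 1) n (by lia) +
    (snd τ.τ₂).v n n (add_zero n) ≫ (σ' n).r ≫ (inr τ.τ₁).f n,
    (fst τ.τ₃).1.v n (n + 1) rfl ≫ (σ (n + 1)).s ≫ (inl τ.τ₂).v (n + 1) n (by lia) +
    (snd τ.τ₃).v n n (add_zero n) ≫ (σ' n).s ≫ (inr τ.τ₂).f n, ?_, ?_, ?_⟩⟩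
  · dsimp [egC]
    apply ext_from _ (n + 1) n rfl <;> simp [mappingCone.map, reassoc_of% a1, reassoc_of% b1]
  · dsimp [egC]
    apply ext_from _ (n + 1) n rfl <;> simp [mappingCone.map, reassoc_of% a2, reassoc_of% b2]
  · dsimp [egC]
    apply ext_from _ (n + 1) n rfl <;> simp [mappingCone.map, reassoc_of% a3, reassoc_of% b3]

end Cone

namespace Am

variable {a : Am.{v, u}} {b : Am.{v', u'}}

section five

open CochainComplex mappingCone

variable {t t' : ShortComplex (CochainComplex a.A ℤ)} (τ : t ⟶ t')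

theorem eg_five : (IsIso (a.QQ.map τ.τ₂) → (IsIso (a.QQ.map τ.τ₁) ↔
      IsIso (a.QQ.map (mappingCone.map t.f t'.f τ.τ₁ τ.τ₂ τ.comm₁₂.symm)))) ∧
    (IsIso (a.QQ.map τ.τ₁) → IsIso (a.QQ.map (mappingCone.map t.f t'.f τ.τ₁ τ.τ₂ τ.comm₁₂.symm)) →
      IsIso (a.QQ.map τ.τ₂)) :=
  have h := a.Q.map_distinguished _ (HomotopyCategory.mappingCone_triangleh_distinguished t.f)
  have h' := a.Q.map_distinguished _ (HomotopyCategory.mappingCone_triangleh_distinguished t'.f)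
  let φ := a.Q.mapTriangle.map ((HomotopyCategory.quotient _ _).mapTriangle.map
    (triangleMap t.f t'.f τ.τ₁ τ.τ₂ τ.comm₁₂.symm))
  ⟨fun h₂ => ⟨fun h₁ => isIso₃_of_isIso₁₂ φ h h' h₁ h₂, fun h₃ => isIso₁_of_isIso₂₃ φ h h' h₂ h₃⟩,
    fun h₁ h₃ => isIso₂_of_isIso₁₃ φ h h' h₁ h₃⟩

theorem eg_sq : a.QQ.map (mappingCone.map t.f t'.f τ.τ₁ τ.τ₂ τ.comm₁₂.symm) ≫ a.QQ.map (exaD t') =
    a.QQ.map (exaD t) ≫ a.QQ.map τ.τ₃ := by
  rw [← Functor.map_comp, ← Functor.map_comp, exaD_nat]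

/-- Exactness is invariant under isomorphisms in the derived category. -/
theorem exa_congr (h₁ : IsIso (a.QQ.map τ.τ₁)) (h₂ : IsIso (a.QQ.map τ.τ₂))
    (h₃ : IsIso (a.QQ.map τ.τ₃)) : a.Exa t ↔ a.Exa t' :=
  have := ((eg_five τ).1 h₂).1 h₁
  (isIso_comp_right_iff (a.QQ.map (exaD t)) (a.QQ.map τ.τ₃)).symm.trans
    ((Iff.of_eq (congrArg IsIso (eg_sq τ).symm)).trans (isIso_comp_left_iff _ _))

/-- The five lemma for exact short sequences. -/
theorem exa_five (h : a.Exa t) (h' : a.Exa t') : (IsIso (a.QQ.map τ.τ₂) →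
      (IsIso (a.QQ.map τ.τ₁) ↔ IsIso (a.QQ.map τ.τ₃))) ∧
    (IsIso (a.QQ.map τ.τ₁) → IsIso (a.QQ.map τ.τ₃) → IsIso (a.QQ.map τ.τ₂)) := by
  have i : IsIso (a.QQ.map (exaD t)) := h
  have i' : IsIso (a.QQ.map (exaD t')) := h'
  have e := (isIso_comp_right_iff _ (a.QQ.map (exaD t'))).symm.trans
    ((Iff.of_eq (congrArg IsIso (eg_sq τ))).trans (isIso_comp_left_iff _ _))
  rw [← e]
  exact eg_five τ

end five

/-- A short sequence of objects as a short sequence of complexes. -/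
def ExaS (a : Am.{v, u}) {X Y Z : a.A} (i : X ⟶ Y) (p : Y ⟶ Z) (h : i ≫ p = 0) : Prop :=
  a.Exa ((ShortComplex.mk i p h).map (CochainComplex.singleFunctor a.A 0))

theorem ExaS.tri {X Y Z : a.A} {i : X ⟶ Y} {p : Y ⟶ Z} {h : i ≫ p = 0} (k : a.ExaS i p h) :
    ∃ δ, Triangle.mk (a.sg.map i) (a.sg.map p) δ ∈ distTriang a.D := Exa.tri k

theorem exaS_of_reflect {ι : Type*} (g : ι → Map a b)
    (hg : ∀ X, (∀ j, b.Tb ((g j).K.obj X)) → a.Tb X) {X Y Z : a.A} {i : X ⟶ Y} {p : Y ⟶ Z}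
    (h : i ≫ p = 0) (k : ∀ j, Spl ((g j).F.map i) ((g j).F.map p)) : a.ExaS i p h :=
  exa_of_reflect g _ hg fun j => exa_of_split _ fun n => by
    obtain ⟨r, s, h1, h2, h3⟩ := k j
    have σ : ((ShortComplex.mk i p h).map (g j).F).Splitting := ⟨r, s, h1, h2, h3⟩
    exact ⟨(σ.map (HomologicalComplex.single b.A (.up ℤ) 0 ⋙
      HomologicalComplex.eval _ _ n)).ofIso ((ShortComplex.mk i p h).mapNatIso
        (Functor.isoWhiskerRight (HomologicalComplex.singleMapHomologicalComplex (g j).F (.up ℤ) 0)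
          (HomologicalComplex.eval _ _ n))).symm⟩

variable {f₁ f f₂ : Map a b} {α : f₁.F ⟶ f.F} {β : f.F ⟶ f₂.F} {h : α ≫ β = 0}

/-- Functoriality of `sesAt`. -/
def sesMap (h : α ≫ β = 0) {K L : CochainComplex a.A ℤ} (φ : K ⟶ L) :
    sesAt α β h K ⟶ sesAt α β h L where
  τ₁ := (f₁.F.mapHomologicalComplex _).map φ
  τ₂ := (f.F.mapHomologicalComplex _).map φ
  τ₃ := (f₂.F.mapHomologicalComplex _).map φ
  comm₁₂ := (NatTrans.mapHomologicalComplex α _).naturality φ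
  comm₂₃ := (NatTrans.mapHomologicalComplex β _).naturality φ

theorem ses_map_iff {K L : CochainComplex a.A ℤ} (φ : K ⟶ L) (i : IsIso (a.QQ.map φ)) :
    b.Exa (sesAt α β h K) ↔ b.Exa (sesAt α β h L) :=
  have k : ∀ g : Map a b, IsIso (b.QQ.map ((g.F.mapHomologicalComplex _).map φ)) := fun g =>
    (congrArg IsIso (g.D_map ((HomotopyCategory.quotient _ _).map φ))).mp
      (@Functor.map_isIso _ _ _ _ _ _ g.D _ i)
  exa_congr (sesMap h φ) (k f₁) (k f) (k f₂)

theorem ses_iso {K L : CochainComplex a.A ℤ} (e : a.QQ.obj K ≅ a.QQ.obj L)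
    (k : b.Exa (sesAt α β h K)) : b.Exa (sesAt α β h L) := by
  obtain ⟨φ, hφ⟩ := Localization.exists_leftFraction a.Q a.T.trW e.hom
  have i := Localization.inverts a.Q a.T.trW _ φ.hs
  have e' := φ.map_comp_map_s a.Q (Localization.inverts a.Q a.T.trW)
  rw [← hφ] at e'
  obtain ⟨x, hx⟩ := (HomotopyCategory.quotient _ _).map_surjective (X := K) (Y := φ.Y'.as) φ.f
  obtain ⟨y, hy⟩ := (HomotopyCategory.quotient _ _).map_surjective (X := L) (Y := φ.Y'.as) φ.s
  refine (ses_map_iff y ?_).2 ((ses_map_iff x ?_).1 k)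
  · exact (congrArg (fun z => IsIso (a.Q.map z)) hy).mpr i
  · exact (congrArg (fun z => IsIso (a.Q.map z)) hx).mpr 
      ((congrArg IsIso e').mp (@IsIso.comp_isIso _ _ _ _ _ _ _ e.isIso_hom i))

theorem ses_split (S : ShortComplex (CochainComplex a.A ℤ))
    (σ : ∀ n, (S.map (HomologicalComplex.eval _ _ n)).Splitting) :
    (b.Exa (sesAt α β h S.X₂) → (b.Exa (sesAt α β h S.X₁) ↔ b.Exa (sesAt α β h S.X₃))) ∧
    (b.Exa (sesAt α β h S.X₁) → b.Exa (sesAt α β h S.X₃) → b.Exa (sesAt α β h S.X₂)) := by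
  let τ : S.map (f₁.F.mapHomologicalComplex _) ⟶ S.map (f.F.mapHomologicalComplex _) :=
    S.mapNatTrans (NatTrans.mapHomologicalComplex α _)
  let ρ : egC τ ⟶ S.map (f₂.F.mapHomologicalComplex _) :=
    ⟨exaD (sesAt α β h S.X₁), exaD (sesAt α β h S.X₂), exaD (sesAt α β h S.X₃),
      (exaD_nat (sesMap h S.f)).symm, (exaD_nat (sesMap h S.g)).symm⟩
  exact exa_five ρ (exa_of_split _ (egC_split τ (fun n => (σ n).map f₁.F)
    fun n => (σ n).map f.F)) (exa_of_split _ fun n => ⟨(σ n).map f₂.F⟩)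

theorem ses_single (X : a.A) : b.Exa (sesAt α β h ((CochainComplex.singleFunctor a.A 0).obj X)) ↔
    b.ExaS (α.app X) (β.app X) (NatTrans.congr_app h X) := by
  have k : ∀ {g g' : Map a b} (γ : g.F ⟶ g'.F),
      (HomologicalComplex.singleMapHomologicalComplex g.F (.up ℤ) 0).hom.app X ≫
        (HomologicalComplex.single b.A (.up ℤ) 0).map (γ.app X) =
      (NatTrans.mapHomologicalComplex γ _).app _ ≫
        (HomologicalComplex.singleMapHomologicalComplex g'.F (.up ℤ) 0).hom.app X := fun γ => by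
    apply HomologicalComplex.to_single_hom_ext
    simp only [HomologicalComplex.comp_f, HomologicalComplex.single_map_f_self,
      HomologicalComplex.singleMapHomologicalComplex_hom_app_self]
    exact (Category.assoc ..).trans ((congrArg _ (Iso.inv_hom_id_assoc ..)).trans
      (γ.naturality_assoc _ _))
  have i : ∀ g : Map a b, IsIso (b.QQ.map
      ((HomologicalComplex.singleMapHomologicalComplex g.F (.up ℤ) 0).hom.app X)) := fun g =>
    (b.QQ.mapIso ((HomologicalComplex.singleMapHomologicalComplex g.F (.up ℤ) 0).app X)).isIso_hom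
  exact exa_congr ⟨_, _, _, k α, k β⟩ (i f₁) (i f) (i f₂)

/-- Exactness on the generators suffices (the complexes `K` with `Exa (sesAt .. K)` form a
triangulated class that contains `a.T`: degreewise split sequences, `mappingCone.map`). -/
theorem ses_of_gen {f₁ f f₂ : Map a b} {α : f₁.F ⟶ f.F} {β : f.F ⟶ f₂.F} {h : α ≫ β = 0}
    {P : ObjectProperty a.A}
    (k : ∀ X, P X → b.ExaS (α.app X) (β.app X) (NatTrans.congr_app h X)) :
    Ses α β h (a.gen P) := by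
  let S : ObjectProperty a.D := fun X => ∃ K, Nonempty (a.QQ.obj K ≅ X) ∧ b.Exa (sesAt α β h K)
  have hS : ∀ {X K}, (X ≅ a.QQ.obj K) → (S X ↔ b.Exa (sesAt α β h K)) := fun e =>
    ⟨fun ⟨_, ⟨e'⟩, c⟩ => ses_iso (e' ≪≫ e) c, fun c => ⟨_, ⟨e.symm⟩, c⟩⟩
  have : Tg S := eg_tg (fun e ⟨K, ⟨e'⟩, c⟩ => ⟨K, ⟨e' ≪≫ e⟩, c⟩) ?_ fun T hT => ?_
  · refine fun K hK => (hS (Iso.refl _)).1 (Cl.le (S := S) ?_ _ hK)
    rintro _ ⟨X, hX, ⟨e⟩⟩
    exact ⟨_, ⟨e⟩, (ses_single X).2 (k X hX)⟩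
  · refine ⟨0, ⟨a.QQ.mapZeroObject⟩, exa_of_split _ fun n => ?_⟩
    have z : ∀ g : Map a b, IsZero (g.F.obj ((0 : CochainComplex a.A ℤ).X n)) := fun g =>
      g.F.map_isZero ((HomologicalComplex.eval _ _ n).map_isZero (isZero_zero _))
    exact ⟨⟨0, 0, (z f₁).eq_of_src _ _, (z f₂).eq_of_src _ _, (z f).eq_of_src _ _⟩⟩
  · have := Localization.essSurj_mapArrow a.Q a.T.trW
    obtain ⟨T', e, hT'⟩ := (a.Q.distTriang_iff T).1 hT
    obtain ⟨s, σ, ⟨e'⟩⟩ :=
      (HomotopyCategory.distinguished_iff_iso_trianglehOfDegreewiseSplit T').1 hT'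
    let E := e ≪≫ a.Q.mapTriangle.mapIso e'
    rw [hS (X := T.obj₁) (K := s.X₁) (Triangle.π₁.mapIso E),
      hS (X := T.obj₂) (K := s.X₂) (Triangle.π₂.mapIso E),
      hS (X := T.obj₃) (K := s.X₃) (Triangle.π₃.mapIso E)]
    exact ses_split s σ

end Am

end Pool.Agent.Lib.MP_5d3e93_al.Gr
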