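import Pool.Agent.Lib.MP_5d3e93_al.Gr.K0

/-! Semiorthogonal decompositions. -/

open CategoryTheory Limits Pretriangulated ZeroObject

namespace Pool.Agent.Lib.MP_5d3e93_al.Gr

variable {D : Type*} [Category* D] [HasZeroObject D] [HasShift D ℤ] [Preadditive D]
  [∀ n : ℤ, (shiftFunctor D n).Additive] [Pretriangulated D]
variable {D' : Type*} [Category* D'] [HasZeroObject D'] [HasShift D' ℤ] [Preadditive D']
  [∀ n : ℤ, (shiftFunctor D' n).Additive] [Pretriangulated D']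

open ObjectProperty in
theorem sod_swap {P Q : ObjectProperty D}
    (h : ∀ X Y (f : X ⟶ Y⟦(1 : ℤ)⟧), P X → Q Y → f = 0) :
    extensionProduct Q P ≤ extensionProduct P Q := by
  rintro X ⟨Y, Z, f, g, k, hT, a, b⟩
  obtain ⟨e, -⟩ := exists_iso_binaryBiproduct_of_distTriang _ hT (h _ _ k b a)
  exact (extensionProduct P Q).prop_of_iso (e ≪≫ biprod.braiding Y Z).symm
    ⟨Z, Y, _, _, _, binaryBiproductTriangle_distinguished Z Y, b, a⟩

open ObjectProperty in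
theorem sod_star [IsTriangulated D] {P Q P' Q' : ObjectProperty D}
    (h : ∀ X Y (f : X ⟶ Y⟦(1 : ℤ)⟧), P' X → Q Y → f = 0) :
    extensionProduct (extensionProduct P Q) (extensionProduct P' Q') ≤
      extensionProduct (extensionProduct P P') (extensionProduct Q Q') := by
  rw [extensionProduct_assoc, extensionProduct_assoc, ← extensionProduct_assoc Q,
    ← extensionProduct_assoc P']
  exact monotone_extensionProduct_right _ (monotone_extensionProduct_left _ (sod_swap h))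

/-- maps out of `X` that die on `T.obj₂` vanish when `X` does not see the third object -/
theorem sod_zero {T : Triangle D} (hT : T ∈ distTriang D) {X : D} (f : X ⟶ T.obj₁)
    (h : ∀ g : X⟦(1 : ℤ)⟧ ⟶ T.obj₃, g = 0) (e : f ≫ T.mor₁ = 0) : f = 0 := by
  obtain ⟨g, hg⟩ := T.coyoneda_exact₁ hT (f⟦(1 : ℤ)⟧') (by rw [← Functor.map_comp, e, Functor.map_zero])
  rw [h g, zero_comp] at hg
  exact (shiftFunctor D (1 : ℤ)).map_injective (hg.trans (Functor.map_zero _ _ _).symm)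

theorem sod_uniq {S₁ S₂ : ObjectProperty D} [Tg S₁]
    (orth : ∀ X Y (f : X ⟶ Y), S₁ X → S₂ Y → f = 0) {X A B A' B' : D} {f : A ⟶ X} {g : X ⟶ B}
    {h : B ⟶ A⟦(1 : ℤ)⟧} {f' : A' ⟶ X} {g' : X ⟶ B'} {h' : B' ⟶ A'⟦(1 : ℤ)⟧}
    (hT : Triangle.mk f g h ∈ distTriang D) (hT' : Triangle.mk f' g' h' ∈ distTriang D)
    (a : S₁ A) (b : S₂ B) (a' : S₁ A') (b' : S₂ B') : Nonempty (A ≅ A') ∧ Nonempty (B ≅ B') := by
  obtain ⟨u, hu⟩ : ∃ u : A ⟶ A', f = u ≫ f' :=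
    Triangle.coyoneda_exact₂ _ hT' f (orth _ _ _ a b')
  obtain ⟨v, hv⟩ : ∃ v : A' ⟶ A, f' = v ≫ f :=
    Triangle.coyoneda_exact₂ _ hT f' (orth _ _ _ a' b)
  have e1 : u ≫ v = 𝟙 A := sub_eq_zero.1 (sod_zero hT (u ≫ v - 𝟙 A)
    (fun k => orth _ _ k (S₁.le_shift 1 _ a) b) (by
      change (u ≫ v - 𝟙 A) ≫ f = 0
      rw [Preadditive.sub_comp, Category.assoc, ← hv, ← hu, Category.id_comp, sub_self]))
  have e2 : v ≫ u = 𝟙 A' := sub_eq_zero.1 (sod_zero hT' (v ≫ u - 𝟙 A')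
    (fun k => orth _ _ k (S₁.le_shift 1 _ a') b') (by
      change (v ≫ u - 𝟙 A') ≫ f' = 0
      rw [Preadditive.sub_comp, Category.assoc, ← hu, ← hv, Category.id_comp, sub_self]))
  exact ⟨⟨⟨u, v, e1, e2⟩⟩, ⟨Triangle.π₃.mapIso (isoTriangleOfIso₁₂ _ _ hT hT' ⟨u, v, e1, e2⟩
    (Iso.refl X) ((Category.comp_id f).trans hu))⟩⟩

/-- the objects in a given class -/
def sodC (S : ObjectProperty D) (x : K0 S) : ObjectProperty D := fun X => ∃ a, K0.mk X a = x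

theorem sodC_ext {S : ObjectProperty D} [Tg S] (x y : K0 S) :
    (sodC S x).extensionProduct (sodC S y) ≤ sodC S (x + y) := by
  rintro X ⟨A, B, f, g, h, hT, ⟨a, rfl⟩, b, rfl⟩
  exact ⟨S.ext_of_isTriangulatedClosed₂ _ hT a b, K0.mk_tri hT a _ b⟩

section LocKfile
variable {F : D ⥤ D'} [F.CommShift ℤ] [F.IsTriangulated] {N S : ObjectProperty D}
  {S' : ObjectProperty D'} [IsTriangulated D] [Tg N] [Tg S] [Tg S']
/-- A semiorthogonal decomposition. -/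
structure Sod (S₁ S₂ S : ObjectProperty D) : Prop where
  le₁ : S₁ ≤ S
  le₂ : S₂ ≤ S
  orth : ∀ X Y (f : X ⟶ Y), S₁ X → S₂ Y → f = 0
  dec : ∀ X, S X → ∃ T ∈ distTriang D, S₁ T.obj₁ ∧ T.obj₂ = X ∧ S₂ T.obj₃
variable {S₁ S₂ : ObjectProperty D} [Tg S₁] [Tg S₂]

omit [IsTriangulated D] [Tg S] [Tg S₁] [Tg S₂] in
theorem Sod.ext (h : Sod S₁ S₂ S) {X : D} (a : S X) : S₁.extensionProduct S₂ X := by
  obtain ⟨T, hT, b, rfl, c⟩ := h.dec X a
  exact ⟨_, _, _, _, _, hT, b, c⟩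

theorem sod_of_gen (le₁ : S₁ ≤ S) (le₂ : S₂ ≤ S) (orth : ∀ X Y (f : X ⟶ Y), S₁ X → S₂ Y → f = 0)
    (h : S ≤ Cl (S₁ ⊔ S₂)) : Sod S₁ S₂ S := by
  have l₁ : S₁ ≤ S₁.extensionProduct S₂ := ObjectProperty.le_extensionProduct_left S₂
  have : Tg (S₁.extensionProduct S₂) := Tg.mk' (fun X a => l₁ X (Tg.zero S₁ a))
    (fun n X a => (S₁.extensionProduct S₂).le_shift n X a) fun T hT a b =>
      ObjectProperty.monotone_extensionProduct_left _
        (ObjectProperty.extensionProduct_le_of_isTriangulatedClosed₂ le_rfl le_rfl) _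
        (ObjectProperty.monotone_extensionProduct_right _
          (ObjectProperty.extensionProduct_le_of_isTriangulatedClosed₂ le_rfl le_rfl) _
          (sod_star (fun X Y f a b => orth _ _ f a (S₂.le_shift 1 _ b)) _
            ⟨_, _, _, _, _, hT, a, b⟩))
  refine ⟨le₁, le₂, orth, fun X a => ?_⟩
  obtain ⟨A, B, f, g, k, hT, b, c⟩ := Cl.le (S := S₁.extensionProduct S₂)
    (sup_le l₁ (ObjectProperty.le_extensionProduct_right S₁)) X (h X a)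
  exact ⟨_, hT, b, rfl, c⟩

theorem orth_of_gen {G G' : ObjectProperty D}
    (h : ∀ (n : ℤ) X Y (f : X ⟶ Y⟦n⟧), G X → G' Y → f = 0) :
    ∀ X Y (f : X ⟶ Y), Cl G X → Cl G' Y → f = 0 := by
  let P : ObjectProperty D := fun Z => ∃ (n : ℤ) (Y : D), G' Y ∧ Nonempty (Z ≅ Y⟦n⟧)
  have : P.IsStableUnderShift ℤ := ⟨fun m => ⟨fun Z ⟨n, Y, a, ⟨e⟩⟩ =>
    ⟨n + m, Y, a, ⟨(shiftFunctor D m).mapIso e ≪≫ ((shiftFunctorAdd D n m).app Y).symm⟩⟩⟩⟩
  have : Tg P.leftOrthogonal := {}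
  have : Tg (Cl G).rightOrthogonal := {}
  have k : Cl G ≤ P.leftOrthogonal := Cl.le fun X a Z f ⟨n, Y, b, ⟨e⟩⟩ => by
    rw [← cancel_mono e.hom, zero_comp]
    exact h n X Y _ a b
  have k' : Cl G' ≤ (Cl G).rightOrthogonal := Cl.le fun Y b X f a =>
    k X a f ⟨0, Y, b, ⟨((shiftFunctorZero D ℤ).app Y).symm⟩⟩
  exact fun X Y f a b => k' Y b f a

theorem Sod.k0_bij (h : Sod S₁ S₂ S) : Function.Bijective fun p : K0 S₁ × K0 S₂ =>
    K0.map (𝟭 D) (S' := S) h.le₁ p.1 + K0.map (𝟭 D) (S' := S) h.le₂ p.2 := by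
  have un : ∀ {X : D} {p q : K0 S₁ × K0 S₂}, (sodC S₁ p.1).extensionProduct (sodC S₂ p.2) X →
      (sodC S₁ q.1).extensionProduct (sodC S₂ q.2) X → p = q := by
    rintro X ⟨_, _⟩ ⟨_, _⟩ ⟨A, B, f, g, k, hT, ⟨a, rfl⟩, b, rfl⟩
      ⟨A', B', f', g', k', hT', ⟨a', rfl⟩, b', rfl⟩
    obtain ⟨⟨e⟩, ⟨e'⟩⟩ := sod_uniq h.orth hT hT' a b a' b'
    exact Prod.ext (K0.mk_iso e a a') (K0.mk_iso e' b b')
  have ex : ∀ X, S X → ∃ p : K0 S₁ × K0 S₂, (sodC S₁ p.1).extensionProduct (sodC S₂ p.2) X :=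
    fun X a => by
      obtain ⟨A, B, f, g, k, hT, b, c⟩ := h.ext a
      exact ⟨(K0.mk A b, K0.mk B c), A, B, f, g, k, hT, ⟨b, rfl⟩, c, rfl⟩
  choose p hp using ex
  let ψ : K0 S →+ K0 S₁ × K0 S₂ := K0.lift p fun T hT a b c => un (hp _ b)
    (ObjectProperty.monotone_extensionProduct_left _ (sodC_ext _ _) _
      (ObjectProperty.monotone_extensionProduct_right _ (sodC_ext _ _) _
        (sod_star (fun X Y f u v => h.orth _ _ f u.1 (S₂.le_shift 1 _ v.1)) _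
          ⟨_, _, _, _, _, hT, hp _ a, hp _ c⟩)))
  have z₁ : S₁ (0 : D) := Tg.zero _ (isZero_zero D)
  have z₂ : S₂ (0 : D) := Tg.zero _ (isZero_zero D)
  have e₁ : ψ.comp (K0.map (𝟭 D) (S' := S) h.le₁) = AddMonoidHom.inl _ _ :=
    K0.hom_ext fun X a => by
      rw [AddMonoidHom.comp_apply, K0.map_mk, K0.lift_mk]
      exact un (hp _ _) ⟨_, _, _, _, _, contractible_distinguished X, ⟨a, rfl⟩, z₂,
        K0.mk_zero (isZero_zero D) z₂⟩
  have e₂ : ψ.comp (K0.map (𝟭 D) (S' := S) h.le₂) = AddMonoidHom.inr _ _ :=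
    K0.hom_ext fun X a => by
      rw [AddMonoidHom.comp_apply, K0.map_mk, K0.lift_mk]
      exact un (hp _ _) ⟨_, _, _, _, _, contractible_distinguished₁ X,
        ⟨z₁, K0.mk_zero (isZero_zero D) z₁⟩, a, rfl⟩
  refine ⟨Function.LeftInverse.injective (g := ψ) fun q => ?_, fun x => ?_⟩
  · rw [map_add, ← AddMonoidHom.comp_apply, ← AddMonoidHom.comp_apply, e₁, e₂]
    simp
  · obtain ⟨X, a, rfl⟩ := K0.mk_surj x
    obtain ⟨T, hT, b, rfl, c⟩ := h.dec X a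
    refine ⟨(K0.mk _ b, K0.mk _ c), ?_⟩
    simp only [K0.map_mk]
    exact (K0.mk_tri hT _ a _).symm

theorem Sod.deq₂ (h : Sod S₁ S₂ S) (k : Loc F S₁ S S') : Deq F S₂ S' := by
  have sp : ∀ {Y Y' : D} {s : Y ⟶ Y'}, S₂ Y → S₁.trW s → ∃ r, 𝟙 Y = s ≫ r := by
    rintro Y Y' s b ⟨Z, g, l, hT, c⟩
    have : Mono s := Triangle.mono₁ _ hT (h.orth _ _ l c (S₂.le_shift 1 _ b))
    have := isSplitMono_of_mono s
    exact ⟨retraction s, (IsSplitMono.id s).symm⟩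
  refine ⟨fun X Y a b => ⟨(injective_iff_map_eq_zero F.mapAddHom).2 fun f e => ?_, fun φ => ?_⟩,
    fun X a => k.maps X (h.le₂ X a), fun Y b => ?_⟩
  · obtain ⟨Y', s, hs, e'⟩ := k.faith (h.le₂ X a) (h.le₂ Y b) f e
    obtain ⟨r, hr⟩ := sp b hs
    rw [← Category.comp_id f, hr, reassoc_of% e', zero_comp]
  · obtain ⟨Y', s, f, hs, e⟩ := k.full (h.le₂ X a) (h.le₂ Y b) φ
    obtain ⟨r, hr⟩ := sp b hs
    refine ⟨f ≫ r, ?_⟩
    rw [F.map_comp, ← e, Category.assoc, ← F.map_comp, ← hr, F.map_id, Category.comp_id]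
  · obtain ⟨X, a, ⟨e⟩⟩ := k.surj Y b
    obtain ⟨T, hT, c, rfl, d⟩ := h.dec X a
    have : IsIso (F.map T.mor₂) :=
      (Triangle.isZero₁_iff_isIso₂ _ (F.map_distinguished T hT)).1 (k.kill _ c)
    exact ⟨_, d, ⟨(asIso (F.map T.mor₂)).symm ≪≫ e⟩⟩

theorem Sod.deq₁ (h : Sod S₁ S₂ S) (k : Loc F S₂ S S') : Deq F S₁ S' := by
  refine ⟨fun X Y a b => ⟨(injective_iff_map_eq_zero F.mapAddHom).2 fun f e => ?_, fun φ => ?_⟩,
    fun X a => k.maps X (h.le₁ X a), fun Y b => ?_⟩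
  · obtain ⟨Y', s, ⟨Z, g, l, hT, c⟩, e'⟩ := k.faith (h.le₁ X a) (h.le₁ Y b) f e
    exact sod_zero hT f (fun u => h.orth _ _ u (S₁.le_shift 1 _ a) c) e'
  · obtain ⟨Y', s, f, ⟨Z, g, l, hT, c⟩, e⟩ := k.full (h.le₁ X a) (h.le₁ Y b) φ
    obtain ⟨u, hu⟩ : ∃ u : X ⟶ Y, f = u ≫ s :=
      Triangle.coyoneda_exact₂ _ hT f (h.orth _ _ _ a c)
    have : IsIso (F.map s) :=
      (Triangle.isZero₃_iff_isIso₁ _ (F.map_distinguished _ hT)).1 (k.kill _ c)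
    exact ⟨u, by rw [← cancel_mono (F.map s), e, hu, F.map_comp]⟩
  · obtain ⟨X, a, ⟨e⟩⟩ := k.surj Y b
    obtain ⟨T, hT, c, rfl, d⟩ := h.dec X a
    have : IsIso (F.map T.mor₁) :=
      (Triangle.isZero₃_iff_isIso₁ _ (F.map_distinguished T hT)).1 (k.kill _ d)
    exact ⟨_, c, ⟨asIso (F.map T.mor₁) ≪≫ e⟩⟩

theorem Sod.th₁ (h : Sod S₁ S₂ S) : ∀ X, S X → Th S₁ X → S₁ X := by
  rintro X a ⟨Y, b⟩
  obtain ⟨T, hT, c, rfl, d⟩ := h.dec X a
  have : IsIso T.mor₁ := (T.isZero₃_iff_isIso₁ hT).1 (by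
    have e : T.mor₂ = 0 := by
      rw [← Category.id_comp T.mor₂, ← biprod.inl_fst (Y := Y), Category.assoc,
        h.orth _ _ (biprod.fst ≫ T.mor₂) b d, comp_zero]
    obtain ⟨r, hr⟩ := T.yoneda_exact₃ hT (𝟙 _) (by rw [e, zero_comp])
    rw [IsZero.iff_id_eq_zero, hr, h.orth _ _ r (S₁.le_shift 1 _ c) d, comp_zero])
  exact S₁.prop_of_iso (asIso T.mor₁) c

theorem Sod.th₂ (h : Sod S₁ S₂ S) : ∀ X, S X → Th S₂ X → S₂ X := by
  rintro X a ⟨Y, b⟩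
  obtain ⟨T, hT, c, rfl, d⟩ := h.dec X a
  have : IsIso T.mor₂ := (T.isZero₁_iff_isIso₂ hT).1 (by
    have e : T.mor₁ = 0 := by
      rw [← Category.comp_id T.mor₁, ← biprod.inl_fst (Y := Y), ← Category.assoc,
        h.orth _ _ (T.mor₁ ≫ biprod.inl) c b, zero_comp]
    rw [IsZero.iff_id_eq_zero]
    exact sod_zero hT _ (fun u => h.orth _ _ u (S₁.le_shift 1 _ c) d) (by rw [e, comp_zero]))
  exact S₂.prop_of_iso (asIso T.mor₂).symm d

end LocKfile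

end Pool.Agent.Lib.MP_5d3e93_al.Gr
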