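import Pool.Agent.Lib.MP_5d3e93_al.Gr.F4b
import Pool.Agent.Lib.MP_5d3e93_al.Gr.Sod

/-! Semiorthogonal decompositions pass to acyclic binary complexes. -/

open CategoryTheory Limits Pretriangulated ZeroObject

namespace Pool.Agent.Lib.MP_5d3e93_al.Gr

variable {D : Type*} [Category* D] [HasZeroObject D] [HasShift D ℤ] [Preadditive D]
  [∀ n : ℤ, (shiftFunctor D n).Additive] [Pretriangulated D]
variable {E : Type*} [Category* E] [HasZeroObject E] [HasShift E ℤ] [Preadditive E]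
  [∀ n : ℤ, (shiftFunctor E n).Additive] [Pretriangulated E]
variable {ev : ℕ → E ⥤ D} {R : Bool → D ⥤ E} [∀ j, (ev j).CommShift ℤ]
  [∀ j, (ev j).IsTriangulated] [∀ b, (R b).CommShift ℤ] [∀ b, (R b).IsTriangulated]
  {S N : ObjectProperty D}
variable (β : Bs ev R) [Tg S] [IsTriangulated E]
include β

theorem Bs.sodW {S₁ S₂ : ObjectProperty D} [Tg S₁] [Tg S₂] (h : Sod S₁ S₂ S) :
    Sod (Wd ev S₁) (Wd ev S₂) (Wd ev S) := by
  refine sod_of_gen (fun M a => ⟨fun j => h.le₁ _ (a.1 j), a.2⟩)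
    (fun M a => ⟨fun j => h.le₂ _ (a.1 j), a.2⟩) (fun X Y f a b => ?_) ?_
  · rw [β.W_eq] at a
    refine orth_of_gen (G' := Wd ev S₂) ?_ X Y f a (.of b)
    rintro n _ Y f ⟨i, X, a, rfl⟩ b
    rw [← ((β.adj i).homEquiv _ _).symm_apply_apply f,
      h.orth _ _ ((β.adj i).homEquiv _ _ f) a (((Wd ev S₂).le_shift n _ b).1 i),
      Adjunction.homEquiv_counit, Functor.map_zero, zero_comp]
  · rw [β.W_eq]
    refine Cl.le ?_
    rintro _ ⟨i, X, a, rfl⟩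
    obtain ⟨T, hT, a₁, rfl, a₂⟩ := h.dec X a
    exact Cl.ext _ ((β.L i).map_distinguished T hT) (.of (Or.inl (β.W_L i a₁)))
      (.of (Or.inr (β.W_L i a₂)))

theorem Bs.sod [IsTriangulated D] {S₁ S₂ : ObjectProperty D} [Tg S₁] [Tg S₂] (h : Sod S₁ S₂ S) :
    Sod (Vd ev R S₁) (Vd ev R S₂) (Vd ev R S) := by
  have k := β.sodW h
  refine ⟨fun M a => ⟨k.le₁ _ a.1, a.2⟩, fun M a => ⟨k.le₂ _ a.1, a.2⟩,
    fun X Y f a b => k.orth X Y f a.1 b.1, fun M a => ?_⟩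
  obtain ⟨T, hT, a₁, rfl, a₃⟩ := k.dec M a.1
  have key : ∀ b, (∀ Y (φ : T.obj₁ ⟶ (R b).obj Y), φ = 0) ∧
      ∀ Y (φ : T.obj₃ ⟶ (R b).obj Y), φ = 0 := fun b => by
    obtain ⟨P₁, s₁, u₁, h₁⟩ := β.tot a₁ b
    obtain ⟨P₃, s₃, u₃, h₃⟩ := β.tot a₃ b
    have h₂ : Un (R b) (0 : T.obj₂ ⟶ (R b).obj 0) := fun Y =>
      ⟨fun _ _ _ => (isZero_zero D).eq_of_src _ _, fun φ => ⟨0, (a.2 b Y _).trans (a.2 b Y φ).symm⟩⟩
    obtain ⟨f, g, t, hP⟩ := un_tri (R b) hT h₁ h₂ h₃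
    have : IsIso t := (Triangle.isZero₂_iff_isIso₃ _ hP).1 (isZero_zero D)
    have z₃ : IsZero P₃ := (IsZero.iff_id_eq_zero _).2
      (h.orth _ _ _ (S₁.prop_of_iso (asIso t).symm (S₁.le_shift 1 _ s₁)) s₃)
    exact ⟨h₁.isZero_iff.1 (Triangle.isZero₁_of_isZero₂₃ _ hP (isZero_zero D) z₃),
      h₃.isZero_iff.1 z₃⟩
  exact ⟨T, hT, ⟨a₁, fun b => (key b).1⟩, rfl, a₃, fun b => (key b).2⟩

end Pool.Agent.Lib.MP_5d3e93_al.Gr
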