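import Pool.Agent.Lib.MP_5d3e93_al.Gr.F5
import Pool.Agent.Lib.MP_5d3e93_al.Gr.F4c
import Pool.Agent.Lib.MP_5d3e93_al.Gr.BsI
import Pool.Agent.Lib.MP_5d3e93_al.Gr.Nat
import Pool.Agent.Lib.MP_5d3e93_al.Gr.Exa

/-! The maps on K-groups: functoriality, homotopy invariance, additivity. -/

open CategoryTheory Limits Pretriangulated ZeroObject

namespace Pool.Agent.Lib.MP_5d3e93_al.Gr

universe v u v' u' v'' u''

namespace Am

variable {a : Am.{v, u}} {b : Am.{v', u'}} {c : Am.{v'', u''}}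

instance (S : ObjectProperty a.D) [Tg S] : Tg (W S) :=
  inferInstanceAs (Tg (Wd (fun j => (a.ev j).D) S))

instance (S : ObjectProperty a.D) [Tg S] : Tg (V S) :=
  inferInstanceAs (Tg (Vd (fun j => (a.ev j).D) (fun b => (a.R b).D) S))

theorem Map.ev_obj (f : Map a b) (j : ℕ) (X : a.B.D) :
    (b.ev j).D.obj (f.B.D.obj X) = f.D.obj ((a.ev j).D.obj X) := rfl

/-- No closure property of `S`, `S'` is needed: the terms agree definitionally; `Bm.ac`. -/
theorem Map.V_map (f : Map a b) {S : ObjectProperty a.D} {S' : ObjectProperty b.D}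
    (h : S ≤ S'.inverseImage f.D) : V S ≤ (V S').inverseImage f.B.D := by
  rintro X ⟨⟨h1, m, h2⟩, h3⟩
  exact ⟨⟨fun j => h _ (h1 j), m, fun j hj => f.D.map_isZero (h2 j hj)⟩,
    f.bm.ac (M := X) ⟨⟨fun _ => trivial, m, h2⟩, h3⟩⟩

/-- The map on K-groups. -/
noncomputable def Kmap : ∀ (n : ℕ) {a : Am.{v, u}} {b : Am.{v', u'}} (f : Map a b)
    {S : ObjectProperty a.D} {S' : ObjectProperty b.D}, S ≤ S'.inverseImage f.D →
      (Kn n a S →+ Kn n b S')
  | 0, _, _, f, _, _, h => K0.map f.D h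
  | n + 1, _, _, f, _, _, h => Kmap n f.B (f.V_map h)

/-- The map induced by an inclusion. -/
noncomputable def Kinc (n : ℕ) {N S : ObjectProperty a.D} (h : N ≤ S) : Kn n a N →+ Kn n a S :=
  Kmap n a.idm h

/-- The map vanishes on all K-groups. -/
def Null (f : Map a b) {S : ObjectProperty a.D} {S' : ObjectProperty b.D}
    (h : S ≤ S'.inverseImage f.D) : Prop := ∀ n, Kmap n f h = 0

theorem Map.comp_B (f : Map a b) (g : Map b c) : (f.comp g).B = f.B.comp g.B := rfl

theorem idm_B (a : Am.{v, u}) : a.idm.B = a.B.idm := rfl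

theorem Map.B_ev (f : Map a b) (j : ℕ) : f.B.comp (b.ev j) = (a.ev j).comp f := rfl

/-- A natural transformation applied degreewise. -/
def Map.natB (f g : Map a b) (α : f.F ⟶ g.F) : f.B.F ⟶ g.B.F where
  app P := Bin.homMk (fun n => α.app (Bin.X P n)) fun e n => (α.naturality (Bin.d P e n)).symm
  naturality _ _ φ := Bin.hom_ext fun n => α.naturality (φ.1 n)

theorem Map.ev_natB (f g : Map a b) (α : f.F ⟶ g.F) (j : ℕ) (X : a.B.D) :
    (b.ev j).D.map ((f.B.nat g.B (f.natB g α)).app X) = (f.nat g α).app ((a.ev j).D.obj X) :=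
  (Map.map_nat f.B g.B (b.ev j) _ X).trans (Map.nat_obj (a.ev j) f g α X).symm

/-- The terms detect isomorphisms. -/
theorem isIso_of_ev {X Y : a.B.D} (φ : X ⟶ Y) (h : ∀ j, IsIso ((a.ev j).D.map φ)) : IsIso φ := by
  obtain ⟨C, g, k, hT⟩ := distinguished_cocone_triangle φ
  exact (Triangle.isZero₃_iff_isIso₁ _ hT).1 (a.bs.cons C fun j =>
    (Triangle.isZero₃_iff_isIso₁ _ ((a.ev j).D.map_distinguished _ hT)).2 (h j))

variable {N S : ObjectProperty a.D} {S' : ObjectProperty b.D} {S'' : ObjectProperty c.D} (n : ℕ)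

theorem Kmap_comp (f : Map a b) (g : Map b c) (h : S ≤ S'.inverseImage f.D)
    (k : S' ≤ S''.inverseImage g.D) (l : S ≤ S''.inverseImage (f.comp g).D) (x : Kn n a S) :
    Kmap n (f.comp g) l x = Kmap n g k (Kmap n f h x) := by
  induction n generalizing a b c with
  | zero =>
    exact DFunLike.congr_fun (K0.hom_ext (f := K0.map (f.comp g).D l)
      (g := (K0.map g.D k).comp (K0.map f.D h)) fun X hX =>
        (K0.map_mk _ l X hX).trans ((congrArg (K0.map g.D k) (K0.map_mk _ h X hX)).trans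
          (K0.map_mk _ k _ _)).symm) x
  | succ n ih => exact ih f.B g.B (f.V_map h) (g.V_map k) ((f.comp g).V_map l) x

theorem Kinc_refl (h : S ≤ S) (x : Kn n a S) : Kinc n h x = x := by
  induction n generalizing a with
  | zero =>
    exact DFunLike.congr_fun (K0.hom_ext (f := K0.map a.idm.D h) (g := AddMonoidHom.id _)
      fun X hX => K0.map_mk a.idm.D h X hX) x
  | succ n ih => exact ih (a := a.B) le_rfl x

theorem Kmap_weq [Tg S'] (f g : Map a b) (α : f.F ⟶ g.F) (hα : ∀ X, S X → IsIso ((f.nat g α).app X))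
    (h : S ≤ S'.inverseImage f.D) (k : S ≤ S'.inverseImage g.D) : Kmap n f h = Kmap n g k := by
  induction n generalizing a b with
  | zero =>
    refine K0.hom_ext (f := K0.map f.D h) (g := K0.map g.D k) fun X hX => ?_
    rw [K0.map_mk, K0.map_mk]
    exact K0.mk_iso (@asIso _ _ _ _ _ (hα X hX)) _ _
  | succ n ih =>
    exact ih f.B g.B (f.natB g α) (fun X hX => isIso_of_ev _ fun j => by
      rw [Map.ev_natB]; exact hα _ (hX.1.1 j)) (f.V_map h) (g.V_map k)

theorem Kmap_iso [Tg S'] (f g : Map a b) (e : f.F ≅ g.F) (h : S ≤ S'.inverseImage f.D)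
    (k : S ≤ S'.inverseImage g.D) : Kmap n f h = Kmap n g k :=
  Kmap_weq n f g e.hom (fun X _ => ((f.natIso g e).app X).isIso_hom) h k

theorem Kmap_zero (f : Map a b) (hf : ∀ X, S X → IsZero (f.D.obj X))
    (h : S ≤ S'.inverseImage f.D) : Kmap n f h = 0 := by
  induction n generalizing a b with
  | zero =>
    refine K0.hom_ext (f := K0.map f.D h) (g := 0) fun X hX => ?_
    rw [K0.map_mk]
    exact K0.mk_zero (hf X hX) _
  | succ n ih =>
    exact ih f.B (fun X hX => b.bs.cons _ fun j => hf ((a.ev j).D.obj X) (hX.1.1 j))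
      (f.V_map h)

theorem Ses.B {f₁ f f₂ : Map a b} {α : f₁.F ⟶ f.F} {β : f.F ⟶ f₂.F} {e : α ≫ β = 0}
    (k : Ses α β e S) (e' : f₁.natB f α ≫ f.natB f₂ β = 0) :
    Ses (f₁.natB f α) (f.natB f₂ β) e' (W S) := fun K hK =>
  exa_of_reflect b.ev _ b.B.le_Tb fun j =>
    k (((a.ev j).F.mapHomologicalComplex _).obj K) (hK.1 j)

theorem Kmap_add {f₁ f f₂ : Map a b} {α : f₁.F ⟶ f.F} {β : f.F ⟶ f₂.F} {e : α ≫ β = 0}
    (k : Ses α β e S) (h₁ : S ≤ S'.inverseImage f₁.D) (h : S ≤ S'.inverseImage f.D)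
    (h₂ : S ≤ S'.inverseImage f₂.D) : Kmap n f h = Kmap n f₁ h₁ + Kmap n f₂ h₂ := by
  induction n generalizing a b with
  | zero =>
    refine K0.hom_ext (f := K0.map f.D h) (g := K0.map f₁.D h₁ + K0.map f₂.D h₂) fun X hX => ?_
    obtain ⟨δ, hT⟩ := k.tri hX
    rw [AddMonoidHom.add_apply, K0.map_mk, K0.map_mk, K0.map_mk]
    exact K0.mk_tri hT _ _ _
  | succ n ih =>
    have e' : f₁.natB f α ≫ f.natB f₂ β = 0 := by
      ext P
      exact Bin.hom_ext fun j => NatTrans.congr_app e _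
    exact ih (e := e') (fun K hK => k.B e' K hK.1) (f₁.V_map h₁) (f.V_map h) (f₂.V_map h₂)

theorem Z.null (z : Z S') (f : Map a b) (g : Map b c) (h : S ≤ S'.inverseImage f.D)
    (k : S' ≤ S''.inverseImage g.D) (l : S ≤ S''.inverseImage (f.comp g).D) :
    Null (f.comp g) l := fun n => AddMonoidHom.ext fun x => by
  rw [Kmap_comp n f g h k l, (z n).elim (Kmap n f h x) 0, map_zero]
  rfl

theorem Z_of_null (h : S ≤ S.inverseImage a.idm.D) (z : Null a.idm h) : Z S := fun n =>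
  subsingleton_of_forall_eq 0 fun x =>
    (Kinc_refl n le_rfl x).symm.trans (DFunLike.congr_fun (z n) x)

/-- Eilenberg swindle: `𝟭 ⟶ f ⟶ g` exact and `f ≅ g`. -/
theorem Z_of_swindle [Tg S] {f g : Map a a} {α : a.idm.F ⟶ f.F} {β : f.F ⟶ g.F} {e : α ≫ β = 0}
    (k : Ses α β e S) (i : f.F ≅ g.F) (h : S ≤ S.inverseImage f.D) : Z S := by
  have h' : S ≤ S.inverseImage g.D := fun X hX => S.prop_of_iso ((f.natIso g i).app X) (h X hX)
  refine Z_of_null (fun _ hX => hX) fun n => ?_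
  have := Kmap_add n k (fun _ hX => hX) h h'
  rw [Kmap_iso n f g i h h'] at this
  exact (add_eq_right.1 this.symm)

theorem Z.V (z : Z S) : Z (V S) := fun n => z (n + 1)

theorem Z_iff : Z S ↔ Subsingleton (K0 S) ∧ Z (V S) :=
  ⟨fun z => ⟨z 0, z.V⟩, fun z n => match n with
    | 0 => z.1
    | n + 1 => z.2 n⟩

end Am

end Pool.Agent.Lib.MP_5d3e93_al.Gr
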