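import Pool.Agent.Lib.MP_5d3e93_al.Gr.Col
import Pool.Agent.Lib.MP_5d3e93_al.Gr.Kn

/-! The K-groups commute with directed colimits. -/

open CategoryTheory Limits Pretriangulated ZeroObject

namespace Pool.Agent.Lib.MP_5d3e93_al.Gr

universe v u v' u'

theorem ck_sh {D : Type*} [Category* D] [HasZeroObject D] [HasShift D ℤ] [Preadditive D]
    [∀ n : ℤ, (shiftFunctor D n).Additive] [Pretriangulated D] {S : ObjectProperty D} [Tg S]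
    (n : ℤ) {X : D} (a : S X) : S (X⟦n⟧) := S.le_shift n _ a

theorem ck_shift {D : Type*} [Category* D] [HasZeroObject D] [HasShift D ℤ] [Preadditive D]
    [∀ n : ℤ, (shiftFunctor D n).Additive] [Pretriangulated D] (S : ObjectProperty D) [Tg S]
    (n : ℤ) : ∃ ε : ℤ, (n = -1 → ε = -1) ∧
      ∀ X (a : S X), K0.mk (X⟦n⟧) (ck_sh n a) = ε • K0.mk X a := by
  have up : ∀ (m k : ℤ) (_ : m + 1 = k) X (a : S X), K0.mk (X⟦k⟧) (ck_sh k a) =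
      -K0.mk (X⟦m⟧) (ck_sh m a) := fun m k e X a =>
    (K0.mk_iso ((shiftFunctorAdd' D m 1 k e).app X) _ (ck_sh 1 (ck_sh m a))).trans
      (K0.mk_shift _ _)
  have z : ∀ X (a : S X), K0.mk (X⟦(0 : ℤ)⟧) (ck_sh 0 a) = K0.mk X a := fun X a =>
    K0.mk_iso ((shiftFunctorZero D ℤ).app X) _ a
  by_cases h : n = -1
  · subst h
    exact ⟨-1, fun _ => rfl, fun X a => by rw [← z X a, up (-1) 0 rfl X a]; simp⟩
  suffices k : ∃ ε : ℤ, ∀ X (a : S X), K0.mk (X⟦n⟧) (ck_sh n a) = ε • K0.mk X a from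
    k.imp fun _ k => ⟨fun e => (h e).elim, k⟩
  clear h
  induction n using Int.induction_on with
  | zero => exact ⟨1, fun X a => by rw [z X a, one_smul]⟩
  | succ i ih =>
    obtain ⟨ε, h⟩ := ih
    exact ⟨-ε, fun X a => by rw [up i _ rfl X a, h, neg_smul]⟩
  | pred i ih =>
    obtain ⟨ε, h⟩ := ih
    exact ⟨-ε, fun X a => by rw [neg_smul, ← h, up (-i - 1) (-i) (by omega) X a, neg_neg]⟩

section Col
variable {ι : Type*} [Preorder ι] {s : Sys.{v, u, v', u'} ι}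
  {P : ∀ i, ObjectProperty (s.x i).D} {S : ObjectProperty s.a.D}

theorem ck_f {i j : ι} (k : i ≤ j) (X : (s.x i).D) :
    (s.f j).D.obj ((s.t k).D.obj X) = (s.f i).D.obj X :=
  congrArg (fun m : Am.Map (s.x i) s.a => m.D.obj X) (s.tf k)

theorem ck_t {i j l : ι} (k : i ≤ j) (k' : j ≤ l) (X : (s.x i).D) :
    (s.t k').D.obj ((s.t k).D.obj X) = (s.t (k.trans k')).D.obj X :=
  congrArg (fun m : Am.Map (s.x i) (s.x l) => m.D.obj X) (s.tt k k')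

variable [∀ i, Tg (P i)] (h : s.Col P S)

omit [∀ i, Tg (P i)] in
include h in
theorem Sys.Col.mt₀ {i j : ι} (k : i ≤ j) {X : (s.x i).D} (a : P i X) : P j ((s.t k).D.obj X) :=
  h.mt k X a

/-- the transition maps -/
noncomputable def Sys.Col.tK {i j : ι} (k : i ≤ j) : K0 (P i) →+ K0 (P j) :=
  K0.map (s.t k).D (h.mt k)

omit [∀ i, Tg (P i)] in
theorem Sys.Col.tK_mk {i j : ι} (k : i ≤ j) (X : (s.x i).D) (a : P i X) :
    h.tK k (K0.mk X a) = K0.mk _ (h.mt₀ k a) := K0.map_mk ..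

theorem Sys.Col.tK_tK {i j l : ι} (k : i ≤ j) (k' : j ≤ l) (x : K0 (P i)) :
    h.tK k' (h.tK k x) = h.tK (k.trans k') x := by
  obtain ⟨X, a, rfl⟩ := K0.mk_surj x
  rw [h.tK_mk, h.tK_mk, h.tK_mk]
  exact K0.mk_iso (eqToIso (ck_t k k' X)) _ _

theorem Sys.Col.cone {T : Triangle s.a.D} (hT : T ∈ distTriang s.a.D) {j : ι} {U V : (s.x j).D}
    (a : P j U) (b : P j V) (e₁ : (s.f j).D.obj U ≅ T.obj₁) (e₂ : (s.f j).D.obj V ≅ T.obj₂) :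
    ∃ (l : ι) (k : j ≤ l) (Z : (s.x l).D) (c : P l Z), Nonempty ((s.f l).D.obj Z ≅ T.obj₃) ∧
      K0.mk Z c = h.tK k (K0.mk V b - K0.mk U a) := by
  obtain ⟨l, k, ψ, e⟩ := h.full j U V a b (e₁.hom ≫ T.mor₁ ≫ e₂.inv)
  obtain ⟨Z, g, d, hZ⟩ := distinguished_cocone_triangle ψ
  have c : P l Z := (P l).ext_of_isTriangulatedClosed₃ _ hZ (h.mt₀ k a) (h.mt₀ k b)
  refine ⟨l, k, Z, c, ⟨Triangle.π₃.mapIso (isoTriangleOfIso₁₂ _ _
    ((s.f l).D.map_distinguished _ hZ) hT (eqToIso (ck_f k U) ≪≫ e₁) (eqToIso (ck_f k V) ≪≫ e₂)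
    ?_)⟩, ?_⟩
  · change (s.f l).D.map ψ ≫ eqToHom (ck_f k V) ≫ e₂.hom = (eqToHom (ck_f k U) ≫ e₁.hom) ≫ T.mor₁
    rw [(conj_eqToHom_iff_heq _ _ (ck_f k U) (ck_f k V)).2 e]
    simp
  · rw [map_sub, h.tK_mk, h.tK_mk, eq_sub_iff_add_eq']
    exact (K0.mk_tri hZ _ _ c).symm

theorem Sys.Col.die {j : ι} {Z : (s.x j).D} (c : P j Z) (z : IsZero ((s.f j).D.obj Z)) :
    ∃ (l : ι) (k : j ≤ l), h.tK k (K0.mk Z c) = 0 := by
  obtain ⟨l, k, e⟩ := h.faith j Z Z c c (𝟙 Z) (z.eq_of_src _ _)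
  refine ⟨l, k, (h.tK_mk k Z c).trans (K0.mk_zero ?_ _)⟩
  rw [IsZero.iff_id_eq_zero, ← e, CategoryTheory.Functor.map_id]

theorem Sys.Col.die' {j : ι} {U V : (s.x j).D} (a : P j U) (b : P j V)
    (e : (s.f j).D.obj U ≅ (s.f j).D.obj V) :
    ∃ (l : ι) (k : j ≤ l), h.tK k (K0.mk V b - K0.mk U a) = 0 := by
  obtain ⟨l, k, Z, c, ⟨i⟩, e'⟩ := h.cone (k0_dist e) a b (Iso.refl _) (Iso.refl _)
  obtain ⟨m, k', z⟩ := h.die c ((isZero_zero _).of_iso i)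
  exact ⟨m, k.trans k', by rw [← h.tK_tK k k', ← e', z]⟩

/-- two objects come from objects of level `j` with equal classes -/
def ckR (P : ∀ i, ObjectProperty (s.x i).D) (j : ι) (X X' : s.a.D) : Prop :=
  ∃ (Y Y' : (s.x j).D) (a : P j Y) (a' : P j Y'), Nonempty ((s.f j).D.obj Y ≅ X) ∧
    Nonempty ((s.f j).D.obj Y' ≅ X') ∧ K0.mk Y a = K0.mk Y' a'

include h in
theorem Sys.Col.up {i j : ι} (k : i ≤ j) {X X' : s.a.D} (r : ckR P i X X') : ckR P j X X' := by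
  obtain ⟨Y, Y', a, a', ⟨e⟩, ⟨e'⟩, q⟩ := r
  exact ⟨_, _, h.mt₀ k a, h.mt₀ k a', ⟨eqToIso (ck_f k Y) ≪≫ e⟩, ⟨eqToIso (ck_f k Y') ≪≫ e'⟩,
    by rw [← h.tK_mk k Y a, ← h.tK_mk k Y' a', q]⟩

theorem Sys.Col.ext {T : Triangle s.a.D} (hT : T ∈ distTriang s.a.D) {j : ι} {U V : (s.x j).D}
    (a : P j U) (b : P j V) (e₁ : (s.f j).D.obj U ≅ T.obj₁) (e₃ : (s.f j).D.obj V ≅ T.obj₃) :
    ∃ (l : ι) (k : j ≤ l) (Z : (s.x l).D) (c : P l Z), Nonempty ((s.f l).D.obj Z ≅ T.obj₂) ∧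
      K0.mk Z c = h.tK k (K0.mk U a + K0.mk V b) := by
  obtain ⟨l, k, Z, c, e, q⟩ := h.cone (inv_rot_of_distTriang _ hT) (ck_sh (-1) b) a
    (((s.f j).D.commShiftIso (-1 : ℤ)).app V ≪≫ (shiftFunctor _ (-1 : ℤ)).mapIso e₃) e₁
  obtain ⟨ε, e1, e2⟩ := ck_shift (P j) (-1)
  exact ⟨l, k, Z, c, e, by rw [q, e2 V b, e1 rfl]; simp⟩

variable [IsDirectedOrder ι] [Tg S]

theorem Sys.Col.inj₀ (i : ι) (y : K0 (P i)) (e : K0.map (s.f i).D (h.mf i) y = 0) :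
    ∃ (j : ι) (k : i ≤ j), h.tK k y = 0 := by
  obtain ⟨Y, a, rfl⟩ := K0.mk_surj y
  have z : S 0 := Tg.zero S (isZero_zero _)
  rw [K0.map_mk, ← K0.mk_zero (isZero_zero _) z] at e
  obtain ⟨j, r⟩ := K0.rel (fun X X' => ∃ j, ckR P j X X')
    (fun X a => by
      obtain ⟨j, Y, b, e⟩ := h.obj X a
      exact ⟨j, Y, Y, b, b, e, e, rfl⟩)
    (fun n X X' _ _ ⟨j, Y, Y', a, a', ⟨e⟩, ⟨e'⟩, q⟩ => by
      obtain ⟨ε, -, w⟩ := ck_shift (P j) n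
      exact ⟨j, _, _, ck_sh n a, ck_sh n a',
        ⟨((s.f j).D.commShiftIso n).app Y ≪≫ (shiftFunctor _ n).mapIso e⟩,
        ⟨((s.f j).D.commShiftIso n).app Y' ≪≫ (shiftFunctor _ n).mapIso e'⟩,
        by rw [w Y a, w Y' a', q]⟩)
    (fun T hT T' hT' _ _ _ _ ⟨j₁, r₁⟩ ⟨j₃, r₃⟩ => by
      obtain ⟨j, k₁, k₃⟩ := exists_ge_ge j₁ j₃
      obtain ⟨U, U', a, a', ⟨e⟩, ⟨e'⟩, q⟩ := h.up k₁ r₁
      obtain ⟨V, V', b, b', ⟨d⟩, ⟨d'⟩, p⟩ := h.up k₃ r₃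
      obtain ⟨l, k, Z, c, ⟨g⟩, w⟩ := h.ext hT a b e d
      obtain ⟨l', k', Z', c', ⟨g'⟩, w'⟩ := h.ext hT' a' b' e' d'
      obtain ⟨m, n, n'⟩ := exists_ge_ge l l'
      exact ⟨m, _, _, h.mt₀ n c, h.mt₀ n' c', ⟨eqToIso (ck_f n Z) ≪≫ g⟩,
        ⟨eqToIso (ck_f n' Z') ≪≫ g'⟩, by
          rw [← h.tK_mk n Z c, ← h.tK_mk n' Z' c', w, w', h.tK_tK, h.tK_tK, q, p]⟩)
    _ z e
  obtain ⟨l, k, k'⟩ := exists_ge_ge i j
  obtain ⟨U, V, b, c, ⟨g⟩, ⟨g'⟩, q⟩ := h.up k' r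
  obtain ⟨m, n, w⟩ := h.die' b (h.mt₀ k a) (g ≪≫ eqToIso (ck_f k Y).symm)
  obtain ⟨m', n', w'⟩ := h.die c ((isZero_zero _).of_iso g')
  obtain ⟨o, p, p'⟩ := exists_ge_ge m m'
  have w1 := congrArg (h.tK p) w
  have w2 := congrArg (h.tK p') w'
  rw [h.tK_tK, map_zero] at w1 w2
  rw [map_sub, q, w2, sub_zero, ← h.tK_mk k Y a, h.tK_tK] at w1
  exact ⟨o, _, w1⟩

end Col

section Col
variable {ι : Type*} [Preorder ι] [IsDirectedOrder ι] [Nonempty ι] (s : Sys.{v, u, v', u'} ι)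
  {P : ∀ i, ObjectProperty (s.x i).D} {S : ObjectProperty s.a.D}
variable {s}
variable [∀ i, Tg (P i)] [Tg S] (h : s.Col P S)
include h

theorem Sys.Col.surj (n : ℕ) (x : Am.Kn n s.a S) : ∃ i y, Am.Kmap n (s.f i) (h.mf i) y = x := by
  induction n generalizing s with
  | zero =>
    obtain ⟨X, a, rfl⟩ := K0.mk_surj (S := S) x
    obtain ⟨i, Y, b, ⟨e⟩⟩ := h.obj X a
    exact ⟨i, K0.mk Y b, (K0.map_mk _ (h.mf i) Y b).trans (K0.mk_iso e _ a)⟩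
  | succ n ih =>
    have : ∀ i, Tg (D := (s.B.x i).D) (Am.V (P i)) := fun i =>
      inferInstanceAs (Tg (Am.V (P i)))
    have : Tg (D := s.B.a.D) (Am.V S) := inferInstanceAs (Tg (Am.V S))
    exact ih h.B x

theorem Sys.Col.inj (n : ℕ) (i : ι) (y : Am.Kn n (s.x i) (P i))
    (e : Am.Kmap n (s.f i) (h.mf i) y = 0) :
    ∃ (j : ι) (k : i ≤ j), Am.Kmap n (s.t k) (h.mt k) y = 0 := by
  induction n generalizing s with
  | zero => exact h.inj₀ i y e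
  | succ n ih =>
    have : ∀ i, Tg (D := (s.B.x i).D) (Am.V (P i)) := fun i =>
      inferInstanceAs (Tg (Am.V (P i)))
    have : Tg (D := s.B.a.D) (Am.V S) := inferInstanceAs (Tg (Am.V S))
    exact ih h.B y e

theorem Sys.Col.Z (z : ∀ i, Am.Z (P i)) : Am.Z S := fun n =>
  subsingleton_of_forall_eq 0 fun x => by
    obtain ⟨i, y, rfl⟩ := h.surj n x
    rw [(z i n).elim y 0, map_zero]

end Col

end Pool.Agent.Lib.MP_5d3e93_al.Gr
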