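import Pool.Agent.Lib.MP_5d3e93_al.Gr.K0
import Pool.Agent.Lib.MP_5d3e93_al.Gr.Five

/-! Grayson's theorem on total objects. -/

set_option linter.unusedSectionVars false

open CategoryTheory Limits Pretriangulated ZeroObject

namespace Pool.Agent.Lib.MP_5d3e93_al.Gr

variable {D : Type*} [Category* D] [HasZeroObject D] [HasShift D ℤ] [Preadditive D]
  [∀ n : ℤ, (shiftFunctor D n).Additive] [Pretriangulated D]
variable {E : Type*} [Category* E] [HasZeroObject E] [HasShift E ℤ] [Preadditive E]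
  [∀ n : ℤ, (shiftFunctor E n).Additive] [Pretriangulated E]

/-- A class closed under shifts and cones is triangulated. -/
theorem f4_tg {S : ObjectProperty D} (h0 : ∀ X, IsZero X → S X)
    (h1 : ∀ (n : ℤ) X, S X → S (X⟦n⟧))
    (h2 : ∀ T ∈ distTriang D, S T.obj₁ → S T.obj₂ → S T.obj₃) : Tg S :=
  Tg.mk' h0 h1 fun T h a b => h2 _ (inv_rot_of_distTriang T h) (h1 _ _ b) a

theorem f4_sh {S : ObjectProperty D} [Tg S] {X : D} (a : S X) (n : ℤ) : S (X⟦n⟧) :=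
  S.le_shift n _ a

theorem f4_shift_mk {S : ObjectProperty D} [Tg S] {P P' : D} (a : S P) (b : S P')
    (h : K0.mk P a = K0.mk P' b) (n : ℤ) :
    K0.mk (P⟦n⟧) (f4_sh a n) = K0.mk (P'⟦n⟧) (f4_sh b n) := by
  have st : ∀ (X : D) (c : S X) (n m : ℤ), n + 1 = m →
      K0.mk (X⟦m⟧) (f4_sh c m) = -K0.mk (X⟦n⟧) (f4_sh c n) := fun X c n m e =>
    (K0.mk_iso (Y := X⟦n⟧⟦(1 : ℤ)⟧) ((shiftFunctorAdd' D n 1 m e).app X) _
      (f4_sh (f4_sh c n) 1)).trans (K0.mk_shift _ _)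
  induction n using Int.induction_on with
  | zero =>
    exact (K0.mk_iso (Y := P) ((shiftFunctorZero D ℤ).app P) _ a).trans
      (h.trans (K0.mk_iso (Y := P') ((shiftFunctorZero D ℤ).app P') _ b).symm)
  | succ n ih => rw [st P a n _ rfl, st P' b n _ rfl, ih]
  | pred n ih =>
    rw [st P a (-(n : ℤ) - 1) _ (sub_add_cancel _ _), st P' b (-(n : ℤ) - 1) _ (sub_add_cancel _ _)]
      at ih
    exact neg_injective ih

/-- The cone of a map of objects with totals has a total. -/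
theorem f4_cone (R : D ⥤ E) [R.CommShift ℤ] [R.IsTriangulated] {T : Triangle E}
    (hT : T ∈ distTriang E) {P₁ P₂ : D} {u₁ : T.obj₁ ⟶ R.obj P₁} {u₂ : T.obj₂ ⟶ R.obj P₂}
    (h₁ : Un R u₁) (h₂ : Un R u₂) : ∃ (f : P₁ ⟶ P₂) (Q : D) (g : P₂ ⟶ Q) (h : Q ⟶ P₁⟦(1 : ℤ)⟧)
      (φ : T ⟶ R.mapTriangle.obj (Triangle.mk f g h)), Triangle.mk f g h ∈ distTriang D ∧
      φ.hom₁ = u₁ ∧ φ.hom₂ = u₂ ∧ Un R (P := Q) φ.hom₃ := by
  obtain ⟨f, hf⟩ := (h₁ P₂).2 (T.mor₁ ≫ u₂)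
  obtain ⟨Q, g, h, hQ⟩ := distinguished_cocone_triangle f
  obtain ⟨c, hc₂, hc₃⟩ := complete_distinguished_triangle_morphism T _ hT
    (R.map_distinguished _ hQ) u₁ u₂ hf.symm
  exact ⟨f, Q, g, h, ⟨u₁, u₂, c, hf.symm, hc₂, hc₃⟩, hQ, rfl, rfl,
    un_cone R hT hQ ⟨u₁, u₂, c, hf.symm, hc₂, hc₃⟩ h₁ h₂⟩

theorem f4_un_zero {R : D ⥤ E} {M : E} (h : ∀ Y (φ : M ⟶ R.obj Y), φ = 0) :
    Un R (0 : M ⟶ R.obj 0) := fun Y =>
  ⟨fun _ _ _ => (isZero_zero D).eq_of_src _ _, fun φ => ⟨0, by rw [h Y φ]; exact zero_comp⟩⟩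

theorem f4_pi {J : Type} [Finite J] {M Y : E} {Z : J → E} (u : ∀ b, Y ⟶ Z b) :
    (Function.Bijective fun φ : M ⟶ Y => φ ≫ Pi.lift u) ↔
      Function.Bijective fun (φ : M ⟶ Y) b => φ ≫ u b := by
  have k : Function.Bijective fun (ψ : M ⟶ ∏ᶜ Z) b => ψ ≫ Pi.π Z b :=
    ⟨fun _ _ h => Pi.hom_ext _ _ fun b => congrFun h b, fun v => ⟨Pi.lift v, by funext b; simp⟩⟩
  rw [← Function.Bijective.of_comp_iff' k]
  exact iff_of_eq (congrArg _ (by funext φ b; simp))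

variable {ev : ℕ → E ⥤ D} {R : Bool → D ⥤ E} [∀ j, (ev j).CommShift ℤ]
  [∀ j, (ev j).IsTriangulated] [∀ b, (R b).CommShift ℤ] [∀ b, (R b).IsTriangulated]
  {S N : ObjectProperty D}

theorem f4_ev_shift {j : ℕ} {M : E} (h : IsZero ((ev j).obj M)) (n : ℤ) :
    IsZero ((ev j).obj (M⟦n⟧)) :=
  ((shiftFunctor D n).map_isZero h).of_iso (((ev j).commShiftIso n).app M)

instance [Tg S] : Tg (Wd ev S) := Tg.mk'
  (fun _ h => ⟨fun j => Tg.zero S ((ev j).map_isZero h), 0, fun j _ => (ev j).map_isZero h⟩)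
  (fun n X ⟨h, m, k⟩ => ⟨fun j => S.prop_of_iso (((ev j).commShiftIso n).app X).symm
    (S.le_shift n _ (h j)), m, fun j hj => f4_ev_shift (k j hj) n⟩)
  fun T hT ⟨h, m, k⟩ ⟨h', m', k'⟩ =>
    ⟨fun j => S.ext_of_isTriangulatedClosed₂ _ ((ev j).map_distinguished T hT) (h j) (h' j),
      max m m', fun j hj => Triangle.isZero₂_of_isZero₁₃ _ ((ev j).map_distinguished T hT)
        (k j (le_of_max_le_left hj)) (k' j (le_of_max_le_right hj))⟩

instance : Tg (Ac R) := Tg.mk' (fun _ h _ _ _ => h.eq_of_src _ _)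
  (fun n X h b Y φ => by
    have k := ((un_shift (R b) (f4_un_zero (h b)) n).isZero_iff).1
      ((shiftFunctor D n).map_isZero (isZero_zero D))
    exact k Y φ)
  fun T hT h h' b Y φ => by
    obtain ⟨ψ, rfl⟩ := T.yoneda_exact₂ hT φ (h b Y _)
    rw [h' b Y ψ, comp_zero]

instance [Tg S] : Tg (Vd ev R S) := inferInstanceAs (Tg (Wd ev S ⊓ Ac R))

variable (β : Bs ev R) [Tg S]
include β

theorem Bs.f4_S (i j : ℕ) {X : D} (h : S X) : S ((ev j).obj ((β.L i).obj X)) := by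
  rcases lt_trichotomy j i with a | rfl | a
  · obtain ⟨e⟩ := β.low i j X a
    exact S.prop_of_iso e.symm (Tg.biprod S h h)
  · have := β.unit j X
    exact S.prop_of_iso (asIso ((β.adj j).unit.app X)) h
  · exact Tg.zero S (β.high i j X a)

/-- Induction on `m` with the counit `L (m-1) (ev (m-1) M) ⟶ M`; `cons` starts it. -/
theorem Bs.gen (m : ℕ) {M : E} (h : ∀ j, S ((ev j).obj M)) (k : ∀ j, m ≤ j → IsZero ((ev j).obj M)) :
    Cl (fun Y => ∃ i X, i < m ∧ S X ∧ Y = (β.L i).obj X) M := by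
  induction m generalizing M with
  | zero => exact .zero (β.cons M fun j => k j j.zero_le)
  | succ m ih =>
    obtain ⟨C, g, d, hT⟩ := distinguished_cocone_triangle ((β.adj m).counit.app M)
    have hC := fun j => (ev j).map_distinguished _ hT
    have i1 : IsIso ((ev m).map ((β.adj m).counit.app M)) := by
      have := β.unit m ((ev m).obj M)
      have : IsIso ((β.adj m).unit.app ((ev m).obj M) ≫ (ev m).map ((β.adj m).counit.app M)) := by
        rw [(β.adj m).right_triangle_components]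
        exact IsIso.id _
      exact IsIso.of_isIso_comp_left ((β.adj m).unit.app ((ev m).obj M)) _
    refine Cl.ext _ hT (.of ⟨m, _, m.lt_succ_self, h m, rfl⟩) (Cl.le (S := Cl _)
      (fun Y ⟨i, X, a, b, c⟩ => .of ⟨i, X, a.trans m.lt_succ_self, b, c⟩) _ (ih (M := C)
      (fun j => S.ext_of_isTriangulatedClosed₃ _ (hC j) (β.f4_S m j (h m)) (h j)) fun j hj => ?_))
    rcases hj.eq_or_lt with rfl | a
    · exact (Triangle.isZero₃_iff_isIso₁ _ (hC _)).2 i1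
    · exact Triangle.isZero₃_of_isZero₁₂ _ (hC j) (β.high m j _ a) (k j a)

theorem Bs.W_L (i : ℕ) {X : D} (h : S X) : Wd ev S ((β.L i).obj X) :=
  ⟨fun j => β.f4_S i j h, i + 1, fun j hj => β.high i j X hj⟩

theorem Bs.W_eq : Wd ev S = Cl (fun Y => ∃ i X, S X ∧ Y = (β.L i).obj X) :=
  le_antisymm (fun _ ⟨h, m, k⟩ => Cl.le (S := Cl _)
      (fun _ ⟨i, X, _, b, c⟩ => .of ⟨i, X, b, c⟩) _ (β.gen m h k))
    (Cl.le fun _ ⟨i, _, b, c⟩ => c ▸ β.W_L i b)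

theorem Bs.un_L (i b) (X : D) : Un (R b) ((β.ι i b).app X) := fun Y => by
  have := β.unit i Y
  have := β.evι i b Y
  rw [← Function.Bijective.of_comp_iff' ((β.adj i).homEquiv X ((R b).obj Y)).bijective]
  let e : Y ≅ (ev i).obj ((R b).obj Y) :=
    asIso ((β.adj i).unit.app Y) ≪≫ asIso ((ev i).map ((β.ι i b).app Y))
  convert five_bij_post (X := X) e using 1
  funext g
  have := (β.adj i).unit.naturality_assoc g ((ev i).map ((β.ι i b).app Y))
  simp only [Function.comp, Adjunction.homEquiv_unit, ← (β.ι i b).naturality g, Functor.map_comp]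
  exact this.symm

theorem Bs.tot {M : E} (h : Wd ev S M) (b : Bool) :
    ∃ P, S P ∧ ∃ u : M ⟶ (R b).obj P, Un (R b) u := by
  have : Tg (fun M : E => ∃ P, S P ∧ ∃ u : M ⟶ (R b).obj P, Un (R b) u) := f4_tg
    (fun X h => ⟨0, Tg.zero S (isZero_zero D), 0, f4_un_zero fun _ _ => h.eq_of_src _ _⟩)
    (fun n X ⟨P, a, u, hu⟩ => ⟨_, S.le_shift n _ a, _, un_shift _ hu n⟩)
    fun T hT ⟨P, a, u, hu⟩ ⟨P', a', u', hu'⟩ => by
      obtain ⟨f, Q, g, d, φ, hQ, -, -, k⟩ := f4_cone _ hT hu hu'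
      exact ⟨Q, S.ext_of_isTriangulatedClosed₃ _ hQ a a', _, k⟩
  rw [β.W_eq] at h
  exact Cl.le (S := fun M : E => ∃ P, S P ∧ ∃ u : M ⟶ (R b).obj P, Un (R b) u)
    (fun _ ⟨i, X, a, c⟩ => c ▸ ⟨X, a, _, β.un_L i b X⟩) _ h

theorem Bs.tot_class {M : E} (h : Wd ev S M) {P P' : D} {u : M ⟶ (R true).obj P}
    {u' : M ⟶ (R false).obj P'} (hu : Un _ u) (hu' : Un _ u') (a : S P) (b : S P') :
    K0.mk P a = K0.mk P' b := by
  let Q : ObjectProperty E := fun M => ∃ (P P' : D) (a : S P) (b : S P') (u : M ⟶ (R true).obj P)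
    (u' : M ⟶ (R false).obj P'), Un _ u ∧ Un _ u' ∧ K0.mk P a = K0.mk P' b
  have : Tg Q := f4_tg
    (fun X h => ⟨0, 0, Tg.zero S (isZero_zero D), Tg.zero S (isZero_zero D), 0, 0,
      f4_un_zero fun _ _ => h.eq_of_src _ _, f4_un_zero fun _ _ => h.eq_of_src _ _, rfl⟩)
    (fun n X ⟨P, P', a, b, u, u', hu, hu', e⟩ =>
      ⟨_, _, _, _, _, _, un_shift _ hu n, un_shift _ hu' n, f4_shift_mk a b e n⟩)
    fun T hT ⟨P₁, P₁', a₁, b₁, u₁, u₁', h₁, h₁', e₁⟩ ⟨P₂, P₂', a₂, b₂, u₂, u₂', h₂, h₂', e₂⟩ => by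
      obtain ⟨f, Z, g, d, φ, hZ, -, -, k⟩ := f4_cone _ hT h₁ h₂
      obtain ⟨f', Z', g', d', φ', hZ', -, -, k'⟩ := f4_cone _ hT h₁' h₂'
      have c : S Z := S.ext_of_isTriangulatedClosed₃ _ hZ a₁ a₂
      have c' : S Z' := S.ext_of_isTriangulatedClosed₃ _ hZ' b₁ b₂
      have t : K0.mk P₂ a₂ = K0.mk P₁ a₁ + K0.mk Z c := K0.mk_tri hZ a₁ a₂ c
      have t' : K0.mk P₂' b₂ = K0.mk P₁' b₁ + K0.mk Z' c' := K0.mk_tri hZ' b₁ b₂ c'
      exact ⟨Z, Z', c, c', _, _, k, k', add_left_cancel (t.symm.trans (e₂.trans (e₁ ▸ t')))⟩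
  rw [β.W_eq] at h
  obtain ⟨Z, Z', c, c', v, v', hv, hv', e⟩ := Cl.le (S := Q)
    (fun _ ⟨i, X, a, c⟩ => c ▸ ⟨X, X, a, a, _, _, β.un_L i true X, β.un_L i false X, rfl⟩) _ h
  obtain ⟨x, -⟩ := hu.uniq hv
  obtain ⟨y, -⟩ := hu'.uniq hv'
  rw [K0.mk_iso x a c, K0.mk_iso y b c', e]

theorem Bs.f4_L {i : ℕ} (X : D) {M : E} (hM : IsZero ((ev i).obj M)) :
    Function.Bijective fun (φ : M ⟶ (β.L i).obj X) b => φ ≫ (β.ι i b).app X := by
  obtain ⟨Z, g, d, hT, hZ⟩ := β.co i X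
  refine ⟨fun φ ψ e => ?_, fun v => ?_⟩
  · have z : (φ - ψ) ≫ biprod.lift ((β.ι i true).app X) ((β.ι i false).app X) = 0 := by
      apply biprod.hom_ext
      · simpa [sub_eq_zero] using congrFun e true
      · simpa [sub_eq_zero] using congrFun e false
    obtain ⟨w, hw⟩ := Triangle.coyoneda_exact₁ _ hT ((φ - ψ)⟦(1 : ℤ)⟧')
      (((shiftFunctor E (1 : ℤ)).map_comp _ _).symm.trans
        ((congrArg (shiftFunctor E (1 : ℤ)).map z).trans (Functor.map_zero _ _ _)))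
    rw [hZ _ (f4_ev_shift hM 1) w] at hw
    exact sub_eq_zero.1 ((shiftFunctor E (1 : ℤ)).map_injective
      ((hw.trans zero_comp).trans (Functor.map_zero _ _ _).symm))
  · obtain ⟨φ, hφ⟩ := Triangle.coyoneda_exact₂ _ hT (biprod.lift (v true) (v false)) (hZ M hM _)
    have k : ∀ φ : M ⟶ (β.L i).obj X, biprod.lift (v true) (v false) =
        φ ≫ biprod.lift ((β.ι i true).app X) ((β.ι i false).app X) →
        ∀ b, φ ≫ (β.ι i b).app X = v b := fun φ h b => by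
      cases b
      · simpa using (h =≫ biprod.snd).symm
      · simpa using (h =≫ biprod.fst).symm
    exact ⟨φ, funext (k φ hφ)⟩

theorem Bs.f4_ex (m : ℕ) {Y : E} (k : ∀ j, m ≤ j → IsZero ((ev j).obj Y)) :
    ∃ (P : Bool → D) (u : ∀ b, Y ⟶ (R b).obj (P b)), (∀ b, Un _ (u b)) ∧
      ∀ M, (∀ j, j < m → IsZero ((ev j).obj M)) →
        Function.Bijective fun (φ : M ⟶ Y) b => φ ≫ u b := by
  let 𝓜 : ObjectProperty E := fun M => ∀ j, j < m → IsZero ((ev j).obj M)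
  have hs : ∀ (n : ℤ) M, 𝓜 M → 𝓜 (M⟦n⟧) := fun n M h j hj => f4_ev_shift (h j hj) n
  let Q : ObjectProperty E := fun Y => ∃ (P : Bool → D) (u : ∀ b, Y ⟶ (R b).obj (P b)),
    (∀ b, Un _ (u b)) ∧ ∀ M, 𝓜 M → Function.Bijective fun (φ : M ⟶ Y) b => φ ≫ u b
  have : Tg Q := f4_tg
    (fun X h => ⟨fun _ => 0, fun _ => 0, fun b => f4_un_zero fun _ _ => h.eq_of_src _ _,
      fun M _ => ⟨fun _ _ _ => h.eq_of_tgt _ _, fun v => ⟨0, funext fun b =>
        ((R b).map_isZero (isZero_zero D)).eq_of_tgt _ _⟩⟩⟩)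
    (fun n X ⟨P, u, hu, h⟩ => ⟨_, _, fun b => un_shift _ (hu b) n, fun M hM => by
      have e : M ≅ M⟦-n⟧⟦n⟧ := (shiftNegShift M n).symm
      have b : ∀ Z : E, Function.Bijective fun g : M⟦-n⟧ ⟶ Z => e.hom ≫ g⟦n⟧' := fun Z =>
        (five_bij_pre e).comp (five_bij_map (shiftFunctor E n) _ Z)
      rw [← Function.Bijective.of_comp_iff _ (b X)]
      let x : ∀ c, ((R c).obj (P c))⟦n⟧ ≅ (R c).obj ((P c)⟦n⟧) := fun c =>
        (((R c).commShiftIso n).app (P c)).symm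
      convert (Function.Bijective.piMap fun c => (five_bij_post (x c)).comp (b _)).comp
        (h _ (hs (-n) M hM)) using 1
      funext g c
      simp [Pi.map, x]⟩)
    fun T hT ⟨P₁, u₁, h₁, k₁⟩ ⟨P₂, u₂, h₂, k₂⟩ => by
      choose f Z g d φ hZ e₁ e₂ e₃ using fun b => f4_cone (R b) hT (h₁ b) (h₂ b)
      refine ⟨Z, fun b => (φ b).hom₃, e₃, fun M hM => (f4_pi _).1 ?_⟩
      refine bij_cone 𝓜 hs hT (productTriangle_distinguished
        (fun b => (R b).mapTriangle.obj (Triangle.mk (f b) (g b) (d b)))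
        fun b => (R b).map_distinguished _ (hZ b)) (productTriangle.lift _ φ)
        (fun M hM => (f4_pi _).2 ?_) (fun M hM => (f4_pi _).2 ?_) M hM
      · simp only [e₁]
        exact k₁ M hM
      · simp only [e₂]
        exact k₂ M hM
  exact Cl.le (S := Q) (fun _ ⟨i, X, a, _, c⟩ => c ▸ ⟨fun _ => X, fun b => (β.ι i b).app X,
    fun b => β.un_L i b X, fun M hM => β.f4_L X (hM i a)⟩) _
    (β.gen (S := ⊤) m (fun _ => trivial) k)

/-- Devissage on `Y` with `Bs.gen`, `co`, `un_cone`, `bij_cone` (target `R P ⊞ R P'`). -/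
theorem Bs.f4 (m : ℕ) {Y : E} (k : ∀ j, m ≤ j → IsZero ((ev j).obj Y)) {P P' : D}
    {u : Y ⟶ (R true).obj P} {u' : Y ⟶ (R false).obj P'} (hu : Un _ u) (hu' : Un _ u') {M : E}
    (hM : ∀ j, j < m → IsZero ((ev j).obj M)) :
    Function.Bijective fun φ : M ⟶ Y => (φ ≫ u, φ ≫ u') := by
  obtain ⟨Z, v, hv, h⟩ := β.f4_ex m k
  obtain ⟨x, rfl⟩ := (hv true).uniq hu
  obtain ⟨y, rfl⟩ := (hv false).uniq hu'
  refine ⟨fun φ ψ e => (h M hM).1 (funext fun b => ?_), fun ⟨s, t⟩ => ?_⟩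
  · cases b
    · simpa only [← Category.assoc, cancel_mono] using congrArg Prod.snd e
    · simpa only [← Category.assoc, cancel_mono] using congrArg Prod.fst e
  · obtain ⟨φ, hφ⟩ := (h M hM).2 fun b => match b with
      | true => s ≫ (R true).map x.inv
      | false => t ≫ (R false).map y.inv
    have a : φ ≫ v true = s ≫ (R true).map x.inv := congrFun hφ true
    have b : φ ≫ v false = t ≫ (R false).map y.inv := congrFun hφ false
    exact ⟨φ, by simp [reassoc_of% a, reassoc_of% b, ← Functor.map_comp]⟩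

theorem Bs.orth (m : ℕ) {Y : E} (k : ∀ j, m ≤ j → IsZero ((ev j).obj Y)) (hY : Ac R Y) {M : E}
    (hM : ∀ j, j < m → IsZero ((ev j).obj M)) (φ : M ⟶ Y) : φ = 0 :=
  (β.f4 m k (f4_un_zero (hY true)) (f4_un_zero (hY false)) hM).1 (by simp)

end Pool.Agent.Lib.MP_5d3e93_al.Gr
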