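import Pool.Agent.Lib.MP_5d3e93_al.Gr.Loc

/-! Localisation on a triangulated subcategory: right fractions, generators, Verdier's lemma. -/

open CategoryTheory Limits Pretriangulated ZeroObject

set_option linter.unusedSectionVars false

namespace Pool.Agent.Lib.MP_5d3e93_al.Gr

variable {D : Type*} [Category* D] [HasZeroObject D] [HasShift D ℤ] [Preadditive D]
  [∀ n : ℤ, (shiftFunctor D n).Additive] [Pretriangulated D]
variable {D' : Type*} [Category* D'] [HasZeroObject D'] [HasShift D' ℤ] [Preadditive D']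
  [∀ n : ℤ, (shiftFunctor D' n).Additive] [Pretriangulated D']
variable {E : Type*} [Category* E] [HasZeroObject E] [HasShift E ℤ] [Preadditive E]
  [∀ n : ℤ, (shiftFunctor E n).Additive] [Pretriangulated E]

variable {F : D ⥤ D'} [F.CommShift ℤ] [F.IsTriangulated] {N S G G' : ObjectProperty D}
  {S' : ObjectProperty D'}

/-- Bijectivity on morphisms only depends on the isomorphism classes of the objects. -/
theorem lb_bij_iso {C C' : Type*} [Category* C] [Category* C'] (H : C ⥤ C') {X X' Y Y' : C}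
    (a : X ≅ X') (b : Y ≅ Y') (h : Function.Bijective (H.map : (X ⟶ Y) → _)) :
    Function.Bijective (H.map : (X' ⟶ Y') → _) := by
  constructor
  · intro f g e
    have : a.hom ≫ f ≫ b.inv = a.hom ≫ g ≫ b.inv := h.1 (by simp only [H.map_comp, e])
    simpa only [cancel_epi, cancel_mono] using this
  · intro φ
    obtain ⟨f, hf⟩ := h.2 (H.map a.hom ≫ φ ≫ H.map b.inv)
    refine ⟨a.inv ≫ f ≫ b.hom, ?_⟩
    rw [H.map_comp, H.map_comp, hf]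
    simp [← H.map_comp, ← H.map_comp_assoc]

/-- Exactness of the image of a triangle. -/
theorem lb_ex {T : Triangle D} (hT : T ∈ distTriang D) {Z : D'} (φ : Z ⟶ F.obj T.obj₂)
    (h : φ ≫ F.map T.mor₂ = 0) : ∃ ψ : Z ⟶ F.obj T.obj₁, φ = ψ ≫ F.map T.mor₁ :=
  Triangle.coyoneda_exact₂ _ (F.map_distinguished T hT) φ h

/-- Morphisms out of the images of objects of `G` are fractions with roof in `G`. -/
def LbFull (F : D ⥤ D') (N G : ObjectProperty D) (Y : D) : Prop :=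
  ∀ X, G X → ∀ φ : F.obj X ⟶ F.obj Y, ∃ (X' : D) (s : X' ⟶ X) (f : X' ⟶ Y),
    G X' ∧ N.trW s ∧ F.map s ≫ φ = F.map f

/-- Morphisms out of objects of `G` that are killed are killed by a refinement in `G`. -/
def LbFaith (F : D ⥤ D') (N G : ObjectProperty D) (Y : D) : Prop :=
  ∀ X, G X → ∀ f : X ⟶ Y, F.map f = 0 → ∃ (X' : D) (s : X' ⟶ X), G X' ∧ N.trW s ∧ s ≫ f = 0

theorem LbFull.iso {Y Y' : D} (e : Y ≅ Y') (h : LbFull F N G Y) : LbFull F N G Y' := by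
  intro X a φ
  obtain ⟨X', s, f, b, c, d⟩ := h X a (φ ≫ F.map e.inv)
  refine ⟨X', s, f ≫ e.hom, b, c, ?_⟩
  rw [F.map_comp, ← d]
  simp [← F.map_comp]

theorem LbFaith.iso {Y Y' : D} (e : Y ≅ Y') (h : LbFaith F N G Y) : LbFaith F N G Y' := by
  intro X a f k
  obtain ⟨X', s, b, c, d⟩ := h X a (f ≫ e.inv) (by rw [F.map_comp, k, zero_comp])
  refine ⟨X', s, b, c, ?_⟩
  rw [← cancel_mono e.inv, Category.assoc, d, zero_comp]

variable [IsTriangulated D] [Tg N] [Tg S]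

theorem LbFull.ext {T : Triangle D} (hT : T ∈ distTriang D) (h₁ : LbFull F N G T.obj₁)
    (h₃ : LbFull F N G T.obj₃) (h₄ : LbFaith F N G (T.obj₁⟦(1 : ℤ)⟧)) : LbFull F N G T.obj₂ := by
  intro X a φ
  obtain ⟨X₁, s, f₃, a₁, hs, e₁⟩ := h₃ X a (φ ≫ F.map T.mor₂)
  obtain ⟨X₂, t, a₂, ht, e₂⟩ := h₄ X₁ a₁ (f₃ ≫ T.mor₃) (by
    rw [F.map_comp, ← e₁, Category.assoc, Category.assoc, ← F.map_comp,
      comp_distTriang_mor_zero₂₃ _ hT, F.map_zero, comp_zero, comp_zero])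
  obtain ⟨f₂, e₃⟩ := Triangle.coyoneda_exact₃ _ hT (t ≫ f₃) (by rw [Category.assoc, e₂])
  obtain ⟨ψ, e₄⟩ := lb_ex (F := F) hT (F.map (t ≫ s) ≫ φ - F.map f₂) (by
    rw [Preadditive.sub_comp, ← F.map_comp f₂, ← e₃, F.map_comp, F.map_comp, ← e₁]
    simp)
  obtain ⟨X₃, u, f₁, a₃, hu, e₅⟩ := h₁ X₂ a₂ ψ
  refine ⟨X₃, u ≫ t ≫ s, u ≫ f₂ + f₁ ≫ T.mor₁, a₃,
    N.trW.comp_mem _ _ hu (N.trW.comp_mem _ _ ht hs), ?_⟩
  rw [F.map_add, F.map_comp f₁, ← e₅, Category.assoc, ← e₄, F.map_comp u, F.map_comp u]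
  simp

theorem LbFaith.ext {T : Triangle D} (hT : T ∈ distTriang D) (h₁ : LbFaith F N G T.obj₁)
    (h₃ : LbFaith F N G T.obj₃) (h₀ : LbFull F N G (T.obj₃⟦(-1 : ℤ)⟧)) :
    LbFaith F N G T.obj₂ := by
  intro X a f k
  obtain ⟨m, e₆, hm⟩ : ∃ m : T.obj₃⟦(-1 : ℤ)⟧ ⟶ T.obj₁, m ≫ T.mor₁ = 0 ∧ ∀ (Z : D')
      (φ : Z ⟶ F.obj T.obj₁), φ ≫ F.map T.mor₁ = 0 → ∃ ψ, φ = ψ ≫ F.map m :=
    ⟨T.invRotate.mor₁, comp_distTriang_mor_zero₁₂ _ (inv_rot_of_distTriang _ hT),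
      fun _ φ e => lb_ex (inv_rot_of_distTriang _ hT) φ e⟩
  obtain ⟨X₁, s, a₁, hs, e₁⟩ := h₃ X a (f ≫ T.mor₂) (by rw [F.map_comp, k, zero_comp])
  obtain ⟨b, e₂⟩ := Triangle.coyoneda_exact₂ _ hT (s ≫ f) (by rw [Category.assoc, e₁])
  obtain ⟨ψ, e₃⟩ := hm _ (F.map b) (by rw [← F.map_comp, ← e₂, F.map_comp, k, comp_zero])
  obtain ⟨X₂, t, c, a₂, ht, e₄⟩ := h₀ X₁ a₁ ψ
  obtain ⟨X₃, u, a₃, hu, e₅⟩ := h₁ X₂ a₂ (t ≫ b - c ≫ m) (by
    rw [F.map_sub, F.map_comp, F.map_comp, ← e₄, sub_eq_zero, Category.assoc, e₃])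
  refine ⟨X₃, u ≫ t ≫ s, a₃, N.trW.comp_mem _ _ hu (N.trW.comp_mem _ _ ht hs), ?_⟩
  have e₇ := congrArg (· ≫ T.mor₁) e₅
  simp only [Category.assoc, Preadditive.sub_comp, zero_comp] at e₇
  rw [e₆, comp_zero, sub_zero] at e₇
  rw [Category.assoc, Category.assoc, e₂, e₇]

theorem lb_pro (hS' : S ≤ Cl G')
    (h : ∀ (n : ℤ) Y, G' Y → LbFull F N G (Y⟦n⟧) ∧ LbFaith F N G (Y⟦n⟧)) {Y : D}
    (a : S Y) : LbFull F N G Y ∧ LbFaith F N G Y := by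
  let P : ObjectProperty D := fun Y => ∀ n : ℤ, LbFull F N G (Y⟦n⟧) ∧ LbFaith F N G (Y⟦n⟧)
  have h1 : ∀ (n : ℤ) X, P X → P (X⟦n⟧) := fun n X a m =>
    ⟨(a (n + m)).1.iso ((shiftFunctorAdd D n m).app X),
      (a (n + m)).2.iso ((shiftFunctorAdd D n m).app X)⟩
  have h0 : ∀ X, P X → LbFull F N G X ∧ LbFaith F N G X := fun X a =>
    ⟨(a 0).1.iso ((shiftFunctorZero D ℤ).app X), (a 0).2.iso ((shiftFunctorZero D ℤ).app X)⟩
  have : Tg P := Tg.mk' (fun Z z n =>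
      have z' := (shiftFunctor D n).map_isZero z
      ⟨fun X a φ => ⟨X, 𝟙 X, 0, a, N.trW.id_mem X, (F.map_isZero z').eq_of_tgt _ _⟩,
        fun X a f _ => ⟨X, 𝟙 X, a, N.trW.id_mem X, z'.eq_of_tgt _ _⟩⟩) h1
    fun T hT a b n =>
      have k := Triangle.shift_distinguished T hT n
      ⟨.ext k (a n).1 (b n).1 (h1 n _ a 1).2, .ext k (a n).2 (b n).2 (h1 n _ b (-1)).1⟩
  exact h0 Y (Cl.le (S := P) (fun Y b n => h n Y b) Y (hS' Y a))

omit [Tg S] in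
theorem lb_ore {X Y Y' : D} (f : X ⟶ Y') {s : Y ⟶ Y'} (hs : N.trW s) :
    ∃ (X' : D) (t : X' ⟶ X) (g : X' ⟶ Y), N.trW t ∧ t ≫ f = g ≫ s := by
  obtain ⟨ψ, e⟩ := (MorphismProperty.LeftFraction.mk f s hs).exists_rightFraction
  exact ⟨_, ψ.s, ψ.f, ψ.hs, e⟩

omit [Tg S] in
theorem lb_ore' {X X' Y : D} {s : X' ⟶ X} (f : X' ⟶ Y) (hs : N.trW s) :
    ∃ (Y' : D) (t : Y ⟶ Y') (g : X ⟶ Y'), N.trW t ∧ s ≫ g = f ≫ t := by
  obtain ⟨ψ, e⟩ := (MorphismProperty.RightFraction.mk s hs f).exists_leftFraction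
  exact ⟨_, ψ.s, ψ.f, ψ.hs, e.symm⟩

omit [Tg S] in
/-- Right fractions give left fractions. -/
theorem lb_of_right (le : N ≤ S) (kill : ∀ X, N X → IsZero (F.obj X))
    (full : ∀ X Y, S X → S Y → ∀ φ : F.obj X ⟶ F.obj Y, ∃ (X' : D) (s : X' ⟶ X) (f : X' ⟶ Y),
      N.trW s ∧ F.map s ≫ φ = F.map f)
    (faith : ∀ X Y, S X → S Y → ∀ f : X ⟶ Y, F.map f = 0 → ∃ (X' : D) (s : X' ⟶ X),
      N.trW s ∧ s ≫ f = 0) : LocOn F N S where
  le := le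
  kill := kill
  full a b φ := by
    obtain ⟨X', s, f, hs, e⟩ := full _ _ a b φ
    obtain ⟨Y', t, g, ht, k⟩ := lb_ore' f hs
    have := isIso_of_kill kill hs
    refine ⟨Y', t, g, ht, ?_⟩
    rw [← cancel_epi (F.map s), ← F.map_comp, k, F.map_comp, reassoc_of% e]
  faith a b f k := by
    obtain ⟨X', s, hs, e⟩ := faith _ _ a b f k
    obtain ⟨Y', t, ht, e'⟩ := MorphismProperty.HasLeftCalculusOfFractions.ext f 0 s hs
      (by rw [e, comp_zero])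
    exact ⟨Y', t, ht, by rw [e', zero_comp]⟩

theorem LocOn.full' (h : LocOn F N S) {X Y : D} (a : S X) (b : S Y) (φ : F.obj X ⟶ F.obj Y) :
    ∃ (X' : D) (s : X' ⟶ X) (f : X' ⟶ Y), N.trW s ∧ F.map s ≫ φ = F.map f := by
  obtain ⟨Y', s, f, hs, e⟩ := h.full a b φ
  obtain ⟨X', t, g, ht, k⟩ := lb_ore f hs
  have := isIso_of_kill h.kill hs
  refine ⟨X', t, g, ht, ?_⟩
  rw [← cancel_mono (F.map s), ← F.map_comp, ← k, F.map_comp, Category.assoc, e]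

theorem LocOn.faith' (h : LocOn F N S) {X Y : D} (a : S X) (b : S Y) (f : X ⟶ Y)
    (e : F.map f = 0) : ∃ (X' : D) (s : X' ⟶ X), N.trW s ∧ s ≫ f = 0 := by
  obtain ⟨Y', s, hs, k⟩ := h.faith a b f e
  obtain ⟨X', t, ht, e'⟩ := MorphismProperty.HasRightCalculusOfFractions.ext f 0 s hs
    (by rw [k, zero_comp])
  exact ⟨X', t, ht, by rw [e', comp_zero]⟩

theorem locOn_of_isLocalization [F.IsLocalization N.trW] (le : N ≤ S) : LocOn F N S where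
  le := le
  kill X h :=
    have := Localization.inverts F N.trW _ (ObjectProperty.trW.mk N
      (contractible_distinguished₁ X) h)
    (Triangle.isZero₃_iff_isIso₁ _ (F.map_distinguished _ (contractible_distinguished₁ X))).2 this
  full _ _ φ := by
    obtain ⟨ψ, rfl⟩ := Localization.exists_leftFraction F N.trW φ
    exact ⟨_, ψ.s, ψ.f, ψ.hs, ψ.map_comp_map_s _ _⟩
  faith _ _ f e := by
    obtain ⟨Z, s, hs, k⟩ := (MorphismProperty.map_eq_iff_postcomp F N.trW f 0).1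
      (by rw [e, F.map_zero])
    exact ⟨Z, s, hs, by rw [k, zero_comp]⟩

theorem LocOn.tg_map (h : LocOn F N S) : Tg (S.map F) := by
  refine Tg.mk' (fun X z => ⟨0, Tg.zero S (isZero_zero D), ⟨(F.map_isZero (isZero_zero D)).iso z⟩⟩)
    ?_ ?_
  · rintro n Y ⟨X, a, ⟨e⟩⟩
    exact ⟨X⟦n⟧, S.le_shift n _ a, ⟨(F.commShiftIso n).app _ ≪≫ (shiftFunctor D' n).mapIso e⟩⟩
  · rintro T hT ⟨X₁, a₁, ⟨e₁⟩⟩ ⟨X₃, a₃, ⟨e₃⟩⟩
    obtain ⟨X, s, k, hs, hk⟩ := h.full' a₃ (S.le_shift 1 _ a₁) (e₃.hom ≫ T.mor₃ ≫ e₁.inv⟦1⟧' ≫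
      (F.commShiftIso (1 : ℤ)).inv.app X₁)
    have := isIso_of_kill h.kill hs
    obtain ⟨X₂, f, g, H⟩ := distinguished_cocone_triangle₂ k
    let i : F.obj X ≅ T.obj₃ := asIso (F.map s) ≪≫ e₃
    have c : (F.map k ≫ (F.commShiftIso (1 : ℤ)).hom.app X₁) ≫ e₁.hom⟦1⟧' = i.hom ≫ T.mor₃ := by
      simp [i, ← hk, ← Functor.map_comp]
    exact ⟨X₂, S.ext_of_isTriangulatedClosed₂ _ H a₁ ((Tg.of_trW h.le hs).2 a₃),
      ⟨Triangle.π₂.mapIso (isoTriangleOfIso₁₃ _ _ (F.map_distinguished _ H) hT e₁ i c)⟩⟩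

theorem LocOn.map_cl (h : LocOn F N (Cl G)) : (Cl G).map F = Cl (G.map F) := by
  have := h.tg_map
  refine le_antisymm ?_ (Cl.le (ObjectProperty.map_monotone (fun _ => Cl.of) F))
  rintro Y ⟨X, a, ⟨e⟩⟩
  exact Cl.iso e (Cl.le (S := (Cl (G.map F)).inverseImage F)
    (fun X b => Cl.of (G.prop_map_obj F b)) X a)

theorem LocOn.loc (h : LocOn F N S) (th : ∀ X, S X → Th N X → N X) : Loc F N S (S.map F) where
  toLocOn := h
  thick X a b := th X a (h.th a b)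
  maps _ a := S.prop_map_obj F a
  surj _ a := a

theorem LocOn.verdier (h : LocOn F N S) {V : ObjectProperty D} [Tg V] (hV : V ≤ S)
    (fac : ∀ X Y (f : X ⟶ Y), N X → V Y → ∃ (Z : D) (a : X ⟶ Z) (b : Z ⟶ Y),
      V Z ∧ N Z ∧ a ≫ b = f) : LocOn F (V ⊓ N) V := by
  have key : ∀ {Y Y' : D} (s : Y ⟶ Y'), V Y → N.trW s →
      ∃ (Y'' : D) (t : Y' ⟶ Y''), (V ⊓ N).trW (s ≫ t) := by
    intro Y Y' s a hs
    obtain ⟨K, k, c, hT, hK⟩ := (N.trW_iff' s).1 hs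
    obtain ⟨Z, p, q, z₁, z₂, e⟩ := fac K Y k hK a
    obtain ⟨Y'', s', c', hT'⟩ := distinguished_cocone_triangle q
    have z : q ≫ s' = 0 := comp_distTriang_mor_zero₁₂ _ hT'
    obtain ⟨t, ht⟩ := Triangle.yoneda_exact₂ _ hT s' (by
      change k ≫ s' = 0
      rw [← e, Category.assoc, z, comp_zero])
    refine ⟨Y'', t, ?_⟩
    have : (V ⊓ N).trW s' := ObjectProperty.trW.mk' _ hT' ⟨z₁, z₂⟩
    rwa [ht] at this
  refine ⟨inf_le_left, fun X a => h.kill X a.2, fun a b φ => ?_, fun a b f e => ?_⟩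
  · obtain ⟨Y', s, f, hs, e⟩ := h.full (hV _ a) (hV _ b) φ
    obtain ⟨Y'', t, ht⟩ := key s b hs
    exact ⟨Y'', s ≫ t, f ≫ t, ht, by rw [F.map_comp, F.map_comp, reassoc_of% e]⟩
  · obtain ⟨Y', s, hs, k⟩ := h.faith (hV _ a) (hV _ b) f e
    obtain ⟨Y'', t, ht⟩ := key s b hs
    exact ⟨Y'', s ≫ t, ht, by rw [reassoc_of% k, zero_comp]⟩

theorem LocOn.verdier' (h : LocOn F N S) {V : ObjectProperty D} [Tg V] (hV : V ≤ S)
    (fac : ∀ X Y (f : X ⟶ Y), V X → N Y → ∃ (Z : D) (a : X ⟶ Z) (b : Z ⟶ Y),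
      V Z ∧ N Z ∧ a ≫ b = f) : LocOn F (V ⊓ N) V := by
  have key : ∀ {X X' : D} (s : X' ⟶ X), V X → N.trW s →
      ∃ (X'' : D) (t : X'' ⟶ X'), (V ⊓ N).trW (t ≫ s) := by
    rintro X X' s a ⟨K, k, c, hT, hK⟩
    obtain ⟨Z, p, q, z₁, z₂, e⟩ := fac X K k a hK
    obtain ⟨X'', s', c', hT'⟩ := distinguished_cocone_triangle₁ p
    have z : s' ≫ p = 0 := comp_distTriang_mor_zero₁₂ _ hT'
    obtain ⟨t, ht⟩ := Triangle.coyoneda_exact₂ _ hT s' (by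
      change s' ≫ k = 0
      rw [← e, reassoc_of% z, zero_comp])
    refine ⟨X'', t, ?_⟩
    have : (V ⊓ N).trW s' := ObjectProperty.trW.mk _ hT' ⟨z₁, z₂⟩
    rwa [ht] at this
  refine lb_of_right inf_le_left (fun X a => h.kill X a.2) (fun X Y a b φ => ?_)
    fun X Y a b f e => ?_
  · obtain ⟨X', s, f, hs, e⟩ := h.full' (hV _ a) (hV _ b) φ
    obtain ⟨X'', t, ht⟩ := key s a hs
    exact ⟨X'', t ≫ s, t ≫ f, ht, by rw [F.map_comp, F.map_comp, Category.assoc, e]⟩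
  · obtain ⟨X', s, hs, k⟩ := h.faith' (hV _ a) (hV _ b) f e
    obtain ⟨X'', t, ht⟩ := key s a hs
    exact ⟨X'', t ≫ s, ht, by rw [Category.assoc, k, comp_zero]⟩

/-- Two localisations at the same class: the comparison functor is fully faithful. -/
theorem LocOn.ff_of_fac {ρ : D ⥤ E} [ρ.CommShift ℤ] [ρ.IsTriangulated] {H : E ⥤ D'} [H.Additive]
    (e : ρ ⋙ H ≅ F) (h : LocOn ρ N S) (k : LocOn F N S) : FF H (S.map ρ) := by
  rintro _ _ ⟨X, a, ⟨i⟩⟩ ⟨Y, b, ⟨j⟩⟩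
  refine lb_bij_iso H i j ⟨(injective_iff_map_eq_zero (H.mapAddHom)).2 fun ψ z => ?_, fun φ => ?_⟩
  · obtain ⟨Y', s, f, hs, e₁⟩ := h.full a b ψ
    have z' : H.map ψ = 0 := z
    have e₂ : F.map f = 0 := by
      rw [← cancel_epi (e.hom.app X), ← e.hom.naturality, Functor.comp_map, ← e₁, H.map_comp, z']
      simp
    obtain ⟨Y'', t, ht, e₃⟩ := k.faith a ((Tg.of_trW h.le hs).1 b) f e₂
    have := isIso_of_kill h.kill hs
    have := isIso_of_kill h.kill ht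
    rw [← cancel_mono (ρ.map s), ← cancel_mono (ρ.map t), e₁, ← ρ.map_comp, e₃]
    simp
  · obtain ⟨Y', s, f, hs, e₁⟩ := k.full a b (e.inv.app X ≫ φ ≫ e.hom.app Y)
    have := isIso_of_kill h.kill hs
    refine ⟨ρ.map f ≫ inv (ρ.map s), ?_⟩
    have n₁ : H.map (ρ.map f) ≫ e.hom.app Y' = e.hom.app X ≫ F.map f := e.hom.naturality f
    have n₂ : H.map (ρ.map s) ≫ e.hom.app Y' = e.hom.app Y ≫ F.map s := e.hom.naturality s
    rw [H.map_comp, H.map_inv, IsIso.comp_inv_eq, ← cancel_mono (e.hom.app Y'), n₁, ← e₁,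
      Category.assoc φ, n₂]
    simp

theorem LocOn.comp_ff {ρ : D ⥤ E} [ρ.CommShift ℤ] [ρ.IsTriangulated] {H : E ⥤ D'} [H.Additive]
    (e : ρ ⋙ H ≅ F) (h : LocOn ρ N S) (k : FF H (S.map ρ)) : LocOn F N S where
  le := h.le
  kill X a := (H.map_isZero (h.kill X a)).of_iso (e.app X).symm
  full {X Y} a b φ := by
    obtain ⟨ψ, e₁⟩ := (k (S.prop_map_obj ρ a) (S.prop_map_obj ρ b)).2
      (e.hom.app X ≫ φ ≫ e.inv.app Y)
    obtain ⟨Y', s, f, hs, e₂⟩ := h.full a b ψ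
    refine ⟨Y', s, f, hs, ?_⟩
    have n₁ : H.map (ρ.map f) ≫ e.hom.app Y' = e.hom.app X ≫ F.map f := e.hom.naturality f
    have n₂ : H.map (ρ.map s) ≫ e.hom.app Y' = e.hom.app Y ≫ F.map s := e.hom.naturality s
    rw [← cancel_epi (e.hom.app X), ← n₁, ← e₂, H.map_comp, e₁, Category.assoc, n₂]
    simp
  faith {X Y} a b f z := by
    refine h.faith a b f ((k (S.prop_map_obj ρ a) (S.prop_map_obj ρ b)).1 ?_)
    have n₁ : H.map (ρ.map f) ≫ e.hom.app Y = e.hom.app X ≫ F.map f := e.hom.naturality f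
    rw [← cancel_mono (e.hom.app Y), n₁, z]
    simp

/-- It suffices to have right fractions out of generators. -/
theorem locOn_of_gen (le : N ≤ S) (kill : ∀ X, N X → IsZero (F.obj X)) (hS : S ≤ Cl G)
    (full : ∀ X Y, G X → S Y → ∀ φ : F.obj X ⟶ F.obj Y, ∃ (X' : D) (s : X' ⟶ X) (f : X' ⟶ Y),
      N.trW s ∧ F.map s ≫ φ = F.map f)
    (faith : ∀ X Y, G X → S Y → ∀ f : X ⟶ Y, F.map f = 0 → ∃ (X' : D) (s : X' ⟶ X),
      N.trW s ∧ s ≫ f = 0) : LocOn F N S := by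
  have inv : N.trW.IsInvertedBy F := fun _ _ _ h => isIso_of_kill kill h
  let H := Localization.lift F inv N.trW.Q
  let e : N.trW.Q ⋙ H ≅ F := Localization.fac F inv N.trW.Q
  have : N.trW.Q.IsTriangulated := Triangulated.Localization.isTriangulated_functor _ _
  let _ : H.CommShift ℤ := Functor.commShiftOfLocalization N.trW.Q N.trW ℤ F H
  have : H.IsTriangulated :=
    have := NatTrans.commShift_iso_hom_of_localization N.trW.Q N.trW ℤ F H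
    have := Localization.essSurj_mapArrow N.trW.Q N.trW
    Functor.isTriangulated_of_precomp_iso (Localization.Lifting.iso N.trW.Q N.trW F H)
  have h : LocOn N.trW.Q N S := locOn_of_isLocalization le
  have := h.tg_map
  refine h.comp_ff e (ff_of_gen (G := G.map N.trW.Q) ?_ ?_)
  · rintro Y ⟨X, a, ⟨i⟩⟩
    exact Cl.iso i (Cl.le (S := (Cl (G.map N.trW.Q)).inverseImage N.trW.Q)
      (fun X b => Cl.of (G.prop_map_obj _ b)) X (hS X a))
  rintro _ _ ⟨X, a, ⟨i⟩⟩ ⟨Y, b, ⟨j⟩⟩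
  refine lb_bij_iso H i j ⟨(injective_iff_map_eq_zero (H.mapAddHom)).2 fun ψ z => ?_, fun φ => ?_⟩
  · obtain ⟨θ, rfl⟩ := Localization.exists_leftFraction N.trW.Q N.trW ψ
    have e₁ := θ.map_comp_map_s N.trW.Q (Localization.inverts _ _)
    have z' : H.map (θ.map N.trW.Q (Localization.inverts _ _)) = 0 := z
    have e₂ : F.map θ.f = 0 := by
      rw [← cancel_epi (e.hom.app X), ← e.hom.naturality, Functor.comp_map, ← e₁, H.map_comp, z']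
      simp
    obtain ⟨X', t, ht, e₃⟩ := faith X _ a ((Tg.of_trW le θ.hs).1 b) θ.f e₂
    have := isIso_of_kill h.kill θ.hs
    have := isIso_of_kill h.kill ht
    rw [← cancel_mono (N.trW.Q.map θ.s), e₁, ← cancel_epi (N.trW.Q.map t), ← Functor.map_comp, e₃]
    simp
  · obtain ⟨X', s, f, hs, e₁⟩ := full X Y a b (e.inv.app X ≫ φ ≫ e.hom.app Y)
    have := isIso_of_kill h.kill hs
    refine ⟨CategoryTheory.inv (N.trW.Q.map s) ≫ N.trW.Q.map f, ?_⟩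
    have n₁ : H.map (N.trW.Q.map f) ≫ e.hom.app Y = e.hom.app X' ≫ F.map f := e.hom.naturality f
    have n₂ : H.map (N.trW.Q.map s) ≫ e.hom.app X = e.hom.app X' ≫ F.map s := e.hom.naturality s
    rw [H.map_comp, H.map_inv, IsIso.inv_comp_eq, ← cancel_mono (e.hom.app Y), n₁, ← e₁,
      ← reassoc_of% n₂]
    simp

/-- Pro-adjoint form: the refinements stay in `G`, the targets are shifted generators. -/
theorem locOn_of_pro (le : N ≤ S) (kill : ∀ X, N X → IsZero (F.obj X)) (hS : S ≤ Cl G)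
    (hS' : S ≤ Cl G')
    (full : ∀ (n : ℤ) X Y, G X → G' Y → ∀ φ : F.obj X ⟶ F.obj (Y⟦n⟧), ∃ (X' : D) (s : X' ⟶ X)
      (f : X' ⟶ Y⟦n⟧), G X' ∧ N.trW s ∧ F.map s ≫ φ = F.map f)
    (faith : ∀ (n : ℤ) X Y, G X → G' Y → ∀ f : X ⟶ Y⟦n⟧, F.map f = 0 → ∃ (X' : D) (s : X' ⟶ X),
      G X' ∧ N.trW s ∧ s ≫ f = 0) : LocOn F N S := by
  have k : ∀ Y, S Y → LbFull F N G Y ∧ LbFaith F N G Y := fun Y b =>
    lb_pro hS' (fun n Y b => ⟨fun X a => full n X Y a b, fun X a => faith n X Y a b⟩) b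
  refine locOn_of_gen le kill hS (fun X Y a b φ => ?_) fun X Y a b f e => ?_
  · obtain ⟨X', s, f, -, c⟩ := (k Y b).1 X a φ
    exact ⟨X', s, f, c⟩
  · obtain ⟨X', s, -, c⟩ := (k Y b).2 X a f e
    exact ⟨X', s, c⟩

theorem Loc.restrict (h : Loc F N S S') {V : ObjectProperty D'} [Tg V] (hV : V ≤ S') :
    Loc F N (S ⊓ V.inverseImage F) V where
  toLocOn := h.toLocOn.mono (fun X a => ⟨h.le X a, Tg.zero V (h.kill X a)⟩) inf_le_left
  thick X a b := h.thick X a.1 b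
  maps := inf_le_right
  surj Y a := by
    obtain ⟨X, b, ⟨e⟩⟩ := h.surj Y (hV Y a)
    exact ⟨X, ⟨b, V.prop_of_iso e.symm a⟩, ⟨e⟩⟩

end Pool.Agent.Lib.MP_5d3e93_al.Gr
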