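import Pool.Agent.Lib.MP_5d3e93_al.Gr.W2
import Pool.Agent.Lib.MP_5d3e93_al.Gr.Nat
import Pool.Agent.Lib.MP_5d3e93_al.Gr.LocB
import Pool.Agent.Lib.MP_5d3e93_al.Gr.F4

/-! Complexes of bounded binary complexes localise to bounded binary complexes in the degreewise
split derived category, given left adjoints of the terms. -/

set_option linter.unusedSectionVars false

open CategoryTheory Limits Pretriangulated ZeroObject

namespace Pool.Agent.Lib.MP_5d3e93_al.Gr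

universe v u

section
variable {D : Type*} [Category* D] [HasZeroObject D] [HasShift D ℤ] [Preadditive D]
  [∀ n : ℤ, (shiftFunctor D n).Additive] [Pretriangulated D]
variable {E : Type*} [Category* E] [HasZeroObject E] [HasShift E ℤ] [Preadditive E]
  [∀ n : ℤ, (shiftFunctor E n).Additive] [Pretriangulated E]

/-- The cone of the counit lowers the top degree. -/
theorem alp_step (ev : ℕ → E ⥤ D) [∀ j, (ev j).CommShift ℤ] [∀ j, (ev j).IsTriangulated] {m : ℕ}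
    {L : D ⥤ E} (ad : L ⊣ ev m) (hu : ∀ X, IsIso (ad.unit.app X))
    (hh : ∀ j X, m < j → IsZero ((ev j).obj (L.obj X))) (M : E)
    (k : ∀ j, m + 1 ≤ j → IsZero ((ev j).obj M)) :
    ∃ (Z : E) (g : M ⟶ Z) (δ : Z ⟶ _), Triangle.mk (ad.counit.app M) g δ ∈ distTriang E ∧
      ∀ j, m ≤ j → IsZero ((ev j).obj Z) := by
  obtain ⟨Z, g, δ, hT⟩ := distinguished_cocone_triangle (ad.counit.app M)
  refine ⟨Z, g, δ, hT, fun j l => ?_⟩
  rcases l.eq_or_lt with rfl | l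
  · have := hu ((ev m).obj M)
    have e : IsIso ((ev m).map (ad.counit.app M)) :=
      isIso_of_hom_comp_eq_id (ad.unit.app ((ev m).obj M)) (ad.right_triangle_components M)
    exact Triangle.isZero₃_of_isIso₁ _ ((ev m).map_distinguished _ hT) e
  · exact (Zr.inverseImage (ev j)).ext_of_isTriangulatedClosed₃ _ hT (hh j _ l) (k j l)
end

theorem alp_cons (a : Am.{v, u}) (Y : a.B.D) (h : ∀ j, IsZero ((a.ev j).D.obj Y)) : IsZero Y := by
  obtain ⟨K, rfl⟩ := a.B.exists_cx Y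
  exact a.B.le_Tb _ h

theorem alp_tg {a : Am.{v, u}} (U : ObjectProperty a.D) [Tg U] : Tg (Am.W U) :=
  inferInstanceAs (Tg (Wd _ _))

theorem alp_maps {a c : Am.{v, u}} (σ : Am.Map c a.B) (P : ObjectProperty a.A)
    (G : ObjectProperty c.A) (h : ∀ Q, G Q → Pb P (σ.F.obj Q)) :
    c.gen G ≤ (Am.W (a.gen P)).inverseImage σ.D := by
  have := alp_tg (a.gen P)
  refine Cl.le ?_
  rintro _ ⟨Q, hQ, ⟨e⟩⟩
  obtain ⟨⟨m, hm⟩, hQ⟩ := h Q hQ
  have k : ∀ j, Nonempty ((a.ev j).D.obj (σ.D.obj (c.sg.obj Q)) ≅ a.sg.obj ((σ.F.obj Q).X j)) :=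
    fun j => ⟨(σ.comp (a.ev j)).sg_iso.some.app Q⟩
  exact ((Am.W (a.gen P)).inverseImage σ.D).prop_of_iso e
    ⟨fun j => (a.gen P).prop_of_iso (k j).some.symm (Cl.of ⟨_, hQ j, ⟨Iso.refl _⟩⟩), m,
      fun j l => ((HomotopyCategory.singleFunctor a.A 0 ⋙ a.Q).map_isZero (hm j l)).of_iso
        (k j).some⟩

theorem alp_unit {a b : Am.{v, u}} (f : Am.Map a b) (g : Am.Map b a) (ad : f.F ⊣ g.F)
    (hu : ∀ X, IsIso (ad.unit.app X)) : ∃ ad' : f.D ⊣ g.D, ∀ X, IsIso (ad'.unit.app X) := by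
  obtain ⟨ad', h, -⟩ := f.exists_adj g ad
  have : IsIso ad.unit := NatIso.isIso_of_isIso_app _
  let e : 𝟭 a.A ≅ f.F ⋙ g.F := asIso ad.unit
  refine ⟨ad', fun X => ?_⟩
  rw [h]
  exact ((a.idm.natIso (f.comp g) e).app X).isIso_hom

theorem alp_core {a c : Am.{v, u}} (σ : Am.Map c a.B) (S : ObjectProperty c.D) [Tg S]
    (U : ObjectProperty a.D) [Tg U] (l : ℕ → Am.Map a c)
    (ad : ∀ i, (l i).F ⊣ (σ.comp (a.ev i)).F) (hu : ∀ i X, IsIso ((ad i).unit.app X))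
    (ad' : ∀ i, ((l i).comp σ).F ⊣ (a.ev i).F) (hu' : ∀ i X, IsIso ((ad' i).unit.app X))
    (hh : ∀ i j X, i < j → IsZero (((l i).comp (σ.comp (a.ev j))).F.obj X))
    (hl : ∀ i X, U X → S ((l i).D.obj X)) (maps : S ≤ (Am.W U).inverseImage σ.D)
    (ρl : Loc σ.D (σ.ker ⊤) ⊤ ⊤) : Loc σ.D (σ.ker S) S (Am.W U) := by
  have tW := alp_tg U
  choose ad₁ u₁ using fun i => alp_unit (l i) (σ.comp (a.ev i)) (ad i) (hu i)
  choose ad₂ u₂ using fun i => alp_unit ((l i).comp σ) (a.ev i) (ad' i) (hu' i)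
  have hz : ∀ i j X, i < j → IsZero ((σ.comp (a.ev j)).D.obj ((l i).D.obj X)) := fun i j X h =>
    ((l i).comp (σ.comp (a.ev j))).isZero (fun Y => hh i j Y h) X
  have fac : ∀ m X, S X → (∀ j, m ≤ j → IsZero ((σ.comp (a.ev j)).D.obj X)) →
      ∀ Y (f : X ⟶ Y), IsZero (σ.D.obj Y) → ∃ (Z : c.D) (p : X ⟶ Z) (q : Z ⟶ Y),
        S Z ∧ IsZero (σ.D.obj Z) ∧ p ≫ q = f := by
    intro m
    induction m with
    | zero =>
      exact fun X h k Y f _ => ⟨X, 𝟙 X, f, h, alp_cons _ _ fun j => k j (Nat.zero_le j),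
        Category.id_comp f⟩
    | succ m ih =>
      intro X h k Y f hY
      obtain ⟨Z, g, δ, hT, hZ⟩ := alp_step (fun j => (σ.comp (a.ev j)).D) (ad₁ m) (u₁ m)
        (fun j X => hz m j X) X k
      have z : IsZero ((σ.comp (a.ev m)).D.obj Y) := (a.ev m).D.map_isZero hY
      obtain ⟨f', hf⟩ := Triangle.yoneda_exact₂ _ hT f
        (((ad₁ m).homEquiv _ _).injective (z.eq_of_tgt _ _))
      obtain ⟨Z', p, q, h₁, h₂, h₃⟩ := ih Z (S.ext_of_isTriangulatedClosed₃ _ hT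
        (hl m _ ((maps X h).1 m)) h) hZ Y f' hY
      exact ⟨Z', g ≫ p, q, h₁, h₂, by rw [Category.assoc, h₃, hf]; rfl⟩
  have lo : LocOn σ.D (σ.ker S) S := by
    have := ρl.toLocOn.verdier' (V := S) le_top fun X Y f h hY => by
      obtain ⟨m, k⟩ := (maps X h).2
      obtain ⟨Z, p, q, h₁, h₂, h₃⟩ := fac m X h k Y f hY.2
      exact ⟨Z, p, q, h₁, ⟨trivial, h₂⟩, h₃⟩
    rwa [Am.Map.ker, top_inf_eq] at this
  have tg := lo.tg_map
  have su : ∀ m Y, Am.W U Y → (∀ j, m ≤ j → IsZero ((a.ev j).D.obj Y)) → S.map σ.D Y := by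
    intro m
    induction m with
    | zero => exact fun Y _ k => Tg.zero _ (alp_cons _ _ fun j => k j (Nat.zero_le j))
    | succ m ih =>
      intro Y h k
      obtain ⟨Z, g, δ, hT, hZ⟩ := alp_step (fun j => (a.ev j).D) (ad₂ m) (u₂ m)
        (fun j X => hz m j X) Y k
      have h₁ := hl m _ (h.1 m)
      exact (S.map σ.D).ext_of_isTriangulatedClosed₂ _ hT ⟨_, h₁, ⟨Iso.refl _⟩⟩
        (ih Z ((Am.W U).ext_of_isTriangulatedClosed₃ _ hT (maps _ h₁) h) hZ)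
  refine ⟨lo, fun X h k => ⟨h, k⟩, maps, fun Y h => ?_⟩
  obtain ⟨m, k⟩ := h.2
  obtain ⟨X, p, q⟩ := su m Y h k
  exact ⟨X, p, q⟩

theorem alp_of {A : Type (max u v)} [Category.{v} A] [Preadditive A] [HasZeroObject A]
    [HasBinaryBiproducts A] (P : ObjectProperty A) (L : ℕ → A ⥤ Bin A) [hL : ∀ i, (L i).Additive]
    (ad : ∀ i, L i ⊣ Bin.ev A i) (hu : ∀ i X, IsIso ((ad i).unit.app X))
    (hh : ∀ i j X, i < j → IsZero (((L i).obj X).X j))
    (hP : ∀ i j X, P X → P (((L i).obj X).X j))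
    (ρl : Loc (Am.of.{v, u} A).B.ρ.D ((Am.of.{v, u} A).B.ρ.ker ⊤) ⊤ ⊤) :
    Loc (Am.of.{v, u} A).B.ρ.D ((Am.of.{v, u} A).B.ρ.ker ((Am.of.{v, u} (Bin A)).gen (Pb P)))
      ((Am.of.{v, u} (Bin A)).gen (Pb P)) (Am.W ((Am.of.{v, u} A).gen P)) := by
  let l : ℕ → Am.Map (Am.of.{v, u} A) (Am.of.{v, u} (Bin A)) := fun i =>
    @Am.ofMap A _ _ _ _ (Am.of.{v, u} (Bin A)) (L i) (hL i)
  exact @alp_core (Am.of.{v, u} A) (Am.of.{v, u} (Bin A)) (Am.of.{v, u} A).B.ρ _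
    (inferInstanceAs (Tg (Cl _))) _ (inferInstanceAs (Tg (Cl _))) l ad hu ad hu hh
    (fun i => (l i).gen_map fun X h => ⟨⟨i + 1, fun j k => hh i j X k⟩, fun j => hP i j X h⟩)
    (alp_maps _ _ _ fun _ h => h) ρl

end Pool.Agent.Lib.MP_5d3e93_al.Gr
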