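import Mathlib

/-! Triangulated closures, Grothendieck groups and localisation sequences. -/

open CategoryTheory Limits Pretriangulated ZeroObject

namespace Pool.Agent.Lib.MP_5d3e93_al.Gr

variable {D : Type*} [Category* D] [HasZeroObject D] [HasShift D ℤ] [Preadditive D]
  [∀ n : ℤ, (shiftFunctor D n).Additive] [Pretriangulated D]
variable {D' : Type*} [Category* D'] [HasZeroObject D'] [HasShift D' ℤ] [Preadditive D']
  [∀ n : ℤ, (shiftFunctor D' n).Additive] [Pretriangulated D']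

/-- Triangulated subcategories closed under isomorphisms. -/
class Tg (S : ObjectProperty D) : Prop extends S.IsTriangulated, S.IsClosedUnderIsomorphisms

/-- The triangulated closure (retracts are not added). -/
inductive Cl (P : ObjectProperty D) : ObjectProperty D
  | of {X : D} : P X → Cl P X
  | zero {X : D} : IsZero X → Cl P X
  | shift {X : D} (n : ℤ) : Cl P X → Cl P (X⟦n⟧)
  | ext (T : Triangle D) : T ∈ distTriang D → Cl P T.obj₁ → Cl P T.obj₃ → Cl P T.obj₂

theorem Cl.iso {P : ObjectProperty D} {X Y : D} (e : X ≅ Y) (h : Cl P X) : Cl P Y :=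
  Cl.ext (Triangle.mk e.hom (0 : Y ⟶ (0 : D)) 0)
    ((Triangle.distinguished_iff_of_isZero₃ _ (isZero_zero D)).2 e.isIso_hom) h
    (.zero (isZero_zero D))

instance (P : ObjectProperty D) : (Cl P).IsClosedUnderIsomorphisms := ⟨fun e h => h.iso e⟩

instance (P : ObjectProperty D) : Tg (Cl P) where
  exists_zero := ⟨_, isZero_zero D, .zero (isZero_zero D)⟩
  isStableUnderShiftBy n := ⟨fun _ h => .shift n h⟩
  toIsTriangulatedClosed₂ := .mk' fun T h a b => .ext T h a b

theorem Tg.zero (S : ObjectProperty D) [Tg S] {X : D} (h : IsZero X) : S X := by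
  obtain ⟨Z, a, b⟩ := ObjectProperty.ContainsZero.exists_zero (P := S)
  exact S.prop_of_iso (a.iso h) b

theorem Cl.le {P S : ObjectProperty D} [Tg S] (h : P ≤ S) : Cl P ≤ S := fun X a => by
  induction a with
  | of a => exact h _ a
  | zero a => exact Tg.zero S a
  | shift n _ a => exact S.le_shift n _ a
  | ext T a _ _ b c => exact S.ext_of_isTriangulatedClosed₂ T a b c

theorem Tg.mk' {S : ObjectProperty D} (h0 : ∀ X, IsZero X → S X)
    (h1 : ∀ (n : ℤ) X, S X → S (X⟦n⟧))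
    (h2 : ∀ T ∈ distTriang D, S T.obj₁ → S T.obj₃ → S T.obj₂) : Tg S := by
  have e : Cl S = S := le_antisymm (fun X a => by
    induction a with
    | of a => exact a
    | zero a => exact h0 _ a
    | shift n _ a => exact h1 n _ a
    | ext T a _ _ b c => exact h2 T a b c) fun _ => Cl.of
  rw [← e]
  infer_instance

instance (S S' : ObjectProperty D) [Tg S] [Tg S'] : Tg (S ⊓ S') where

instance : Tg (⊤ : ObjectProperty D) := Tg.mk' (fun _ _ => trivial) (fun _ _ _ => trivial)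
  fun _ _ _ _ => trivial

instance (F : D ⥤ D') [F.CommShift ℤ] [F.IsTriangulated] (S : ObjectProperty D') [Tg S] :
    Tg (S.inverseImage F) where

/-- The zero objects. -/
def Zr : ObjectProperty D := fun X => IsZero X

instance : Tg (Zr : ObjectProperty D) := Tg.mk' (fun _ h => h)
  (fun n _ h => (shiftFunctor D n).map_isZero h) fun T h a b => T.isZero₂_of_isZero₁₃ h a b

/-- The relations of the Grothendieck group. -/
def K0r (S : ObjectProperty D) : AddSubgroup (FreeAbelianGroup {X // S X}) := AddSubgroup.closure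
  {x | ∃ T ∈ distTriang D, ∃ (a : S T.obj₁) (b : S T.obj₂) (c : S T.obj₃),
    x = .of ⟨_, b⟩ - .of ⟨_, a⟩ - .of ⟨_, c⟩}

/-- The Grothendieck group of a class of objects of a triangulated category. -/
def K0 (S : ObjectProperty D) := FreeAbelianGroup {X // S X} ⧸ K0r S

namespace K0

variable {S : ObjectProperty D} {S' : ObjectProperty D'}

instance : AddCommGroup (K0 S) := inferInstanceAs (AddCommGroup (_ ⧸ K0r S))

/-- The class of an object. -/
def mk (X : D) (h : S X) : K0 S := QuotientAddGroup.mk (.of ⟨X, h⟩)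

theorem mk_tri {T : Triangle D} (h : T ∈ distTriang D) (a : S T.obj₁) (b : S T.obj₂)
    (c : S T.obj₃) : mk _ b = mk _ a + mk _ c := by
  have : (QuotientAddGroup.mk (.of ⟨_, b⟩ - .of ⟨_, a⟩ - .of ⟨_, c⟩) : _ ⧸ K0r S) = 0 :=
    (QuotientAddGroup.eq_zero_iff _).2 (AddSubgroup.subset_closure ⟨T, h, a, b, c, rfl⟩)
  rw [QuotientAddGroup.mk_sub, QuotientAddGroup.mk_sub, sub_sub, sub_eq_zero] at this
  exact this

/-- The universal property. -/
def lift {M : Type*} [AddCommGroup M] (f : ∀ X, S X → M)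
    (h : ∀ T ∈ distTriang D, ∀ a b c, f T.obj₂ b = f T.obj₁ a + f T.obj₃ c) : K0 S →+ M :=
  QuotientAddGroup.lift _ (FreeAbelianGroup.lift fun X => f X.1 X.2)
    ((AddSubgroup.closure_le (AddMonoidHom.ker _)).2 (by
      rintro _ ⟨T, k, a, b, c, rfl⟩
      simp [h T k a b c]))

@[simp] theorem lift_mk {M : Type*} [AddCommGroup M] (f : ∀ X, S X → M) (h) (X : D) (a : S X) :
    lift f h (mk X a) = f X a := FreeAbelianGroup.lift_apply_of ..

theorem hom_ext {M : Type*} [AddCommGroup M] {f g : K0 S →+ M}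
    (h : ∀ X a, f (mk X a) = g (mk X a)) : f = g :=
  QuotientAddGroup.addMonoidHom_ext _ (FreeAbelianGroup.lift_ext _ _ fun X => h X.1 X.2)

/-- The map induced by an exact functor. -/
def map (F : D ⥤ D') [F.CommShift ℤ] [F.IsTriangulated] (h : S ≤ S'.inverseImage F) :
    K0 S →+ K0 S' :=
  lift (fun X a => mk (F.obj X) (h X a)) fun T k _ _ _ => mk_tri (F.map_distinguished T k) _ _ _

@[simp] theorem map_mk (F : D ⥤ D') [F.CommShift ℤ] [F.IsTriangulated]
    (h : S ≤ S'.inverseImage F) (X : D) (a : S X) : map F h (mk X a) = mk (F.obj X) (h X a) :=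
  lift_mk ..

end K0

/-- On `S` the functor `F` is the localisation at `N`: calculus of left fractions. -/
structure LocOn (F : D ⥤ D') (N S : ObjectProperty D) : Prop where
  le : N ≤ S
  kill : ∀ X, N X → IsZero (F.obj X)
  full : ∀ {X Y : D}, S X → S Y → ∀ φ : F.obj X ⟶ F.obj Y, ∃ (Y' : D) (s : Y ⟶ Y') (f : X ⟶ Y'),
    N.trW s ∧ φ ≫ F.map s = F.map f
  faith : ∀ {X Y : D}, S X → S Y → ∀ f : X ⟶ Y, F.map f = 0 → ∃ (Y' : D) (s : Y ⟶ Y'),
    N.trW s ∧ f ≫ s = 0

/-- An exact sequence `N → S → S'` of triangulated categories. -/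
structure Loc (F : D ⥤ D') (N S : ObjectProperty D) (S' : ObjectProperty D') : Prop
    extends LocOn F N S where
  thick : ∀ X, S X → IsZero (F.obj X) → N X
  maps : S ≤ S'.inverseImage F
  surj : ∀ Y, S' Y → ∃ X, S X ∧ Nonempty (F.obj X ≅ Y)

/-- The functor is fully faithful on `S`. -/
def FF (F : D ⥤ D') (S : ObjectProperty D) : Prop :=
  ∀ ⦃X Y : D⦄, S X → S Y → Function.Bijective (F.map : (X ⟶ Y) → _)

/-- The functor restricts to an equivalence from `S` to `S'`. -/
structure Deq (F : D ⥤ D') (S : ObjectProperty D) (S' : ObjectProperty D') : Prop where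
  ff : FF F S
  maps : S ≤ S'.inverseImage F
  surj : ∀ Y, S' Y → ∃ X, S X ∧ Nonempty (F.obj X ≅ Y)

/-- Objects all of whose terms lie in `S`, almost all being zero. -/
def Wd (ev : ℕ → D' ⥤ D) (S : ObjectProperty D) : ObjectProperty D' :=
  fun M => (∀ j, S ((ev j).obj M)) ∧ ∃ m, ∀ j, m ≤ j → IsZero ((ev j).obj M)

/-- Objects acyclic for both differentials. -/
def Ac (R : Bool → D ⥤ D') : ObjectProperty D' :=
  fun M => ∀ b Y (φ : M ⟶ (R b).obj Y), φ = 0

/-- Universal arrows: `P` is the total object of `M`. -/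
def Un (R : D ⥤ D') {M : D'} {P : D} (u : M ⟶ R.obj P) : Prop :=
  ∀ Y, Function.Bijective fun g : P ⟶ Y => u ≫ R.map g

/-- The structure of the derived category of binary complexes over the derived category. -/
structure Bs (ev : ℕ → D' ⥤ D) (R : Bool → D ⥤ D') where
  L : ℕ → D ⥤ D'
  [cs : ∀ i, (L i).CommShift ℤ]
  [tr : ∀ i, (L i).IsTriangulated]
  adj : ∀ i, L i ⊣ ev i
  ι : ∀ i b, L i ⟶ R b
  cons : ∀ M, (∀ j, IsZero ((ev j).obj M)) → IsZero M
  unit : ∀ i X, IsIso ((adj i).unit.app X)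
  high : ∀ i j X, i < j → IsZero ((ev j).obj ((L i).obj X))
  low : ∀ i j X, j < i → Nonempty ((ev j).obj ((L i).obj X) ≅ X ⊞ X)
  evι : ∀ i b X, IsIso ((ev i).map ((ι i b).app X))
  co : ∀ i X, ∃ (Z : D') (g : (R true).obj X ⊞ (R false).obj X ⟶ Z) (h : Z ⟶ _),
    Triangle.mk (biprod.lift ((ι i true).app X) ((ι i false).app X)) g h ∈ distTriang D' ∧
      ∀ M, IsZero ((ev i).obj M) → ∀ φ : M ⟶ Z, φ = 0
  up : ∀ X, ∃ (j : ∀ i, (L i).obj X ⟶ (L (i + 1)).obj X) (k c : ℕ → D'),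
    (∀ i b, j i ≫ (ι (i + 1) b).app X = (ι i b).app X) ∧ Nonempty (c 0 ≅ (L 0).obj X) ∧
    (∀ i, ∃ (g : _ ⟶ k i) (h : k i ⟶ _), Triangle.mk (j i) g h ∈ distTriang D') ∧
    (∀ i, ∃ (f : c i ⟶ k i) (g : k i ⟶ c (i + 1)) (h : c (i + 1) ⟶ _),
      Triangle.mk f g h ∈ distTriang D') ∧ ∀ i n, n < i → IsZero ((ev n).obj (c i))

attribute [instance] Bs.cs Bs.tr

/-- Bounded acyclic binary complexes. -/
def Vd (ev : ℕ → D' ⥤ D) (R : Bool → D ⥤ D') (S : ObjectProperty D) : ObjectProperty D' :=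
  Wd ev S ⊓ Ac R

variable {E : Type*} [Category* E] [HasZeroObject E] [HasShift E ℤ] [Preadditive E]
  [∀ n : ℤ, (shiftFunctor E n).Additive] [Pretriangulated E]
variable {E' : Type*} [Category* E'] [HasZeroObject E'] [HasShift E' ℤ] [Preadditive E']
  [∀ n : ℤ, (shiftFunctor E' n).Additive] [Pretriangulated E']

/-- A functor `F` and its degreewise extension `G`. -/
structure Bm {ev : ℕ → E ⥤ D} {R : Bool → D ⥤ E} {ev' : ℕ → E' ⥤ D'} {R' : Bool → D' ⥤ E'}
    (β : Bs ev R) (β' : Bs ev' R') (F : D ⥤ D') (G : E ⥤ E') [∀ b, (R b).CommShift ℤ]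
    [∀ b, (R' b).CommShift ℤ] [F.CommShift ℤ] [G.CommShift ℤ] where
  eE : ∀ i, G ⋙ ev' i ≅ ev i ⋙ F
  eL : ∀ i, β.L i ⋙ G ≅ F ⋙ β'.L i
  eR : ∀ b, R b ⋙ G ≅ F ⋙ R' b
  csR : ∀ b, NatTrans.CommShift (eR b).hom ℤ
  hη : ∀ i X, F.map ((β.adj i).unit.app X) ≫ (eE i).inv.app ((β.L i).obj X) ≫
    (ev' i).map ((eL i).hom.app X) = (β'.adj i).unit.app (F.obj X)
  hι : ∀ i b X, G.map ((β.ι i b).app X) ≫ (eR b).hom.app X =
    (eL i).hom.app X ≫ (β'.ι i b).app (F.obj X)

end Pool.Agent.Lib.MP_5d3e93_al.Gr
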