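import Pool.Agent.Lib.MP_5d3e93_al.Gr.Defs
import Pool.Agent.Lib.MP_5d3e93_al.Gr.Tri

/-! Ambient categories, their derived categories and Grayson's construction on them. -/

open CategoryTheory Limits Pretriangulated ZeroObject

namespace Pool.Agent.Lib.MP_5d3e93_al.Gr

universe v u v' u' v'' u''

/-- The homotopy category of cochain complexes. -/
abbrev Kh (A : Type u) [Category.{v} A] [Preadditive A] := HomotopyCategory A (ComplexShape.up ℤ)

namespace Bin

variable {C : Type u} [Category.{v} C] [Preadditive C]
variable {C' : Type u'} [Category.{v'} C'] [Preadditive C']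

@[ext] theorem hom_ext {P Q : Bin C} {f g : P ⟶ Q} (h : ∀ n, f.1 n = g.1 n) : f = g :=
  Subtype.ext (funext h)

@[simp] theorem id_f (P : Bin C) (n) : (𝟙 P : P ⟶ P).1 n = 𝟙 _ := rfl

@[simp] theorem comp_f {P Q R : Bin C} (f : P ⟶ Q) (g : Q ⟶ R) (n) :
    (f ≫ g).1 n = f.1 n ≫ g.1 n := rfl

@[simp] theorem add_f {P Q : Bin C} (f g : P ⟶ Q) (n) : (f + g).1 n = f.1 n + g.1 n := rfl

@[simp] theorem zero_f {P Q : Bin C} (n) : (0 : P ⟶ Q).1 n = 0 := rfl

@[simp] theorem neg_f {P Q : Bin C} (f : P ⟶ Q) (n) : (-f).1 n = -f.1 n := rfl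

@[reassoc] theorem comm {P Q : Bin C} (f : P ⟶ Q) (b n) :
    f.1 (n + 1) ≫ Q.d b n = P.d b n ≫ f.1 n := f.2 b n

/-- A morphism from its components. -/
def homMk {P Q : Bin C} (f : ∀ n, P.X n ⟶ Q.X n)
    (h : ∀ b n, f (n + 1) ≫ Q.d b n = P.d b n ≫ f n) : P ⟶ Q := ⟨f, h⟩

@[simp] theorem homMk_f {P Q : Bin C} (f : ∀ n, P.X n ⟶ Q.X n) (h) (n) :
    (homMk f h).1 n = f n := rfl

instance [HasZeroObject C] : HasZeroObject (Bin C) :=
  ⟨⟨⟨fun _ => 0, fun _ _ => 0, by simp⟩, (IsZero.iff_id_eq_zero _).2
    (hom_ext fun _ => (isZero_zero C).eq_of_src _ _)⟩⟩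

instance [HasBinaryBiproducts C] : HasBinaryBiproducts (Bin C) := ⟨fun P Q =>
  hasBinaryBiproduct_of_total
    { pt := ⟨fun n => P.X n ⊞ Q.X n, fun b n => biprod.map (P.d b n) (Q.d b n), fun b n => by
        ext <;> simp [P.sq, Q.sq]⟩
      fst := homMk (fun _ => biprod.fst) fun _ _ => by simp
      snd := homMk (fun _ => biprod.snd) fun _ _ => by simp
      inl := homMk (fun _ => biprod.inl) fun _ _ => by simp
      inr := homMk (fun _ => biprod.inr) fun _ _ => by simp
      inl_fst := hom_ext fun _ => biprod.inl_fst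
      inl_snd := hom_ext fun _ => biprod.inl_snd
      inr_fst := hom_ext fun _ => biprod.inr_fst
      inr_snd := hom_ext fun _ => biprod.inr_snd } (hom_ext fun _ => biprod.total)⟩

variable (C) in
/-- The term of degree `j`. -/
def ev (j : ℕ) : Bin C ⥤ C where
  obj P := P.X j
  map f := f.1 j

instance (j : ℕ) : (ev C j).Additive where

/-- An additive functor applied degreewise. -/
def map (F : C ⥤ C') [F.Additive] : Bin C ⥤ Bin C' where
  obj P := ⟨fun n => F.obj (P.X n), fun b n => F.map (P.d b n), fun b n => by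
    rw [← F.map_comp, P.sq, F.map_zero]⟩
  map f := homMk (fun n => F.map (f.1 n)) fun b n => by
    dsimp only
    rw [← F.map_comp, ← F.map_comp, comm]
  map_id _ := hom_ext fun _ => F.map_id _
  map_comp _ _ := hom_ext fun _ => F.map_comp _ _

instance (F : C ⥤ C') [F.Additive] : (map F).Additive := ⟨hom_ext fun _ => F.map_add⟩

/-- The differential that acts as the identity from degree `n + 1` to degree `n`. -/
def lt (b : Bool) : ℕ → Bool
  | 0 => !b
  | n + 1 => !(lt b n)

variable (C) in
/-- The complex representing the total object of the differential `b`. -/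
def R (b : Bool) : C ⥤ Bin C where
  obj X := ⟨fun _ => X, fun c n => if c = lt b n then 𝟙 X else 0, fun c n => by
    by_cases h : c = lt b n <;> simp [h, lt]⟩
  map f := homMk (fun _ => f) fun c n => by
    dsimp only
    split_ifs <;> simp

instance (b : Bool) : (R C b).Additive where

end Bin

set_option linter.checkUnivs false in
/-- An additive category with a triangulated subcategory of its homotopy category. -/
structure Am where
  A : Type (max u v)
  [cat : Category.{v} A]
  [pre : Preadditive A]
  [zer : HasZeroObject A]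
  [bip : HasBinaryBiproducts A]
  T : ObjectProperty (Kh A)
  [tg : Tg T]

attribute [instance] Am.cat Am.pre Am.zer Am.bip Am.tg

namespace Am

variable (a : Am.{v, u})

/-- The derived category. -/
abbrev D := a.T.trW.Localization

/-- The localisation functor. -/
abbrev Q : Kh a.A ⥤ a.D := a.T.trW.Q

instance : a.Q.IsTriangulated := Triangulated.Localization.isTriangulated_functor _ _

/-- Complexes that vanish in the derived category. -/
def Tb : ObjectProperty (Kh a.A) := Zr.inverseImage a.Q

instance : Tg a.Tb := inferInstanceAs (Tg (Zr.inverseImage a.Q))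

/-- Additive functors that induce a functor on derived categories. -/
structure Map (a : Am.{v, u}) (b : Am.{v', u'}) where
  F : a.A ⥤ b.A
  [add : F.Additive]
  hT : ∀ X, a.T X → b.Tb ((F.mapHomotopyCategory _).obj X)

attribute [instance] Map.add

namespace Map

variable {a} {b : Am.{v', u'}} {c : Am.{v'', u''}} (f : Map a b)

/-- The functor on homotopy categories. -/
abbrev K : Kh a.A ⥤ Kh b.A := f.F.mapHomotopyCategory _

theorem inv : a.T.trW.IsInvertedBy (f.K ⋙ b.Q) := by
  rintro X Y φ ⟨Z, g, h, k, hZ⟩
  exact (Triangle.isZero₃_iff_isIso₁ _ ((f.K ⋙ b.Q).map_distinguished _ k)).1 (f.hT Z hZ)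

/-- The derived functor. -/
noncomputable def D : a.D ⥤ b.D := Localization.Construction.lift _ f.inv

theorem fac : a.Q ⋙ f.D = f.K ⋙ b.Q := Localization.Construction.fac _ _

theorem D_obj (X : Kh a.A) : f.D.obj (a.Q.obj X) = b.Q.obj (f.K.obj X) := rfl

noncomputable instance : Localization.Lifting a.Q a.T.trW (f.K ⋙ b.Q) f.D := ⟨eqToIso f.fac⟩

noncomputable instance : f.D.CommShift ℤ :=
  Functor.commShiftOfLocalization a.Q a.T.trW ℤ (f.K ⋙ b.Q) f.D

instance : f.D.IsTriangulated :=
  have := NatTrans.commShift_iso_hom_of_localization a.Q a.T.trW ℤ (f.K ⋙ b.Q) f.D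
  have := Localization.essSurj_mapArrow a.Q a.T.trW
  Functor.isTriangulated_of_precomp_iso (Localization.Lifting.iso a.Q a.T.trW (f.K ⋙ b.Q) f.D)

theorem hTb (X : Kh a.A) (h : a.Tb X) : b.Tb (f.K.obj X) := f.D.map_isZero h

/-- The natural transformation of derived functors induced by one of additive functors. -/
noncomputable def nat (g : Map a b) (α : f.F ⟶ g.F) : f.D ⟶ g.D :=
  Localization.liftNatTrans a.Q a.T.trW (f.K ⋙ b.Q) (g.K ⋙ b.Q) f.D g.D
    (Functor.whiskerRight (NatTrans.mapHomotopyCategory α _) b.Q)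

theorem nat_app (g : Map a b) (α : f.F ⟶ g.F) (X : Kh a.A) : (f.nat g α).app (a.Q.obj X) =
    b.Q.map ((NatTrans.mapHomotopyCategory α _).app X) := by
  rw [nat, Localization.liftNatTrans_app]
  exact (Category.id_comp _).trans (Category.comp_id _)

theorem D_map {X Y : Kh a.A} (φ : X ⟶ Y) : f.D.map (a.Q.map φ) = b.Q.map (f.K.map φ) :=
  (Functor.congr_hom f.fac φ).trans ((Category.id_comp _).trans (Category.comp_id _))

/-- Composition. -/
def comp (g : Map b c) : Map a c := ⟨f.F ⋙ g.F, fun X h => g.hTb _ (f.hT X h)⟩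

end Map

theorem le_Tb : a.T ≤ a.Tb := fun X h =>
  have := Localization.inverts a.Q a.T.trW _ (ObjectProperty.trW.mk a.T
    (contractible_distinguished₁ X) h)
  (Triangle.isZero₃_iff_isIso₁ _ (a.Q.map_distinguished _ (contractible_distinguished₁ X))).2 this

/-- Every object of the derived category is a complex. -/
theorem exists_cx (X : a.D) : ∃ K : CochainComplex a.A ℤ,
    X = a.Q.obj ((HomotopyCategory.quotient _ _).obj K) := ⟨X.as.obj.as, rfl⟩

/-- The identity. -/
def idm : Map a a := ⟨𝟭 _, fun X h => a.le_Tb X h⟩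

/-- Complexes of binary complexes all of whose terms are trivial. -/
def BT : ObjectProperty (Kh (Bin a.A)) :=
  fun Y => ∀ j, a.Tb (((Bin.ev a.A j).mapHomotopyCategory _).obj Y)

instance : Tg a.BT := Tg.mk' (fun _ h _ => Tg.zero _ (Functor.map_isZero _ h))
  (fun n X h j => (a.Tb.inverseImage ((Bin.ev a.A j).mapHomotopyCategory _)).le_shift n X (h j))
  fun T k h h' j => (a.Tb.inverseImage
    ((Bin.ev a.A j).mapHomotopyCategory _)).ext_of_isTriangulatedClosed₂ T k (h j) (h' j)

/-- Binary complexes; a complex of them is trivial when all its terms are. -/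
def B : Am.{v, u} := ⟨Bin a.A, a.BT⟩

/-- The terms. -/
def ev (j : ℕ) : Map a.B a where
  F := Bin.ev a.A j
  add := inferInstanceAs (Bin.ev a.A j).Additive
  hT _ h := h j

/-- The complexes representing the total objects. -/
def R (b : Bool) : Map a a.B where
  F := Bin.R a.A b
  add := inferInstanceAs (Bin.R a.A b).Additive
  hT X h := a.B.le_Tb _ fun _ => a.le_Tb X h

/-- A map applied degreewise. -/
def Map.B {a : Am.{v, u}} {b : Am.{v', u'}} (f : Map a b) : Map a.B b.B where
  F := Bin.map f.F
  add := inferInstanceAs (Bin.map f.F).Additive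
  hT _ h := b.B.le_Tb _ fun j => f.hTb _ (h j)

variable {a} in
/-- Bounded binary complexes with terms in `S`. -/
def W (S : ObjectProperty a.D) : ObjectProperty a.B.D := Wd (fun j => (a.ev j).D) S

variable {a} in
/-- Bounded acyclic binary complexes with terms in `S`. -/
def V (S : ObjectProperty a.D) : ObjectProperty a.B.D :=
  Vd (fun j => (a.ev j).D) (fun b => (a.R b).D) S

/-- The Grothendieck group of `n`-dimensional acyclic binary multicomplexes. -/
def Kn : ℕ → ∀ a : Am.{v, u}, ObjectProperty a.D → Type (max u v)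
  | 0, _, S => K0 S
  | n + 1, a, S => Kn n a.B (V S)

noncomputable instance grp : ∀ (n) (a : Am.{v, u}) (S), AddCommGroup (Kn n a S)
  | 0, _, S => inferInstanceAs (AddCommGroup (K0 S))
  | n + 1, a, S => grp n a.B (V S)

variable {a} in
/-- All K-groups vanish. -/
def Z (S : ObjectProperty a.D) : Prop := ∀ n, Subsingleton (Kn n a S)

/-- An additive category, only contractible complexes being trivial. -/
def of (A : Type (max u v)) [Category.{v} A] [Preadditive A] [HasZeroObject A]
    [HasBinaryBiproducts A] : Am.{v, u} := ⟨A, Zr⟩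

/-- An object of the additive category as a complex in degree zero. -/
noncomputable def sg : a.A ⥤ a.D := HomotopyCategory.singleFunctor a.A 0 ⋙ a.Q

/-- The triangulated closure of a class of objects of the additive category. -/
def gen (P : ObjectProperty a.A) : ObjectProperty a.D := Cl (P.map a.sg)

/-- Bounded complexes. -/
def bdd : ObjectProperty a.D := a.gen ⊤

/-- The quotient by a triangulated subcategory. -/
def quo (N : ObjectProperty a.D) [Tg N] : Am.{v, u} := ⟨a.A, N.inverseImage a.Q⟩

/-- The projection to the quotient. -/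
def π (N : ObjectProperty a.D) [Tg N] : Map a (a.quo N) where
  F := 𝟭 a.A
  add := inferInstanceAs (𝟭 a.A).Additive
  hT X h := (a.quo N).le_Tb X (Tg.zero N (a.le_Tb X h))

/-- An additive functor as a map of ambient categories without further trivial complexes. -/
def ofMap {A : Type (max u v)} [Category.{v} A] [Preadditive A] [HasZeroObject A]
    [HasBinaryBiproducts A] {b : Am.{v', u'}} (F : A ⥤ b.A) [F.Additive] : Map (of A) b where
  F := F
  add := ‹F.Additive›
  hT _ h := Tg.zero b.Tb ((F.mapHomotopyCategory _).map_isZero h)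

end Am

end Pool.Agent.Lib.MP_5d3e93_al.Gr
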