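import Pool.Agent.Lib.MP_5d3e93_al.Gr.Loc

/-! Exactness of localisation sequences on Grothendieck groups. -/

open CategoryTheory Limits Pretriangulated ZeroObject

namespace Pool.Agent.Lib.MP_5d3e93_al.Gr

variable {D : Type*} [Category* D] [HasZeroObject D] [HasShift D ℤ] [Preadditive D]
  [∀ n : ℤ, (shiftFunctor D n).Additive] [Pretriangulated D]
variable {D' : Type*} [Category* D'] [HasZeroObject D'] [HasShift D' ℤ] [Preadditive D']
  [∀ n : ℤ, (shiftFunctor D' n).Additive] [Pretriangulated D']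

section LocKfile
variable {F : D ⥤ D'} [F.CommShift ℤ] [F.IsTriangulated] {N S : ObjectProperty D}
  {S' : ObjectProperty D'} [IsTriangulated D] [Tg N] [Tg S] [Tg S']

omit [IsTriangulated D] [Tg N] [Tg S] in
theorem Loc.k0_surj (h : Loc F N S S') : Function.Surjective (K0.map F h.maps) := fun y => by
  obtain ⟨Y, a, rfl⟩ := K0.mk_surj y
  obtain ⟨X, b, ⟨e⟩⟩ := h.surj Y a
  exact ⟨K0.mk X b, (K0.map_mk ..).trans (K0.mk_iso e _ _)⟩

omit [IsTriangulated D] [Tg S'] in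
/-- Every triangle of `S'` is isomorphic to the image of a triangle of `S`. -/
theorem Loc.lift_tri (h : Loc F N S S') {T : Triangle D'} (hT : T ∈ distTriang D')
    (a : S' T.obj₁) (b : S' T.obj₂) : ∃ T₀ ∈ distTriang D, S T₀.obj₁ ∧ S T₀.obj₂ ∧ S T₀.obj₃ ∧
      Nonempty (F.mapTriangle.obj T₀ ≅ T) := by
  obtain ⟨X₁, a₁, ⟨e₁⟩⟩ := h.surj _ a
  obtain ⟨X₂, a₂, ⟨e₂⟩⟩ := h.surj _ b
  obtain ⟨Y, s, f, hs, e⟩ := h.full a₁ a₂ (e₁.hom ≫ T.mor₁ ≫ e₂.inv)
  have := isIso_of_kill h.kill hs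
  have hY := (Tg.of_trW h.le hs).1 a₂
  obtain ⟨Z, g, k, hd⟩ := distinguished_cocone_triangle f
  refine ⟨_, hd, a₁, hY, S.ext_of_isTriangulatedClosed₃ _ hd a₁ hY,
    ⟨isoTriangleOfIso₁₂ _ _ (F.map_distinguished _ hd) hT e₁ ((asIso (F.map s)).symm ≪≫ e₂) ?_⟩⟩
  change F.map f ≫ inv (F.map s) ≫ e₂.hom = e₁.hom ≫ T.mor₁
  rw [← e]
  simp

omit [IsTriangulated D] [Tg N] [Tg S'] in
theorem lock_map (h : Loc F N S S') {M : Type*} [AddCommGroup M] (φ : K0 S →+ M)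
    (hφ : ∀ X (a : N X), φ (K0.mk X (h.le _ a)) = 0) {X Y : D} (a : S X) (b : S Y) (f : X ⟶ Y)
    [IsIso (F.map f)] : φ (K0.mk X a) = φ (K0.mk Y b) := by
  obtain ⟨Z, g, k, hd⟩ := distinguished_cocone_triangle f
  have c : S Z := S.ext_of_isTriangulatedClosed₃ _ hd a b
  have z : IsZero (F.obj Z) := (Triangle.isZero₃_iff_isIso₁ _ (F.map_distinguished _ hd)).2 ‹_›
  have e : K0.mk Y b = K0.mk X a + K0.mk Z c := K0.mk_tri hd a b c
  rw [e, map_add, hφ Z (h.thick Z c z), add_zero]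

omit [IsTriangulated D] [Tg S'] in
theorem lock_iso (h : Loc F N S S') {M : Type*} [AddCommGroup M] (φ : K0 S →+ M)
    (hφ : ∀ X (a : N X), φ (K0.mk X (h.le _ a)) = 0) {X Y : D} (a : S X) (b : S Y)
    (e : F.obj X ≅ F.obj Y) : φ (K0.mk X a) = φ (K0.mk Y b) := by
  obtain ⟨Z, s, f, hs, q⟩ := h.full a b e.hom
  have := isIso_of_kill h.kill hs
  have : IsIso (F.map f) := q ▸ inferInstance
  have c := (Tg.of_trW h.le hs).1 b
  exact (lock_map h φ hφ a c f).trans (lock_map h φ hφ b c s).symm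

omit [IsTriangulated D] [Tg S'] in
/-- A homomorphism that kills `N` descends. -/
theorem Loc.k0_desc (h : Loc F N S S') {M : Type*} [AddCommGroup M] (φ : K0 S →+ M)
    (hφ : ∀ X (a : N X), φ (K0.mk X (h.le _ a)) = 0) :
    ∃ ψ : K0 S' →+ M, ψ.comp (K0.map F h.maps) = φ := by
  choose X hX e using h.surj
  refine ⟨K0.lift (fun Y a => φ (K0.mk (X Y a) (hX Y a))) fun T hT a b c => ?_,
    K0.hom_ext fun Y a => ?_⟩
  · obtain ⟨T₀, h₀, a₀, b₀, c₀, ⟨i⟩⟩ := h.lift_tri hT a b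
    rw [lock_iso h φ hφ _ a₀ ((e _ a).some ≪≫ (Triangle.π₁.mapIso i).symm),
      lock_iso h φ hφ _ b₀ ((e _ b).some ≪≫ (Triangle.π₂.mapIso i).symm),
      lock_iso h φ hφ _ c₀ ((e _ c).some ≪≫ (Triangle.π₃.mapIso i).symm),
      K0.mk_tri h₀ a₀ b₀ c₀, map_add]
  · rw [AddMonoidHom.comp_apply, K0.map_mk, K0.lift_mk]
    exact lock_iso h φ hφ _ a (e _ _).some

omit [IsTriangulated D] [Tg S'] in
theorem Loc.k0_exact (h : Loc F N S S') (x : K0 S) (hx : K0.map F h.maps x = 0) :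
    ∃ X a, x = K0.mk X (h.le X a) := by
  obtain ⟨ψ, e⟩ := h.k0_desc (QuotientAddGroup.mk' (K0.map (𝟭 D) (S' := S) h.le).range)
    fun X a => (QuotientAddGroup.eq_zero_iff _).2 ⟨K0.mk X a, K0.map_mk ..⟩
  have := DFunLike.congr_fun e x
  rw [AddMonoidHom.comp_apply, hx, map_zero] at this
  obtain ⟨y, rfl⟩ := (QuotientAddGroup.eq_zero_iff _).1 this.symm
  obtain ⟨X, a, rfl⟩ := K0.mk_surj y
  exact ⟨X, a, K0.map_mk ..⟩

omit [IsTriangulated D] in
theorem Deq.k0_bij (h : Deq F S S') : Function.Bijective (K0.map F h.maps) :=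
  ⟨(injective_iff_map_eq_zero _).2 fun x hx => by
    obtain ⟨X, a, rfl⟩ := h.loc.k0_exact x hx
    exact K0.mk_zero a _, h.loc.k0_surj⟩

end LocKfile

end Pool.Agent.Lib.MP_5d3e93_al.Gr
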