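import Pool.Agent.Lib.MP_5d3e93_al.Gr.ChiA
import Pool.Agent.Lib.MP_5d3e93_al.Gr.Of
import Pool.Agent.Lib.MP_5d3e93_al.Gr.ExaG
import Pool.Agent.Lib.MP_5d3e93_al.Gr.LocK

/-! The Grothendieck group of an exact category and of its bounded derived category. -/

open CategoryTheory Limits Pretriangulated ZeroObject

namespace Pool.Agent.Lib.MP_5d3e93_al.Gr

universe v u v' u'

theorem chi_gen {D : Type*} [Category* D] [HasZeroObject D] [HasShift D ℤ] [Preadditive D]
    [∀ n : ℤ, (shiftFunctor D n).Additive] [Pretriangulated D] {G : ObjectProperty D} {M : Type*}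
    [AddCommGroup M] (g : K0 (Cl G) →+ M) (h : ∀ X (a : G X), g (K0.mk X (.of a)) = 0) :
    g = 0 := by
  refine K0.hom_ext fun X a => ?_
  change g _ = 0
  induction a with
  | of a => exact h _ a
  | zero a => rw [K0.mk_zero a, map_zero]
  | ext T k a b c d => rw [K0.mk_tri k a _ b, map_add, c, d, add_zero]
  | @shift X n a b =>
    have e (n : ℤ) : K0.mk (X⟦n + 1⟧) (Cl.shift _ a) = -K0.mk (X⟦n⟧) (Cl.shift _ a) :=
      (K0.mk_iso ((shiftFunctorAdd D n 1).app X) _ (Cl.shift 1 (Cl.shift n a))).trans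
        (K0.mk_shift _ _)
    induction n using Int.induction_on with
    | zero => exact (congrArg g (K0.mk_iso ((shiftFunctorZero D ℤ).app X) _ a)).trans b
    | succ n ih => rw [e, map_neg, ih, neg_zero]
    | pred n ih =>
      have := e (-n - 1)
      rw [sub_add_cancel] at this
      rw [this, map_neg, neg_eq_zero] at ih
      exact ih

theorem chi_spl_iso {C : Type u'} [Category.{v'} C] [Preadditive C] {X Y Z X' Y' Z' : C}
    (x : X' ≅ X) (y : Y' ≅ Y) (z : Z' ≅ Z) {i : X ⟶ Y} {p : Y ⟶ Z} (h : Spl i p) :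
    Spl (x.hom ≫ i ≫ y.inv) (y.hom ≫ p ≫ z.inv) := by
  obtain ⟨r, s, h1, h2, h3⟩ := h
  refine ⟨y.hom ≫ r ≫ x.inv, z.hom ≫ s ≫ y.inv, by simp [reassoc_of% h1],
    by simp [reassoc_of% h2], ?_⟩
  have : y.hom ≫ (r ≫ i + p ≫ s) ≫ y.inv = 𝟙 _ := by simp [h3]
  simpa using this

namespace Ex

variable {E : Ex.{v, u}}

instance chiGrp : AddCommGroup E.K0 := inferInstanceAs (AddCommGroup (FreeAbelianGroup E.C ⧸
  AddSubgroup.closure {x : FreeAbelianGroup E.C | ∃ (X Y Z : E.C) (i : X ⟶ Y) (p : Y ⟶ Z),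
    E.ses i p ∧ x = .of Y - .of X - .of Z}))

/-- The class of an object. -/
def cls (X : E.C) : E.K0 := QuotientAddGroup.mk (.of X)

theorem cls_ses {X Y Z : E.C} {i : X ⟶ Y} {p : Y ⟶ Z} (h : E.ses i p) :
    cls Y = cls X + cls Z := by
  have : (QuotientAddGroup.mk (.of Y - .of X - .of Z) : FreeAbelianGroup E.C ⧸
      AddSubgroup.closure {x : FreeAbelianGroup E.C | ∃ (X Y Z : E.C) (i : X ⟶ Y) (p : Y ⟶ Z),
        E.ses i p ∧ x = .of Y - .of X - .of Z}) = 0 :=
    (QuotientAddGroup.eq_zero_iff _).2 (AddSubgroup.subset_closure ⟨X, Y, Z, i, p, h, rfl⟩)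
  rw [QuotientAddGroup.mk_sub, QuotientAddGroup.mk_sub, sub_sub, sub_eq_zero] at this
  exact this

theorem k0_ext {M : Type*} [AddCommGroup M] {f g : E.K0 →+ M} (h : ∀ X, f (cls X) = g (cls X)) :
    f = g := QuotientAddGroup.addMonoidHom_ext _ (FreeAbelianGroup.lift_ext _ _ h)

theorem k0_lift {M : Type*} [AddCommGroup M] (f : E.C → M)
    (h : ∀ ⦃X Y Z : E.C⦄ (i : X ⟶ Y) (p : Y ⟶ Z), E.ses i p → f Y = f X + f Z) :
    ∃ g : E.K0 →+ M, ∀ X, g (cls X) = f X :=
  ⟨QuotientAddGroup.lift _ (FreeAbelianGroup.lift f)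
    ((AddSubgroup.closure_le (AddMonoidHom.ker _)).2 (by
      rintro _ ⟨X, Y, Z, i, p, k, rfl⟩
      simp [h i p k])), fun _ => FreeAbelianGroup.lift_apply_of ..⟩

end Ex

variable {a : Am.{v, u}} {A : Type (max u v)} [Category.{v} A] [Preadditive A]
  [HasZeroObject A] [HasBinaryBiproducts A] {P : ObjectProperty a.A} {M : Type*} [AddCommGroup M]

theorem chi_strict [Ad P] {X : (Am.of a.A).D} (h : (Am.of a.A).gen P X) :
    ∃ K, Sb P K ∧ Nonempty (X ≅ (Am.of a.A).QQ.obj K) := by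
  obtain ⟨Y, y, ⟨f⟩⟩ : ∃ Y : Kh a.A, genK P Y ∧ Nonempty ((Am.of a.A).Q.obj Y ≅ X) :=
    (Am.of a.A).exists_genK (P := P) (fun _ z => Tg.zero (genK P) z) h
  obtain ⟨L, k, ⟨e⟩⟩ := genK_strict y
  exact ⟨L, k, ⟨f.symm ≪≫ (Am.of a.A).Q.mapIso e⟩⟩

theorem chi_full {K L : CochainComplex a.A ℤ} (f : (Am.of a.A).QQ.obj K ⟶ (Am.of a.A).QQ.obj L) :
    ∃ φ : K ⟶ L, (Am.of a.A).QQ.map φ = f := by
  obtain ⟨g, rfl⟩ := (Am.of_Q_ff (A := a.A) trivial trivial).2 f
  obtain ⟨φ, rfl⟩ := (HomotopyCategory.quotient a.A (.up ℤ)).map_surjective g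
  exact ⟨φ, rfl⟩

theorem chi_single [Ad P] {X : a.A} (x : P X) :
    Sb P ((HomologicalComplex.single a.A (.up ℤ) 0).obj X) := by
  refine ⟨fun n => ?_, 0, 0, fun n hn =>
    HomologicalComplex.isZero_single_obj_X _ _ _ _ (by omega)⟩
  by_cases hn : n = 0
  · subst hn
    exact Ad.iso (HomologicalComplex.singleObjXSelf (.up ℤ) 0 X).symm x
  · exact Ad.zero _ (HomologicalComplex.isZero_single_obj_X _ _ _ _ hn)

section
variable {pt : Pt a A P} {c : a.A → M} (hc : pt.Add c)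
include hc

theorem Pt.Add.wd {K L : CochainComplex a.A ℤ} (h : Sb P K) (k : Sb P L)
    (e : (Am.of a.A).QQ.obj K ≅ (Am.of a.A).QQ.obj L) : chi c K = chi c L := by
  have := pt.ad
  obtain ⟨φ, hφ⟩ := chi_full e.hom
  have z := (Am.of_Tb (A := a.A) _).1 ((Triangle.isZero₃_iff_isIso₁ _
    ((Am.of a.A).Q.map_distinguished _
      (HomotopyCategory.mappingCone_triangleh_distinguished φ))).2
        (show IsIso ((Am.of a.A).QQ.map φ) from hφ ▸ e.isIso_hom))
  have := hc.ctr (h.cone k φ) fun j => (pt.e j).K.map_isZero z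
  rw [hc.cone h k, sub_eq_zero] at this
  exact this.symm

theorem Pt.Add.tri {T : Triangle (Am.of a.A).D} (hT : T ∈ distTriang _)
    {K L N : CochainComplex a.A ℤ} (h : Sb P K) (k : Sb P L) (l : Sb P N)
    (e₁ : T.obj₁ ≅ (Am.of a.A).QQ.obj K) (e₂ : T.obj₂ ≅ (Am.of a.A).QQ.obj L)
    (e₃ : T.obj₃ ≅ (Am.of a.A).QQ.obj N) : chi c L = chi c K + chi c N := by
  have := pt.ad
  obtain ⟨φ, hφ⟩ := chi_full (e₁.inv ≫ T.mor₁ ≫ e₂.hom)
  have e := isoTriangleOfIso₁₂ T _ hT ((Am.of a.A).Q.map_distinguished _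
    (HomotopyCategory.mappingCone_triangleh_distinguished φ)) e₁ e₂
    ((e₁.hom_inv_id_assoc _).symm.trans (congrArg (e₁.hom ≫ ·) hφ.symm))
  rw [hc.wd l (h.cone k φ) (e₃.symm ≪≫ Triangle.π₃.mapIso e), hc.cone h k, add_sub_cancel]

/-- The Euler characteristic descends to the derived category. -/
theorem Pt.Add.desc {S : ObjectProperty a.D} [Tg S]
    (loc : Loc a.ρ.D (a.ρ.ker ((Am.of a.A).gen P)) ((Am.of a.A).gen P) S) :
    ∃ ψ : K0 S →+ M, ∀ X, P X → ∀ h, ψ (K0.mk (a.sg.obj X) h) = c X := by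
  have := pt.ad
  choose R hR eR using fun X (h : (Am.of a.A).gen P X) => chi_strict h
  obtain ⟨ψ, hψ⟩ := loc.k0_desc (K0.lift (fun X h => chi c (R X h)) fun T k x y z =>
    hc.tri k (hR _ x) (hR _ y) (hR _ z) (eR _ x).some (eR _ y).some (eR _ z).some) fun X h => by
      rw [K0.lift_mk]
      exact hc.ctr (hR _ _) fun j => (Am.of_Tb _).1 ((pt.e j).hTb _
        (IsZero.of_iso h.2 (a.ρ.D.mapIso (eR X h.1).some.symm)))
  refine ⟨ψ, fun X x h => ?_⟩
  have g : (Am.of a.A).gen P ((Am.of a.A).sg.obj X) := Cl.of ⟨X, x, ⟨Iso.refl _⟩⟩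
  have := DFunLike.congr_fun hψ (K0.mk _ g)
  rw [AddMonoidHom.comp_apply, K0.map_mk, K0.lift_mk,
    ← hc.wd (chi_single x) (hR _ g) (eR _ g).some, hc.single x] at this
  exact this

end

theorem Mo.k0 {E : Ex.{v, u}} {S : ObjectProperty a.D} (m : Mo E a A S) :
    Subsingleton E.K0 ↔ Subsingleton (K0 S) := by
  have := m.add
  have := m.full
  have := m.faith
  have := m.tg
  have hP (x : E.C) : m.P (m.ι.obj x) := (m.img _).2 (m.ι.obj_mem_essImage x)
  have hS (X : a.A) (h : m.P X) : S (a.sg.obj X) :=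
    m.loc.maps ((Am.of a.A).sg.obj X) (Cl.of ⟨X, h, ⟨Iso.refl _⟩⟩)
  constructor
  · intro h
    obtain ⟨φ, hφ⟩ := Ex.k0_lift (fun x => K0.mk _ (hS _ (hP x))) fun x y z i p k => by
      have k' := (m.ses i p).1 k
      obtain ⟨δ, hδ⟩ := (Am.exaS_of_reflect m.pt.e m.pt.refl
        (m.pt.faith _ fun j => by rw [Functor.map_comp, chi_spl_zero (k' j)]) k').tri
      exact K0.mk_tri hδ _ _ _
    have z : K0.map a.ρ.D m.loc.maps = 0 := chi_gen _ fun X ⟨Y, y, ⟨e⟩⟩ => by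
      obtain ⟨x, ⟨f⟩⟩ := (m.img Y).1 y
      refine (K0.map_mk ..).trans ((K0.mk_iso
        (a.ρ.D.mapIso (e.symm ≪≫ (Am.of a.A).sg.mapIso f.symm)) _ (hS _ (hP x))).trans ?_)
      exact (hφ x).symm.trans ((congrArg φ (Subsingleton.elim _ 0)).trans (map_zero φ))
    refine subsingleton_of_forall_eq 0 fun y => ?_
    obtain ⟨x, rfl⟩ := m.loc.k0_surj y
    rw [z, AddMonoidHom.zero_apply]
  · intro h
    classical
    have key {x y z : E.C} (i : m.ι.obj x ⟶ m.ι.obj y) (p : m.ι.obj y ⟶ m.ι.obj z)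
        (k : ∀ j, Spl ((m.pt.e j).F.map i) ((m.pt.e j).F.map p)) :
        Ex.cls y = Ex.cls x + Ex.cls z :=
      Ex.cls_ses (i := m.ι.preimage i) (p := m.ι.preimage p) ((m.ses _ _).2 (by
        simpa only [Functor.map_preimage] using k))
    let c : a.A → E.K0 := fun X => if h : m.ι.essImage X then Ex.cls h.witness else 0
    have hc : m.pt.Add c := fun X Y Z i p k x y z => by
      have x := (m.img _).1 x
      have y := (m.img _).1 y
      have z := (m.img _).1 z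
      simp only [c, dif_pos x, dif_pos y, dif_pos z]
      refine key (x.getIso.hom ≫ i ≫ y.getIso.inv) (y.getIso.hom ≫ p ≫ z.getIso.inv) fun j => ?_
      simpa only [Functor.map_comp, Functor.mapIso_hom, Functor.mapIso_inv] using
        chi_spl_iso ((m.pt.e j).F.mapIso x.getIso) ((m.pt.e j).F.mapIso y.getIso)
          ((m.pt.e j).F.mapIso z.getIso) (k j)
    obtain ⟨ψ, hψ⟩ := hc.desc m.loc
    have z (X : a.A) (x : m.P X) : Ex.cls ((m.img X).1 x).witness = 0 := by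
      have := hψ X x (hS X x)
      rw [Subsingleton.elim (K0.mk _ _) 0, map_zero] at this
      simpa only [c, dif_pos ((m.img X).1 x)] using this.symm
    have e : AddMonoidHom.id E.K0 = 0 := Ex.k0_ext fun x => by
      have o := m.pt.ad.zero _ (isZero_zero a.A)
      have o' := (isZero_zero a.A).of_iso ((m.img _).1 o).getIso
      have := key ((m.img _).1 (hP x)).getIso.hom (0 : _ ⟶ m.ι.obj ((m.img _).1 o).witness)
        fun j => chi_spl_map _ ⟨((m.img _).1 (hP x)).getIso.inv, 0, Iso.hom_inv_id _,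
          o'.eq_of_src _ _, by simp⟩
      rw [z _ (hP x), z _ o, add_zero] at this
      exact this
    exact subsingleton_of_forall_eq 0 fun y => DFunLike.congr_fun e y

end Pool.Agent.Lib.MP_5d3e93_al.Gr
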