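import Pool.Agent.Lib.MP_5d3e93_al.Gr.Str
import Pool.Agent.Lib.MP_5d3e93_al.Gr.Ctr

/-! The Euler characteristic of a strictly bounded complex. -/

open CategoryTheory Limits Pretriangulated ZeroObject

namespace Pool.Agent.Lib.MP_5d3e93_al.Gr

universe v u v' u'

theorem chi_spl_zero {C : Type u'} [Category.{v'} C] [Preadditive C] {X Y Z : C} {i : X ⟶ Y}
    {p : Y ⟶ Z} (h : Spl i p) : i ≫ p = 0 := by
  obtain ⟨r, s, h1, h2, h3⟩ := h
  have h4 : i ≫ (r ≫ i + p ≫ s) ≫ p = i ≫ p := by rw [h3, Category.id_comp]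
  simpa [reassoc_of% h1, h2] using h4

theorem chi_spl_map {C : Type u'} [Category.{v'} C] [Preadditive C] {C' : Type u} [Category.{v} C']
    [Preadditive C'] (F : C ⥤ C') [F.Additive] {X Y Z : C} {i : X ⟶ Y} {p : Y ⟶ Z} (h : Spl i p) :
    Spl (F.map i) (F.map p) := by
  obtain ⟨r, s, h1, h2, h3⟩ := h
  exact ⟨F.map r, F.map s, by rw [← F.map_comp, h1, F.map_id], by rw [← F.map_comp, h2, F.map_id],
    by rw [← F.map_comp, ← F.map_comp, ← F.map_add, h3, F.map_id]⟩

variable {a : Am.{v, u}} {A : Type (max u v)} [Category.{v} A] [Preadditive A]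
  [HasZeroObject A] [HasBinaryBiproducts A] {P : ObjectProperty a.A} {M : Type*} [AddCommGroup M]

/-- Functions that are additive on pointwise split sequences. -/
def Pt.Add (pt : Pt a A P) (c : a.A → M) : Prop := ∀ ⦃X Y Z : a.A⦄ (i : X ⟶ Y) (p : Y ⟶ Z),
  (∀ k, Spl ((pt.e k).F.map i) ((pt.e k).F.map p)) → P X → P Y → P Z → c Y = c X + c Z

/-- The Euler characteristic. -/
noncomputable def chi (c : a.A → M) (K : CochainComplex a.A ℤ) : M :=
  ∑ᶠ n : ℤ, n.negOnePow • c (K.X n)

variable {pt : Pt a A P} {c : a.A → M} (hc : pt.Add c)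
include hc

theorem Pt.Add.spl {X Y Z : a.A} {i : X ⟶ Y} {p : Y ⟶ Z} (h : Spl i p) (x : P X) (y : P Y)
    (z : P Z) : c Y = c X + c Z := hc i p (fun _ => chi_spl_map _ h) x y z

theorem Pt.Add.zero {X : a.A} (h : IsZero X) : c X = 0 := by
  have x := pt.ad.zero X h
  have := hc.spl (i := 𝟙 X) (p := 𝟙 X)
    ⟨𝟙 X, 𝟙 X, h.eq_of_src _ _, h.eq_of_src _ _, h.eq_of_src _ _⟩ x x x
  simpa using this

theorem Pt.Add.iso {X Y : a.A} (e : X ≅ Y) (x : P X) : c X = c Y := by
  have := hc.spl (i := e.hom) (p := (0 : Y ⟶ 0))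
    ⟨e.inv, 0, e.hom_inv_id, (isZero_zero _).eq_of_src _ _, by simp⟩ x (pt.ad.iso e x)
    (pt.ad.zero _ (isZero_zero _))
  rw [this, hc.zero (isZero_zero _), add_zero]

theorem Pt.Add.fin {K : CochainComplex a.A ℤ} (h : Sb P K) (m : ℤ) :
    (Function.support fun n : ℤ => n.negOnePow • c (K.X (n + m))).Finite := by
  obtain ⟨p, q, h⟩ := h.2
  refine (Set.finite_Icc (p - m) (q - m)).subset fun n hn => ?_
  by_contra k
  exact hn (by
    simp only [hc.zero (h (n + m) (by simp only [Set.mem_Icc] at k; omega)), smul_zero])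

open CochainComplex mappingCone in
theorem Pt.Add.cone {K L : CochainComplex a.A ℤ} (h : Sb P K) (k : Sb P L) (φ : K ⟶ L) :
    chi c (mappingCone φ) = chi c L - chi c K := by
  have := pt.ad
  have e (n : ℤ) : c ((mappingCone φ).X n) = c (L.X n) + c (K.X (n + 1)) :=
    hc.spl (i := (inr φ).f n) (p := (fst φ).1.v n (n + 1) rfl)
      ⟨(snd φ).v n n (add_zero n), (inl φ).v (n + 1) n (by omega), by simp, by simp, by
        rw [add_comm]
        exact id_X φ n (n + 1) rfl⟩ (k.1 n) ((h.cone k φ).1 n) (h.1 (n + 1))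
  have f : chi c K = -∑ᶠ n : ℤ, n.negOnePow • c (K.X (n + 1)) := by
    rw [chi, ← finsum_comp_equiv (Equiv.addRight (1 : ℤ)), ← finsum_neg_distrib]
    exact finsum_congr fun n => by simp [Int.negOnePow_succ]
  rw [f, sub_neg_eq_add, chi, chi,
    ← finsum_add_distrib (by simpa using! hc.fin k 0) (hc.fin h 1)]
  exact finsum_congr fun n => by rw [e, smul_add]

theorem Pt.Add.single {X : a.A} (x : P X) :
    chi c ((HomologicalComplex.single a.A (.up ℤ) 0).obj X) = c X := by
  rw [chi, finsum_eq_single _ 0 fun n hn => by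
    rw [hc.zero (HomologicalComplex.isZero_single_obj_X _ _ _ _ hn), smul_zero]]
  rw [Int.negOnePow_zero, one_smul, hc.iso (HomologicalComplex.singleObjXSelf (.up ℤ) 0 X).symm x]

theorem Pt.Add.ctr {K : CochainComplex a.A ℤ} (h : Sb P K)
    (z : ∀ k, IsZero ((pt.e k).K.obj ((HomotopyCategory.quotient _ _).obj K))) : chi c K = 0 := by
  obtain ⟨hP, p, q, hz⟩ := h
  let Q : Bin a.A := ⟨fun n => K.X (q - n), fun _ n => K.d _ _, fun _ _ => K.d_comp_d ..⟩
  obtain ⟨Z, i, π, z0, hZ⟩ := pt.splice Q (fun n => hP _) true fun k => by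
    obtain ⟨H⟩ := (HomotopyCategory.isZero_quotient_obj_iff
      (((pt.e k).F.mapHomologicalComplex (.up ℤ)).obj K)).1 (z k)
    have hH (n : ℕ) := H.comm (q - n)
    refine ⟨fun n => H.hom (q - n) (q - (n + 1 : ℕ)), ?_, fun n => ?_⟩
    · have := hH 0
      rw [dNext_eq _ (show (ComplexShape.up ℤ).Rel (q - (0 : ℕ)) (q + 1) by simp),
        prevD_eq _ (show (ComplexShape.up ℤ).Rel (q - (0 + 1 : ℕ)) (q - (0 : ℕ)) by simp),
        ((pt.e k).F.map_isZero (hz (q + 1) (by omega))).eq_of_src (H.hom _ _) 0] at this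
      exact (((zero_add _).symm.trans (congrArg (· + _) comp_zero.symm)).trans
        (add_zero _).symm).trans this.symm
    · have := hH (n + 1)
      rw [dNext_eq _ (show (ComplexShape.up ℤ).Rel (q - (n + 1 : ℕ)) (q - n) by
          simp only [ComplexShape.up_Rel]; omega),
        prevD_eq _ (show (ComplexShape.up ℤ).Rel (q - (n + 1 + 1 : ℕ)) (q - (n + 1 : ℕ)) by
          simp only [ComplexShape.up_Rel]; omega), add_comm (_ ≫ _)] at this
      simpa using! this.symm
  have e (n : ℕ) : c (K.X (q - n)) = c (Z (n + 1)) + c (Z n) :=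
    hc (i n) (π n) (hZ n).2.1 (hZ (n + 1)).1 (hP _) (hZ n).1
  have f (m : ℕ) : ∑ n ∈ Finset.range m, (q - n).negOnePow • c (K.X (q - n)) =
      -(q - m).negOnePow • c (Z m) := by
    induction m with
    | zero => simp [hc.zero z0]
    | succ m ih =>
      rw [Finset.sum_range_succ, ih, e, show q - (m + 1 : ℕ) = q - m - 1 by omega,
        Int.negOnePow_sub (q - m) 1]
      simp
  let m := (q - p).toNat + 1
  have zm : IsZero (Z m) := by
    rw [IsZero.iff_id_eq_zero]
    refine pt.faith _ fun k => ?_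
    obtain ⟨r, s, -, h2, -⟩ := (hZ m).2.1 k
    rw [CategoryTheory.Functor.map_id, ← h2,
      (hz (q - m) (by omega)).eq_of_src (π m) 0, Functor.map_zero, comp_zero]
  have g := f m
  rw [hc.zero zm, smul_zero] at g
  rw [chi, finsum_eq_sum_of_support_subset _
    (s := (Finset.range m).image fun n : ℕ => q - n) fun n hn => ?_,
    Finset.sum_image fun x _ y _ e => by simpa using e, g]
  by_contra k
  have l : n < p ∨ q < n := by
    by_contra l
    exact k (Finset.mem_coe.2 (Finset.mem_image.2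
      ⟨(q - n).toNat, Finset.mem_range.2 (by omega), by omega⟩))
  exact hn (by simp only [hc.zero (hz n l), smul_zero])

end Pool.Agent.Lib.MP_5d3e93_al.Gr
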