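import Pool.Agent.Lib.MP_5d3e93_al.Gr.ColA
import Pool.Agent.Lib.MP_5d3e93_al.Gr.KnL
import Pool.Agent.Lib.MP_5d3e93_al.Gr.Of

/-! Directed colimits of triangulated classes. -/

set_option linter.unusedSectionVars false

open CategoryTheory Limits Pretriangulated ZeroObject

namespace Pool.Agent.Lib.MP_5d3e93_al.Gr

universe v u v' u' v'' u''

section
variable {a : Am.{v, u}} {b : Am.{v', u'}} {c : Am.{v'', u''}}

/-- An object in degree zero. -/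
noncomputable abbrev colS {a : Am.{v, u}} (X : a.A) : CochainComplex a.A ℤ :=
  (HomologicalComplex.single a.A (ComplexShape.up ℤ) 0).obj X

theorem col_sg_zero (a : Am.{v, u}) (X Y : a.A) : a.sg.map (0 : X ⟶ Y) = 0 :=
  (HomotopyCategory.singleFunctor a.A 0 ⋙ a.Q).map_zero X Y

theorem colS_zero (t : Am.Map a b) (X : a.A) {n : ℤ} (h : n ≠ 0) :
    IsZero (((t.F.mapHomologicalComplex _).obj (colS X)).X n) :=
  t.F.map_isZero (HomologicalComplex.isZero_single_obj_X _ _ _ _ h)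

theorem col_ext {C : Type*} [Category* C] [Preadditive C] {K L : CochainComplex C ℤ}
    (hK : ∀ n, n ≠ 0 → IsZero (K.X n)) (hL : ∀ n, n ≠ 0 → IsZero (L.X n)) (ψ : K.X 0 ⟶ L.X 0) :
    ∃ γ : K ⟶ L, γ.f 0 = ψ :=
  ⟨⟨fun n => if h : n = 0 then (K.XIsoOfEq h).hom ≫ ψ ≫ (L.XIsoOfEq h).inv else 0, fun i j e => by
    by_cases h : i = 0
    · exact (hL j (by simp only [ComplexShape.up_Rel] at e; omega)).eq_of_tgt _ _
    · exact (hK i h).eq_of_src _ _⟩, by simp⟩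

theorem col_chain (g : Am.Map a c) (pa : ∀ X, c.Pj X) (X Y : a.A)
    (φ : g.D.obj (a.sg.obj X) ⟶ g.D.obj (a.sg.obj Y)) :
    ∃ γ : (g.F.mapHomologicalComplex _).obj (colS X) ⟶ (g.F.mapHomologicalComplex _).obj (colS Y),
      c.nq.map γ = φ := by
  let e := (HomologicalComplex.singleMapHomologicalComplex g.F (ComplexShape.up ℤ) 0).app X
  obtain ⟨κ, hκ⟩ := ((pa (g.F.obj X)).Q_bij ((HomotopyCategory.quotient _ _).obj
    ((g.F.mapHomologicalComplex _).obj (colS Y)))).2 (c.nq.map e.inv ≫ φ)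
  obtain ⟨γ, rfl⟩ := (HomotopyCategory.quotient _ _).map_surjective κ
  refine ⟨e.hom ≫ γ, (c.nq.map_comp _ _).trans ((congrArg (c.nq.map e.hom ≫ ·) hκ).trans ?_)⟩
  exact (c.nq.mapIso e).hom_inv_id_assoc φ

theorem col_sg_heq (t : Am.Map a b) (f : Am.Map b c) {g : Am.Map a c} (e : t.comp f = g) {X Y : a.A}
    (γ : (g.F.mapHomologicalComplex _).obj (colS X) ⟶ (g.F.mapHomologicalComplex _).obj (colS Y))
    (ψ : t.F.obj ((colS X).X 0) ⟶ t.F.obj ((colS Y).X 0)) (h : HEq (f.F.map ψ) (γ.f 0)) :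
    ∃ ψ' : t.D.obj (a.sg.obj X) ⟶ t.D.obj (a.sg.obj Y), HEq (f.D.map ψ') (c.nq.map γ) := by
  subst e
  obtain ⟨γ', hγ⟩ := col_ext (fun n => colS_zero t X) (fun n => colS_zero t Y) ψ
  refine ⟨b.nq.map γ', heq_of_eq ((f.nq_map γ').trans (congrArg c.nq.map ?_))⟩
  ext n
  by_cases k : n = 0
  · subst k
    exact (congrArg f.F.map hγ).trans (eq_of_heq h)
  · exact (colS_zero (t.comp f) X k).eq_of_src _ _

theorem col_ev_bij (n : ℕ) {N : a.B.D} {Z : a.D} (e : N ≅ (a.bs.L n).obj Z) (M : a.B.D) :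
    Function.Bijective ((a.ev n).D.map : (N ⟶ M) → _) := by
  refine lc_iso e.symm (Iso.refl M) ?_
  have := a.bs.unit n Z
  rw [← Function.Bijective.of_comp_iff' (five_bij_pre (asIso ((a.bs.adj n).unit.app Z)))]
  convert ((a.bs.adj n).homEquiv Z M).bijective using 1
  funext g
  exact ((a.bs.adj n).homEquiv_unit Z M g).symm

theorem col_ev_map (t : Am.Map a b) (n : ℕ) {N M : a.B.D} (ψ : N ⟶ M) :
    (b.ev n).D.map (t.B.D.map ψ) = t.D.map ((a.ev n).D.map ψ) :=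
  (t.B.comp_map (b.ev n) ψ).symm.trans ((a.ev n).comp_map t ψ)

theorem col_B_heq (t : Am.Map a b) (f : Am.Map b c) {g : Am.Map a c} (e : t.comp f = g) (n : ℕ)
    {N M : a.B.D} (ψ : t.B.D.obj N ⟶ t.B.D.obj M) (φ : g.B.D.obj N ⟶ g.B.D.obj M)
    (inj : Function.Injective ((c.ev n).D.map : (g.B.D.obj N ⟶ g.B.D.obj M) → _))
    (h : HEq (f.D.map ((b.ev n).D.map ψ)) ((c.ev n).D.map φ)) : HEq (f.B.D.map ψ) φ := by
  subst e
  exact heq_of_eq (inj ((col_ev_map f n ψ).trans (eq_of_heq h)))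
end

variable {ι : Type*} [Preorder ι] [IsDirectedOrder ι] [Nonempty ι] (s : Sys.{v, u, v', u'} ι)
  {P : ∀ i, ObjectProperty (s.x i).D} {S : ObjectProperty s.a.D}

/-- The system of binary complexes. -/
def Sys.B : Sys.{v, u, v', u'} ι :=
  ⟨fun i => (s.x i).B, fun h => (s.t h).B, s.a.B, fun i => (s.f i).B,
    fun h h' => congrArg Am.Map.B (s.tt h h'), fun h => congrArg Am.Map.B (s.tf h)⟩

variable {s}

/-- Generators in both variables, at all levels. -/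
theorem Sys.col_of_gen {G : ∀ i, ObjectProperty (s.x i).D} {G' : ObjectProperty s.a.D}
    (mt : ∀ {i j} (h : i ≤ j) X, G i X → ∃ Y, G j Y ∧ Nonempty ((s.t h).D.obj X ≅ Y))
    (mf : ∀ i, G i ≤ (Cl G').inverseImage (s.f i).D)
    (obj : ∀ X, G' X → ∃ i Y, Cl (G i) Y ∧ Nonempty ((s.f i).D.obj Y ≅ X))
    (full : ∀ i X Y, G i X → Cl (G i) Y → ∀ φ : (s.f i).D.obj X ⟶ (s.f i).D.obj Y,
      ∃ (j : ι) (h : i ≤ j) (ψ : (s.t h).D.obj X ⟶ (s.t h).D.obj Y), HEq ((s.f j).D.map ψ) φ)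
    (faith : ∀ i X Y, G i X → Cl (G i) Y → ∀ ψ : X ⟶ Y, (s.f i).D.map ψ = 0 →
      ∃ (j : ι) (h : i ≤ j), (s.t h).D.map ψ = 0) : s.Col (fun i => Cl (G i)) (Cl G') := by
  have mt' : ∀ {i j} (h : i ≤ j), Cl (G i) ≤ (Cl (G j)).inverseImage (s.t h).D := fun h =>
    Cl.le fun X a => by
      obtain ⟨Y, b, ⟨e⟩⟩ := mt h X a
      exact Cl.iso e.symm (.of b)
  have bj : ∀ i X Y, G i X → Cl (G i) Y → s.Bj X Y := fun i X Y a b =>
    ⟨fun φ => Sys.rep_iff.2 (full i X Y a b φ), faith i X Y a b⟩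
  have bz : ∀ i X Y, Cl (G i) X → Cl (G i) Y → s.Bj X Y := fun i X Y a b =>
    (Sys.bz_left (fun X Y a b => ⟨bj i X Y a b, fun j h => by
      obtain ⟨Z, c, ⟨e⟩⟩ := mt h X a
      exact (bj j Z _ c (mt' h Y b)).iso e.symm (Iso.refl _)⟩) a b).1
  refine ⟨mt', fun i => Cl.le (mf i), ?_, fun i X Y a b φ => Sys.rep_iff.1 ((bz i X Y a b).1 φ),
    fun i X Y a b => (bz i X Y a b).2⟩
  let Q : ObjectProperty s.a.D := fun X => ∃ i Y, Cl (G i) Y ∧ Nonempty ((s.f i).D.obj Y ≅ X)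
  have : Tg Q := f4_tg
    (fun X h => ⟨Classical.arbitrary ι, 0, .zero (isZero_zero _),
      ⟨(Functor.map_isZero _ (isZero_zero _)).iso h⟩⟩)
    (fun n X ⟨i, Y, a, ⟨e⟩⟩ => ⟨i, _, .shift n a,
      ⟨((s.f i).D.commShiftIso n).app Y ≪≫ (shiftFunctor _ n).mapIso e⟩⟩)
    fun T hT ⟨i, Y, a, ⟨e⟩⟩ ⟨i', Y', a', ⟨e'⟩⟩ => by
      obtain ⟨j, h, h'⟩ := exists_ge_ge i i'
      let x := (s.ε h).app Y ≪≫ e
      let y := (s.ε h').app Y' ≪≫ e'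
      obtain ⟨k, l, ψ, z⟩ := (bz j _ _ (mt' h Y a) (mt' h' Y' a')).1 (x.hom ≫ T.mor₁ ≫ y.inv)
      obtain ⟨C, g, d, hC⟩ := distinguished_cocone_triangle ψ
      refine ⟨k, C, (Cl (G k)).ext_of_isTriangulatedClosed₃ _ hC (mt' l _ (mt' h Y a))
        (mt' l _ (mt' h' Y' a')), ⟨Triangle.π₃.mapIso (isoTriangleOfIso₁₂ _ _
          ((s.f k).D.map_distinguished _ hC) hT ((s.ε l).app _ ≪≫ x) ((s.ε l).app _ ≪≫ y) ?_)⟩⟩
      change (s.f k).D.map ψ ≫ (s.ε l).hom.app _ ≫ y.hom = ((s.ε l).hom.app _ ≫ x.hom) ≫ T.mor₁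
      rw [z, Sys.up]
      simp only [Category.assoc, Iso.inv_hom_id_app_assoc, Iso.inv_hom_id, Category.comp_id]
  exact Cl.le (S := Q) obj

/-- All objects projective (split categories): conditions on the additive categories. -/
theorem Sys.col_bdd (px : ∀ i X, (s.x i).Pj X) (pa : ∀ X, s.a.Pj X)
    (obj : ∀ X : s.a.A, ∃ i Y, Nonempty ((s.f i).F.obj Y ≅ X))
    (full : ∀ i (X Y : (s.x i).A) (φ : (s.f i).F.obj X ⟶ (s.f i).F.obj Y), ∃ (j : ι) (h : i ≤ j)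
      (ψ : (s.t h).F.obj X ⟶ (s.t h).F.obj Y), HEq ((s.f j).F.map ψ) φ)
    (faith : ∀ i (X Y : (s.x i).A) (ψ : X ⟶ Y), (s.f i).F.map ψ = 0 →
      ∃ (j : ι) (h : i ≤ j), (s.t h).F.map ψ = 0) : s.Col (fun i => (s.x i).bdd) s.a.bdd := by
  have b0 : ∀ i (X Y : (s.x i).A) (n : ℤ), s.Bj ((s.x i).sg.obj X) (((s.x i).sg.obj Y)⟦n⟧) := by
    intro i X Y n
    obtain ⟨σ⟩ := (s.f i).sg_iso
    by_cases hn : n = 0
    · subst hn
      refine Sys.Bj.iso ⟨fun φ => ?_, fun ψ e => ?_⟩ (Iso.refl _)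
        ((shiftFunctorZero _ ℤ).app ((s.x i).sg.obj Y)).symm
      · obtain ⟨γ, rfl⟩ := col_chain (s.f i) pa X Y φ
        obtain ⟨j, h, ψ, e⟩ := full i _ _ (γ.f 0)
        exact Sys.rep_iff.2 ⟨j, h, col_sg_heq _ _ (s.tf h) γ ψ e⟩
      · obtain ⟨ψ, rfl⟩ := ((px i X).sg_bij Y).2 ψ
        have k := NatIso.naturality_1 σ ψ
        rw [Functor.comp_map, e, zero_comp, comp_zero] at k
        obtain ⟨j, h, z⟩ := faith i X Y ψ (((pa _).sg_bij _).1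
          (k.symm.trans (col_sg_zero _ _ _).symm))
        obtain ⟨σ'⟩ := (s.t h).sg_iso
        refine ⟨j, h, (NatIso.naturality_2 σ' ψ).symm.trans ?_⟩
        rw [Functor.comp_map, z, col_sg_zero, zero_comp, comp_zero]
    · refine .zero (fun φ => ?_) fun ψ => (px i X).ext_zero Y hn ψ
      let y := ((s.f i).D.commShiftIso n).app ((s.x i).sg.obj Y) ≪≫
        (shiftFunctor _ n).mapIso (σ.app Y)
      have k := (pa _).ext_zero _ hn ((σ.app X).inv ≫ φ ≫ y.hom)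
      rwa [Iso.inv_comp_eq, comp_zero, ← Iso.eq_comp_inv, zero_comp] at k
  have bz : ∀ i X Y, (⊤ : ObjectProperty (s.x i).A).map (s.x i).sg X → (s.x i).bdd Y →
      s.Bj X Y := fun i X Y ⟨X₀, _, ⟨e⟩⟩ b =>
    (Sys.bz_right (fun n Y ⟨Y₀, _, ⟨e'⟩⟩ => Sys.Bz.iso ⟨b0 i X₀ Y₀ n, fun j h => by
      obtain ⟨σ⟩ := (s.t h).sg_iso
      exact (b0 j _ _ n).iso (σ.app X₀).symm (((s.t h).D.commShiftIso n).app _ ≪≫
        (shiftFunctor _ n).mapIso (σ.app Y₀)).symm⟩ e ((shiftFunctor _ n).mapIso e')) b).1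
  refine Sys.col_of_gen (fun {i j} h X ⟨X₀, _, ⟨e⟩⟩ => ?_)
    (fun i X a => (s.f i).bdd_map X (.of a)) (fun X ⟨X₀, _, ⟨e⟩⟩ => ?_)
    (fun i X Y a b φ => Sys.rep_iff.1 ((bz i X Y a b).1 φ)) fun i X Y a b => (bz i X Y a b).2
  · obtain ⟨σ⟩ := (s.t h).sg_iso
    exact ⟨_, ⟨_, trivial, ⟨Iso.refl _⟩⟩, ⟨(s.t h).D.mapIso e.symm ≪≫ σ.app X₀⟩⟩
  · obtain ⟨i, Y, ⟨e'⟩⟩ := obj X₀
    obtain ⟨σ⟩ := (s.f i).sg_iso
    exact ⟨i, _, .of ⟨Y, trivial, ⟨Iso.refl _⟩⟩, ⟨σ.app Y ≪≫ s.a.sg.mapIso e' ≪≫ e⟩⟩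

variable [∀ i, Tg (P i)] [Tg S] (h : s.Col P S)
include h

theorem Sys.Col.W : s.B.Col (fun i => Am.W (P i)) (Am.W S) := by
  have e : ∀ i, Am.W (P i) = _ := fun i => (s.x i).bs.W_eq (S := P i)
  have e' : Am.W S = _ := s.a.bs.W_eq (S := S)
  rw [funext e, e']
  refine Sys.col_of_gen (s := s.B) ?_ ?_ ?_ ?_ ?_
  · rintro i j k _ ⟨n, X, a, rfl⟩
    exact ⟨_, ⟨n, _, h.mt k X a, rfl⟩, ⟨((s.t k).bm.eL n).app X⟩⟩
  · rintro i _ ⟨n, X, a, rfl⟩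
    exact Cl.iso (((s.f i).bm.eL n).app X).symm (.of ⟨n, _, h.mf i X a, rfl⟩)
  · rintro _ ⟨n, X, a, rfl⟩
    obtain ⟨i, Y, b, ⟨x⟩⟩ := h.obj X a
    exact ⟨i, _, .of ⟨n, Y, b, rfl⟩, ⟨((s.f i).bm.eL n).app Y ≪≫ (s.a.bs.L n).mapIso x⟩⟩
  · rintro i _ M ⟨n, X, a, rfl⟩ b φ
    replace b : Am.W (P i) M := (e i).ge M b
    obtain ⟨j, k, ψ₀, z⟩ := h.full i _ _ ((s.x i).bs.f4_S n n a) (b.1 n) ((s.a.ev n).D.map φ)
    obtain ⟨ψ, hψ⟩ := (col_ev_bij n (((s.t k).bm.eL n).app X) ((s.t k).B.D.obj M)).2 ψ₀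
    exact ⟨j, k, ψ, col_B_heq _ _ (s.tf k) n ψ φ (col_ev_bij n (((s.f i).bm.eL n).app X) _).1
      ((heq_of_eq (congrArg (s.f j).D.map hψ)).trans z)⟩
  · rintro i _ M ⟨n, X, a, rfl⟩ b ψ z
    replace b : Am.W (P i) M := (e i).ge M b
    obtain ⟨j, k, z'⟩ := h.faith i _ _ ((s.x i).bs.f4_S n n a) (b.1 n) (((s.x i).ev n).D.map ψ)
      ((col_ev_map (s.f i) n ψ).symm.trans ((congrArg (s.a.ev n).D.map z).trans
        (Functor.map_zero _ _ _)))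
    exact ⟨j, k, (col_ev_bij n (((s.t k).bm.eL n).app X) _).1
      ((col_ev_map (s.t k) n ψ).trans (z'.trans (((s.x j).ev n).D.map_zero
        ((s.t k).B.D.obj (((s.x i).bs.L n).obj X)) ((s.t k).B.D.obj M)).symm))⟩

theorem Sys.Col.B : s.B.Col (fun i => Am.V (P i)) (Am.V S) := by
  have w := h.W
  refine ⟨fun k => (s.t k).V_map (h.mt k), fun i => (s.f i).V_map (h.mf i), fun M a => ?_,
    fun i X Y a b => w.full i X Y a.1 b.1, fun i X Y a b => w.faith i X Y a.1 b.1⟩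
  obtain ⟨i, Y, b, ⟨x⟩⟩ := w.obj M a.1
  have b' : Wd (fun j => ((s.x i).ev j).D) ⊤ Y := ⟨fun _ => trivial, b.2⟩
  choose T hT u hu using (s.x i).bs.tot b
  have d : ∀ c, ∃ (j : ι) (k : i ≤ j), IsZero ((s.t k).D.obj (T c)) := fun c => by
    have z : IsZero ((s.f i).D.obj (T c)) := ((s.f i).bm.un b' (hu c)).isZero_iff.2 fun Z φ =>
      (x.hom_inv_id_assoc φ).symm.trans ((congrArg (x.hom ≫ ·) (a.2 c Z (x.inv ≫ φ))).trans
        comp_zero)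
    obtain ⟨j, k, z'⟩ := h.faith i _ _ (hT c) (hT c) (𝟙 _) (z.eq_of_src _ _)
    exact ⟨j, k, (IsZero.iff_id_eq_zero _).2 (((s.t k).D.map_id _).symm.trans z')⟩
  choose j k z using d
  obtain ⟨l, l₁, l₂⟩ := exists_ge_ge (j true) (j false)
  have m : ∀ c, j c ≤ l := fun c => by cases c <;> assumption
  refine ⟨l, (s.t ((k true).trans l₁)).B.D.obj Y, ⟨w.mt _ Y b, fun c => ?_⟩,
    ⟨(s.B.ε ((k true).trans l₁)).app Y ≪≫ x⟩⟩
  exact ((s.t ((k true).trans l₁)).bm.un b' (hu c)).isZero_iff.1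
    (((s.t (m c)).D.map_isZero (z c)).of_iso ((s.τ (k c) (m c)).app (T c)).symm)

end Pool.Agent.Lib.MP_5d3e93_al.Gr
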