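import Pool.Agent.Lib.MP_5d3e93_al.Gr.W2
import Pool.Agent.Lib.MP_5d3e93_al.Gr.Nat
import Pool.Agent.Lib.MP_5d3e93_al.Gr.Loc

/-! Five lemmas in directed systems. -/

set_option linter.unusedSectionVars false

open CategoryTheory Limits Pretriangulated ZeroObject

namespace Pool.Agent.Lib.MP_5d3e93_al.Gr

universe v u v' u' v'' u''

section
variable {a : Am.{v, u}} {b : Am.{v', u'}} {c : Am.{v'', u''}}

/-- The comparison isomorphism of a commutative triangle of maps. -/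
noncomputable def colε (t : Am.Map a b) (f : Am.Map b c) {g : Am.Map a c} (e : t.comp f = g) :
    t.D ⋙ f.D ≅ g.D := e ▸ (t.compD f).symm

theorem colε_cs (t : Am.Map a b) (f : Am.Map b c) {g : Am.Map a c} (e : t.comp f = g) :
    NatTrans.CommShift (colε t f e).hom ℤ := by
  subst e
  exact NatTrans.CommShift.of_iso_inv (t.compD f) ℤ

theorem colε_heq (t : Am.Map a b) (f : Am.Map b c) {g : Am.Map a c} (e : t.comp f = g) {X Y : a.D}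
    (φ : g.D.obj X ⟶ g.D.obj Y) :
    HEq ((colε t f e).hom.app X ≫ φ ≫ (colε t f e).inv.app Y) φ := by
  subst e
  exact heq_of_eq ((Category.id_comp _).trans (Category.comp_id _))

theorem col_cast (t : Am.Map a b) (f : Am.Map b c) {g : Am.Map a c} (e : t.comp f = g) {X Y : a.D}
    {c' : Am} (k : Am.Map c c') (ψ : f.D.obj (t.D.obj X) ⟶ f.D.obj (t.D.obj Y)) :
    ∃ ψ' : g.D.obj X ⟶ g.D.obj Y, HEq (k.D.map ψ') (k.D.map ψ) := by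
  subst e
  exact ⟨ψ, HEq.rfl⟩
end

namespace Sys

variable {ι : Type*} [Preorder ι] (s : Sys.{v, u, v', u'} ι) {i j k : ι}

/-- The comparison with the cocone. -/
noncomputable def ε (h : i ≤ j) : (s.t h).D ⋙ (s.f j).D ≅ (s.f i).D := colε _ _ (s.tf h)

/-- The comparison of transition functors. -/
noncomputable def τ (h : i ≤ j) (h' : j ≤ k) : (s.t h).D ⋙ (s.t h').D ≅ (s.t (h.trans h')).D :=
  colε _ _ (s.tt h h')

/-- Transport of a morphism of the cocone point. -/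
noncomputable def up (h : i ≤ j) {X Y : (s.x i).D} (φ : (s.f i).D.obj X ⟶ (s.f i).D.obj Y) :
    (s.f j).D.obj ((s.t h).D.obj X) ⟶ (s.f j).D.obj ((s.t h).D.obj Y) :=
  (s.ε h).hom.app X ≫ φ ≫ (s.ε h).inv.app Y

theorem up_map (h : i ≤ j) {X Y : (s.x i).D} (ψ : X ⟶ Y) :
    s.up h ((s.f i).D.map ψ) = (s.f j).D.map ((s.t h).D.map ψ) :=
  NatIso.naturality_2 (s.ε h) ψ

theorem up_comp (h : i ≤ j) {X Y Z : (s.x i).D} (φ : (s.f i).D.obj X ⟶ (s.f i).D.obj Y)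
    (φ' : (s.f i).D.obj Y ⟶ (s.f i).D.obj Z) : s.up h (φ ≫ φ') = s.up h φ ≫ s.up h φ' := by
  simp [up]

theorem up_add (h : i ≤ j) {X Y : (s.x i).D} (φ φ' : (s.f i).D.obj X ⟶ (s.f i).D.obj Y) :
    s.up h (φ + φ') = s.up h φ + s.up h φ' := by
  simp [up]

theorem up_zero (h : i ≤ j) {X Y : (s.x i).D} :
    s.up h (0 : (s.f i).D.obj X ⟶ (s.f i).D.obj Y) = 0 := by
  simp [up]

/-- The morphism dies at a later level. -/
def Die {X Y : (s.x i).D} (ψ : X ⟶ Y) : Prop := ∃ (j : ι) (h : i ≤ j), (s.t h).D.map ψ = 0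

/-- The morphism is represented at a later level. -/
def Rep {X Y : (s.x i).D} (φ : (s.f i).D.obj X ⟶ (s.f i).D.obj Y) : Prop :=
  ∃ (j : ι) (h : i ≤ j) (ψ : (s.t h).D.obj X ⟶ (s.t h).D.obj Y), (s.f j).D.map ψ = s.up h φ

variable {s} {X Y X' Y' : (s.x i).D}

theorem rep_iff {φ : (s.f i).D.obj X ⟶ (s.f i).D.obj Y} : s.Rep φ ↔ ∃ (j : ι) (h : i ≤ j)
    (ψ : (s.t h).D.obj X ⟶ (s.t h).D.obj Y), HEq ((s.f j).D.map ψ) φ :=
  exists₃_congr fun _ h _ => ⟨fun e => (heq_of_eq e).trans (colε_heq _ _ (s.tf h) φ),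
    fun e => eq_of_heq (e.trans (colε_heq _ _ (s.tf h) φ).symm)⟩

theorem Die.desc (h : i ≤ j) {ψ : X ⟶ Y} (d : s.Die ((s.t h).D.map ψ)) : s.Die ψ := by
  obtain ⟨k, h', e⟩ := d
  refine ⟨k, h.trans h', ?_⟩
  rw [← NatIso.naturality_1 (s.τ h h') ψ, Functor.comp_map, e, zero_comp, comp_zero]

theorem Rep.desc (h : i ≤ j) {φ : (s.f i).D.obj X ⟶ (s.f i).D.obj Y} (d : s.Rep (s.up h φ)) :
    s.Rep φ := by
  obtain ⟨k, h', ψ, e⟩ := rep_iff.1 d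
  obtain ⟨ψ', e'⟩ := col_cast _ _ (s.tt h h') (s.f k) ψ
  exact rep_iff.2 ⟨k, h.trans h', ψ', e'.trans (e.trans (colε_heq _ _ (s.tf h) φ))⟩

theorem Die.conj {ψ : X ⟶ Y} (d : s.Die ψ) (p : X' ⟶ X) (q : Y ⟶ Y') : s.Die (p ≫ ψ ≫ q) := by
  obtain ⟨j, h, e⟩ := d
  exact ⟨j, h, by simp [e]⟩

theorem Rep.conj {φ : (s.f i).D.obj X ⟶ (s.f i).D.obj Y} (d : s.Rep φ) (p : X' ⟶ X) (q : Y ⟶ Y') :
    s.Rep ((s.f i).D.map p ≫ φ ≫ (s.f i).D.map q) := by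
  obtain ⟨j, h, ψ, e⟩ := d
  exact ⟨j, h, (s.t h).D.map p ≫ ψ ≫ (s.t h).D.map q, by
    simp only [up_comp, up_map, Functor.map_comp, e]⟩

theorem Rep.map (ψ : X ⟶ Y) : s.Rep ((s.f i).D.map ψ) :=
  ⟨i, le_rfl, _, (s.up_map le_rfl ψ).symm⟩

variable (s) in
/-- The comparison with the colimit is bijective at level `i`. -/
def Bj (X Y : (s.x i).D) : Prop := (∀ φ : (s.f i).D.obj X ⟶ (s.f i).D.obj Y, s.Rep φ) ∧
  ∀ ψ : X ⟶ Y, (s.f i).D.map ψ = 0 → s.Die ψ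

theorem Bj.iso (d : s.Bj X Y) (e : X ≅ X') (e' : Y ≅ Y') : s.Bj X' Y' := by
  refine ⟨fun φ => ?_, fun ψ h => ?_⟩
  · simpa [← Functor.map_comp, ← Functor.map_comp_assoc] using
      (d.1 ((s.f i).D.map e.hom ≫ φ ≫ (s.f i).D.map e'.inv)).conj e.inv e'.hom
  · simpa using (d.2 (e.hom ≫ ψ ≫ e'.inv) (by simp [h])).conj e.inv e'.hom

theorem Bj.zero (h : ∀ φ : (s.f i).D.obj X ⟶ (s.f i).D.obj Y, φ = 0) (h' : ∀ ψ : X ⟶ Y, ψ = 0) :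
    s.Bj X Y :=
  ⟨fun φ => by simpa [h φ] using Rep.map (0 : X ⟶ Y), fun ψ _ => ⟨i, le_rfl, by simp [h' ψ]⟩⟩

theorem Bj.shift (d : s.Bj X Y) (n : ℤ) : s.Bj (X⟦n⟧) (Y⟦n⟧) := by
  refine ⟨fun φ => ?_, fun ψ h => ?_⟩
  · obtain ⟨φ₀, e₀⟩ := (shiftFunctor _ n).map_surjective ((((s.f i).D.commShiftIso n).inv.app X) ≫
      φ ≫ ((s.f i).D.commShiftIso n).hom.app Y)
    obtain ⟨j, h, ψ, e⟩ := d.1 φ₀
    have : NatTrans.CommShift (s.ε h).hom ℤ := colε_cs _ _ _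
    refine ⟨j, h, ((s.t h).D.commShiftIso n).hom.app X ≫ ψ⟦n⟧' ≫
      ((s.t h).D.commShiftIso n).inv.app Y, ?_⟩
    have k₁ := NatTrans.shift_app_comm (s.ε h).hom n X
    have k₂ := NatTrans.shift_app_comm (s.ε h).inv n Y
    rw [Functor.commShiftIso_comp_hom_app] at k₁ k₂
    rw [Category.assoc] at k₁
    have k₃ := Functor.commShiftIso_hom_naturality (s.f j).D ψ n
    rw [← cancel_mono ((s.f j).D.map (((s.t h).D.commShiftIso n).hom.app Y) ≫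
      ((s.f j).D.commShiftIso n).hom.app ((s.t h).D.obj Y))]
    have k₄ := Iso.inv_hom_id_assoc ((s.f j).D.mapIso (((s.t h).D.commShiftIso n).app Y))
      (((s.f j).D.commShiftIso n).hom.app ((s.t h).D.obj Y))
    simp only [Functor.map_comp, Category.assoc, up]
    erw [k₄, k₃, ← k₂]
    rw [e, up, Functor.map_comp, Functor.map_comp, e₀]
    erw [reassoc_of% k₁]
    simp
  · obtain ⟨ψ₀, rfl⟩ := (shiftFunctor _ n).map_surjective ψ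
    obtain ⟨j, h', e⟩ := d.2 ψ₀ ((shiftFunctor _ n).map_injective (by
      rw [← cancel_epi (((s.f i).D.commShiftIso n).hom.app X),
        ← Functor.commShiftIso_hom_naturality, h]
      simp))
    refine ⟨j, h', ?_⟩
    rw [← cancel_mono (((s.t h').D.commShiftIso n).hom.app Y),
      Functor.commShiftIso_hom_naturality, e]
    simp

variable (s) in
/-- The comparison is bijective at level `i` and at all later levels. -/
def Bz (X Y : (s.x i).D) : Prop :=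
  s.Bj X Y ∧ ∀ j (h : i ≤ j), s.Bj ((s.t h).D.obj X) ((s.t h).D.obj Y)

theorem Bz.up (d : s.Bz X Y) (h : i ≤ j) : s.Bz ((s.t h).D.obj X) ((s.t h).D.obj Y) :=
  ⟨d.2 j h, fun k h' => (d.2 k (h.trans h')).iso ((s.τ h h').app X).symm ((s.τ h h').app Y).symm⟩

section five
variable {A₀ A₁ A₂ A₃ A₄ : (s.x i).D} {a : A₀ ⟶ A₁} {b : A₁ ⟶ A₂} {c : A₂ ⟶ A₃} {d : A₃ ⟶ A₄}

theorem die₃ (k : Lc c d) (h₃ : s.Bz A₃ Y) (h₄ : s.Bz A₄ Y) (χ : A₃ ⟶ Y)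
    (e : (s.f i).D.map (c ≫ χ) = 0) : s.Die (c ≫ χ) := by
  obtain ⟨ω, hω⟩ := (k.map (s.f i).D).yon ((s.f i).D.map χ) (by rw [← Functor.map_comp, e])
  obtain ⟨j, h, ω', e'⟩ := h₄.1.1 ω
  obtain ⟨l, h', z⟩ := (h₃.2 j h).2 ((s.t h).D.map χ - (s.t h).D.map d ≫ ω') (by
    rw [Functor.map_sub, Functor.map_comp, e', ← up_map, ← up_map, ← up_comp, ← hω, sub_self])
  refine Die.desc h ⟨l, h', ?_⟩
  rw [Functor.map_sub, sub_eq_zero] at z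
  rw [Functor.map_comp, Functor.map_comp, z, ← Functor.map_comp, ← Category.assoc, (k.map _).zero,
    zero_comp, Functor.map_zero]

theorem rep₃ (k : Lc b c) (h₃ : s.Bz A₃ Y) (φ : (s.f i).D.obj A₂ ⟶ (s.f i).D.obj Y) (ψ : A₂ ⟶ Y)
    (e : (s.f i).D.map (b ≫ ψ) = (s.f i).D.map b ≫ φ) : s.Rep φ := by
  obtain ⟨ω, hω⟩ := (k.map (s.f i).D).yon (φ - (s.f i).D.map ψ) (by
    rw [Preadditive.comp_sub, ← e, Functor.map_comp, sub_self])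
  obtain ⟨j, h, ω', e'⟩ := h₃.1.1 ω
  exact ⟨j, h, (s.t h).D.map c ≫ ω' + (s.t h).D.map ψ, by
    rw [Functor.map_add, Functor.map_comp, e', ← up_map, ← up_map, ← up_comp, ← hω, ← up_add,
      sub_add_cancel]⟩

theorem rep₂ (k₁ : Lc a b) (k₂ : Lc b c) (h₀ : s.Bz A₀ Y) (h₃ : s.Bz A₃ Y)
    (φ : (s.f i).D.obj A₂ ⟶ (s.f i).D.obj Y) (ψ : A₁ ⟶ Y)
    (e : (s.f i).D.map ψ = (s.f i).D.map b ≫ φ) : s.Rep φ := by
  obtain ⟨j, h, z⟩ := h₀.1.2 (a ≫ ψ) (by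
    rw [Functor.map_comp, e, ← Category.assoc, (k₁.map _).zero, zero_comp])
  obtain ⟨w, hw⟩ := (k₁.map (s.t h).D).yon ((s.t h).D.map ψ) (by rw [← Functor.map_comp, z])
  exact Rep.desc h (rep₃ (k₂.map _) (h₃.up h) _ w (by
    rw [← hw, ← up_map, e, up_comp, up_map]))

theorem five (k₁ : Lc a b) (k₂ : Lc b c) (k₃ : Lc c d) (h₀ : s.Bz A₀ Y) (h₁ : s.Bz A₁ Y)
    (h₃ : s.Bz A₃ Y) (h₄ : s.Bz A₄ Y) : s.Bj A₂ Y := by
  refine ⟨fun φ => ?_, fun ψ e => ?_⟩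
  · obtain ⟨j, h, ψ, e⟩ := h₁.1.1 ((s.f i).D.map b ≫ φ)
    exact Rep.desc h (rep₂ (k₁.map _) (k₂.map _) (h₀.up h) (h₃.up h) _ ψ (by
      rw [e, up_comp, up_map]))
  · obtain ⟨j, h, z⟩ := h₁.1.2 (b ≫ ψ) (by rw [Functor.map_comp, e, comp_zero])
    obtain ⟨χ, hχ⟩ := (k₂.map (s.t h).D).yon ((s.t h).D.map ψ) (by rw [← Functor.map_comp, z])
    refine Die.desc h ?_
    rw [hχ]
    exact die₃ (k₃.map _) (h₃.up h) (h₄.up h) χ (by rw [← hχ, ← up_map, e, up_zero])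

theorem die₃' (k : Lc a b) (h₁ : s.Bz X A₁) (h₀ : s.Bz X A₀) (χ : X ⟶ A₁)
    (e : (s.f i).D.map (χ ≫ b) = 0) : s.Die (χ ≫ b) := by
  obtain ⟨ω, hω⟩ := (k.map (s.f i).D).coyon ((s.f i).D.map χ) (by rw [← Functor.map_comp, e])
  obtain ⟨j, h, ω', e'⟩ := h₀.1.1 ω
  obtain ⟨l, h', z⟩ := (h₁.2 j h).2 ((s.t h).D.map χ - ω' ≫ (s.t h).D.map a) (by
    rw [Functor.map_sub, Functor.map_comp, e', ← up_map, ← up_map, ← up_comp, ← hω, sub_self])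
  refine Die.desc h ⟨l, h', ?_⟩
  rw [Functor.map_sub, sub_eq_zero] at z
  rw [Functor.map_comp, Functor.map_comp, z, ← Functor.map_comp, Category.assoc, (k.map _).zero,
    comp_zero, Functor.map_zero]

theorem rep₃' (k : Lc b c) (h₁ : s.Bz X A₁) (φ : (s.f i).D.obj X ⟶ (s.f i).D.obj A₂) (ψ : X ⟶ A₂)
    (e : (s.f i).D.map (ψ ≫ c) = φ ≫ (s.f i).D.map c) : s.Rep φ := by
  obtain ⟨ω, hω⟩ := (k.map (s.f i).D).coyon (φ - (s.f i).D.map ψ) (by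
    rw [Preadditive.sub_comp, ← e, Functor.map_comp, sub_self])
  obtain ⟨j, h, ω', e'⟩ := h₁.1.1 ω
  exact ⟨j, h, ω' ≫ (s.t h).D.map b + (s.t h).D.map ψ, by
    rw [Functor.map_add, Functor.map_comp, e', ← up_map, ← up_map, ← up_comp, ← hω, ← up_add,
      sub_add_cancel]⟩

theorem rep₂' (k₂ : Lc b c) (k₃ : Lc c d) (h₄ : s.Bz X A₄) (h₁ : s.Bz X A₁)
    (φ : (s.f i).D.obj X ⟶ (s.f i).D.obj A₂) (ψ : X ⟶ A₃)
    (e : (s.f i).D.map ψ = φ ≫ (s.f i).D.map c) : s.Rep φ := by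
  obtain ⟨j, h, z⟩ := h₄.1.2 (ψ ≫ d) (by
    rw [Functor.map_comp, e, Category.assoc, (k₃.map _).zero, comp_zero])
  obtain ⟨w, hw⟩ := (k₃.map (s.t h).D).coyon ((s.t h).D.map ψ) (by rw [← Functor.map_comp, z])
  exact Rep.desc h (rep₃' (k₂.map _) (h₁.up h) _ w (by
    rw [← hw, ← up_map, e, up_comp, up_map]))

theorem five' (k₁ : Lc a b) (k₂ : Lc b c) (k₃ : Lc c d) (h₀ : s.Bz X A₀) (h₁ : s.Bz X A₁)
    (h₃ : s.Bz X A₃) (h₄ : s.Bz X A₄) : s.Bj X A₂ := by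
  refine ⟨fun φ => ?_, fun ψ e => ?_⟩
  · obtain ⟨j, h, ψ, e⟩ := h₃.1.1 (φ ≫ (s.f i).D.map c)
    exact Rep.desc h (rep₂' (k₂.map _) (k₃.map _) (h₄.up h) (h₁.up h) _ ψ (by
      rw [e, up_comp, up_map]))
  · obtain ⟨j, h, z⟩ := h₃.1.2 (ψ ≫ c) (by rw [Functor.map_comp, e, zero_comp])
    obtain ⟨χ, hχ⟩ := (k₂.map (s.t h).D).coyon ((s.t h).D.map ψ) (by rw [← Functor.map_comp, z])
    refine Die.desc h ?_
    rw [hχ]
    exact die₃' (k₁.map _) (h₁.up h) (h₀.up h) χ (by rw [← hχ, ← up_map, e, up_zero])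

theorem fiveZ' (k₁ : Lc a b) (k₂ : Lc b c) (k₃ : Lc c d) (h₀ : s.Bz X A₀) (h₁ : s.Bz X A₁)
    (h₃ : s.Bz X A₃) (h₄ : s.Bz X A₄) : s.Bz X A₂ :=
  ⟨five' k₁ k₂ k₃ h₀ h₁ h₃ h₄, fun _ h => five' (k₁.map _) (k₂.map _) (k₃.map _) (h₀.up h) (h₁.up h)
    (h₃.up h) (h₄.up h)⟩

theorem fiveZ (k₁ : Lc a b) (k₂ : Lc b c) (k₃ : Lc c d) (h₀ : s.Bz A₀ Y) (h₁ : s.Bz A₁ Y)
    (h₃ : s.Bz A₃ Y) (h₄ : s.Bz A₄ Y) : s.Bz A₂ Y :=
  ⟨five k₁ k₂ k₃ h₀ h₁ h₃ h₄, fun _ h => five (k₁.map _) (k₂.map _) (k₃.map _) (h₀.up h) (h₁.up h)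
    (h₃.up h) (h₄.up h)⟩

end five

theorem Bz.iso (d : s.Bz X Y) (e : X ≅ X') (e' : Y ≅ Y') : s.Bz X' Y' :=
  ⟨d.1.iso e e', fun j h => (d.2 j h).iso ((s.t h).D.mapIso e) ((s.t h).D.mapIso e')⟩

theorem Bz.shift (d : s.Bz X Y) (n : ℤ) : s.Bz (X⟦n⟧) (Y⟦n⟧) :=
  ⟨d.1.shift n, fun j h => ((d.2 j h).shift n).iso (((s.t h).D.commShiftIso n).app X).symm
    (((s.t h).D.commShiftIso n).app Y).symm⟩

theorem Bz.zero (h : IsZero X ∨ IsZero Y) : s.Bz X Y := by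
  have k : ∀ {i} {X Y : (s.x i).D}, IsZero X ∨ IsZero Y → s.Bj X Y := fun h => by
    rcases h with h | h
    · exact .zero (fun _ => (Functor.map_isZero _ h).eq_of_src _ _) fun _ => h.eq_of_src _ _
    · exact .zero (fun _ => (Functor.map_isZero _ h).eq_of_tgt _ _) fun _ => h.eq_of_tgt _ _
  exact ⟨k h, fun j _ => k (h.imp (Functor.map_isZero _) (Functor.map_isZero _))⟩

/-- Devissage in the first variable. -/
theorem bz_left {G : ObjectProperty (s.x i).D} {S : ObjectProperty (s.x i).D} [Tg S]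
    (h : ∀ X Y, G X → S Y → s.Bz X Y) (a : Cl G X) (b : S Y) : s.Bz X Y := by
  let P : ObjectProperty (s.x i).D := fun X => ∀ Y, S Y → s.Bz X Y
  have sh : ∀ (n : ℤ) X, P X → P (X⟦n⟧) := fun n X a Y b =>
    ((a _ (S.le_shift (-n) _ b)).shift n).iso (Iso.refl _) ((shiftEquiv _ n).counitIso.app Y)
  have : Tg P := Tg.mk' (fun _ a _ _ => .zero (.inl a)) sh fun T k a b Y c =>
    fiveZ ⟨_, inv_rot_of_distTriang T k⟩ ⟨_, k⟩ ⟨_, rot_of_distTriang T k⟩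
      (sh _ _ b Y c) (a Y c) (b Y c) (sh _ _ a Y c)
  exact Cl.le (S := P) (fun X a Y b => h X Y a b) X a Y b

/-- Devissage in the second variable. -/
theorem bz_right {G : ObjectProperty (s.x i).D} (h : ∀ (n : ℤ) Y, G Y → s.Bz X (Y⟦n⟧))
    (b : Cl G Y) : s.Bz X Y := by
  let P : ObjectProperty (s.x i).D := fun Y => ∀ n : ℤ, s.Bz X (Y⟦n⟧)
  have sh : ∀ Y, P Y → ∀ m n : ℤ, s.Bz X (Y⟦m⟧⟦n⟧) :=
    fun Y a m n => (a _).iso (Iso.refl _) ((shiftFunctorAdd _ m n).app Y)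
  have : Tg P := Tg.mk' (fun _ a n => .zero (.inr ((shiftFunctor _ n).map_isZero a)))
    (fun m Y a n => sh Y a m n) fun T k a b n =>
      have k' := Triangle.shift_distinguished T k n
      fiveZ' ⟨_, inv_rot_of_distTriang _ k'⟩ ⟨_, k'⟩ ⟨_, rot_of_distTriang _ k'⟩
        (sh _ b n _) (a n) (b n) (sh _ a n _)
  exact (Cl.le (S := P) (fun Y b n => h n Y b) Y b 0).iso (Iso.refl _)
    ((shiftFunctorZero _ ℤ).app Y)

end Sys

end Pool.Agent.Lib.MP_5d3e93_al.Gr
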