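import Mathlib

/-! Binary complexes and Grayson's construction on exact categories. -/

open CategoryTheory Limits

namespace Pool.Agent.Lib.MP_5d3e93_al.Gr

universe v u

/-- Graded objects with two differentials. -/
structure Bin (C : Type u) [Category.{v} C] [Preadditive C] where
  X : ℕ → C
  d : Bool → ∀ n, X (n + 1) ⟶ X n
  sq : ∀ b n, d b (n + 1) ≫ d b n = 0

namespace Bin

variable {C : Type u} [Category.{v} C] [Preadditive C]

/-- Graded morphisms commuting with both differentials. -/
def Mor (P Q : Bin C) : AddSubgroup (∀ n, P.X n ⟶ Q.X n) where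
  carrier := {f | ∀ b n, f (n + 1) ≫ Q.d b n = P.d b n ≫ f n}
  add_mem' h k b n := by simp [h b n, k b n]
  zero_mem' b n := by simp
  neg_mem' h b n := by simp [h b n]

instance : Category.{v} (Bin C) where
  Hom P Q := Mor P Q
  id P := ⟨fun _ => 𝟙 _, fun _ _ => by simp⟩
  comp f g := ⟨fun n => f.1 n ≫ g.1 n, fun b n => by
    rw [Category.assoc, g.2 b n, reassoc_of% (f.2 b n)]⟩
  id_comp _ := Subtype.ext (funext fun _ => Category.id_comp _)
  comp_id _ := Subtype.ext (funext fun _ => Category.comp_id _)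
  assoc _ _ _ := Subtype.ext (funext fun _ => Category.assoc ..)

instance : Preadditive (Bin C) where
  homGroup P Q := inferInstanceAs (AddCommGroup (Mor P Q))
  add_comp _ _ _ _ _ _ := Subtype.ext (funext fun _ => Preadditive.add_comp ..)
  comp_add _ _ _ _ _ _ := Subtype.ext (funext fun _ => Preadditive.comp_add ..)

end Bin

set_option linter.checkUnivs false in
/-- A preadditive category with a class of short exact sequences. -/
structure Ex where
  C : Type (max u v)
  [cat : Category.{v} C]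
  [pre : Preadditive C]
  ses : ∀ {X Y Z : C}, (X ⟶ Y) → (Y ⟶ Z) → Prop

attribute [instance] Ex.cat Ex.pre

/-- The split exact structure. -/
def spl (C : Type (max u v)) [Category.{v} C] [Preadditive C] : Ex.{v, u} :=
  ⟨C, fun i p => ∃ r s, i ≫ r = 𝟙 _ ∧ s ≫ p = 𝟙 _ ∧ r ≫ i + p ≫ s = 𝟙 _⟩

namespace Ex

variable (E : Ex.{v, u})

/-- Bounded binary complexes whose two differentials are spliced from short exact sequences. -/
def Acyc (P : Bin E.C) : Prop :=
  (∃ m, ∀ n, m ≤ n → IsZero (P.X n)) ∧ ∀ b, ∃ (Z : ℕ → E.C) (i : ∀ n, Z (n + 1) ⟶ P.X n)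
    (p : ∀ n, P.X n ⟶ Z n), IsZero (Z 0) ∧ ∀ n, E.ses (i n) (p n) ∧ P.d b n = p (n + 1) ≫ i n

/-- Bounded acyclic binary complexes with the degreewise exact structure. -/
def Bq : Ex.{v, u} :=
  ⟨ObjectProperty.FullSubcategory E.Acyc,
    fun {X Y Z : ObjectProperty.FullSubcategory E.Acyc} (i : X ⟶ Y) (p : Y ⟶ Z) =>
      ∀ n, E.ses (i.hom.1 n) (p.hom.1 n)⟩

/-- The Grothendieck group. -/
def K0 : Type (max u v) := FreeAbelianGroup E.C ⧸ AddSubgroup.closure
  {x : FreeAbelianGroup E.C | ∃ (X Y Z : E.C) (i : X ⟶ Y) (p : Y ⟶ Z), E.ses i p ∧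
    x = .of Y - .of X - .of Z}

end Ex

/-- The Grothendieck groups of all categories of bounded acyclic binary multicomplexes in the
idempotent completion vanish. -/
def KZero (C : Type u) [Category.{v} C] [Preadditive C] : Prop :=
  ∀ n, Subsingleton (Ex.Bq^[n] (spl.{v, u} (Idempotents.Karoubi C))).K0

end Pool.Agent.Lib.MP_5d3e93_al.Gr
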