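import Pool.Agent.Lib.MP_5d3e93_al.Gr.W2

/-! The strings of binary complexes and their coinduced resolutions, at the additive level. -/

open CategoryTheory Limits ZeroObject

namespace Pool.Agent.Lib.MP_5d3e93_al.Gr

universe v u

namespace Det

variable {C : Type u} [Category.{v} C] [Preadditive C]

variable (C) in
/-- Forgetting the term of degree zero. -/
def dn : Bin C ⥤ Bin C where
  obj P := ⟨fun n => P.X (n + 1), fun b n => P.d b (n + 1), fun b n => P.sq b (n + 1)⟩
  map f := Bin.homMk (fun n => f.1 (n + 1)) fun b n => Bin.comm f b (n + 1)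

/-- The alternating path that ends with the other differential. -/
def pu (P : Bin C) (b : Bool) : ∀ n, P.X n ⟶ P.X 0
  | 0 => 𝟙 _
  | n + 1 => P.d (Bin.lt b n) n ≫ pu P b n

/-- The alternating path that ends with `b`. -/
def pw (P : Bin C) (b : Bool) : ∀ n, P.X (n + 1) ⟶ P.X 0
  | 0 => P.d b 0
  | n + 1 => P.d (Bin.lt b n) (n + 1) ≫ pw P b n

theorem pu_zero (P : Bin C) (b c : Bool) (n) (h : c ≠ Bin.lt b (n + 1)) :
    P.d c (n + 1) ≫ pu P b (n + 1) = 0 := by
  obtain rfl : c = Bin.lt b n := by simpa [Bin.lt] using h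
  rw [pu, reassoc_of% P.sq, zero_comp]

theorem pw_zero (P : Bin C) (b c : Bool) (n) (h : c ≠ Bin.lt b n) :
    P.d c (n + 1) ≫ pw P b n = 0 := by
  cases n with
  | zero =>
    obtain rfl : c = b := by simpa [Bin.lt] using h
    exact P.sq _ _
  | succ n =>
    obtain rfl : c = Bin.lt b n := by simpa [Bin.lt] using h
    rw [pw, reassoc_of% P.sq, zero_comp]

variable [HasZeroObject C]

/-- The terms of the shifted complex. -/
noncomputable def upX (P : Bin C) : ℕ → C
  | 0 => 0
  | n + 1 => P.X n

/-- The differentials of the shifted complex. -/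
noncomputable def upD (P : Bin C) (b : Bool) : ∀ n, upX P (n + 1) ⟶ upX P n
  | 0 => 0
  | n + 1 => P.d b n

/-- The components of a shifted map. -/
noncomputable def upF {P Q : Bin C} (f : P ⟶ Q) : ∀ n, upX P n ⟶ upX Q n
  | 0 => 0
  | n + 1 => f.1 n

theorem up_ext {P Q : Bin C} {d sq} {f g : P ⟶ (⟨upX Q, d, sq⟩ : Bin C)}
    (h : ∀ n, f.1 (n + 1) = g.1 (n + 1)) : f = g := Bin.hom_ext fun n => by
  cases n with
  | zero => exact (isZero_zero C).eq_of_tgt _ _
  | succ n => exact h n

variable (C) in
/-- Raising the degree by one. -/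
noncomputable def up : Bin C ⥤ Bin C where
  obj P := ⟨upX P, upD P, fun b n => by
    cases n with
    | zero => exact comp_zero
    | succ n => exact P.sq b n⟩
  map f := Bin.homMk (upF f) fun b n => by
    cases n with
    | zero => exact (isZero_zero C).eq_of_tgt _ _
    | succ n => exact Bin.comm f b n
  map_id _ := up_ext fun _ => rfl
  map_comp _ _ := up_ext fun _ => rfl

instance : (up C).Additive := ⟨up_ext fun _ => rfl⟩

/-- The components of the adjoint map. -/
noncomputable def upH {P Q : Bin C} (f : ∀ n, P.X (n + 1) ⟶ Q.X n) : ∀ n, P.X n ⟶ upX Q n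
  | 0 => 0
  | n + 1 => f n

/-- A map to a shifted complex. -/
noncomputable def toUp {P Q : Bin C} (f : (dn C).obj P ⟶ Q) : P ⟶ (up C).obj Q :=
  Bin.homMk (upH f.1) fun b n => by
    cases n with
    | zero => exact (isZero_zero C).eq_of_tgt _ _
    | succ n => exact Bin.comm f b n

/-- The adjoint of a map to a shifted complex. -/
noncomputable def ofUp {P Q : Bin C} (g : P ⟶ (up C).obj Q) : (dn C).obj P ⟶ Q :=
  Bin.homMk (fun n => g.1 (n + 1)) fun b n => Bin.comm g b (n + 1)

theorem ofUp_ext {P Q : Bin C} {f g : P ⟶ (up C).obj Q} (h : ofUp f = ofUp g) : f = g :=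
  up_ext fun j => congrArg (fun t => t.1 j) h

variable (C) in
/-- The adjunction. -/
noncomputable def adU : dn C ⊣ up C := Adjunction.mkOfHomEquiv
  { homEquiv _ _ :=
      { toFun := toUp
        invFun := ofUp
        left_inv _ := rfl
        right_inv _ := up_ext fun _ => rfl }
    homEquiv_naturality_left_symm _ _ := rfl
    homEquiv_naturality_right _ _ := up_ext fun _ => rfl }

variable [HasBinaryBiproducts C]

/-- The terms of the coinduced complex. -/
noncomputable def coX (X : C) : ℕ → C
  | 0 => X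
  | _ + 1 => X ⊞ X

/-- The differentials of the coinduced complex. -/
noncomputable def coD (b : Bool) (X : C) (c : Bool) : ∀ n, coX X (n + 1) ⟶ coX X n
  | 0 => if c = b then biprod.snd else biprod.fst
  | n + 1 => biprod.map (if c = Bin.lt b (n + 1) then 𝟙 X else 0)
      (if c = Bin.lt b n then 𝟙 X else 0)

/-- The components of a coinduced map. -/
noncomputable def coF {X Y : C} (f : X ⟶ Y) : ∀ n, coX X n ⟶ coX Y n
  | 0 => f
  | _ + 1 => biprod.map f f

omit [HasZeroObject C] in
theorem co_sq (b : Bool) (X : C) (c n) : coD b X c (n + 1) ≫ coD b X c n = 0 := by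
  cases n with
  | zero =>
    change biprod.map _ _ ≫ (if c = b then biprod.snd else biprod.fst : X ⊞ X ⟶ X) = 0
    cases b <;> cases c <;> simp [Bin.lt]
  | succ n =>
    change biprod.map _ _ ≫ biprod.map _ _ = (0 : X ⊞ X ⟶ X ⊞ X)
    by_cases h : c = Bin.lt b n <;> ext <;> simp [h, Bin.lt]

omit [HasZeroObject C] in
theorem co_ext {b : Bool} {P : Bin C} {X : C} {f g : P ⟶ (⟨coX X, coD b X, co_sq b X⟩ : Bin C)}
    (h : f.1 0 = g.1 0) : f = g := Bin.hom_ext fun n => by
  induction n with
  | zero => exact h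
  | succ n ih =>
    have k : ∀ c, f.1 (n + 1) ≫ coD b X c n = g.1 (n + 1) ≫ coD b X c n := fun c =>
      (Bin.comm f c n).trans ((congrArg (_ ≫ ·) ih).trans (Bin.comm g c n).symm)
    generalize f.1 (n + 1) = p at k
    generalize g.1 (n + 1) = q at k
    revert p q
    change ∀ p q : P.X (n + 1) ⟶ X ⊞ X, _ → p = q
    intro p q k
    cases n with
    | zero =>
      have k' : ∀ c, p ≫ (if c = b then biprod.snd else biprod.fst : X ⊞ X ⟶ X) =
        q ≫ (if c = b then biprod.snd else biprod.fst : X ⊞ X ⟶ X) := k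
      exact biprod.hom_ext _ _ (by simpa using k' (!b)) (by simpa using k' b)
    | succ n =>
      have k₁ : p ≫ biprod.map _ _ = q ≫ biprod.map _ _ := k (Bin.lt b (n + 1))
      have k₂ : p ≫ biprod.map _ _ = q ≫ biprod.map _ _ := k (Bin.lt b n)
      exact biprod.hom_ext _ _ (by simpa using k₁ =≫ biprod.fst) (by simpa using k₂ =≫ biprod.snd)

variable (C) in
/-- The coinduced complex. -/
noncomputable def co (b : Bool) : C ⥤ Bin C where
  obj X := ⟨coX X, coD b X, co_sq b X⟩
  map {X Y} f := Bin.homMk (coF f) fun c n => by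
    cases n with
    | zero =>
      change biprod.map f f ≫ (if c = b then biprod.snd else biprod.fst : Y ⊞ Y ⟶ Y) =
        (if c = b then biprod.snd else biprod.fst : X ⊞ X ⟶ X) ≫ f
      split_ifs <;> simp
    | succ n =>
      change biprod.map f f ≫ biprod.map _ _ = biprod.map _ _ ≫ biprod.map f f
      ext <;> split_ifs <;> simp
  map_id _ := co_ext rfl
  map_comp _ _ := co_ext rfl

instance (b : Bool) : (co C b).Additive := ⟨co_ext rfl⟩

/-- The components of the unit. -/
noncomputable def coU (P : Bin C) (b : Bool) : ∀ n, P.X n ⟶ coX (P.X 0) n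
  | 0 => 𝟙 _
  | n + 1 => biprod.lift (pu P b (n + 1)) (pw P b n)

/-- The unit. -/
noncomputable def toCo (P : Bin C) (b : Bool) : P ⟶ (co C b).obj (P.X 0) :=
  Bin.homMk (coU P b) fun c n => by
    cases n with
    | zero =>
      change biprod.lift _ _ ≫ (if c = b then biprod.snd else biprod.fst : _ ⊞ _ ⟶ P.X 0) =
        P.d c 0 ≫ 𝟙 _
      cases b <;> cases c <;> simp [Bin.lt, pu, pw]
    | succ n =>
      change biprod.lift _ _ ≫ biprod.map _ _ = P.d c (n + 1) ≫ biprod.lift _ _
      ext
      · by_cases h : c = Bin.lt b (n + 1)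
        · simp [h, pu]
        · simp [h, pu_zero P b c n h]
      · by_cases h : c = Bin.lt b n
        · simp [h, pw]
        · simp [h, pw_zero P b c n h]

variable (C) in
/-- The adjunction. -/
noncomputable def adC (b : Bool) : Bin.ev C 0 ⊣ co C b := Adjunction.mkOfHomEquiv
  { homEquiv P _ :=
      { toFun g := toCo P b ≫ (co C b).map g
        invFun f := f.1 0
        left_inv _ := Category.id_comp _
        right_inv _ := co_ext (Category.id_comp _) }
    homEquiv_naturality_left_symm _ _ := rfl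
    homEquiv_naturality_right _ _ := co_ext (Category.assoc _ _ _).symm }

/-- The components of the inclusion. -/
noncomputable def inF (X : C) : ∀ n, X ⟶ coX X n
  | 0 => 𝟙 _
  | _ + 1 => biprod.inl

variable (C) in
/-- The inclusion of the string. -/
noncomputable def inc (b : Bool) : Bin.R C b ⟶ co C b where
  app X := Bin.homMk (inF X) fun c n => by
    cases n with
    | zero =>
      change biprod.inl ≫ (if c = b then biprod.snd else biprod.fst : X ⊞ X ⟶ X) =
        (if c = !b then 𝟙 X else 0) ≫ 𝟙 X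
      cases b <;> cases c <;> simp
    | succ n =>
      change biprod.inl ≫ biprod.map _ _ = (if c = Bin.lt b (n + 1) then 𝟙 X else 0) ≫ biprod.inl
      simp
  naturality _ _ _ := co_ext ((Category.comp_id _).trans (Category.id_comp _).symm)

variable (C) in
/-- The projection to the shifted string. -/
noncomputable def prj (b : Bool) : co C b ⟶ Bin.R C b ⋙ up C where
  app _ := toUp (Bin.homMk (fun _ => biprod.snd) fun _ _ => (biprod.map_snd _ _).symm)
  naturality _ _ f := up_ext fun _ => biprod.map_snd f f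

variable (C) (b : Bool)

/-- The part of the string in degrees at least `n`. -/
noncomputable def sR : ℕ → C ⥤ Bin C
  | 0 => Bin.R C b
  | n + 1 => sR n ⋙ up C

/-- The right adjoint of the term of degree `n`. -/
noncomputable def sC : ℕ → C ⥤ Bin C
  | 0 => co C b
  | n + 1 => sC n ⋙ up C

instance sR_add : ∀ n, (sR C b n).Additive
  | 0 => inferInstanceAs (Bin.R C b).Additive
  | n + 1 => have := sR_add n; inferInstanceAs (sR C b n ⋙ up C).Additive

instance sC_add : ∀ n, (sC C b n).Additive
  | 0 => inferInstanceAs (co C b).Additive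
  | n + 1 => have := sC_add n; inferInstanceAs (sC C b n ⋙ up C).Additive

/-- The inclusions. -/
noncomputable def sI : ∀ n, sR C b n ⟶ sC C b n
  | 0 => inc C b
  | n + 1 => Functor.whiskerRight (sI n) (up C)

/-- The projections. -/
noncomputable def sP : ∀ n, sC C b n ⟶ sR C b (n + 1)
  | 0 => prj C b
  | n + 1 => Functor.whiskerRight (sP n) (up C)

/-- The adjunctions. -/
noncomputable def sA : ∀ n, Bin.ev C n ⊣ sC C b n
  | 0 => adC C b
  | n + 1 => (adU C).comp (sA n)

variable {C}

theorem s_spl (X : C) : ∀ n j, Spl (((sI C b n).app X).1 j) (((sP C b n).app X).1 j)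
  | 0, 0 => ⟨𝟙 X, 0, Category.id_comp _, (isZero_zero C).eq_of_tgt _ _,
      (congrArg₂ (· + ·) (Category.id_comp _) comp_zero).trans (add_zero _)⟩
  | 0, _ + 1 => ⟨biprod.fst, biprod.inr, biprod.inl_fst, biprod.inr_snd, biprod.total⟩
  | _ + 1, 0 => ⟨0, 0, (isZero_zero C).eq_of_tgt _ _, (isZero_zero C).eq_of_tgt _ _,
      (isZero_zero C).eq_of_tgt _ _⟩
  | n + 1, j + 1 => s_spl X n j

theorem s_zero : ∀ n, sI C b n ≫ sP C b n = 0
  | 0 => by
    ext X : 2
    exact up_ext fun _ => biprod.inl_snd
  | n + 1 => by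
    ext X : 2
    exact up_ext fun j => congrArg (fun t => (t.app X).1 j) (s_zero n)

omit [HasBinaryBiproducts C] in
theorem s_low (X : C) : ∀ n j, j < n → IsZero (((sR C b n).obj X).X j)
  | _ + 1, 0, _ => isZero_zero C
  | n + 1, j + 1, h => s_low X n j (by omega)

theorem s_unit (n) (P : Bin C) (j) : ((sA C b (n + 1)).unit.app P).1 (j + 1) =
    ((sA C b n).unit.app ((dn C).obj P)).1 j :=
  (congrArg (fun t => t.1 (j + 1)) ((adU C).comp_unit_app (sA C b n) P)).trans (Category.id_comp _)

theorem s_key : ∀ (n) (P : Bin C), (sA C b n).unit.app P ≫ (sP C b n).app (P.X n) ≫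
    (sI C b (n + 1)).app (P.X n) = (sA C b (n + 1)).unit.app P ≫ (sC C b (n + 1)).map (P.d b n)
  | 0, P => by
    refine ofUp_ext (co_ext ?_)
    refine Eq.trans ?_ (congrArg (· ≫ P.d b 0) (s_unit b 0 P 0).symm)
    change (biprod.lift (pu P b 1) (P.d b 0) ≫ biprod.map (𝟙 _) (𝟙 _)) ≫ biprod.snd ≫ 𝟙 _ =
      (𝟙 (P.X 1) ≫ 𝟙 _) ≫ P.d b 0
    simp
  | n + 1, P => up_ext fun j => (congrArg (· ≫ _) (s_unit b n P j)).trans
      ((congrArg (fun t => t.1 j) (s_key n ((dn C).obj P))).trans
        (congrArg (· ≫ _) (s_unit b (n + 1) P j).symm))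

end Det

end Pool.Agent.Lib.MP_5d3e93_al.Gr
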