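import Pool.Agent.Lib.MP_5d3e93_al.Gr.Tri

/-! Grothendieck groups of triangulated subcategories, dense subcategories. -/

open CategoryTheory Limits Pretriangulated ZeroObject

namespace Pool.Agent.Lib.MP_5d3e93_al.Gr

variable {D : Type*} [Category* D] [HasZeroObject D] [HasShift D ℤ] [Preadditive D]
  [∀ n : ℤ, (shiftFunctor D n).Additive] [Pretriangulated D]

section K0file
variable {S S₀ : ObjectProperty D} {X Y : D}

theorem Tg.biprod (S : ObjectProperty D) [Tg S] (a : S X) (b : S Y) : S (X ⊞ Y) :=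
  S.ext_of_isTriangulatedClosed₂ _ (binaryBiproductTriangle_distinguished X Y) a b

theorem k0_dist (e : X ≅ Y) : Triangle.mk e.hom (0 : Y ⟶ (0 : D)) 0 ∈ distTriang D :=
  (Triangle.distinguished_iff_of_isZero₃ _ (isZero_zero D)).2 e.isIso_hom

theorem K0.mk_zero (h : IsZero X) (a : S X) : K0.mk X a = 0 := by
  have e : K0.mk X a = K0.mk X a + K0.mk X a :=
    K0.mk_tri ((Triangle.distinguished_iff_of_isZero₃ (Triangle.mk (𝟙 X) (0 : X ⟶ X) 0) h).2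
      (IsIso.id X)) a a a
  exact left_eq_add.1 e

theorem K0.mk_iso [Tg S] (e : X ≅ Y) (a : S X) (b : S Y) : K0.mk X a = K0.mk Y b := by
  have h : K0.mk Y b = K0.mk X a + K0.mk 0 (Tg.zero S (isZero_zero D)) :=
    K0.mk_tri (k0_dist e) a b _
  rw [h, K0.mk_zero (isZero_zero D), add_zero]

theorem K0.mk_shift [Tg S] (a : S X) (b : S (X⟦(1 : ℤ)⟧)) : K0.mk _ b = -K0.mk X a := by
  have h : K0.mk 0 (Tg.zero S (isZero_zero D)) = K0.mk X a + K0.mk _ b :=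
    K0.mk_tri (contractible_distinguished₂ X) a _ b
  rw [K0.mk_zero (isZero_zero D)] at h
  exact eq_neg_of_add_eq_zero_right h.symm

theorem K0.mk_biprod (a : S X) (b : S Y) (c : S (X ⊞ Y)) : K0.mk _ c = K0.mk X a + K0.mk Y b :=
  K0.mk_tri (binaryBiproductTriangle_distinguished X Y) a c b

theorem K0.mk_surj [Tg S] (x : K0 S) : ∃ X a, x = K0.mk X a := by
  obtain ⟨y, rfl⟩ := QuotientAddGroup.mk_surjective x
  induction y using FreeAbelianGroup.induction_on with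
  | zero => exact ⟨0, Tg.zero S (isZero_zero D), (K0.mk_zero (isZero_zero D) _).symm⟩
  | of X => exact ⟨X.1, X.2, rfl⟩
  | neg X _ => exact ⟨_, S.le_shift 1 _ X.2, (K0.mk_shift X.2 _).symm⟩
  | add y z hy hz =>
    obtain ⟨X, a, e⟩ := hy
    obtain ⟨Y, b, e'⟩ := hz
    exact ⟨_, Tg.biprod S a b, by
      rw [K0.mk_biprod a b, ← e, ← e']
      rfl⟩

/-- Thomason's argument: `S / r` is a group. -/
theorem K0.rel [Tg S] (r : D → D → Prop) (h0 : ∀ X, S X → r X X)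
    (h1 : ∀ (n : ℤ) X Y, S X → S Y → r X Y → r (X⟦n⟧) (Y⟦n⟧))
    (h2 : ∀ T ∈ distTriang D, ∀ T' ∈ distTriang D, S T.obj₁ → S T.obj₃ → S T'.obj₁ → S T'.obj₃ →
      r T.obj₁ T'.obj₁ → r T.obj₃ T'.obj₃ → r T.obj₂ T'.obj₂)
    (a : S X) (b : S Y) (h : K0.mk X a = K0.mk Y b) : r X Y := by
  have z : S (0 : D) := Tg.zero S (isZero_zero D)
  have iso : ∀ {X X' Y Y' : D}, S X → S Y → (X ≅ X') → (Y ≅ Y') → r X Y → r X' Y' :=
    fun a b e e' h => h2 _ (k0_dist e) _ (k0_dist e') a z b z h (h0 _ z)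
  have iso' : ∀ {X Y : D}, S X → (X ≅ Y) → r X Y := fun a e => iso a a (Iso.refl _) e (h0 _ a)
  have bp := binaryBiproductTriangle_distinguished (C := D)
  have add : ∀ {X X' Y Y' : D}, S X → S X' → S Y → S Y' → r X Y → r X' Y' →
      r (X ⊞ X') (Y ⊞ Y') := fun a a' b b' => h2 _ (bp _ _) _ (bp _ _) a a' b b'
  have can : ∀ {X X' Y Y' : D}, S X → S X' → S Y → S Y' → r (X ⊞ X') (Y ⊞ Y') → r X' Y' →
      r X Y := fun a a' b b' h h' =>
    h2 _ (inv_rot_of_distTriang _ (bp _ _)) _ (inv_rot_of_distTriang _ (bp _ _))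
      (S.le_shift (-1) _ a') (Tg.biprod S a a') (S.le_shift (-1) _ b') (Tg.biprod S b b')
      (h1 (-1) _ _ a' b' h') h
  have sym : ∀ {X Y : D}, S X → S Y → r X Y → r Y X := fun a b h =>
    can b a a b (iso' (Tg.biprod S b a) (biprod.braiding _ _)) h
  have tra : ∀ {X Y Z : D}, S X → S Y → S Z → r X Y → r Y Z → r X Z := fun a b c h h' =>
    can a b c b (iso (Tg.biprod S a b) (Tg.biprod S b c) (Iso.refl _) (biprod.braiding _ _)
      (add a b b c h h')) (h0 _ b)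
  have tri : ∀ T ∈ distTriang D, S T.obj₁ → S T.obj₃ → r T.obj₂ (T.obj₁ ⊞ T.obj₃) :=
    fun T k a c => h2 T k _ (bp _ _) a c a c (h0 _ a) (h0 _ c)
  let s : Setoid {X // S X} := ⟨fun X Y => r X.1 Y.1,
    fun X => h0 _ X.2, fun {X Y} => sym X.2 Y.2, fun {X Y Z} => tra X.2 Y.2 Z.2⟩
  let _ : Add (Quotient s) := ⟨Quotient.map₂ (fun X Y => ⟨X.1 ⊞ Y.1, Tg.biprod S X.2 Y.2⟩)
    fun X Y h X' Y' h' => add X.2 X'.2 Y.2 Y'.2 h h'⟩
  let _ : Neg (Quotient s) := ⟨Quotient.map (fun X => ⟨X.1⟦(1 : ℤ)⟧, S.le_shift 1 _ X.2⟩)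
    fun X Y h => h1 1 _ _ X.2 Y.2 h⟩
  let _ : Zero (Quotient s) := ⟨Quotient.mk s ⟨0, z⟩⟩
  have comm : ∀ x y : Quotient s, x + y = y + x := by
    rintro ⟨X⟩ ⟨Y⟩
    exact Quotient.sound (iso' (Tg.biprod S X.2 Y.2) (biprod.braiding _ _))
  let _ : AddCommGroup (Quotient s) :=
    { AddGroup.ofLeftAxioms (by
        rintro ⟨X⟩ ⟨Y⟩ ⟨Z⟩
        exact Quotient.sound (iso' (Tg.biprod S (Tg.biprod S X.2 Y.2) Z.2)
          (biprod.associator _ _ _))) (by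
        rintro ⟨X⟩
        exact (Quotient.sound (tri _ (contractible_distinguished₁ X.1) z X.2) :
          Quotient.mk s X = Quotient.mk s ⟨0 ⊞ X.1, Tg.biprod S z X.2⟩).symm) (by
        rintro ⟨X⟩
        rw [comm]
        exact (Quotient.sound (tri _ (contractible_distinguished₂ X.1) X.2 (S.le_shift 1 _ X.2)) :
          Quotient.mk s ⟨0, z⟩ = Quotient.mk s
            ⟨X.1 ⊞ X.1⟦(1 : ℤ)⟧, Tg.biprod S X.2 (S.le_shift 1 _ X.2)⟩).symm) with
      add_comm := comm }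
  have := congrArg (K0.lift (fun X a => Quotient.mk s ⟨X, a⟩)
    fun T k a _ c => Quotient.sound (tri T k a c)) h
  rw [K0.lift_mk, K0.lift_mk] at this
  exact Quotient.exact this

/-- A product of two objects. -/
noncomputable def k0Pi (f : Bool → D) : ∏ᶜ f ≅ f true ⊞ f false where
  hom := biprod.lift (Pi.π f true) (Pi.π f false)
  inv := Pi.lift fun b => match b with
    | true => biprod.fst
    | false => biprod.snd
  hom_inv_id := Pi.hom_ext _ _ fun b => by cases b <;> simp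
  inv_hom_id := by ext <;> simp

theorem k0_sum (S : ObjectProperty D) [Tg S] {T : Triangle D} (hT : T ∈ distTriang D)
    (a : S (T.obj₁ ⊞ X)) (b : S (T.obj₃ ⊞ Y)) : S (T.obj₂ ⊞ (X ⊞ Y)) := by
  let U : Bool → Triangle D := fun b => match b with
    | true => T
    | false => binaryBiproductTriangle X Y
  have hU := productTriangle_distinguished U fun b => match b with
    | true => hT
    | false => binaryBiproductTriangle_distinguished X Y
  exact S.prop_of_iso (k0Pi fun b => (U b).obj₂) (S.ext_of_isTriangulatedClosed₂ _ hU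
    (S.prop_of_iso (k0Pi fun b => (U b).obj₁).symm a)
    (S.prop_of_iso (k0Pi fun b => (U b).obj₃).symm b))

theorem k0_shift (S : ObjectProperty D) [Tg S] (n : ℤ) (a : S (X ⊞ Y)) : S (X⟦n⟧ ⊞ Y⟦n⟧) :=
  have := preservesBinaryBiproducts_of_preservesBiproducts (shiftFunctor D n)
  S.prop_of_iso ((shiftFunctor D n).mapBiprod X Y) (S.le_shift n _ a)

theorem dense_mem [Tg S] [Tg S₀] (le : S₀ ≤ S) (hd : ∀ X, S X → ∃ Y, S Y ∧ S₀ (X ⊞ Y))
    (a : S X) (b : S₀ Y) (h : K0.mk X a = K0.mk Y (le _ b)) : S₀ X := by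
  obtain ⟨Z, -, h1, h2⟩ := K0.rel (fun x y => ∃ z, S z ∧ S₀ (x ⊞ z) ∧ S₀ (y ⊞ z))
    (fun X a => (hd X a).imp fun _ h => ⟨h.1, h.2, h.2⟩)
    (fun n _ _ _ _ ⟨z, c, h, h'⟩ => ⟨z⟦n⟧, S.le_shift n _ c, k0_shift S₀ n h, k0_shift S₀ n h'⟩)
    (fun T k T' k' _ _ _ _ ⟨z, c, h, h'⟩ ⟨w, c', g, g'⟩ =>
      ⟨z ⊞ w, Tg.biprod S c c', k0_sum S₀ k h g, k0_sum S₀ k' h' g'⟩) a _ h
  have h3 := S₀.ext_of_isTriangulatedClosed₃ _ (binaryBiproductTriangle_distinguished Y Z) b h2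
  exact S₀.ext_of_isTriangulatedClosed₁ _ (binaryBiproductTriangle_distinguished X Z) h1 h3

theorem dense_eq [Tg S] [Tg S₀] (le : S₀ ≤ S) (hd : ∀ X, S X → ∃ Y, S Y ∧ S₀ (X ⊞ Y))
    (h : Subsingleton (K0 S)) : S₀ = S :=
  le_antisymm le fun _ a => dense_mem le hd a (Tg.zero S₀ (isZero_zero D)) (Subsingleton.elim _ _)

/-- The objects that are direct summands of objects of `S`. -/
def Th (S : ObjectProperty D) : ObjectProperty D := fun X => ∃ Y, S (X ⊞ Y)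

instance [Tg S] : Tg (Th S) := Tg.mk'
  (fun X h => ⟨X, Tg.zero S ((biprod_isZero_iff _ _).2 ⟨h, h⟩)⟩)
  (fun n _ ⟨Y, h⟩ => ⟨Y⟦n⟧, k0_shift S n h⟩) fun _ k ⟨_, h⟩ ⟨_, h'⟩ => ⟨_, k0_sum S k h h'⟩

theorem Th.of_retract [Tg S] (i : X ⟶ Y) (r : Y ⟶ X) (h : i ≫ r = 𝟙 X) (b : S Y) : Th S X := by
  obtain ⟨Z, g, k, hd⟩ := distinguished_cocone_triangle i
  have : Mono i := (SplitMono.mk r h).mono
  obtain ⟨e, -⟩ := exists_iso_binaryBiproduct_of_distTriang _ hd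
    (Triangle.mor₃_eq_zero_of_mono₁ _ hd this)
  exact ⟨Z, S.prop_of_iso e b⟩

theorem Th.le [Tg S] : S ≤ Th S := fun X a => ⟨X, Tg.biprod S a a⟩

theorem Th.dense [Tg S] (a : Th S X) : ∃ Y, Th S Y ∧ S (X ⊞ Y) :=
  a.imp fun _ h => ⟨⟨X, S.prop_of_iso (biprod.braiding _ _) h⟩, h⟩

end K0file

end Pool.Agent.Lib.MP_5d3e93_al.Gr
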