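import Pool.Agent.Lib.MP_5d3e93_al.Gr.F4
import Pool.Agent.Lib.MP_5d3e93_al.Gr.K0
import Pool.Agent.Lib.MP_5d3e93_al.Gr.Five

/-! Raising the support of a binary complex; realising pairs of total objects. -/

open CategoryTheory Limits Pretriangulated ZeroObject

namespace Pool.Agent.Lib.MP_5d3e93_al.Gr

variable {D : Type*} [Category* D] [HasZeroObject D] [HasShift D ℤ] [Preadditive D]
  [∀ n : ℤ, (shiftFunctor D n).Additive] [Pretriangulated D]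
variable {E : Type*} [Category* E] [HasZeroObject E] [HasShift E ℤ] [Preadditive E]
  [∀ n : ℤ, (shiftFunctor E n).Additive] [Pretriangulated E]
variable {ev : ℕ → E ⥤ D} {R : Bool → D ⥤ E} [∀ j, (ev j).CommShift ℤ]
  [∀ j, (ev j).IsTriangulated] [∀ b, (R b).CommShift ℤ] [∀ b, (R b).IsTriangulated]
  {S N : ObjectProperty D}

/-- The cone of a map that identifies the total objects is acyclic. -/
theorem ac_cone {T : Triangle E} (hT : T ∈ distTriang E)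
    (h : ∀ b, ∃ (P : D) (u : T.obj₂ ⟶ (R b).obj P), Un _ u ∧ Un _ (T.mor₁ ≫ u)) :
    Ac R T.obj₃ := by
  intro b Y φ
  obtain ⟨P, u, hu, hv⟩ := h b
  obtain ⟨g, hg⟩ := (hu Y).2 (T.mor₂ ≫ φ)
  have hg' : u ≫ (R b).map g = T.mor₂ ≫ φ := hg
  have g0 : g = 0 := (hv Y).1 (by
    change (T.mor₁ ≫ u) ≫ (R b).map g = (T.mor₁ ≫ u) ≫ (R b).map 0
    rw [Category.assoc, hg', Functor.map_zero, comp_zero, ← Category.assoc,
      comp_distTriang_mor_zero₁₂ _ hT, zero_comp])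
  obtain ⟨ψ, rfl⟩ := T.yoneda_exact₃ hT φ (by rw [← hg', g0, Functor.map_zero, comp_zero])
  obtain ⟨k, hk⟩ := (un_shift (R b) hv 1 Y).2 ψ
  rw [← hk]
  simp only [Functor.map_comp, Category.assoc]
  rw [← Category.assoc, comp_distTriang_mor_zero₃₁ _ hT, zero_comp]

/-- Maps with acyclic cone do not change the total object. -/
theorem un_of_trW {M' M : E} {s : M' ⟶ M} (hs : (Ac R).trW s) {b : Bool} {P : D}
    {u : M ⟶ (R b).obj P} (hu : Un _ u) : Un _ (s ≫ u) := fun Y => by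
  have key : Function.Bijective fun φ : M ⟶ (R b).obj Y => s ≫ φ := by
    constructor
    · obtain ⟨Z, g, h, hT, hZ⟩ := hs
      intro φ ψ e
      obtain ⟨k, hk⟩ := Triangle.yoneda_exact₂ _ hT (φ - ψ) (by
        change s ≫ (φ - ψ) = 0
        rw [Preadditive.comp_sub, sub_eq_zero]
        exact e)
      exact sub_eq_zero.1 (hk.trans ((congrArg (g ≫ ·) (hZ b Y k)).trans comp_zero))
    · obtain ⟨Z, g, h, hT, hZ⟩ := ((Ac R).trW_iff' s).1 hs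
      intro ψ
      obtain ⟨k, hk⟩ := Triangle.yoneda_exact₂ _ hT ψ (hZ b Y _)
      exact ⟨k, hk.symm⟩
  simpa only [Function.comp_def, Category.assoc] using key.comp (hu Y)

/-- The object receives a map with bounded acyclic cone from an object supported above `m`. -/
def Rais (ev : ℕ → E ⥤ D) (V : ObjectProperty E) (m : ℕ) : ObjectProperty E := fun Q =>
  ∃ (M : E) (s : M ⟶ Q), (∀ j, j < m → IsZero ((ev j).obj M)) ∧ V.trW s

omit [∀ j, (ev j).IsTriangulated] in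
theorem Rais.shift {V : ObjectProperty E} [Tg V] {m : ℕ} {Q : E} (h : Rais ev V m Q) (n : ℤ) :
    Rais ev V m (Q⟦n⟧) := by
  obtain ⟨M, s, a, b⟩ := h
  exact ⟨_, s⟦n⟧', fun j k => ((shiftFunctor D n).map_isZero (a j k)).of_iso
    (((ev j).commShiftIso n).app M), b.shift n⟩

variable [IsTriangulated E]

omit [∀ j, (ev j).CommShift ℤ] [∀ j, (ev j).IsTriangulated] [HasZeroObject D]
  [∀ n : ℤ, (shiftFunctor D n).Additive] [Pretriangulated D] in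
theorem Rais.comp {V : ObjectProperty E} [Tg V] {m : ℕ} {Q Q' : E} (h : Rais ev V m Q)
    {t : Q ⟶ Q'} (k : V.trW t) : Rais ev V m Q' := by
  obtain ⟨M, s, a, b⟩ := h
  exact ⟨M, s ≫ t, a, V.trW.comp_mem _ _ b k⟩

variable (β : Bs ev R) [Tg S]
include β

theorem Bs.rais_cone {T : Triangle E} (hT : T ∈ distTriang E)
    (a : ∀ m, Rais ev (Vd ev R S) m T.obj₁) (b : ∀ m, Rais ev (Vd ev R S) m T.obj₂) (m : ℕ) :
    Rais ev (Vd ev R S) m T.obj₃ := by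
  obtain ⟨M₂, s₂, l₂, w₂⟩ := b m
  obtain ⟨C, g, h, hC, ⟨-, n, hn⟩, ac⟩ := id w₂
  obtain ⟨M₁, s₁, l₁, w₁⟩ := a (max m n)
  obtain ⟨φ, hφ⟩ := Triangle.coyoneda_exact₂ _ hC (s₁ ≫ T.mor₁)
    (β.orth n hn ac (fun j k => l₁ j (lt_max_of_lt_right k)) _)
  obtain ⟨M₃, g', h', hM⟩ := distinguished_cocone_triangle φ
  obtain ⟨s₃, w₃, -⟩ := MorphismProperty.compatible_with_triangulation (W := (Vd ev R S).trW)
    _ T hM hT s₁ s₂ w₁ w₂ hφ.symm
  exact ⟨M₃, s₃, fun j k => Triangle.isZero₃_of_isZero₁₂ _ ((ev j).map_distinguished _ hM)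
    (l₁ j (lt_max_of_lt_left k)) (l₂ j k), w₃⟩

theorem Bs.rais_L (i : ℕ) {X : D} (h : S X) (m : ℕ) :
    Rais ev (Vd ev R S) m ((β.L i).obj X) := by
  obtain ⟨j, k, c, hj, ⟨e⟩, hk, hc, hl⟩ := β.up X
  have kV : ∀ i, Vd ev R S (k i) := fun i => by
    obtain ⟨g, h', hT⟩ := hk i
    refine ⟨(Wd ev S).ext_of_isTriangulatedClosed₃ _ hT (β.W_L i h) (β.W_L (i + 1) h),
      ac_cone hT fun b => ⟨X, (β.ι (i + 1) b).app X, β.un_L _ _ _, ?_⟩⟩
    change Un _ (j i ≫ _)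
    rw [hj]
    exact β.un_L _ _ _
  have hcr : ∀ n i, Rais ev (Vd ev R S) (i + n) (c i) := fun n => by
    induction n with
    | zero => exact fun i => ⟨c i, 𝟙 _, hl i, MorphismProperty.id_mem _ _⟩
    | succ n ih =>
      intro i
      obtain ⟨f, g, h', hT⟩ := hc i
      have := ((ih (i + 1)).shift (-1)).comp
        (ObjectProperty.trW.mk _ (inv_rot_of_distTriang _ hT) (kV i))
      rwa [show i + 1 + n = i + (n + 1) by omega] at this
  induction i with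
  | zero => exact (Nat.zero_add m ▸ hcr m 0).comp ((Vd ev R S).trW_of_isIso e.hom)
  | succ i ih =>
    obtain ⟨g, h', hT⟩ := hk i
    exact ih.comp (ObjectProperty.trW.mk _ hT (kV i))

theorem Bs.raise {Q : E} (h : Wd ev S Q) (m : ℕ) : ∃ (M : E) (s : M ⟶ Q),
    (∀ j, j < m → IsZero ((ev j).obj M)) ∧ (Vd ev R S).trW s := by
  have : Tg (fun Q => ∀ m, Rais ev (Vd ev R S) m Q : ObjectProperty E) := Tg.mk'
    (fun X a m => ⟨X, 𝟙 _, fun j _ => (ev j).map_isZero a, MorphismProperty.id_mem _ _⟩)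
    (fun n X a m => (a m).shift n)
    fun T hT a b => β.rais_cone (inv_rot_of_distTriang _ hT) (fun m => (b m).shift (-1)) a
  rw [β.W_eq] at h
  refine Cl.le (S := fun Q => ∀ m, Rais ev (Vd ev R S) m Q) ?_ _ h m
  rintro _ ⟨i, X, a, rfl⟩
  exact β.rais_L i a

theorem Bs.verdier {X Y : E} (f : X ⟶ Y) (a : Wd ev S X) (b : Vd ev R ⊤ Y) :
    ∃ (Z : E) (g : X ⟶ Z) (h : Z ⟶ Y), Vd ev R S Z ∧ g ≫ h = f := by
  obtain ⟨⟨-, m, hm⟩, ac⟩ := b
  obtain ⟨M, s, l, Z, g, h, hT, hZ⟩ := β.raise a m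
  obtain ⟨k, hk⟩ := Triangle.yoneda_exact₂ _ hT f (β.orth m hm ac l _)
  exact ⟨Z, g, k, hZ, hk.symm⟩

/-- A pair of maps between total objects comes from a map after raising the source. -/
theorem Bs.lift_pair {A B : E} (a : Wd ev S A) (b : Wd ev ⊤ B) {P P' Q Q' : D}
    {v : A ⟶ (R true).obj P} {v' : A ⟶ (R false).obj P'} (hv : Un _ v) (hv' : Un _ v')
    {u : B ⟶ (R true).obj Q} {u' : B ⟶ (R false).obj Q'} (hu : Un _ u) (hu' : Un _ u')
    (f : P ⟶ Q) (f' : P' ⟶ Q') : ∃ (A' : E) (w : A' ⟶ (R true).obj P)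
      (w' : A' ⟶ (R false).obj P') (φ : A' ⟶ B), Wd ev S A' ∧ Un _ w ∧ Un _ w' ∧
        φ ≫ u = w ≫ (R true).map f ∧ φ ≫ u' = w' ≫ (R false).map f' := by
  obtain ⟨-, m, hm⟩ := b
  obtain ⟨A', s, l, w⟩ := β.raise a m
  have w' : (Ac R).trW s := ObjectProperty.trW_monotone inf_le_right _ w
  obtain ⟨φ, hφ⟩ := (β.f4 m hm hu hu' l).2
    ((s ≫ v) ≫ (R true).map f, (s ≫ v') ≫ (R false).map f')
  obtain ⟨Z, g, h, hT, hZ⟩ := w
  exact ⟨A', s ≫ v, s ≫ v', φ, (Wd ev S).ext_of_isTriangulatedClosed₁ _ hT a hZ.1,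
    un_of_trW w' hv, un_of_trW w' hv', congrArg Prod.fst hφ, congrArg Prod.snd hφ⟩

omit β [IsTriangulated E] [Tg S] in
theorem un_cone' (F : D ⥤ E) [F.CommShift ℤ] [F.IsTriangulated] {T : Triangle E}
    (hT : T ∈ distTriang E) {T' : Triangle D} (hT' : T' ∈ distTriang D)
    {w : T.obj₁ ⟶ F.obj T'.obj₁} {u : T.obj₂ ⟶ F.obj T'.obj₂} (hw : Un F w) (hu : Un F u)
    (e : T.mor₁ ≫ u = w ≫ F.map T'.mor₁) : ∃ t : T.obj₃ ⟶ F.obj T'.obj₃, Un F t := by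
  obtain ⟨c, h₁, h₂⟩ := complete_distinguished_triangle_morphism T _ hT
    (F.map_distinguished _ hT') w u e
  exact ⟨c, un_cone F hT hT' ⟨w, u, c, e, h₁, h₂⟩ hw hu⟩

theorem Bs.pair {P P' : D} (a : S P) (b : S P') (h : K0.mk P a = K0.mk P' b) :
    ∃ M, Wd ev S M ∧ ∃ (u : M ⟶ (R true).obj P) (u' : M ⟶ (R false).obj P'),
      Un _ u ∧ Un _ u' := by
  let r : D → D → Prop := fun P P' => ∃ M, Wd ev S M ∧
    ∃ (u : M ⟶ (R true).obj P) (u' : M ⟶ (R false).obj P'), Un _ u ∧ Un _ u'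
  have h1 : ∀ (n : ℤ) X Y, r X Y → r (X⟦n⟧) (Y⟦n⟧) := by
    rintro n X Y ⟨M, w, u, u', hu, hu'⟩
    exact ⟨M⟦n⟧, (Wd ev S).le_shift n _ w, _, _, un_shift _ hu n, un_shift _ hu' n⟩
  refine K0.rel r (fun X k => ⟨_, β.W_L 0 k, _, _, β.un_L 0 true X, β.un_L 0 false X⟩)
    (fun n X Y _ _ => h1 n X Y) ?_ a b h
  rintro T hT T' hT' - - - - ⟨B, wB, u, u', hu, hu'⟩ k
  obtain ⟨A, wA, v, v', hv, hv'⟩ := h1 (-1) _ _ k
  obtain ⟨A', w, w', φ, wA', hw, hw', e, e'⟩ := β.lift_pair wA ⟨fun _ => trivial, wB.2⟩ hv hv'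
    hu hu' T.invRotate.mor₁ T'.invRotate.mor₁
  obtain ⟨C, g, h', hC⟩ := distinguished_cocone_triangle φ
  obtain ⟨t, ht⟩ := un_cone' (R true) hC (inv_rot_of_distTriang _ hT) hw hu e
  obtain ⟨t', ht'⟩ := un_cone' (R false) hC (inv_rot_of_distTriang _ hT') hw' hu' e'
  exact ⟨C, (Wd ev S).ext_of_isTriangulatedClosed₃ _ hC wA' wB, t, t', ht, ht'⟩

theorem Bs.adjust {M : E} (hM : Wd ev ⊤ M) {P P' : D} {u : M ⟶ (R true).obj P}
    {u' : M ⟶ (R false).obj P'} (hu : Un _ u) (hu' : Un _ u') (a : S P) (b : S P')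
    (h : K0.mk P a = K0.mk P' b) : ∃ (M' : E) (s : M ⟶ M'), Ac R M' ∧ (Wd ev S).trW s := by
  obtain ⟨A, wA, v, v', hv, hv'⟩ := β.pair a b h
  obtain ⟨A', w, w', φ, wA', hw, hw', e, e'⟩ := β.lift_pair wA hM hv hv' hu hu' (𝟙 _) (𝟙 _)
  rw [CategoryTheory.Functor.map_id, Category.comp_id] at e e'
  obtain ⟨C, g, h', hC⟩ := distinguished_cocone_triangle φ
  refine ⟨C, g, ac_cone hC ?_, ObjectProperty.trW.mk' _ hC wA'⟩
  rintro (_ | _)
  · exact ⟨P', u', hu', e' ▸ hw'⟩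
  · exact ⟨P, u, hu, e ▸ hw⟩

end Pool.Agent.Lib.MP_5d3e93_al.Gr
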