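import Pool.Agent.Lib.MP_5d3e93_al.Gr.LocK
import Pool.Agent.Lib.MP_5d3e93_al.Gr.LocB
import Pool.Agent.Lib.MP_5d3e93_al.Gr.F4b

/-! The construction of binary complexes keeps exact sequences. -/

open CategoryTheory Limits Pretriangulated ZeroObject

set_option linter.unusedSectionVars false

namespace Pool.Agent.Lib.MP_5d3e93_al.Gr

variable {D : Type*} [Category* D] [HasZeroObject D] [HasShift D ℤ] [Preadditive D]
  [∀ n : ℤ, (shiftFunctor D n).Additive] [Pretriangulated D]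
variable {D' : Type*} [Category* D'] [HasZeroObject D'] [HasShift D' ℤ] [Preadditive D']
  [∀ n : ℤ, (shiftFunctor D' n).Additive] [Pretriangulated D']
variable {E : Type*} [Category* E] [HasZeroObject E] [HasShift E ℤ] [Preadditive E]
  [∀ n : ℤ, (shiftFunctor E n).Additive] [Pretriangulated E]
variable {E' : Type*} [Category* E'] [HasZeroObject E'] [HasShift E' ℤ] [Preadditive E']
  [∀ n : ℤ, (shiftFunctor E' n).Additive] [Pretriangulated E']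

theorem f5_iso {D E : Type*} [Category* D] [Category* E] {R : D ⥤ E} {M M' : E} {P P' : D}
    {u : M ⟶ R.obj P} (h : Un R u) (a : M' ⟶ M) [IsIso a] (b : P ⟶ P') [IsIso b] :
    Un R (a ≫ u ≫ R.map b) := fun Y => by
  have e : (fun g : P' ⟶ Y => (a ≫ u ≫ R.map b) ≫ R.map g) =
      (fun φ => a ≫ φ) ∘ (fun g : P ⟶ Y => u ≫ R.map g) ∘ fun g => b ≫ g := by
    funext g; simp
  rw [e]
  exact ((asIso a).homFromEquiv.symm.bijective).comp
    ((h Y).comp (asIso b).homFromEquiv.symm.bijective)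

theorem f5_zero {D E : Type*} [Category* D] [Category* E] {R : D ⥤ E} {M : E} {P : D}
    (hM : IsZero M) (hP : IsZero P) (u : M ⟶ R.obj P) : Un R u := fun Y =>
  ⟨fun _ _ _ => hP.eq_of_src _ _, fun _ => ⟨hP.to_ Y, hM.eq_of_src _ _⟩⟩

variable {ev : ℕ → E ⥤ D} {R : Bool → D ⥤ E} [∀ j, (ev j).CommShift ℤ]
  [∀ j, (ev j).IsTriangulated] [∀ b, (R b).CommShift ℤ] [∀ b, (R b).IsTriangulated]
  {ev' : ℕ → E' ⥤ D'} {R' : Bool → D' ⥤ E'} [∀ j, (ev' j).CommShift ℤ]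
  [∀ j, (ev' j).IsTriangulated] [∀ b, (R' b).CommShift ℤ] [∀ b, (R' b).IsTriangulated]
  {β : Bs ev R} {β' : Bs ev' R'} {F : D ⥤ D'} {G : E ⥤ E'} [F.CommShift ℤ] [F.IsTriangulated]
  [G.CommShift ℤ] [G.IsTriangulated] (μ : Bm β β' F G) {N S : ObjectProperty D}
  {S' : ObjectProperty D'}
include μ

theorem Bm.f5_ex {M : E} (h : Wd ev ⊤ M) (b : Bool) : ∃ (P : D) (u : M ⟶ (R b).obj P),
    Un _ u ∧ Un (R' b) (G.map u ≫ (μ.eR b).hom.app P) := by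
  have := μ.csR b
  have cone : ∀ T ∈ distTriang E, (∃ (P : D) (u : T.obj₁ ⟶ (R b).obj P),
      Un _ u ∧ Un (R' b) (G.map u ≫ (μ.eR b).hom.app P)) → (∃ (P : D) (u : T.obj₂ ⟶ (R b).obj P),
      Un _ u ∧ Un (R' b) (G.map u ≫ (μ.eR b).hom.app P)) → ∃ (P : D) (u : T.obj₃ ⟶ (R b).obj P),
      Un _ u ∧ Un (R' b) (G.map u ≫ (μ.eR b).hom.app P) := by
    rintro T hT ⟨P₁, u₁, a₁, b₁⟩ ⟨P₂, u₂, a₂, b₂⟩
    obtain ⟨f, hf⟩ := (a₁ P₂).2 (T.mor₁ ≫ u₂)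
    obtain ⟨P₃, g, k, hT'⟩ := distinguished_cocone_triangle f
    let φ := completeDistinguishedTriangleMorphism T _ hT ((R b).map_distinguished _ hT') u₁ u₂
      hf.symm
    refine ⟨P₃, φ.hom₃, un_cone (R b) hT hT' φ a₁ a₂, ?_⟩
    let ψ : G.mapTriangle.obj T ⟶ (R' b).mapTriangle.obj (F.mapTriangle.obj (Triangle.mk f g k)) :=
      G.mapTriangle.map φ ≫ (Functor.mapTriangleCompIso (R b) G).inv.app _ ≫
        (Functor.mapTriangleIso (μ.eR b)).hom.app _ ≫ (Functor.mapTriangleCompIso F (R' b)).hom.app _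
    have e₁ : ψ.hom₁ = G.map u₁ ≫ (μ.eR b).hom.app P₁ :=
      congrArg (G.map u₁ ≫ ·) ((Category.id_comp _).trans (Category.comp_id _))
    have e₂ : ψ.hom₂ = G.map u₂ ≫ (μ.eR b).hom.app P₂ :=
      congrArg (G.map u₂ ≫ ·) ((Category.id_comp _).trans (Category.comp_id _))
    have e₃ : ψ.hom₃ = G.map φ.hom₃ ≫ (μ.eR b).hom.app P₃ :=
      congrArg (G.map φ.hom₃ ≫ ·) ((Category.id_comp _).trans (Category.comp_id _))
    have := un_cone (R' b) (G.map_distinguished _ hT) (F.map_distinguished _ hT') ψ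
      (e₁ ▸ b₁) (e₂ ▸ b₂)
    rwa [e₃] at this
  have sh : ∀ (n : ℤ) (X : E), (∃ (P : D) (u : X ⟶ (R b).obj P),
      Un _ u ∧ Un (R' b) (G.map u ≫ (μ.eR b).hom.app P)) → ∃ (P : D) (u : X⟦n⟧ ⟶ (R b).obj P),
      Un _ u ∧ Un (R' b) (G.map u ≫ (μ.eR b).hom.app P) := by
    rintro n X ⟨P, u, a, c⟩
    refine ⟨_, _, un_shift (R b) a n, ?_⟩
    have := f5_iso (un_shift (R' b) c n) ((G.commShiftIso n).hom.app X)
      ((F.commShiftIso n).inv.app P)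
    refine (congrArg (Un (R' b)) ?_).mpr this
    have n1 := (G.commShiftIso n).hom.naturality u
    dsimp at n1
    rw [NatTrans.app_shift (μ.eR b).hom n P]
    simp [Functor.commShiftIso_comp_hom_app, Functor.commShiftIso_comp_inv_app,
      ← Functor.map_comp_assoc G, reassoc_of% n1]
  rw [β.W_eq] at h
  induction h with
  | of a =>
    obtain ⟨i, X, -, rfl⟩ := a
    refine ⟨X, _, β.un_L i b X, ?_⟩
    rw [μ.hι]
    simpa using f5_iso (β'.un_L i b (F.obj X)) ((μ.eL i).hom.app X) (𝟙 _)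
  | zero a => exact ⟨0, 0, f5_zero a (isZero_zero D) _,
      f5_zero (G.map_isZero a) (F.map_isZero (isZero_zero D)) _⟩
  | shift n _ a => exact sh n _ a
  | ext T hT _ _ a c => exact cone _ (inv_rot_of_distTriang T hT) (sh _ _ c) a

theorem Bm.un {M : E} (h : Wd ev ⊤ M) {b : Bool} {P : D} {u : M ⟶ (R b).obj P} (hu : Un _ u) :
    Un (R' b) (G.map u ≫ (μ.eR b).hom.app P) := by
  obtain ⟨P₀, u₀, a, c⟩ := μ.f5_ex h b
  obtain ⟨e, rfl⟩ := a.uniq hu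
  have := f5_iso c (𝟙 _) (F.map e.hom)
  convert this using 1
  have n := (μ.eR b).hom.naturality e.hom
  dsimp at n
  simp [n]

theorem Bm.ac {M : E} (h : Vd ev R ⊤ M) : Ac R' (G.obj M) := fun b => by
  obtain ⟨P, -, u, hu⟩ := β.tot h.1 b
  exact (μ.un h.1 hu).isZero_iff.1 (F.map_isZero (hu.isZero_iff.2 (h.2 b)))

theorem Bm.W_map [Tg S'] (h : S ≤ S'.inverseImage F) : Wd ev S ≤ (Wd ev' S').inverseImage G :=
  fun M ⟨a, m, c⟩ => ⟨fun j => S'.prop_of_iso ((μ.eE j).app M).symm (h _ (a j)), m, fun j k =>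
    (F.map_isZero (c j k)).of_iso ((μ.eE j).app M)⟩

theorem Bm.V_map [Tg S'] (h : S ≤ S'.inverseImage F) :
    Vd ev R S ≤ (Vd ev' R' S').inverseImage G := fun M a =>
  ⟨μ.W_map h M a.1, μ.ac ⟨⟨fun _ => trivial, a.1.2⟩, a.2⟩⟩

theorem Bm.f5_inj (i : ℕ) {X : D} {M : E'} {θ θ' : G.obj ((β.L i).obj X) ⟶ M}
    (h : F.map ((β.adj i).unit.app X) ≫ (μ.eE i).inv.app _ ≫ (ev' i).map θ =
      F.map ((β.adj i).unit.app X) ≫ (μ.eE i).inv.app _ ≫ (ev' i).map θ') : θ = θ' := by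
  have e : ∀ θ : G.obj ((β.L i).obj X) ⟶ M, (β'.adj i).homEquiv _ _ ((μ.eL i).inv.app X ≫ θ) =
      F.map ((β.adj i).unit.app X) ≫ (μ.eE i).inv.app _ ≫ (ev' i).map θ := fun θ => by
    rw [Adjunction.homEquiv_unit, ← μ.hη]
    simp [← Functor.map_comp]
  rw [← e, ← e] at h
  exact (cancel_epi _).1 (((β'.adj i).homEquiv _ _).injective h)

theorem Bm.f5_map (i : ℕ) {X : D} {Y : E} (f : (β.L i).obj X ⟶ Y) :
    F.map ((β.adj i).unit.app X) ≫ (μ.eE i).inv.app _ ≫ (ev' i).map (G.map f) =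
      F.map ((β.adj i).homEquiv _ _ f) ≫ (μ.eE i).inv.app Y := by
  have n := (μ.eE i).inv.naturality f
  dsimp at n
  rw [Adjunction.homEquiv_unit, F.map_comp, Category.assoc, n]

variable [IsTriangulated D] [IsTriangulated E] [Tg N] [Tg S] [Tg S']

theorem Bm.locW (h : Loc F N S S') : Loc G (Wd ev N) (Wd ev S) (Wd ev' S') := by
  have tr : ∀ i {X' X : D} {s : X' ⟶ X}, N.trW s → (Wd ev N).trW ((β.L i).map s) := by
    rintro i X' X s ⟨Z, g, k, hT, hZ⟩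
    exact ObjectProperty.trW.mk _ ((β.L i).map_distinguished _ hT) (β.W_L i hZ)
  have lo : LocOn G (Wd ev N) (Wd ev S) := by
    refine locOn_of_gen (fun M a => ⟨fun j => h.le _ (a.1 j), a.2⟩)
      (fun M a => β'.cons _ fun j => (h.kill _ (a.1 j)).of_iso ((μ.eE j).app M))
      β.W_eq.le ?_ ?_
    · rintro _ Y ⟨i, X, hX, rfl⟩ hY φ
      obtain ⟨X', s, f, a, e⟩ := h.toLocOn.full' hX (hY.1 i)
        (F.map ((β.adj i).unit.app X) ≫ (μ.eE i).inv.app _ ≫ (ev' i).map φ ≫ (μ.eE i).hom.app Y)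
      refine ⟨_, (β.L i).map s, ((β.adj i).homEquiv _ _).symm f, tr i a, μ.f5_inj i ?_⟩
      rw [μ.f5_map, Equiv.apply_symm_apply, ← e, (ev' i).map_comp,
        reassoc_of% (μ.f5_map i ((β.L i).map s))]
      have n : (β.adj i).homEquiv _ _ ((β.L i).map s) = s ≫ (β.adj i).unit.app X := by
        rw [Adjunction.homEquiv_unit]; exact ((β.adj i).unit.naturality s).symm
      simp [n]
    · rintro _ Y ⟨i, X, hX, rfl⟩ hY f e
      have e1 := μ.f5_map i f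
      rw [e, Functor.map_zero, comp_zero, comp_zero] at e1
      obtain ⟨X', s, a, c⟩ := h.toLocOn.faith' hX (hY.1 i) ((β.adj i).homEquiv _ _ f)
        ((cancel_mono _).1 (e1.symm.trans zero_comp.symm))
      refine ⟨_, (β.L i).map s, tr i a, ((β.adj i).homEquiv _ _).injective ?_⟩
      rw [Adjunction.homEquiv_naturality_left, c, Adjunction.homEquiv_unit, Functor.map_zero,
        comp_zero]
  refine ⟨lo, fun M a c => ⟨fun j => h.thick _ (a.1 j)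
    (((ev' j).map_isZero c).of_iso ((μ.eE j).app M).symm), a.2⟩, μ.W_map h.maps, ?_⟩
  have := lo.tg_map
  refine β'.W_eq.le.trans (Cl.le (S := (Wd ev S).map G) ?_)
  rintro _ ⟨i, X', a, rfl⟩
  obtain ⟨X, c, ⟨e⟩⟩ := h.surj X' a
  exact ⟨_, β.W_L i c, ⟨(μ.eL i).app X ≪≫ (β'.L i).mapIso e⟩⟩

omit [IsTriangulated D] [IsTriangulated E] [Tg N] [Tg S'] in
theorem Bm.f5_tot (h : Loc F N S S') {M : E} (a : Wd ev S M) (c : Ac R' (G.obj M)) (b : Bool) :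
    ∃ P, N P ∧ ∃ u : M ⟶ (R b).obj P, Un (R b) u := by
  obtain ⟨P, k, u, hu⟩ := β.tot a b
  exact ⟨P, h.thick _ k ((μ.un ⟨fun _ => trivial, a.2⟩ hu).isZero_iff.2 (c b)), u, hu⟩

theorem Bm.bd (h : Loc F N S S') : ∃ δ : K0 (Vd ev' R' S') →+ K0 N, ∀ M, Wd ev S M →
    ∀ (P P' : D) (u : M ⟶ (R true).obj P) (u' : M ⟶ (R false).obj P'), Un _ u → Un _ u' →
      ∀ (a : N P) (b : N P') (c : Vd ev' R' S' (G.obj M)),
        δ (K0.mk _ c) = K0.mk P a - K0.mk P' b := by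
  have l := (μ.locW h).restrict (V := Vd ev' R' S') inf_le_left
  choose P hP u hu using fun (M : E) (a : (Wd ev S ⊓ (Vd ev' R' S').inverseImage G) M) =>
    μ.f5_tot h a.1 a.2.2
  have add : ∀ T ∈ distTriang E, ∀ a₁ a₂ a₃ b, K0.mk _ (hP T.obj₂ a₂ b) =
      K0.mk _ (hP T.obj₁ a₁ b) + K0.mk _ (hP T.obj₃ a₃ b) := fun T hT a₁ a₂ a₃ b => by
    obtain ⟨f, g, k, hT'⟩ := un_tri (R b) hT (hu _ a₁ b) (hu _ a₂ b) (hu _ a₃ b)
    exact K0.mk_tri hT' _ _ _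
  obtain ⟨δ, hδ⟩ := l.k0_desc (K0.lift (fun M a => K0.mk _ (hP M a true) - K0.mk _ (hP M a false))
    fun T hT a₁ a₂ a₃ => by rw [add T hT a₁ a₂ a₃, add T hT a₁ a₂ a₃]; abel) fun M a => by
      rw [K0.lift_mk, sub_eq_zero]
      exact β.tot_class a (hu _ _ true) (hu _ _ false) _ _
  refine ⟨δ, fun M k Q Q' v v' hv hv' a b c => ?_⟩
  have e := DFunLike.congr_fun hδ (K0.mk M ⟨k, c⟩)
  rw [AddMonoidHom.comp_apply, K0.map_mk, K0.lift_mk] at e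
  obtain ⟨e₁, -⟩ := (hu M ⟨k, c⟩ true).uniq hv
  obtain ⟨e₂, -⟩ := (hu M ⟨k, c⟩ false).uniq hv'
  rw [e, K0.mk_iso e₁ _ a, K0.mk_iso e₂ _ b]

theorem Bm.inj (h : Loc F N S S') (z : Subsingleton (K0 (Vd ev' R' S'))) (X Y : D) (a : N X)
    (b : N Y) (e : K0.mk X (h.le _ a) = K0.mk Y (h.le _ b)) : K0.mk X a = K0.mk Y b := by
  obtain ⟨δ, hδ⟩ := μ.bd h
  obtain ⟨M, k, u, u', hu, hu'⟩ := β.pair _ _ e
  have k' : Wd ev ⊤ M := ⟨fun _ => trivial, k.2⟩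
  have c : Vd ev' R' S' (G.obj M) := ⟨μ.W_map h.maps M k, fun t => by
    cases t
    · exact (μ.un k' hu').isZero_iff.1 (h.kill _ b)
    · exact (μ.un k' hu).isZero_iff.1 (h.kill _ a)⟩
  rw [← sub_eq_zero, ← hδ M k X Y u u' hu hu' a b c, Subsingleton.elim (K0.mk _ c) 0, map_zero]

theorem Bm.locV (h : Loc F N S S') (inj : ∀ X Y (a : N X) (b : N Y),
    K0.mk X (h.le _ a) = K0.mk Y (h.le _ b) → K0.mk X a = K0.mk Y b) :
    Loc G (Vd ev R N) (Vd ev R S) (Vd ev' R' S') := by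
  have l := μ.locW h
  have lo := l.toLocOn.verdier (V := Vd ev R S) inf_le_left fun X Y f a b => by
    obtain ⟨Z, g, k, c, e⟩ := β.verdier f a ⟨⟨fun _ => trivial, b.1.2⟩, b.2⟩
    exact ⟨Z, g, k, ⟨l.le _ c.1, c.2⟩, c.1, e⟩
  have e : Vd ev R S ⊓ Wd ev N = Vd ev R N :=
    le_antisymm (fun M a => ⟨a.2, a.1.2⟩) fun M a => ⟨⟨l.le _ a.1, a.2⟩, a.1⟩
  rw [e] at lo
  refine ⟨lo, fun M a c => ⟨l.thick M a.1 c, a.2⟩, μ.V_map h.maps, fun Y a => ?_⟩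
  obtain ⟨M, k, ⟨i⟩⟩ := l.surj Y a.1
  have c : Ac R' (G.obj M) := (Ac R').prop_of_iso i.symm a.2
  obtain ⟨P, p, u, hu⟩ := μ.f5_tot h k c true
  obtain ⟨P', p', u', hu'⟩ := μ.f5_tot h k c false
  obtain ⟨M', s, c', t⟩ := β.adjust ⟨fun _ => trivial, k.2⟩ hu hu' p p'
    (inj _ _ _ _ (β.tot_class k hu hu' _ _))
  have := isIso_of_kill l.kill t
  exact ⟨M', ⟨(Tg.of_trW l.le t).1 k, c'⟩, ⟨(asIso (G.map s)).symm ≪≫ i⟩⟩

end Pool.Agent.Lib.MP_5d3e93_al.Gr
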