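import Pool.Agent.Lib.MP_5d3e93_al.Gr.DetA
import Pool.Agent.Lib.MP_5d3e93_al.Gr.DetB
import Pool.Agent.Lib.MP_5d3e93_al.Gr.Of
import Pool.Agent.Lib.MP_5d3e93_al.Gr.ExaG
import Pool.Agent.Lib.MP_5d3e93_al.Gr.F5
import Pool.Agent.Lib.MP_5d3e93_al.Gr.BsI

/-! Acyclic binary complexes are the contractible ones. -/

open CategoryTheory Limits Pretriangulated ZeroObject

namespace Pool.Agent.Lib.MP_5d3e93_al.Gr

universe v u v' u'

theorem det_un {D E : Type*} [Category* D] [Category* E] {F : E ⥤ D} {G : D ⥤ E} (ad : F ⊣ G)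
    {M : E} {x : D} (e : F.obj M ≅ x) : Un G (ad.unit.app M ≫ G.map e.hom) := fun Y => by
  have k := (ad.homEquiv _ Y).bijective.comp (five_bij_pre (Z := Y) e)
  refine (congrArg Function.Bijective (funext fun g => ?_)).mp k
  simp [Adjunction.homEquiv_unit]

theorem det_sq {D E : Type*} [Category* D] [Category* E] {c r c' : D ⥤ E} (p : c ⟶ r)
    (i : r ⟶ c') {M : E} {x x' y y' : D} (u : M ⟶ c.obj x) (u' : M ⟶ c'.obj x') (d : x' ⟶ x)
    {e : x ⟶ y} {e' : x' ⟶ y'} {d' : y' ⟶ y} (h : u ≫ p.app x ≫ i.app x = u' ≫ c'.map d)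
    (k : d ≫ e = e' ≫ d') :
    (u ≫ c.map e) ≫ p.app y ≫ i.app y = (u' ≫ c'.map e') ≫ c'.map d' := by
  rw [Category.assoc, p.naturality_assoc, i.naturality, reassoc_of% h, Category.assoc,
    ← c'.map_comp, ← c'.map_comp, k]

namespace Am

variable {a : Am.{v, u}} {b : Am.{v', u'}}

/-- The derived functor of an object in degree zero. -/
noncomputable def Map.detE (f : Map a b) (X : a.A) :
    f.D.obj (a.sg.obj X) ≅ b.sg.obj (f.F.obj X) :=
  b.nq.mapIso ((HomologicalComplex.singleMapHomologicalComplex f.F (ComplexShape.up ℤ) 0).app X)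

theorem Map.detE_nat (f g : Map a b) (α : f.F ⟶ g.F) (X : a.A) :
    (f.nat g α).app (a.sg.obj X) ≫ (g.detE X).hom = (f.detE X).hom ≫ b.sg.map (α.app X) := by
  have k : (NatTrans.mapHomologicalComplex α _).app
      ((HomologicalComplex.single a.A (ComplexShape.up ℤ) 0).obj X) ≫
      (HomologicalComplex.singleMapHomologicalComplex g.F (ComplexShape.up ℤ) 0).hom.app X =
      (HomologicalComplex.singleMapHomologicalComplex f.F (ComplexShape.up ℤ) 0).hom.app X ≫
      (HomologicalComplex.single b.A (ComplexShape.up ℤ) 0).map (α.app X) := by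
    apply HomologicalComplex.to_single_hom_ext
    simp only [HomologicalComplex.comp_f, NatTrans.mapHomologicalComplex_app_f,
      HomologicalComplex.singleMapHomologicalComplex_hom_app_self,
      HomologicalComplex.single_map_f_self]
    exact (α.naturality_assoc _ _).symm.trans ((congrArg (_ ≫ ·)
      (Iso.inv_hom_id_assoc _ _).symm).trans (Category.assoc _ _ _).symm)
  have k' := congrArg b.nq.map k
  rw [Functor.map_comp, Functor.map_comp] at k'
  exact (congrArg (· ≫ _) (f.nq_nat g α _)).trans k'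

theorem det_add (a : Am.{v, u}) : a.sg.Additive :=
  inferInstanceAs (((HomotopyCategory.singleFunctors a.A).functor 0) ⋙ a.Q).Additive

theorem det_zero (a : Am.{v, u}) {Q : Bin a.A} {j : ℕ} (h : IsZero (Q.X j)) :
    IsZero ((a.ev j).D.obj (a.B.sg.obj Q)) :=
  have := a.det_add
  (a.sg.map_isZero h).of_iso ((a.ev j).detE Q)

end Am

section Bridge
variable {a : Am.{v, u}} {A : Type (max u v)} [Category.{v} A] [Preadditive A]
  [HasZeroObject A] [HasBinaryBiproducts A] {P : ObjectProperty a.A}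

variable (A) in
/-- The strings. -/
noncomputable def detR (b : Bool) (n : ℕ) : Am.Map (Am.of A) (Am.of A).B :=
  @Am.ofMap A _ _ _ _ (Am.of A).B (Det.sR A b n) (Det.sR_add A b n)

variable (A) in
/-- The coinduced complexes. -/
noncomputable def detC (b : Bool) (n : ℕ) : Am.Map (Am.of A) (Am.of A).B :=
  @Am.ofMap A _ _ _ _ (Am.of A).B (Det.sC A b n) (Det.sC_add A b n)

/-- The differential as a natural transformation. -/
def detD (b : Bool) (n : ℕ) : Bin.ev A (n + 1) ⟶ Bin.ev A n where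
  app Q := Q.d b n
  naturality _ _ f := Bin.comm f b n

theorem det_key (b : Bool) (n : ℕ) {M : (Am.of A).B.D}
    {u : M ⟶ (detC A b n).D.obj (((Am.of A).ev n).D.obj M)}
    {u' : M ⟶ (detC A b (n + 1)).D.obj (((Am.of A).ev (n + 1)).D.obj M)}
    (h : u = ((Am.of A).B.idm.nat (((Am.of A).ev n).comp (detC A b n)) (Det.sA A b n).unit).app M)
    (h' : u' = ((Am.of A).B.idm.nat (((Am.of A).ev (n + 1)).comp (detC A b (n + 1)))
      (Det.sA A b (n + 1)).unit).app M) :
    u ≫ ((detC A b n).nat (detR A b (n + 1)) (Det.sP A b n)).app _ ≫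
      ((detR A b (n + 1)).nat (detC A b (n + 1)) (Det.sI A b (n + 1))).app _ =
      u' ≫ (detC A b (n + 1)).D.map
        ((((Am.of A).ev (n + 1)).nat ((Am.of A).ev n) (detD b n)).app M) := by
  rw [h, h', Am.Map.map_nat, Am.Map.nat_obj, Am.Map.nat_obj]
  refine (congrArg (_ ≫ ·) (Am.Map.nat_app_comp _ _ _ _ _ _ rfl M)).trans
    ((Am.Map.nat_app_comp _ _ _ _ _ _ ?_ M).trans (Am.Map.nat_app_comp _ _ _ _ _ _ rfl M).symm)
  exact NatTrans.ext (funext fun T => Det.s_key b n T)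

theorem det_tower (Q : Bin A) (h : Q.Bd) (b : Bool) :
    ∃ η : ∀ n, (Am.of A).B.sg.obj Q ⟶ (detC A b n).D.obj ((Am.of A).sg.obj (Q.X n)),
      DetT (fun n => (detR A b n).D) (fun n => (detC A b n).D)
        (fun n => (detR A b n).nat (detC A b n) (Det.sI A b n))
        (fun n => (detC A b n).nat (detR A b (n + 1)) (Det.sP A b n)) ((Am.of A).B.sg.obj Q)
        (fun n => (Am.of A).sg.obj (Q.X n)) η fun n => (Am.of A).sg.map (Q.d b n) := by
  choose ad hu _ using fun n => ((Am.of A).ev n).exists_adj (detC A b n) (Det.sA A b n)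
  refine ⟨fun n => (ad n).unit.app _ ≫ (detC A b n).D.map (((Am.of A).ev n).detE Q).hom,
    fun n Y => ?_, fun n Y => ?_, fun n => ?_, ?_⟩
  · exact Am.zo_tri (f₁ := detR A b n) (f := detC A b n) (f₂ := detR A b (n + 1))
      (Det.s_zero b n) (fun j X => Det.s_spl b X n j) Y
  · exact det_un (ad n) _ Y
  · have k := det_sq _ _ _ _ _ (det_key b n (hu n _) (hu (n + 1) _))
      (((Am.of A).ev (n + 1)).detE_nat ((Am.of A).ev n) (detD b n) Q)
    exact k
  · obtain ⟨m, hm⟩ := h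
    exact ⟨m, fun n k Y φ => (Am.of A).bs.det_orth n (Y := (detR A b n).D.obj Y)
      (fun j l => (Am.of A).det_zero (hm j (k.trans l)))
      (fun j l => ((detR A b n).comp ((Am.of A).ev j)).isZero (fun X => Det.s_low b X n j l) Y) φ⟩

theorem det (Q : Bin A) (h : Q.Bd) (b : Bool) :
    (∀ Y (φ : (Am.of A).B.sg.obj Q ⟶ ((Am.of A).R b).D.obj Y), φ = 0) ↔ Ctr Q b := by
  obtain ⟨η, t⟩ := det_tower Q h b
  have := (Am.of A).det_add
  have : ∀ n, (detC A b n).D.Additive := fun n => inferInstance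
  refine ⟨fun z => ?_, fun ⟨s, h0, h1⟩ => t.of_ctr (fun n => (Am.of A).sg.map (s n)) ?_ fun n => ?_⟩
  · have k := fun y : A => t.exact z ((Am.of A).sg.obj y)
      fun n k hk f => (Am.of_pj (Q.X n)).ext_zero y hk f
    have bij := fun (x y : A) => (Am.of_pj x).sg_bij y
    refine det_ctr Q h b (fun y f e => (bij _ _).1 (((k y).1 _ ?_).trans
      ((Am.of A).sg.map_zero _ _).symm)) fun y n f e => ?_
    · exact ((Am.of A).sg.map_comp _ _).symm.trans
        ((congrArg _ e).trans ((Am.of A).sg.map_zero _ _))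
    · obtain ⟨g, hg⟩ := (k y).2 n ((Am.of A).sg.map f) (((Am.of A).sg.map_comp _ _).symm.trans
        ((congrArg _ e).trans ((Am.of A).sg.map_zero _ _)))
      obtain ⟨g, rfl⟩ := (bij _ _).2 g
      exact ⟨g, (bij _ _).1 (((Am.of A).sg.map_comp _ _).trans hg)⟩
  · exact ((Am.of A).sg.map_comp _ _).symm.trans ((congrArg _ h0).trans ((Am.of A).sg.map_id _))
  · exact (congrArg₂ (· + ·) ((Am.of A).sg.map_comp _ _) ((Am.of A).sg.map_comp _ _)).symm.trans
      ((Am.of A).sg.map_add.symm.trans ((congrArg _ (h1 n)).trans ((Am.of A).sg.map_id _)))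

theorem Am.sg_W (a : Am.{v, u}) {P : ObjectProperty a.A} {Q : Bin a.A} (h : Pb P Q) :
    Am.W (a.gen P) (a.B.sg.obj Q) :=
  ⟨fun j => Cl.iso ((a.ev j).detE Q).symm (Cl.of ⟨_, h.2 j, ⟨Iso.refl _⟩⟩),
    h.1.imp fun _ k j l => a.det_zero (k j l)⟩

/-- `Bm.un` along the `(pt.e k).B`, `refl`. -/
theorem Pt.det (pt : Pt a A P) (Q : Bin a.A) (h : Q.Bd) :
    Ac (fun b => (a.R b).D) (a.B.sg.obj Q) ↔ ∀ b k, Ctr ((Bin.map (pt.e k).F).obj Q) b := by
  have hW : Wd (fun j => (a.ev j).D) ⊤ (a.B.sg.obj Q) :=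
    ⟨fun _ => trivial, h.imp fun _ k j l => a.det_zero (k j l)⟩
  have hb : ∀ k, ((Bin.map (pt.e k).F).obj Q).Bd := fun k =>
    h.imp fun _ c j l => (pt.e k).F.map_isZero (c j l)
  refine ⟨fun z b k => (Gr.det _ (hb k) b).1 fun Y φ => ?_, fun z b => ?_⟩
  · exact zero_of_epi_comp ((pt.e k).B.detE Q).hom ((pt.e k).bm.ac ⟨hW, z⟩ b Y _)
  · obtain ⟨T, -, u, hu⟩ := a.bs.tot hW b
    obtain ⟨K, rfl⟩ := a.exists_cx T
    refine hu.isZero_iff.1 (pt.refl _ fun k => ((pt.e k).bm.un hW hu).isZero_iff.2 fun Y φ => ?_)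
    exact zero_of_epi_comp ((pt.e k).B.detE Q).inv ((Gr.det _ (hb k) b).2 (z b k) Y _)

end Bridge

end Pool.Agent.Lib.MP_5d3e93_al.Gr
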