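import Pool.Agent.Lib.MP_5d3e93_al.Gr.W2
import Pool.Agent.Lib.MP_5d3e93_al.Gr.F4

/-! A tower of triangles computes maps to the total object; the strings of binary complexes. -/

open CategoryTheory Limits Pretriangulated ZeroObject

namespace Pool.Agent.Lib.MP_5d3e93_al.Gr

section Abstract

variable {D : Type*} [Category* D] [HasZeroObject D] [HasShift D ℤ] [Preadditive D]
  [∀ n : ℤ, (shiftFunctor D n).Additive] [Pretriangulated D]
variable {E : Type*} [Category* E] [HasZeroObject E] [HasShift E ℤ] [Preadditive E]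
  [∀ n : ℤ, (shiftFunctor E n).Additive] [Pretriangulated E]

/-- A tower of natural triangles `r n ⟶ c n ⟶ r (n + 1)`, maps from `M` to `c n` being
represented by `x n`. -/
structure DetT (r c : ℕ → D ⥤ E) (I : ∀ n, r n ⟶ c n) (P : ∀ n, c n ⟶ r (n + 1)) (M : E)
    (x : ℕ → D) (η : ∀ n, M ⟶ (c n).obj (x n)) (d : ∀ n, x (n + 1) ⟶ x n) : Prop where
  tri : ∀ n Y, ∃ δ, Triangle.mk ((I n).app Y) ((P n).app Y) δ ∈ distTriang E
  un : ∀ n, Un (c n) (η n)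
  key : ∀ n, η n ≫ (P n).app _ ≫ (I (n + 1)).app _ = η (n + 1) ≫ (c (n + 1)).map (d n)
  top : ∃ m, ∀ n, m ≤ n → ∀ Y (φ : M ⟶ (r n).obj Y), φ = 0

theorem det_down {p : ℕ → Prop} (m : ℕ) (h : ∀ n, m ≤ n → p n) (k : ∀ n, p (n + 1) → p n)
    (n : ℕ) : p n := by
  rcases le_total m n with a | a
  · exact h n a
  · exact Nat.decreasingInduction (motive := fun n _ => p n) (fun n _ => k n) (h m le_rfl) a

theorem det_inj {M X Y Z : E} {f : X ⟶ Y} {g : Y ⟶ Z} {δ : Z ⟶ X⟦(1 : ℤ)⟧}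
    (hT : Triangle.mk f g δ ∈ distTriang E) (φ : M ⟶ X) (e : φ ≫ f = 0)
    (h : ∀ ψ : M ⟶ Z⟦(-1 : ℤ)⟧, ∃ χ, χ ≫ g⟦(-1 : ℤ)⟧' = ψ) : φ = 0 := by
  obtain ⟨ψ, rfl⟩ := Triangle.coyoneda_exact₂ _ (inv_rot_of_distTriang _ hT) φ e
  obtain ⟨χ, rfl⟩ := h ψ
  have e₂ : g ≫ δ = 0 := comp_distTriang_mor_zero₂₃ _ hT
  have e₃ : g⟦(-1 : ℤ)⟧' ≫ (-δ⟦(-1 : ℤ)⟧' ≫ (shiftEquiv E (1 : ℤ)).unitIso.inv.app X) = 0 := by
    rw [Preadditive.comp_neg, ← Functor.map_comp_assoc, e₂, Functor.map_zero, zero_comp, neg_zero]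
  exact (Category.assoc _ _ _).trans ((congrArg (χ ≫ ·) e₃).trans comp_zero)

namespace DetT

variable {r c : ℕ → D ⥤ E} {I : ∀ n, r n ⟶ c n} {P : ∀ n, c n ⟶ r (n + 1)} {M : E}
  {x : ℕ → D} {η : ∀ n, M ⟶ (c n).obj (x n)} {d : ∀ n, x (n + 1) ⟶ x n}
  (t : DetT r c I P M x η d) [∀ n, (c n).Additive]
include t

omit [HasZeroObject D] [HasShift D ℤ] [∀ n : ℤ, (shiftFunctor D n).Additive] [Pretriangulated D]

omit [Preadditive D] [∀ n, (c n).Additive] in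
theorem key' (n) {Y : D} (g : x n ⟶ Y) : (η n ≫ (c n).map g) ≫ (P n).app Y ≫ (I (n + 1)).app Y =
    η (n + 1) ≫ (c (n + 1)).map (d n ≫ g) := by
  rw [Category.assoc, (P n).naturality_assoc, (I (n + 1)).naturality, reassoc_of% t.key n,
    Functor.map_comp]

theorem inj0 (n) {Y : D} (g : x n ⟶ Y) (h : η n ≫ (c n).map g = 0) : g = 0 :=
  (t.un n Y).1 (h.trans (by simp))

theorem cyc (n) {Y : D} (ψ : M ⟶ (r n).obj Y) (f : x n ⟶ Y)
    (h : η n ≫ (c n).map f = ψ ≫ (I n).app Y) : d n ≫ f = 0 := by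
  obtain ⟨δ, hT⟩ := t.tri n Y
  have e : (I n).app Y ≫ (P n).app Y = 0 := comp_distTriang_mor_zero₁₂ _ hT
  refine t.inj0 _ _ ?_
  rw [← t.key', h, Category.assoc, reassoc_of% e, zero_comp, comp_zero]

variable [HasShift D ℤ] [∀ n, (r n).CommShift ℤ] [∀ n, (c n).CommShift ℤ]
  [∀ n, NatTrans.CommShift (P n) ℤ]

omit [Preadditive D] [∀ n, (c n).Additive] in
theorem inj_of (n) (Y : D) (h : ∀ ψ : M ⟶ (r (n + 1)).obj (Y⟦(-1 : ℤ)⟧), ∃ χ, χ ≫ (P n).app _ = ψ)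
    (φ : M ⟶ (r n).obj Y) (e : φ ≫ (I n).app Y = 0) : φ = 0 := by
  obtain ⟨δ, hT⟩ := t.tri n Y
  refine det_inj hT φ e fun ψ => ?_
  obtain ⟨χ, hχ⟩ := h (ψ ≫ ((r (n + 1)).commShiftIso (-1 : ℤ)).inv.app Y)
  refine ⟨χ ≫ ((c n).commShiftIso (-1 : ℤ)).hom.app Y, ?_⟩
  rw [Category.assoc, NatTrans.shift_app_comm, reassoc_of% hχ]
  simp

omit [Preadditive D] [∀ n, (c n).Additive] [∀ n, (c n).CommShift ℤ]
  [∀ n, NatTrans.CommShift (P n) ℤ] in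
theorem surj_of (n) (Y : D) (h : ∀ φ : M ⟶ (r n).obj (Y⟦(1 : ℤ)⟧), φ = 0)
    (ψ : M ⟶ (r (n + 1)).obj Y) : ∃ χ, χ ≫ (P n).app Y = ψ := by
  obtain ⟨δ, hT⟩ := t.tri n Y
  have k : ψ ≫ δ = 0 :=
    zero_of_comp_mono (((r n).commShiftIso (1 : ℤ)).inv.app Y) (h _)
  obtain ⟨χ, e⟩ := Triangle.coyoneda_exact₃ _ hT ψ k
  exact ⟨χ, e.symm⟩

/-- A contraction kills all maps to the first term. -/
theorem of_ctr (h : ∀ n, x n ⟶ x (n + 1)) (h0 : h 0 ≫ d 0 = 𝟙 _)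
    (h1 : ∀ n, h (n + 1) ≫ d (n + 1) + d n ≫ h n = 𝟙 _) (Y : D) (φ : M ⟶ (r 0).obj Y) : φ = 0 := by
  obtain ⟨m, hm⟩ := t.top
  have inj : ∀ n Y (φ : M ⟶ (r n).obj Y), φ ≫ (I n).app Y = 0 → φ = 0 := by
    refine det_down m (fun n a Y φ _ => hm n a Y φ) fun n ih Y => t.inj_of n Y fun ψ => ?_
    obtain ⟨f, hf⟩ := (t.un (n + 1) _).2 (ψ ≫ (I (n + 1)).app _)
    have e := t.cyc _ ψ f hf
    refine ⟨η n ≫ (c n).map (h n ≫ f), sub_eq_zero.1 (ih _ _ ?_)⟩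
    have e' : d n ≫ h n ≫ f = f := by
      have := congrArg (· ≫ f) (h1 n)
      simpa [e] using this
    rw [Preadditive.sub_comp, Category.assoc, t.key', e']
    exact sub_eq_zero.2 hf
  obtain ⟨f, hf⟩ := (t.un 0 _).2 (φ ≫ (I 0).app _)
  have e := t.cyc _ φ f hf
  have e' : f = 0 := by rw [← Category.id_comp f, ← h0, Category.assoc, e, comp_zero]
  refine inj 0 Y φ (hf.symm.trans ?_)
  simp [e']

/-- Conversely the complex of maps to an object without higher extensions is exact. -/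
theorem exact (z : ∀ Y (φ : M ⟶ (r 0).obj Y), φ = 0) (y : D)
    (ext : ∀ n (k : ℤ), k ≠ 0 → ∀ f : x n ⟶ y⟦k⟧, f = 0) :
    (∀ f : x 0 ⟶ y, d 0 ≫ f = 0 → f = 0) ∧
      ∀ n (f : x (n + 1) ⟶ y), d (n + 1) ≫ f = 0 → ∃ g, d n ≫ g = f := by
  obtain ⟨m, hm⟩ := t.top
  have cv : ∀ n (k : ℤ), k ≠ 0 → ∀ χ : M ⟶ (c n).obj (y⟦k⟧), χ = 0 := fun n k hk χ => by
    obtain ⟨f, rfl⟩ := (t.un n _).2 χ
    simp [ext n k hk f]
  have tr : ∀ n {Y Y' : D}, (Y ≅ Y') → (∀ φ : M ⟶ (r n).obj Y, φ = 0) →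
      ∀ φ : M ⟶ (r n).obj Y', φ = 0 := fun n Y Y' e h φ => by
    rw [← cancel_mono ((r n).map e.inv), zero_comp]
    exact h _
  have neg : ∀ n (k : ℤ), k < 0 → ∀ φ : M ⟶ (r n).obj (y⟦k⟧), φ = 0 := by
    refine det_down m (fun n a k _ => hm n a _) fun n ih k hk φ => ?_
    refine t.inj_of n _ (fun ψ => ⟨0, zero_comp.trans (tr _ ((shiftFunctorAdd' D k (-1) (k - 1)
      rfl).app y) (ih (k - 1) (by omega)) ψ).symm⟩) φ (cv n k hk.ne _)
  have pos : ∀ n (k : ℤ), 0 < k → ∀ φ : M ⟶ (r n).obj (y⟦k⟧), φ = 0 := by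
    intro n
    induction n with
    | zero => exact fun k _ => z _
    | succ n ih =>
      intro k hk φ
      obtain ⟨χ, rfl⟩ := t.surj_of n _ (tr _ ((shiftFunctorAdd' D k 1 (k + 1) rfl).app y)
        (ih (k + 1) (by omega))) φ
      rw [cv n k hk.ne' χ, zero_comp]
  have inj : ∀ n (φ : M ⟶ (r n).obj y), φ ≫ (I n).app y = 0 → φ = 0 := fun n =>
    t.inj_of n y fun ψ => ⟨0, zero_comp.trans (neg _ _ (by omega) ψ).symm⟩
  have lift : ∀ n (f : x n ⟶ y), d n ≫ f = 0 → ∃ φ, η n ≫ (c n).map f = φ ≫ (I n).app y := by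
    intro n f hf
    obtain ⟨δ, hT⟩ := t.tri n y
    refine Triangle.coyoneda_exact₂ _ hT (η n ≫ (c n).map f) (inj _ _ ?_)
    refine (Category.assoc _ _ _).trans ((t.key' n f).trans ?_)
    simp [hf]
  refine ⟨fun f hf => ?_, fun n f hf => ?_⟩
  · obtain ⟨φ, e⟩ := lift 0 f hf
    exact t.inj0 0 f (by rw [e, z _ φ, zero_comp])
  · obtain ⟨φ, e⟩ := lift _ f hf
    obtain ⟨χ, rfl⟩ := t.surj_of n y (pos n 1 one_pos) φ
    obtain ⟨g, rfl⟩ := (t.un n _).2 χ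
    exact ⟨g, (t.un _ _).1 ((t.key' n g).symm.trans ((Category.assoc _ _ _).symm.trans e.symm))⟩

end DetT

/-- No maps from low to high degrees. -/
theorem Bs.det_orth {ev : ℕ → E ⥤ D} {R : Bool → D ⥤ E} [∀ j, (ev j).CommShift ℤ]
    [∀ j, (ev j).IsTriangulated] [∀ b, (R b).CommShift ℤ] [∀ b, (R b).IsTriangulated]
    (β : Bs ev R) (m : ℕ) {M Y : E} (k : ∀ j, m ≤ j → IsZero ((ev j).obj M))
    (hY : ∀ j, j < m → IsZero ((ev j).obj Y)) (φ : M ⟶ Y) : φ = 0 := by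
  have h := β.gen (S := ⊤) m (fun _ => trivial) k
  clear k
  induction h generalizing Y with
  | of a =>
    obtain ⟨i, X, a, -, rfl⟩ := a
    exact ((β.adj i).homEquiv _ _).injective ((hY i a).eq_of_tgt _ _)
  | zero a => exact a.eq_of_src _ _
  | @shift X n _ ih =>
    apply ((shiftEquiv E n).toAdjunction.homEquiv _ _).injective
    exact (ih (fun j a => f4_ev_shift (hY j a) (-n)) _).trans
      (ih (fun j a => f4_ev_shift (hY j a) (-n)) _).symm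
  | ext T hT _ _ a b =>
    obtain ⟨ψ, rfl⟩ := T.yoneda_exact₂ hT φ (a hY _)
    rw [b hY ψ, comp_zero]

end Abstract

universe v u

/-- Exactness of all complexes of maps gives a contraction. -/
theorem det_ctr {C : Type u} [Category.{v} C] [Preadditive C] (Q : Bin C) (h : Q.Bd) (b : Bool)
    (h0 : ∀ y (f : Q.X 0 ⟶ y), Q.d b 0 ≫ f = 0 → f = 0)
    (h1 : ∀ y n (f : Q.X (n + 1) ⟶ y), Q.d b (n + 1) ≫ f = 0 → ∃ g, Q.d b n ≫ g = f) :
    Ctr Q b := by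
  obtain ⟨m, hm⟩ := h
  obtain ⟨s, hs⟩ : ∃ s : ∀ n, Q.X n ⟶ Q.X (n + 1), ∀ n, 0 ≤ n →
      s (n + 1) ≫ Q.d b (n + 1) + Q.d b n ≫ s n = 𝟙 _ := by
    refine det_down (p := fun k => ∃ s : ∀ n, Q.X n ⟶ Q.X (n + 1), ∀ n, k ≤ n →
      s (n + 1) ≫ Q.d b (n + 1) + Q.d b n ≫ s n = 𝟙 _) m
      (fun k a => ⟨fun _ => 0, fun n c => (hm _ (by omega)).eq_of_src _ _⟩) ?_ 0
    rintro k ⟨s, hs⟩
    obtain ⟨g, hg⟩ := h1 _ k (𝟙 _ - s (k + 1) ≫ Q.d b (k + 1)) (by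
      have := congrArg (· ≫ Q.d b (k + 1)) (hs (k + 1) le_rfl)
      simp only [Preadditive.add_comp, Category.assoc, Q.sq, comp_zero, zero_add,
        Category.id_comp] at this
      rw [Preadditive.comp_sub, this, Category.comp_id, sub_self])
    refine ⟨Function.update s k g, fun n c => ?_⟩
    rw [Function.update_of_ne (by omega)]
    rcases c.eq_or_lt with rfl | c
    · rw [Function.update_self, hg, add_sub_cancel]
    · rw [Function.update_of_ne c.ne']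
      exact hs n c
  refine ⟨s, (sub_eq_zero.1 (h0 _ _ ?_)).symm, fun n => hs n n.zero_le⟩
  have := congrArg (· ≫ Q.d b 0) (hs 0 le_rfl)
  simp only [Preadditive.add_comp, Category.assoc, Q.sq, comp_zero, zero_add,
    Category.id_comp] at this
  rw [Preadditive.comp_sub, this, Category.comp_id, sub_self]

end Pool.Agent.Lib.MP_5d3e93_al.Gr
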