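import Pool.Agent.Lib.MP_5d3e93_al.Gr.ExaG
import Pool.Agent.Lib.MP_5d3e93_al.Gr.LocB

/-! Exact structures split by a functor, and Keller's criterion for full faithfulness. -/

open CategoryTheory Limits Pretriangulated ZeroObject

namespace Pool.Agent.Lib.MP_5d3e93_al.Gr

universe v u v' u' v'' u''

set_option backward.isDefEq.respectTransparency false
set_option linter.unusedSectionVars false

section Kill
variable {D : Type*} [Category* D] [HasZeroObject D] [HasShift D ℤ] [Preadditive D]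
  [∀ n : ℤ, (shiftFunctor D n).Additive] [Pretriangulated D]
variable {D' : Type*} [Category* D'] [HasZeroObject D'] [HasShift D' ℤ] [Preadditive D']
  [∀ n : ℤ, (shiftFunctor D' n).Additive] [Pretriangulated D']

/-- Every map from the image of `X` to `t` dies after a refinement of `X`. -/
def Kl (J : D ⥤ D') (N : ObjectProperty D) (t : D') (X : D) : Prop :=
  ∀ φ : J.obj X ⟶ t, ∃ (X' : D) (s : X' ⟶ X), N.trW s ∧ J.map s ≫ φ = 0

/-- Every map from `t` to the image of `X` dies after a refinement of `X`. -/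
def Kl' (J : D ⥤ D') (N : ObjectProperty D) (t : D') (X : D) : Prop :=
  ∀ φ : t ⟶ J.obj X, ∃ (X' : D) (s : X ⟶ X'), N.trW s ∧ φ ≫ J.map s = 0

variable {J : D ⥤ D'} {N : ObjectProperty D} {t t' : D'} {X : D}

theorem Kl.iso (h : Kl J N t X) (e : t' ≅ t) : Kl J N t' X := fun φ => by
  obtain ⟨X', s, a, b⟩ := h (φ ≫ e.hom)
  exact ⟨X', s, a, by rw [← cancel_mono e.hom, Category.assoc, b, zero_comp]⟩

theorem Kl'.iso (h : Kl' J N t X) (e : t' ≅ t) : Kl' J N t' X := fun φ => by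
  obtain ⟨X', s, a, b⟩ := h (e.inv ≫ φ)
  exact ⟨X', s, a, by rw [← cancel_epi e.inv, ← Category.assoc, b, comp_zero]⟩

variable [J.CommShift ℤ] [J.IsTriangulated] [IsTriangulated D] [Tg N]

theorem Kl.step {T : Triangle D} (hT : T ∈ distTriang D) {Z : D} (e : Z ≅ T.obj₃) (h : Kl J N t Z)
    {w : T.obj₂ ⟶ X} (hw : N.trW w) (φ : J.obj X ⟶ t) (h0 : J.map (T.mor₁ ≫ w) ≫ φ = 0) :
    ∃ (X' : D) (s : X' ⟶ X), N.trW s ∧ J.map s ≫ φ = 0 := by
  obtain ⟨ψ, hψ⟩ := Triangle.yoneda_exact₂ _ (J.map_distinguished T hT) (J.map w ≫ φ)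
    (by rw [J.map_comp, Category.assoc] at h0; exact h0)
  obtain ⟨Y, s, a, b⟩ := h (J.map e.hom ≫ ψ)
  obtain ⟨r, hr⟩ := (MorphismProperty.LeftFraction.mk (T.mor₂ ≫ e.inv) s a).exists_rightFraction
  refine ⟨_, r.s ≫ w, N.trW.comp_mem _ _ r.hs hw, ?_⟩
  have h1 : r.s ≫ T.mor₂ = r.f ≫ s ≫ e.hom := by
    rw [← Category.assoc, ← Iso.comp_inv_eq, Category.assoc]
    exact hr
  have h2 : J.map w ≫ φ = J.map T.mor₂ ≫ ψ := hψ
  rw [J.map_comp, Category.assoc, h2, ← J.map_comp_assoc, h1, J.map_comp, J.map_comp,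
    Category.assoc, Category.assoc, b, comp_zero]

theorem Kl'.step {T : Triangle D} (hT : T ∈ distTriang D) {Z : D} (h : Kl' J N t Z)
    {w : T.obj₁ ⟶ Z} (hw : N.trW w) (φ : t ⟶ J.obj T.obj₂) (h0 : φ ≫ J.map T.mor₂ = 0) :
    ∃ (X' : D) (s : T.obj₂ ⟶ X'), N.trW s ∧ φ ≫ J.map s = 0 := by
  obtain ⟨ψ, hψ⟩ := Triangle.coyoneda_exact₂ _ (J.map_distinguished T hT) φ h0
  obtain ⟨Y, s, a, b⟩ := h (ψ ≫ J.map w)
  obtain ⟨r, hr⟩ := (MorphismProperty.RightFraction.mk (w ≫ s) (N.trW.comp_mem _ _ hw a)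
    T.mor₁).exists_leftFraction
  refine ⟨_, r.s, r.hs, ?_⟩
  have h1 : T.mor₁ ≫ r.s = (w ≫ s) ≫ r.f := hr
  have h2 : φ = ψ ≫ J.map T.mor₁ := hψ
  rw [h2, Category.assoc, ← J.map_comp, h1, J.map_comp, J.map_comp, ← Category.assoc,
    ← Category.assoc, b, zero_comp]

end Kill

section Cx
variable {C : Type*} [Category* C] [Preadditive C] {K L : CochainComplex C ℤ} {l m n : ℤ}

theorem kel_null (hl : l + 1 = m) (hL : ∀ a, a ≠ m → IsZero (L.X a)) (ψ : L ⟶ K)
    (g : L.X m ⟶ K.X l) (h : ψ.f m = g ≫ K.d l m) : (HomotopyCategory.quotient _ _).map ψ = 0 := by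
  classical
  refine (HomotopyCategory.eq_of_homotopy ψ 0
    { hom := fun a b => if e : a = m ∧ b = l then
        (L.XIsoOfEq e.1).hom ≫ g ≫ (K.XIsoOfEq e.2.symm).hom else 0
      zero := fun a b e => dif_neg (by rintro ⟨rfl, rfl⟩; exact e hl)
      comm := fun a => ?_ }).trans (Functor.map_zero _ _ _)
  by_cases e : a = m
  · subst e
    rw [dNext_eq _ (show (ComplexShape.up ℤ).Rel a (a + 1) from rfl),
      prevD_eq _ (show (ComplexShape.up ℤ).Rel l a from hl),
      (hL (a + 1) (by omega)).eq_of_tgt (L.d a (a + 1)) 0]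
    simp [h]
  · exact (hL a e).eq_of_src _ _

theorem kel_null' (hn : m + 1 = n) (hL : ∀ a, a ≠ m → IsZero (L.X a)) (ψ : K ⟶ L)
    (g : K.X n ⟶ L.X m) (h : ψ.f m = K.d m n ≫ g) : (HomotopyCategory.quotient _ _).map ψ = 0 := by
  classical
  refine (HomotopyCategory.eq_of_homotopy ψ 0
    { hom := fun a b => if e : a = n ∧ b = m then
        (K.XIsoOfEq e.1).hom ≫ g ≫ (L.XIsoOfEq e.2.symm).hom else 0
      zero := fun a b e => dif_neg (by rintro ⟨rfl, rfl⟩; exact e hn)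
      comm := fun a => ?_ }).trans (Functor.map_zero _ _ _)
  by_cases e : a = m
  · subst e
    rw [dNext_eq _ (show (ComplexShape.up ℤ).Rel a n from hn),
      prevD_eq _ (show (ComplexShape.up ℤ).Rel (a - 1) a by simp),
      (hL (a - 1) (by omega)).eq_of_src (L.d (a - 1) a) 0]
    simp [h]
  · exact (hL a e).eq_of_tgt _ _

theorem kel_ctr {C' : Type*} [Category* C'] [Preadditive C'] (F : C ⥤ C') [F.Additive]
    (h : IsZero ((F.mapHomotopyCategory (.up ℤ)).obj ((HomotopyCategory.quotient _ _).obj K)))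
    (hl : l + 1 = m) (hn : m + 1 = n) :
    ∃ s s', s ≫ F.map (K.d l m) + F.map (K.d m n) ≫ s' = 𝟙 _ := by
  obtain ⟨H⟩ := (HomotopyCategory.isZero_quotient_obj_iff
    ((F.mapHomologicalComplex (.up ℤ)).obj K)).1 h
  have := H.comm m
  rw [dNext_eq _ (show (ComplexShape.up ℤ).Rel m n from hn),
    prevD_eq _ (show (ComplexShape.up ℤ).Rel l m from hl)] at this
  exact ⟨H.hom m l, H.hom n m, by rw [add_comm]; simpa using! this.symm⟩

theorem kel_conj {X Y Z X' Y' Z' : C} {i : X ⟶ Y} {p : Y ⟶ Z} (k : Spl i p) (a : X' ≅ X)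
    (b : Y' ≅ Y) (c : Z' ≅ Z) : Spl (a.hom ≫ i ≫ b.inv) (b.hom ≫ p ≫ c.inv) := by
  obtain ⟨r, σ, k1, k2, k3⟩ := k
  refine ⟨b.hom ≫ r ≫ a.inv, c.hom ≫ σ ≫ b.inv, by simp [reassoc_of% k1],
    by simp [reassoc_of% k2], ?_⟩
  simpa using congrArg (fun z => b.hom ≫ z ≫ b.inv) k3

variable [HasZeroObject C]

theorem kel_zero (m : ℤ) (x : C) (a : ℤ) (h : a ≠ m) :
    IsZero (((CochainComplex.singleFunctor C m).obj x).X a) :=
  HomologicalComplex.isZero_single_obj_X (.up ℤ) m x a h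

/-- The only term of a single complex. -/
noncomputable def kelE (m : ℤ) (x : C) : ((CochainComplex.singleFunctor C m).obj x).X m ≅ x :=
  HomologicalComplex.singleObjXSelf (.up ℤ) m x

theorem kel_map (m : ℤ) {x y : C} (f : x ⟶ y) : ((CochainComplex.singleFunctor C m).map f).f m =
    (kelE m x).hom ≫ f ≫ (kelE m y).inv := HomologicalComplex.single_map_f_self (.up ℤ) m f

variable [HasBinaryBiproducts C]

theorem genK_single (m : ℤ) (x : C) : genK ⊤ ((HomotopyCategory.singleFunctor C m).obj x) :=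
  Cl.iso (((HomotopyCategory.singleFunctors C).shiftIso (-m) m 0 (by omega)).app x)
    (Cl.shift (-m) (Cl.of ⟨x, trivial, ⟨Iso.refl _⟩⟩))

end Cx

namespace Am
variable {a : Am.{v, u}} {b : Am.{v', u'}}

theorem kel_loc (a : Am.{v, u}) : LocOn a.Q a.T ⊤ := locOn_of_isLocalization le_top

theorem Map.bij_of_kl (f : Map a b) [f.F.Full] [f.F.Faithful] {X : Kh a.A}
    (h : ∀ t, b.T t → Kl f.K a.T t X) (Y : Kh a.A) :
    Function.Bijective (f.D.map : (a.Q.obj X ⟶ a.Q.obj Y) → _) := by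
  refine ⟨(injective_iff_map_eq_zero f.D.mapAddHom).2 fun ψ e => ?_, fun φ => ?_⟩
  · obtain ⟨Y₀, s₀, f₀, a₀, e₀⟩ := a.kel_loc.full trivial trivial ψ
    have e1 : b.Q.map (f.K.map f₀) = 0 := by
      rw [← f.D_map, ← e₀, f.D.map_comp, show f.D.map ψ = 0 from e, zero_comp]
    obtain ⟨Y', s', a', e'⟩ := b.kel_loc.faith trivial trivial _ e1
    obtain ⟨t, g, k, hT, ht⟩ := (b.T.trW_iff' s').1 a'
    obtain ⟨χ, hχ⟩ := Triangle.coyoneda_exact₂ _ hT (f.K.map f₀) e'
    obtain ⟨X', s, hs, e2⟩ := h t ht χ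
    have e3 : s ≫ f₀ = 0 := f.K.map_injective (by
      rw [f.K.map_comp, hχ, ← Category.assoc, e2, zero_comp, f.K.map_zero])
    have := Localization.inverts a.Q a.T.trW _ hs
    have := Localization.inverts a.Q a.T.trW _ a₀
    rw [← cancel_mono (a.Q.map s₀), e₀, ← cancel_epi (a.Q.map s), ← a.Q.map_comp, e3]
    simp
  · obtain ⟨Y', s', f', ⟨t, g, k, hT, ht⟩, e'⟩ :=
      b.kel_loc.full (X := f.K.obj X) (Y := f.K.obj Y) trivial trivial φ
    obtain ⟨X', s, hs, e2⟩ := h t ht (f' ≫ g)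
    obtain ⟨χ, hχ⟩ := Triangle.coyoneda_exact₂ _ hT (f.K.map s ≫ f') (by simpa using e2)
    obtain ⟨χ, rfl⟩ := f.K.map_surjective (X := X') (Y := Y) χ
    have := Localization.inverts a.Q a.T.trW _ hs
    have : IsIso (b.Q.map s') := Localization.inverts b.Q b.T.trW _ ⟨t, g, k, hT, ht⟩
    refine ⟨CategoryTheory.inv (a.Q.map s) ≫ a.Q.map χ, ?_⟩
    rw [f.D.map_comp, f.D.map_inv, IsIso.inv_comp_eq, f.D_map, f.D_map]
    refine (cancel_mono (b.Q.map s')).1 ?_
    refine ((b.Q.map_comp _ _).symm.trans (congrArg b.Q.map hχ.symm)).trans ?_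
    rw [b.Q.map_comp, ← e']
    exact (Category.assoc _ _ _).symm

theorem Map.bij_of_kl' (f : Map a b) [f.F.Full] [f.F.Faithful] {Y : Kh a.A}
    (h : ∀ t, b.T t → Kl' f.K a.T t Y) (X : Kh a.A) :
    Function.Bijective (f.D.map : (a.Q.obj X ⟶ a.Q.obj Y) → _) := by
  refine ⟨(injective_iff_map_eq_zero f.D.mapAddHom).2 fun ψ e => ?_, fun φ => ?_⟩
  · obtain ⟨X₀, s₀, f₀, a₀, e₀⟩ := a.kel_loc.full' trivial trivial ψ
    have e1 : b.Q.map (f.K.map f₀) = 0 := by
      rw [← f.D_map, ← e₀, f.D.map_comp, show f.D.map ψ = 0 from e, comp_zero]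
    obtain ⟨X', s', ⟨t, g, k, hT, ht⟩, e'⟩ := b.kel_loc.faith' trivial trivial _ e1
    obtain ⟨χ, hχ⟩ := Triangle.yoneda_exact₂ _ hT (f.K.map f₀) e'
    obtain ⟨Y', s, hs, e2⟩ := h t ht χ
    have e3 : f₀ ≫ s = 0 := f.K.map_injective (by
      rw [f.K.map_comp, hχ, Category.assoc, e2, comp_zero, f.K.map_zero])
    have := Localization.inverts a.Q a.T.trW _ hs
    have := Localization.inverts a.Q a.T.trW _ a₀
    rw [← cancel_epi (a.Q.map s₀), e₀, ← cancel_mono (a.Q.map s), ← a.Q.map_comp, e3]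
    simp
  · obtain ⟨X', s', f', a', e'⟩ :=
      b.kel_loc.full' (X := f.K.obj X) (Y := f.K.obj Y) trivial trivial φ
    obtain ⟨t, g, k, hT, ht⟩ := (b.T.trW_iff' s').1 a'
    obtain ⟨Y', s, hs, e2⟩ := h t ht (g ≫ f')
    obtain ⟨χ, hχ⟩ := Triangle.yoneda_exact₂ _ hT (f' ≫ f.K.map s) (by simpa using e2)
    obtain ⟨χ, rfl⟩ := f.K.map_surjective (X := X) (Y := Y') χ
    have := Localization.inverts a.Q a.T.trW _ hs
    have := Localization.inverts b.Q b.T.trW _ a'
    refine ⟨a.Q.map χ ≫ CategoryTheory.inv (a.Q.map s), ?_⟩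
    rw [f.D.map_comp, f.D.map_inv, IsIso.comp_inv_eq, f.D_map, f.D_map]
    refine (cancel_epi (b.Q.map s')).1 ?_
    refine ((b.Q.map_comp _ _).symm.trans (congrArg b.Q.map hχ.symm)).trans ?_
    rw [b.Q.map_comp, ← e']
    exact Category.assoc _ _ _

section Kel
variable {A : Type (max u v)} [Category.{v} A] [Preadditive A] [HasZeroObject A]
  [HasBinaryBiproducts A] {A₀ : Type u''} [Category.{v''} A₀] [Preadditive A₀] [HasZeroObject A₀]
  [HasBinaryBiproducts A₀] (U : A ⥤ A₀) [U.Additive]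
  {A' : Type (max u' v')} [Category.{v'} A'] [Preadditive A'] [HasZeroObject A']
  [HasBinaryBiproducts A']

/-- The bounded complexes that become contractible. -/
abbrev exT : ObjectProperty (Kh A) := genK ⊤ ⊓ Zr.inverseImage (U.mapHomotopyCategory (.up ℤ))

/-- The cone of the first map of a sequence split by `U` is equivalent to the third term. -/
theorem exU_trW (m : ℤ) {X Y Z : A} {i : X ⟶ Y} {p : Y ⟶ Z} (h : i ≫ p = 0)
    (k : Spl (U.map i) (U.map p)) : (exT U).trW ((HomotopyCategory.quotient _ _).map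
      (exaD ((ShortComplex.mk i p h).map (CochainComplex.singleFunctor A m)))) := by
  obtain ⟨s, hs⟩ : ∃ s, s = (ShortComplex.mk i p h).map (CochainComplex.singleFunctor A m) :=
    ⟨_, rfl⟩
  have h1 : genK ⊤ ((HomotopyCategory.quotient _ _).obj (CochainComplex.mappingCone s.f)) :=
    Cl.ext _ (rot_of_distTriang _ (HomotopyCategory.mappingCone_triangleh_distinguished s.f))
      (hs ▸ genK_single m Y) (Cl.shift 1 (hs ▸ genK_single m X))
  have h2 : genK ⊤ ((HomotopyCategory.quotient _ _).obj s.X₃) := hs ▸ genK_single m Z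
  have h3 : ∀ n, Spl (U.map (s.f.f n)) (U.map (s.g.f n)) := fun n => by
    subst hs
    by_cases e : n = m
    · subst e
      simp only [ShortComplex.map_f, ShortComplex.map_g, kel_map, U.map_comp]
      exact kel_conj k (U.mapIso (kelE n X)) (U.mapIso (kelE n Y)) (U.mapIso (kelE n Z))
    · exact ⟨0, 0, (U.map_isZero (kel_zero m X n e)).eq_of_src _ _,
        (U.map_isZero (kel_zero m Z n e)).eq_of_src _ _,
        (U.map_isZero (kel_zero m Y n e)).eq_of_src _ _⟩
  choose r σ k1 k2 k3 using h3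
  have h4 := exa_he (s.map (U.mapHomologicalComplex (.up ℤ))) (.ofHoms r) (.ofHoms σ)
    (by ext n; simpa using! k1 n) (by ext n; simpa using! k2 n) (by ext n; simpa using! k3 n)
  have h5 : IsIso ((U.mapHomotopyCategory (.up ℤ)).map
      ((HomotopyCategory.quotient _ _).map (exaD s))) := by
    rw [Functor.mapHomotopyCategory_map, exa_desc_map, Functor.map_comp]
    infer_instance
  rw [← hs]
  obtain ⟨W, g, l, hT⟩ := distinguished_cocone_triangle ((HomotopyCategory.quotient _ _).map (exaD s))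
  exact ⟨W, g, l, hT, Cl.ext _ (rot_of_distTriang _ hT) h2 (Cl.shift 1 h1),
    (Triangle.isZero₃_iff_isIso₁ _ ((U.mapHomotopyCategory (.up ℤ)).map_distinguished _ hT)).2 h5⟩

theorem exU_exaS {X Y Z : A} {i : X ⟶ Y} {p : Y ⟶ Z} (h : i ≫ p = 0)
    (k : Spl (U.map i) (U.map p)) : (exU U).ExaS i p h :=
  Localization.inverts (exU U).Q (exU U).T.trW _ (exU_trW U 0 h k)

theorem exU_pj {L : A₀ ⥤ A} (ad : L ⊣ U) (X : A₀) : (exU U).Pj (L.obj X) := by
  rintro ⟨K : CochainComplex A ℤ⟩ ht φ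
  obtain ⟨φ, rfl⟩ := (HomotopyCategory.quotient A (.up ℤ)).map_surjective
    (X := (CochainComplex.singleFunctor A 0).obj (L.obj X)) (Y := K) φ
  obtain ⟨s, s', e'⟩ := kel_ctr (K := K) (l := -1) (m := 0) (n := 1) U ht.2 rfl rfl
  obtain ⟨f, hf⟩ : ∃ f, f = ad.homEquiv _ _ ((kelE 0 (L.obj X)).inv ≫ φ.f 0) := ⟨_, rfl⟩
  have h0 : f ≫ U.map (K.d 0 1) = 0 := by
    rw [hf, ← ad.homEquiv_naturality_right, Category.assoc, φ.comm,
      CochainComplex.singleFunctor_obj_d, zero_comp, comp_zero, ad.homEquiv_unit, U.map_zero,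
      comp_zero]
  have h1 : f = (f ≫ s) ≫ U.map (K.d (-1) 0) := by
    simpa [reassoc_of% h0] using (congrArg (f ≫ ·) e').symm
  refine kel_null (l := -1) (m := 0) rfl (kel_zero 0 _) φ
    ((kelE 0 _).hom ≫ (ad.homEquiv _ _).symm (f ≫ s)) ?_
  rw [Category.assoc, ← ad.homEquiv_naturality_right_symm, ← h1, hf, Equiv.symm_apply_apply,
    Iso.hom_inv_id_assoc]

/-- A functor over the base. -/
def exMap (j : A' ⥤ A) [j.Additive] : Map (exU (j ⋙ U)) (exU U) where
  F := j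
  add := ‹j.Additive›
  hT X h := (exU U).le_Tb _ ⟨Cl.le (S := (genK ⊤).inverseImage (j.mapHomotopyCategory (.up ℤ)))
    (by
      rintro _ ⟨x, -, ⟨e⟩⟩
      exact Cl.iso ((HomotopyCategory.quotient _ _).mapIso
        ((HomologicalComplex.singleMapHomologicalComplex j (.up ℤ) 0).app x).symm ≪≫
          (j.mapHomotopyCategory (.up ℤ)).mapIso e) (genK_single 0 (j.obj x))) X h.1, h.2⟩

/-- Keller's criterion. A map from an object of `A'` to a cycle of a bounded `U`-contractible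
complex dies after a resolution step by step. -/
theorem keller (j : A' ⥤ A) [j.Additive] [j.Full] [j.Faithful]
    (h : ∀ {X Y Z : A} (d : X ⟶ Y) (d' : Y ⟶ Z), d ≫ d' = 0 →
      (∃ s s', s ≫ U.map d + U.map d' ≫ s' = 𝟙 _) → ∀ (x : A') (f : j.obj x ⟶ Y), f ≫ d' = 0 →
        ∃ (x₂ x₁ : A') (i : x₂ ⟶ x₁) (p : x₁ ⟶ x) (g : j.obj x₁ ⟶ X), i ≫ p = 0 ∧
          Spl ((j ⋙ U).map i) ((j ⋙ U).map p) ∧ g ≫ d = j.map p ≫ f) :
    FF (exMap U j).D (exU (j ⋙ U)).bdd := by
  have key : ∀ t, exT U t → ∀ (m : ℤ) (x : A'), Kl (j.mapHomotopyCategory (.up ℤ))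
      (exT (j ⋙ U)) t ((HomotopyCategory.singleFunctor A' m).obj x) := by
    intro t ht m x
    obtain ⟨K, ⟨-, p₀, q, hK⟩, ⟨e⟩⟩ := genK_strict ht.1
    have hz := IsZero.of_iso ht.2 ((U.mapHomotopyCategory (.up ℤ)).mapIso e).symm
    refine Kl.iso ?_ e
    have lo : ∀ m, m < p₀ → ∀ x : A', Kl (j.mapHomotopyCategory (.up ℤ)) (exT (j ⋙ U))
        ((HomotopyCategory.quotient _ _).obj K) ((HomotopyCategory.singleFunctor A' m).obj x) := by
      intro m hm x φ
      obtain ⟨φ, rfl⟩ := (HomotopyCategory.quotient A (.up ℤ)).map_surjective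
        (X := (j.mapHomologicalComplex _).obj ((CochainComplex.singleFunctor A' m).obj x)) φ
      exact ⟨_, 𝟙 _, MorphismProperty.id_mem _ _, by
        rw [kel_null (l := m - 1) (by omega) (fun a e => j.map_isZero (kel_zero m x a e)) φ 0
          ((hK m (Or.inl hm)).eq_of_tgt _ _), comp_zero]⟩
    rcases lt_or_ge m p₀ with hm | hm
    · exact lo m hm x
    replace hm : p₀ - 1 ≤ m := by omega
    induction m, hm using Int.leInduction generalizing x with
    | base => exact lo _ (by omega) x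
    | succ l _ ih =>
      intro φ
      obtain ⟨φ, rfl⟩ := (HomotopyCategory.quotient A (.up ℤ)).map_surjective
        (X := (j.mapHomologicalComplex _).obj ((CochainComplex.singleFunctor A' (l + 1)).obj x)) φ
      obtain ⟨x₂, x₁, i, p, g, h0, k, hg⟩ := h (K.d l (l + 1)) (K.d (l + 1) (l + 1 + 1))
        (K.d_comp_d _ _ _) (kel_ctr U hz rfl rfl) x
        (j.map (kelE (l + 1) x).inv ≫ φ.f (l + 1)) (by
          rw [Category.assoc, φ.comm, (j.map_isZero (kel_zero (l + 1) x (l + 1 + 1)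
            (by omega))).eq_of_src (φ.f _) 0, comp_zero, comp_zero])
      refine Kl.step (rot_of_distTriang _ (HomotopyCategory.mappingCone_triangleh_distinguished
        ((CochainComplex.singleFunctor A' (l + 1)).map i)))
        (((HomotopyCategory.singleFunctors A').shiftIso 1 l (l + 1) (by omega)).app x₂).symm
        (ih x₂) (exU_trW (j ⋙ U) (l + 1) h0 k) _ ?_
      refine Eq.trans ?_ (kel_null (l := l) rfl (fun a e => j.map_isZero (kel_zero (l + 1) x₁ a e))
        ((j.mapHomologicalComplex _).map ((CochainComplex.singleFunctor A' (l + 1)).map p) ≫ φ)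
        (j.map (kelE (l + 1) x₁).hom ≫ g) (by simp [kel_map, hg]))
      refine Eq.trans ?_ ((HomotopyCategory.quotient A (.up ℤ)).map_comp _ φ).symm
      exact congrArg (fun z => (j.mapHomotopyCategory (.up ℤ)).map z ≫ _)
        (((HomotopyCategory.quotient A' (.up ℤ)).map_comp _ _).symm.trans (congrArg _ (inr_exaD
          ((ShortComplex.mk i p h0).map (CochainComplex.singleFunctor A' (l + 1))))))
  have : (exMap U j).F.Full := ‹j.Full›
  have : (exMap U j).F.Faithful := ‹j.Faithful›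
  refine ff_of_gen (G := ObjectProperty.map ⊤ (exU (j ⋙ U)).sg) le_rfl ?_
  rintro X Y ⟨x, -, ⟨e⟩⟩ -
  obtain ⟨Y, rfl⟩ := (exU (j ⋙ U)).exists_cx Y
  exact lc_iso e (Iso.refl _) ((exMap U j).bij_of_kl (fun t ht => key t ht 0 x) _)

/-- The dual criterion. -/
theorem keller' (j : A' ⥤ A) [j.Additive] [j.Full] [j.Faithful]
    (h : ∀ {X Y Z : A} (d : X ⟶ Y) (d' : Y ⟶ Z), d ≫ d' = 0 →
      (∃ s s', s ≫ U.map d + U.map d' ≫ s' = 𝟙 _) → ∀ (x : A') (f : Y ⟶ j.obj x), d ≫ f = 0 →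
        ∃ (x₁ x₂ : A') (i : x ⟶ x₁) (p : x₁ ⟶ x₂) (g : Z ⟶ j.obj x₁), i ≫ p = 0 ∧
          Spl ((j ⋙ U).map i) ((j ⋙ U).map p) ∧ d' ≫ g = f ≫ j.map i) :
    FF (exMap U j).D (exU (j ⋙ U)).bdd := by
  have key : ∀ t, exT U t → ∀ (m : ℤ) (x : A'), Kl' (j.mapHomotopyCategory (.up ℤ))
      (exT (j ⋙ U)) t ((HomotopyCategory.singleFunctor A' m).obj x) := by
    intro t ht m x
    obtain ⟨K, ⟨-, p₀, q, hK⟩, ⟨e⟩⟩ := genK_strict ht.1
    have hz := IsZero.of_iso ht.2 ((U.mapHomotopyCategory (.up ℤ)).mapIso e).symm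
    refine Kl'.iso ?_ e
    have hi : ∀ m, q < m → ∀ x : A', Kl' (j.mapHomotopyCategory (.up ℤ)) (exT (j ⋙ U))
        ((HomotopyCategory.quotient _ _).obj K) ((HomotopyCategory.singleFunctor A' m).obj x) := by
      intro m hm x φ
      obtain ⟨φ, rfl⟩ := (HomotopyCategory.quotient A (.up ℤ)).map_surjective
        (Y := (j.mapHomologicalComplex _).obj ((CochainComplex.singleFunctor A' m).obj x)) φ
      exact ⟨_, 𝟙 _, MorphismProperty.id_mem _ _, by
        rw [kel_null' (n := m + 1) rfl (fun a e => j.map_isZero (kel_zero m x a e)) φ 0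
          ((hK m (Or.inr hm)).eq_of_src _ _), zero_comp]⟩
    rcases lt_or_ge q m with hm | hm
    · exact hi m hm x
    replace hm : m ≤ q + 1 := by omega
    induction m, hm using Int.leInductionDown generalizing x with
    | base => exact hi _ (by omega) x
    | pred n _ ih =>
      intro φ
      obtain ⟨φ, rfl⟩ := (HomotopyCategory.quotient A (.up ℤ)).map_surjective
        (Y := (j.mapHomologicalComplex _).obj ((CochainComplex.singleFunctor A' (n - 1)).obj x)) φ
      obtain ⟨x₁, x₂, i, p, g, h0, k, hg⟩ := h (K.d (n - 1 - 1) (n - 1)) (K.d (n - 1) n)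
        (K.d_comp_d _ _ _) (kel_ctr U hz (by omega)
          (by omega)) x (φ.f (n - 1) ≫ j.map (kelE (n - 1) x).hom) (by
          rw [← φ.comm_assoc, (j.map_isZero (kel_zero (n - 1) x (n - 1 - 1)
            (by omega))).eq_of_tgt (φ.f _) 0, zero_comp])
      refine Kl'.step (inv_rot_of_distTriang _
        (HomotopyCategory.mappingCone_triangleh_distinguished
          ((CochainComplex.singleFunctor A' (n - 1)).map i))) (ih x₂)
        ((exT (j ⋙ U)).trW.comp_mem _ _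
          (ObjectProperty.trW.shift (exU_trW (j ⋙ U) (n - 1) h0 k) (-1))
          (ObjectProperty.trW_of_isIso _ (((HomotopyCategory.singleFunctors A').shiftIso (-1) n
            (n - 1) (by omega)).app x₂).hom)) _ ?_
      exact Eq.trans (Functor.map_comp _ _ _).symm (kel_null' (n := n) (by omega)
        (fun a e => j.map_isZero (kel_zero (n - 1) x₁ a e))
        (φ ≫ (j.mapHomologicalComplex _).map ((CochainComplex.singleFunctor A' (n - 1)).map i))
        (g ≫ j.map (kelE (n - 1) x₁).inv) (by simp [kel_map, reassoc_of% hg]))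
  have : (exMap U j).F.Full := ‹j.Full›
  have : (exMap U j).F.Faithful := ‹j.Faithful›
  refine ff_of_gen₂ (G := ObjectProperty.map ⊤ (exU (j ⋙ U)).sg) ?_
  rintro n X Y - ⟨y, -, ⟨e⟩⟩
  obtain ⟨X, rfl⟩ := (exU (j ⋙ U)).exists_cx X
  exact lc_iso (Iso.refl _) ((exU (j ⋙ U)).Q.mapIso
    (((HomotopyCategory.singleFunctors A').shiftIso n (-n) 0 (by omega)).app y).symm ≪≫
      ((exU (j ⋙ U)).Q.commShiftIso n).app _ ≪≫ (shiftFunctor _ n).mapIso e)
    ((exMap U j).bij_of_kl' (fun t ht => key t ht (-n) y) _)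

end Kel
end Am

end Pool.Agent.Lib.MP_5d3e93_al.Gr
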