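import Pool.Agent.Lib.MP_5d3e93_al.Gr.TorA
import Pool.Agent.Lib.MP_5d3e93_al.Gr.Ctr

/-! The torsion of a bounded acyclic binary complex. -/

open CategoryTheory Limits ZeroObject

set_option linter.unusedSectionVars false

namespace Pool.Agent.Lib.MP_5d3e93_al.Gr

universe v u

variable {A : Type (max u v)} [Category.{v} A] [Preadditive A] [HasZeroObject A]
  [HasBinaryBiproducts A]

/-- Additive invariants of automorphisms. -/
structure Lam {M : Type*} [AddCommGroup M] (lam : ∀ X : A, Aut X → M) : Prop where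
  mul : ∀ X (a b : Aut X), lam X (a * b) = lam X a + lam X b
  ses : ∀ {X Y Z : A} (i : X ⟶ Y) (p : Y ⟶ Z), Spl i p → ∀ (a : Aut X) (b : Aut Y) (c : Aut Z),
    i ≫ b.hom = a.hom ≫ i → p ≫ c.hom = b.hom ≫ p → lam Y b = lam X a + lam Z c

variable {M : Type*} [AddCommGroup M] {lam : ∀ X : A, Aut X → M}

open Classical in
/-- The invariant as a function on endomorphisms. -/
noncomputable def tL (lam : ∀ X : A, Aut X → M) (T : A) (x : End T) : M :=
  if h : IsUnit x then lam T (Aut.unitsEndEquivAut T h.unit) else 0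

theorem tL_unit (T : A) (x : (End T)ˣ) : tL lam T x = lam T (Aut.unitsEndEquivAut T x) := by
  rw [tL, dif_pos x.isUnit, IsUnit.unit_of_val_units]

theorem Lam.one (h : Lam lam) (X : A) : lam X 1 = 0 := by simpa using h.mul X 1 1

theorem tor_cpl [IsIdempotentComplete A] {X T : A} (i : X ⟶ T) (r : T ⟶ X) (e : i ≫ r = 𝟙 X) :
    ∃ (Z : A) (p : T ⟶ Z), Spl i p := by
  obtain ⟨Z, s, p, e₁, e₂⟩ := IsIdempotentComplete.idempotents_split T (𝟙 _ - r ≫ i)
    (by simp [reassoc_of% e])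
  exact ⟨Z, p, r, s, e, e₁, by rw [e₂, add_sub_cancel]⟩

theorem Lam.el [IsIdempotentComplete A] (h : Lam lam) (T : A) : TEl (tL lam T) where
  mul := by
    rintro _ _ ⟨x, rfl⟩ ⟨y, rfl⟩
    rw [← Units.val_mul, tL_unit, tL_unit, tL_unit, map_mul, h.mul]
  el e x he a b := by
    obtain ⟨X, i, r, e₁, e₂⟩ := IsIdempotentComplete.idempotents_split T e he
    obtain ⟨Z, p, k⟩ := tor_cpl i r e₁
    obtain ⟨y, hy⟩ := tor_unit (tor_sq a b)
    have a' : x ≫ r ≫ i = x := by rw [e₂]; exact a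
    have b' : (r ≫ i) ≫ x = 0 := by rw [e₂]; exact b
    have hy' : (Aut.unitsEndEquivAut T y).hom = 𝟙 T + (show T ⟶ T from x) := hy
    rw [← hy, tL_unit, h.ses i p k 1 _ 1, h.one, h.one, add_zero]
    · have : i ≫ x = 0 := by
        rw [← Category.id_comp i, ← e₁, Category.assoc, Category.assoc, ← Category.assoc r, b',
          comp_zero]
      rw [hy', Preadditive.comp_add, this, add_zero]
      exact (Category.comp_id _).trans (Category.id_comp _).symm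
    · have : x ≫ p = 0 := by
        rw [← a', Category.assoc, Category.assoc, ct_comp k, comp_zero, comp_zero]
      rw [hy', Preadditive.add_comp, this, add_zero]
      exact (Category.comp_id _).trans (Category.id_comp _).symm

/-- Endomorphisms of a retract. -/
def tρ {X T : A} (i : X ⟶ T) (r : T ⟶ X) (e : i ≫ r = 𝟙 X) : End X →ₙ+* End T where
  toFun x := r ≫ x ≫ i
  map_mul' x y := by simp [End.mul_def, reassoc_of% e]
  map_zero' := by
    change r ≫ (0 : X ⟶ X) ≫ i = 0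
    rw [zero_comp, comp_zero]
  map_add' x y := by
    change r ≫ (x + y : X ⟶ X) ≫ i = (r ≫ x ≫ i + r ≫ y ≫ i : T ⟶ T)
    rw [Preadditive.add_comp, Preadditive.comp_add]

theorem tor_ext {R R' : Type*} [Ring R] [Ring R'] (ρ : R →ₙ+* R') (x y : R) :
    (ρ x + 1 - ρ 1) * (ρ y + 1 - ρ 1) = ρ (x * y) + 1 - ρ 1 := by
  simp only [add_mul, sub_mul, mul_add, mul_sub, ← map_mul, mul_one, one_mul]
  abel

theorem Lam.ret [IsIdempotentComplete A] (h : Lam lam) {X T : A} (i : X ⟶ T) (r : T ⟶ X)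
    (e : i ≫ r = 𝟙 X) {x : End X} (hx : IsUnit x) :
    tL lam T (tρ i r e x + 1 - tρ i r e 1) = tL lam X x := by
  obtain ⟨x, rfl⟩ := hx
  obtain ⟨Z, p, k⟩ := tor_cpl i r e
  let y : (End T)ˣ := ⟨tρ i r e x + 1 - tρ i r e 1, tρ i r e ↑x⁻¹ + 1 - tρ i r e 1,
    by rw [tor_ext, Units.mul_inv, add_sub_cancel_left],
    by rw [tor_ext, Units.inv_mul, add_sub_cancel_left]⟩
  have hy : (Aut.unitsEndEquivAut T y).hom = r ≫ (x : End X) ≫ i + 𝟙 T - r ≫ 𝟙 X ≫ i := rfl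
  rw [tL_unit, show tρ i r e x + 1 - tρ i r e 1 = y from rfl, tL_unit,
    h.ses i p k (Aut.unitsEndEquivAut X x) _ 1, h.one, add_zero]
  · rw [hy]
    simp only [Preadditive.comp_add, Preadditive.comp_sub, reassoc_of% e, Category.comp_id,
      Category.id_comp, add_sub_cancel_right]
    rfl
  · rw [hy]
    simp only [Preadditive.add_comp, Preadditive.sub_comp, Category.assoc, ct_comp k, comp_zero,
      Category.id_comp, zero_add, sub_zero]
    exact Category.comp_id _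

theorem tor_cop (X : ℕ → A) (hb : ∃ m, ∀ n, m ≤ n → IsZero (X n)) : HasCoproduct X := by
  obtain ⟨m, hm⟩ := hb
  have : HasFiniteProducts A := hasFiniteProducts_of_has_binary_and_terminal
  have : HasFiniteBiproducts A := HasFiniteBiproducts.of_hasFiniteProducts
  refine ⟨⟨⟨Cofan.mk (⨁ fun n : Fin m => X n) fun n =>
    if l : n < m then biproduct.ι (fun n : Fin m => X n) ⟨n, l⟩ else 0, Cofan.IsColimit.mk _
      (fun s => biproduct.desc fun n => s.inj n) (fun s n => ?_) fun s f hf => ?_⟩⟩⟩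
  · by_cases l : n < m
    · simp [l]
    · exact (hm n (not_lt.1 l)).eq_of_src _ _
  · exact biproduct.hom_ext' _ _ fun n => by simpa using hf n

section Cop

variable (X : ℕ → A) [HasCoproduct X]

/-- The grading of the total object. -/
noncomputable def tδ : (ℕ → ℤ) →ₙ+* End (∐ X) where
  toFun c := Limits.Sigma.desc fun n => c n • Sigma.ι X n
  map_mul' c c' := Sigma.hom_ext _ _ fun n => by simp [End.mul_def, smul_smul, mul_comm]
  map_zero' := Sigma.hom_ext _ _ fun n => by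
    change _ = _ ≫ (0 : ∐ X ⟶ ∐ X)
    simp
  map_add' c c' := Sigma.hom_ext _ _ fun n => by
    change _ = _ ≫ ((Limits.Sigma.desc _ : ∐ X ⟶ ∐ X) + Limits.Sigma.desc _)
    simp [add_smul]

variable {X}

@[reassoc] theorem ι_tδ (c : ℕ → ℤ) (n : ℕ) : Sigma.ι X n ≫ tδ X c = c n • Sigma.ι X n :=
  Sigma.ι_desc _ _

theorem tδ_one : tδ X 1 = 1 := Sigma.hom_ext _ _ fun n =>
  (ι_tδ 1 n).trans ((one_smul _ _).trans (Category.comp_id _).symm)

theorem tδ_bd (hb : ∃ m, ∀ n, m ≤ n → IsZero (X n)) :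
    ∃ m, ∀ c, (∀ n, n < m → c n = 0) → tδ X c = 0 := by
  obtain ⟨m, hm⟩ := hb
  refine ⟨m, fun c hc => Sigma.hom_ext _ _ fun n => ?_⟩
  by_cases l : n < m
  · rw [ι_tδ, hc n l, zero_smul]
    exact comp_zero.symm
  · exact (hm n (not_lt.1 l)).eq_of_src _ _

/-- A map of degree `-1`. -/
noncomputable def tD (f : ∀ n, X (n + 1) ⟶ X n) : End (∐ X) :=
  Limits.Sigma.desc fun | 0 => 0 | n + 1 => f n ≫ Sigma.ι X n

@[reassoc] theorem ι_tD0 (f : ∀ n, X (n + 1) ⟶ X n) : Sigma.ι X 0 ≫ tD f = 0 := Sigma.ι_desc _ _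

@[reassoc] theorem ι_tD (f : ∀ n, X (n + 1) ⟶ X n) (n : ℕ) :
    Sigma.ι X (n + 1) ≫ tD f = f n ≫ Sigma.ι X n := Sigma.ι_desc _ _

/-- A map of degree `1`. -/
noncomputable def tH (g : ∀ n, X n ⟶ X (n + 1)) : End (∐ X) :=
  Limits.Sigma.desc fun n => g n ≫ Sigma.ι X (n + 1)

@[reassoc] theorem ι_tH (g : ∀ n, X n ⟶ X (n + 1)) (n : ℕ) :
    Sigma.ι X n ≫ tH g = g n ≫ Sigma.ι X (n + 1) := Sigma.ι_desc _ _

theorem tD_c (f : ∀ n, X (n + 1) ⟶ X n) (c : ℕ → ℤ) :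
    tD f * tδ X c = tδ X (fun n => c (n + 1)) * tD f := Sigma.hom_ext _ _ fun
  | 0 => by simp [End.mul_def, ι_tδ_assoc, ι_tD0, ι_tD0_assoc]
  | n + 1 => by simp [End.mul_def, ι_tδ_assoc, ι_tD, ι_tD_assoc, ι_tδ]

theorem tD_sq (f : ∀ n, X (n + 1) ⟶ X n) (h : ∀ n, f (n + 1) ≫ f n = 0) : tD f * tD f = 0 :=
  Sigma.hom_ext _ _ fun
  | 0 => (ι_tD0_assoc _ _).trans (zero_comp.trans comp_zero.symm)
  | 1 => by
    refine (ι_tD_assoc _ _ _).trans (Eq.trans ?_ comp_zero.symm)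
    rw [ι_tD0, comp_zero]
  | n + 2 => by
    refine (ι_tD_assoc _ _ _).trans (Eq.trans ?_ comp_zero.symm)
    rw [ι_tD, reassoc_of% h, zero_comp]

theorem tor_ct (f : ∀ n, X (n + 1) ⟶ X n) (g : ∀ n, X n ⟶ X (n + 1))
    (ff : ∀ n, f (n + 1) ≫ f n = 0) (gg : ∀ n, g n ≫ g (n + 1) = 0) (h0 : g 0 ≫ f 0 = 𝟙 _)
    (h1 : ∀ n, g (n + 1) ≫ f (n + 1) + f n ≫ g n = 𝟙 _) : TCt (tδ X) (tD f) (tH g) where
  d1 := by rw [tδ_one, one_mul]
  dc := tD_c f
  h1 := by rw [tδ_one, mul_one]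
  hc c := Sigma.hom_ext _ _ fun n => by simp [End.mul_def, ι_tδ_assoc, ι_tH, ι_tH_assoc, ι_tδ]
  dd := tD_sq f ff
  hh := Sigma.hom_ext _ _ fun n => by
    refine (ι_tH_assoc _ _ _).trans (Eq.trans ?_ comp_zero.symm)
    rw [ι_tH, reassoc_of% gg, zero_comp]
  dh := by
    rw [tδ_one]
    refine Sigma.hom_ext _ _ fun n => ?_
    change _ ≫ ((tH g ≫ tD f : ∐ X ⟶ ∐ X) + tD f ≫ tH g) = _ ≫ 𝟙 _
    rw [Preadditive.comp_add, ι_tH_assoc, ι_tD, Category.comp_id]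
    cases n with
    | zero => rw [ι_tD0_assoc, zero_comp, add_zero, reassoc_of% h0]
    | succ n => rw [ι_tD_assoc, ι_tH, ← Category.assoc, ← Category.assoc, ← Preadditive.add_comp,
        h1, Category.id_comp]

theorem tD_nat {Y : ℕ → A} [HasCoproduct Y] (f : ∀ n, X (n + 1) ⟶ X n) (g : ∀ n, Y (n + 1) ⟶ Y n)
    (φ : ∀ n, X n ⟶ Y n) (h : ∀ n, φ (n + 1) ≫ g n = f n ≫ φ n) :
    Limits.Sigma.map φ ≫ tD g = tD f ≫ Limits.Sigma.map φ := Sigma.hom_ext _ _ fun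
  | 0 => by rw [Sigma.ι_map_assoc, ι_tD0, ι_tD0_assoc, comp_zero, zero_comp]
  | n + 1 => by rw [Sigma.ι_map_assoc, ι_tD, ι_tD_assoc, Sigma.ι_map, reassoc_of% h]

end Cop

theorem tor_sym {X Y Z : A} {i : X ⟶ Y} {p : Y ⟶ Z} {r : Y ⟶ X} {s : Z ⟶ Y} (a : i ≫ r = 𝟙 _)
    (b : s ≫ p = 𝟙 _) (c : r ≫ i + p ≫ s = 𝟙 _) : s ≫ r = 0 :=
  ct_comp ⟨p, i, b, a, (add_comm _ _).trans c⟩

theorem tor_ex {P : Bin A} [HasCoproduct P.X] (hP : (spl.{v, u} A).Acyc P) (b : Bool) :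
    ∃ h, TCt (tδ P.X) (tD (P.d b)) h := by
  obtain ⟨Z, i, p, z, k⟩ : ∃ (Z : ℕ → A) (i : ∀ n, Z (n + 1) ⟶ P.X n) (p : ∀ n, P.X n ⟶ Z n),
    IsZero (Z 0) ∧ ∀ n, Spl (i n) (p n) ∧ P.d b n = p (n + 1) ≫ i n := hP.2 b
  choose r s e₁ e₂ e₃ using fun n => (k n).1
  refine ⟨_, tor_ct (P.d b) (fun n => r n ≫ s (n + 1)) (P.sq b) (fun n => ?_) ?_ fun n => ?_⟩
  · rw [Category.assoc, ← Category.assoc (s _), tor_sym (e₁ (n + 1)) (e₂ _) (e₃ _), zero_comp,
      comp_zero]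
  · rw [(k 0).2, Category.assoc, reassoc_of% (e₂ 1), ← e₃ 0, z.eq_of_tgt (p 0) 0, zero_comp,
      add_zero]
  · rw [(k n).2, (k (n + 1)).2, Category.assoc, Category.assoc, reassoc_of% (e₂ (n + 1 + 1)),
      reassoc_of% (e₁ n), e₃]

/-- The torsion. -/
noncomputable def tT (lam : ∀ X : A, Aut X → M) (P : Bin A) (hP : (spl.{v, u} A).Acyc P) : M :=
  haveI := tor_cop P.X hP.1
  tL lam (∐ P.X) (tU (tδ P.X) (tD (P.d true) + (tor_ex hP true).choose)
    (tD (P.d false) + (tor_ex hP false).choose))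

theorem Lam.tT_eq [IsIdempotentComplete A] (h : Lam lam) {P : Bin A} [HasCoproduct P.X]
    (hP : (spl.{v, u} A).Acyc P) {k₁ k₀}
    (t₁ : TCt (tδ P.X) (tD (P.d true)) k₁) (t₀ : TCt (tδ P.X) (tD (P.d false)) k₀) :
    tT lam P hP = tL lam (∐ P.X) (tU (tδ P.X) (tD (P.d true) + k₁) (tD (P.d false) + k₀)) :=
  TCt.indep (h.el _) (tδ_bd hP.1) (tor_ex hP true).choose_spec t₁ (tor_ex hP false).choose_spec t₀

theorem Lam.tT_add [IsIdempotentComplete A] (h : Lam lam) {P' P P'' : Bin A}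
    (h' : (spl.{v, u} A).Acyc P')
    (hP : (spl.{v, u} A).Acyc P) (h'' : (spl.{v, u} A).Acyc P'') (i : P' ⟶ P) (p : P ⟶ P'')
    (k : ∀ n, Spl (i.1 n) (p.1 n)) : tT lam P hP = tT lam P' h' + tT lam P'' h'' := by
  have := tor_cop P'.X h'.1
  have := tor_cop P.X hP.1
  have := tor_cop P''.X h''.1
  choose r s e₁ e₂ e₃ using k
  choose g' t' using tor_ex h'
  choose g'' t'' using tor_ex h''
  have a : Limits.Sigma.map i.1 ≫ Limits.Sigma.map r = 𝟙 _ :=
    Sigma.hom_ext _ _ fun n => by simp [reassoc_of% e₁]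
  have b : Limits.Sigma.map s ≫ Limits.Sigma.map p.1 = 𝟙 _ :=
    Sigma.hom_ext _ _ fun n => by simp [reassoc_of% e₂]
  have c : Limits.Sigma.map i.1 ≫ Limits.Sigma.map p.1 = 0 :=
    Sigma.hom_ext _ _ fun n => by simp [reassoc_of% (ct_comp ⟨r n, s n, e₁ n, e₂ n, e₃ n⟩)]
  have d : Limits.Sigma.map s ≫ Limits.Sigma.map r = 0 :=
    Sigma.hom_ext _ _ fun n => by
      have := tor_sym (e₁ n) (e₂ n) (e₃ n)
      simp [reassoc_of% this]
  have S : TSum (tδ P.X) ((tρ _ _ a).comp (tδ P'.X)) ((tρ _ _ b).comp (tδ P''.X)) :=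
    ⟨fun x => Sigma.hom_ext _ _ fun n => by
      change _ = _ ≫ ((Limits.Sigma.map r ≫ tδ P'.X x ≫ Limits.Sigma.map i.1 : ∐ P.X ⟶ ∐ P.X) +
        Limits.Sigma.map p.1 ≫ tδ P''.X x ≫ Limits.Sigma.map s)
      simp only [Preadditive.comp_add, Sigma.ι_map_assoc, ι_tδ_assoc, ι_tδ, Linear.smul_comp,
        Linear.comp_smul, Sigma.ι_map, ← smul_add]
      rw [← Category.assoc, ← Category.assoc, ← Preadditive.add_comp, e₃, Category.id_comp],
    fun x y => by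
      change (Limits.Sigma.map p.1 ≫ tδ P''.X y ≫ Limits.Sigma.map s) ≫
        Limits.Sigma.map r ≫ tδ P'.X x ≫ Limits.Sigma.map i.1 = 0
      simp only [Category.assoc, reassoc_of% d, zero_comp, comp_zero],
    fun x y => by
      change (Limits.Sigma.map r ≫ tδ P'.X y ≫ Limits.Sigma.map i.1) ≫
        Limits.Sigma.map p.1 ≫ tδ P''.X x ≫ Limits.Sigma.map s = 0
      simp only [Category.assoc, reassoc_of% c, zero_comp, comp_zero]⟩
  have E := fun e => S.ext ((t' e).map (tρ _ _ a)) ((t'' e).map (tρ _ _ b)) (d := tD (P.d e))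
    (by rw [tδ_one, one_mul]) (tD_c _) (tD_sq _ (P.sq e))
    (by
      change (Limits.Sigma.map r ≫ tδ P'.X 1 ≫ Limits.Sigma.map i.1) ≫ tD (P.d e) =
        Limits.Sigma.map r ≫ tD (P'.d e) ≫ Limits.Sigma.map i.1
      rw [tδ_one, End.one_def, Category.id_comp, Category.assoc, tD_nat _ _ _ (Bin.comm i e)])
    (by
      change tD (P.d e) ≫ Limits.Sigma.map p.1 ≫ tδ P''.X 1 ≫ Limits.Sigma.map s =
        Limits.Sigma.map p.1 ≫ tD (P''.d e) ≫ Limits.Sigma.map s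
      rw [tδ_one, End.one_def, Category.id_comp, ← Category.assoc, ← tD_nat _ _ _ (Bin.comm p e),
        Category.assoc])
  choose g f t q f₁ f₂ using E
  rw [h.tT_eq hP (t true) (t false), q, q, S.tor (h.el _) ((t' true).map _) ((t'' true).map _)
    ((t' false).map _) ((t'' false).map _) (f₁ _) (f₂ _) (f₁ _) (f₂ _), ← map_add, ← map_add,
    ← map_add, ← map_add, tU_map, tU_map, h.ret _ _ _ ((t' true).unit (t' false)),
    h.ret _ _ _ ((t'' true).unit (t'' false)), h.tT_eq h' (t' true) (t' false),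
    h.tT_eq h'' (t'' true) (t'' false)]

/-- An automorphism as a binary complex of length one. -/
noncomputable def tTwo {X : A} (a : Bool → Aut X) : Bin A where
  X | 0 => X | 1 => X | _ + 2 => 0
  d b | 0 => (a b).hom | _ + 1 => 0
  sq _ _ := zero_comp

theorem tTwo_z {X : A} (a : Bool → Aut X) (n : ℕ) : IsZero ((tTwo a).X (n + 2)) := isZero_zero A

theorem tTwo_ac {X : A} (a : Bool → Aut X) :
    (spl.{v, u} A).Acyc (tTwo.{v, u} (A := A) a) := by
  let Z : ℕ → A := fun | 0 => 0 | 1 => X | _ + 2 => 0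
  refine ⟨⟨2, fun | _ + 2, _ => isZero_zero A⟩, fun b => ?_⟩
  let i : ∀ n, Z (n + 1) ⟶ (tTwo a).X n := fun | 0 => (a b).hom | _ + 1 => 0
  let p : ∀ n, (tTwo a).X n ⟶ Z n := fun | 0 => 0 | 1 => 𝟙 X | _ + 2 => 0
  have k : ∀ n, Spl (i n) (p n) ∧ (tTwo a).d b n = p (n + 1) ≫ i n := fun
    | 0 => ⟨⟨(a b).inv, 0, (a b).hom_inv_id, (isZero_zero A).eq_of_src _ _,
        (congrArg₂ (fun x y : X ⟶ X => x + y) (a b).inv_hom_id comp_zero).trans (add_zero _)⟩,
      (Category.id_comp _).symm⟩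
    | 1 => ⟨⟨0, 𝟙 X, (isZero_zero A).eq_of_src _ _, Category.id_comp _,
        (congrArg₂ (fun x y : X ⟶ X => x + y) zero_comp (Category.id_comp _)).trans (zero_add _)⟩,
      (isZero_zero A).eq_of_src _ _⟩
    | _ + 2 => ⟨⟨0, 0, (isZero_zero A).eq_of_src _ _, (isZero_zero A).eq_of_src _ _,
        (isZero_zero A).eq_of_src _ _⟩, (isZero_zero A).eq_of_src _ _⟩
  exact ⟨Z, i, p, isZero_zero A, k⟩

theorem Lam.tT_two [IsIdempotentComplete A] (h : Lam lam) {X : A} (a : Bool → Aut X) :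
    tT lam (tTwo a) (tTwo_ac a) = lam X (a true * (a false)⁻¹) := by
  have := tor_cop (tTwo a).X (tTwo_ac a).1
  let g : ∀ b n, (tTwo a).X n ⟶ (tTwo a).X (n + 1) := fun b => fun | 0 => (a b).inv | _ + 1 => 0
  have t : ∀ b, TCt (tδ _) (tD ((tTwo a).d b)) (tH (g b)) := fun b =>
    tor_ct _ _ ((tTwo a).sq b) (fun n => (tTwo_z a n).eq_of_tgt _ _) (a b).inv_hom_id fun
      | 0 => (congrArg₂ (fun x y : X ⟶ X => x + y) zero_comp (a b).hom_inv_id).trans (zero_add _)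
      | n + 1 => (tTwo_z a n).eq_of_src _ _
  let r : ∐ (tTwo a).X ⟶ X := Limits.Sigma.desc fun | 0 => 𝟙 X | _ + 1 => 0
  have e : Sigma.ι (tTwo a).X 0 ≫ r = 𝟙 X := Sigma.ι_desc _ _
  have e' : Sigma.ι (tTwo a).X 1 ≫ r = 0 := Sigma.ι_desc _ _
  let x : (End X)ˣ := (Aut.unitsEndEquivAut X).symm (a true * (a false)⁻¹)
  have := h.ret (X := X) (Sigma.ι (tTwo a).X 0) r e x.isUnit
  rw [tL_unit, MulEquiv.apply_symm_apply] at this
  rw [h.tT_eq _ (t true) (t false), ← this, tU]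
  congr 3
  · refine Sigma.hom_ext _ _ fun n => ?_
    change _ ≫ tδ _ tev ≫ ((tD _ : ∐ (tTwo a).X ⟶ _) + tH (g false)) ≫
      ((tD _ : ∐ (tTwo a).X ⟶ _) + tH (g true)) =
        _ ≫ r ≫ ((a false).inv ≫ (a true).hom) ≫ Sigma.ι (tTwo a).X 0
    match n with
    | 0 =>
      have q : ∀ b, Sigma.ι (tTwo a).X 0 ≫ ((tD ((tTwo a).d b) : ∐ (tTwo a).X ⟶ _) + tH (g b)) =
          g b 0 ≫ Sigma.ι (tTwo a).X (0 + 1) := fun b => by
        rw [Preadditive.comp_add, ι_tD0, zero_add, ι_tH]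
      have q' : ∀ b, Sigma.ι (tTwo a).X (0 + 1) ≫ ((tD ((tTwo a).d b) : ∐ (tTwo a).X ⟶ _) +
          tH (g b)) = (tTwo a).d b 0 ≫ Sigma.ι (tTwo a).X 0 := fun b => by
        rw [Preadditive.comp_add, ι_tD, ι_tH, (tTwo_z a 0).eq_of_tgt (g b (0 + 1)) 0, zero_comp,
          add_zero]
      rw [ι_tδ_assoc, show tev 0 = 1 from rfl, one_smul, reassoc_of% e, reassoc_of% q, q']
      exact ((Category.id_comp _).trans (Category.assoc _ _ _)).symm
    | 1 => rw [ι_tδ_assoc, show tev 1 = 0 from rfl, zero_smul, zero_comp, reassoc_of% e', zero_comp]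
    | n + 2 => exact (tTwo_z a n).eq_of_src _ _
  · refine Sigma.hom_ext _ _ fun n => ?_
    change _ = _ ≫ r ≫ 𝟙 X ≫ Sigma.ι (tTwo a).X 0
    match n with
    | 0 =>
      rw [ι_tδ, show tev 0 = 1 from rfl, one_smul, reassoc_of% e]
      exact ((Category.id_comp _).trans (Category.id_comp _)).symm
    | 1 => rw [ι_tδ, show tev 1 = 0 from rfl, zero_smul, reassoc_of% e', zero_comp]
    | n + 2 => exact (tTwo_z a n).eq_of_src _ _

theorem torsion [IsIdempotentComplete A] {M : Type*} [AddCommGroup M] {lam : ∀ X : A, Aut X → M}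
    (h : Lam lam) (z : Subsingleton (spl.{v, u} A).Bq.K0) (X : A) (a : Aut X) : lam X a = 0 := by
  let τ : FreeAbelianGroup (spl.{v, u} A).Bq.C →+ M :=
    FreeAbelianGroup.lift fun P => tT.{v, u} (A := A) lam P.obj P.property
  let c : Bool → Aut X := fun b => cond b a 1
  let P : (spl.{v, u} A).Bq.C := ⟨tTwo.{v, u} (A := A) c, tTwo_ac.{v, u} (A := A) c⟩
  have m := (QuotientAddGroup.eq_zero_iff (FreeAbelianGroup.of P)).1 (z.elim _ _)
  have : τ (.of P) = 0 := by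
    refine (AddSubgroup.closure_le τ.ker).2 ?_ m
    rintro _ ⟨P', Q, P'', i, p, k, rfl⟩
    change τ _ = 0
    simp only [τ, map_sub, FreeAbelianGroup.lift_apply_of]
    rw [h.tT_add P'.property Q.property P''.property i.hom p.hom k]
    abel
  have e := ((FreeAbelianGroup.lift_apply_of _ _).symm.trans this).symm.trans (h.tT_two c)
  simpa [c] using e.symm

end Pool.Agent.Lib.MP_5d3e93_al.Gr
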