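import Mathlib

/-! The torsion of two contractible differentials in a graded ring. -/

namespace Pool.Agent.Lib.MP_5d3e93_al.Gr

variable {R : Type*} [Ring R] {R' : Type*} [Ring R'] {M : Type*} [AddCommGroup M] {L : R → M}

/-- Additive invariants of units that kill the elementary ones. -/
structure TEl (L : R → M) : Prop where
  mul : ∀ x y, IsUnit x → IsUnit y → L (x * y) = L x + L y
  el : ∀ e x, e * e = e → e * x = x → x * e = 0 → L (1 + x) = 0

theorem tor_z {x y s t : R} (hx : x * s = x) (hy : t * y = y) (st : s * t = 0) : x * y = 0 := by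
  rw [← hx, ← hy, mul_assoc, ← mul_assoc s, st, zero_mul, mul_zero]

theorem tor_sq {e x : R} (h : e * x = x) (k : x * e = 0) : x * x = 0 := by
  rw [← h, ← mul_assoc, mul_assoc e x e, k, mul_zero, zero_mul]

theorem tor_inv {x : R} (h : x * x = 0) : (1 + x) * (1 - x) = 1 := by
  rw [add_mul, mul_sub, mul_sub, h]; simp

theorem tor_unit {x : R} (h : x * x = 0) : IsUnit (1 + x) :=
  ⟨⟨1 + x, 1 - x, tor_inv h, by rw [sub_mul, mul_add, mul_add, h]; simp⟩, rfl⟩

theorem TEl.one (h : TEl L) : L 1 = 0 := by simpa using h.el 0 0 (by simp) (by simp) (by simp)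

theorem TEl.tri (h : TEl L) {s U w : R} (hs : s * s = s) (hU : IsUnit U) (c : s * U = U * s)
    (a : s * w = w) (b : w * s = 0) : L (U + w) = L U := by
  obtain ⟨u, rfl⟩ := hU
  have c' : s * ↑u⁻¹ = ↑u⁻¹ * s := (Commute.units_inv_right c).eq
  have a' : s * (↑u⁻¹ * w) = ↑u⁻¹ * w := by rw [← mul_assoc, c', mul_assoc, a]
  have b' : ↑u⁻¹ * w * s = 0 := by rw [mul_assoc, b, mul_zero]
  have e : ↑u + w = u * (1 + ↑u⁻¹ * w) := by rw [mul_add, mul_one, Units.mul_inv_cancel_left]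
  rw [e, h.mul _ _ u.isUnit (tor_unit (tor_sq a' b')), h.el s _ hs a' b', add_zero]

theorem TEl.nil (h : TEl L) (G : ℕ → R) (z : R) (m : ℕ)
    (hG : ∀ i j, i ≤ j → G i * G j = G j ∧ G j * G i = G j) (hm : G m = 0)
    (hz : ∀ j, G (j + 1) * (z * G j) = z * G j) :
    IsUnit (1 + z * G 0) ∧ L (1 + z * G 0) = 0 := by
  refine Nat.decreasingInduction (motive := fun j _ => IsUnit (1 + z * G j) ∧ L (1 + z * G j) = 0)
    (fun j _ ih => ?_) (by simp [hm, h.one]) (Nat.zero_le m)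
  have q : G (j + 1) * (z * G (j + 1)) = z * G (j + 1) := by
    rw [← hz (j + 1), ← mul_assoc (G (j + 1)), (hG _ _ (Nat.le_succ _)).1]
  have a : G (j + 1) * (z * G j - z * G (j + 1)) = z * G j - z * G (j + 1) := by
    rw [mul_sub, hz, q]
  have b : (z * G j - z * G (j + 1)) * G (j + 1) = 0 := by
    rw [sub_mul, mul_assoc, mul_assoc, (hG _ _ (Nat.le_succ _)).1, (hG _ _ le_rfl).1, sub_self]
  have c : (z * G j - z * G (j + 1)) * (z * G (j + 1)) = 0 :=
    (congrArg _ q.symm).trans (by rw [← mul_assoc, b, zero_mul])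
  have e : 1 + z * G j = (1 + (z * G j - z * G (j + 1))) * (1 + z * G (j + 1)) := by
    rw [add_mul, mul_add (_ - _), c]; simp
  have u := tor_unit (tor_sq a b)
  rw [e]
  exact ⟨u.mul ih.1, by rw [h.mul _ _ u ih.1, ih.2, h.el _ _ (hG _ _ le_rfl).1 a b, add_zero]⟩

/-- A differential with a contraction of square zero; `δ` is the grading. -/
structure TCt (δ : (ℕ → ℤ) →ₙ+* R) (d h : R) : Prop where
  d1 : δ 1 * d = d
  dc : ∀ c, d * δ c = δ (fun n => c (n + 1)) * d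
  h1 : h * δ 1 = h
  hc : ∀ c, δ c * h = h * δ fun n => c (n + 1)
  dd : d * d = 0
  hh : h * h = 0
  dh : d * h + h * d = δ 1

/-- The even degrees. -/
def tev : ℕ → ℤ := fun n => if Even n then 1 else 0

theorem tev_two : (fun n => tev (n + 1 + 1)) = tev := funext fun n => by
  simp [tev, Nat.even_add_one]

theorem tev_sq : tev * tev = tev := funext fun n => by
  by_cases h : Even n <;> simp [tev, h]

/-- The automorphism of the even part. -/
def tU (δ : (ℕ → ℤ) →ₙ+* R) (φ ψ : R) : R := φ * ψ * δ tev + 1 - δ tev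

variable {δ δ' δ'' : (ℕ → ℤ) →ₙ+* R} {d h k d' h' d'' h'' d₀ h₀ k₀ d₁ h₁ : R}

theorem tor_ee (δ : (ℕ → ℤ) →ₙ+* R) : δ tev * δ tev = δ tev := by rw [← map_mul, tev_sq]

theorem tor_l (δ : (ℕ → ℤ) →ₙ+* R) (c) : δ 1 * δ c = δ c := by rw [← map_mul, one_mul]

theorem tor_r (δ : (ℕ → ℤ) →ₙ+* R) (c) : δ c * δ 1 = δ c := by rw [← map_mul, mul_one]

namespace TCt

theorem d2 (t : TCt δ d h) : d * δ 1 = d := (t.dc 1).trans t.d1

theorem h2 (t : TCt δ d h) : δ 1 * h = h := (t.hc 1).trans t.h1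

theorem l (t : TCt δ d h) : δ 1 * (d + h) = d + h := by rw [mul_add, t.d1, t.h2]

theorem r (t : TCt δ d h) : (d + h) * δ 1 = d + h := by rw [add_mul, t.d2, t.h1]

theorem sq (t : TCt δ d h) : (d + h) * (d + h) = δ 1 := by
  rw [add_mul, mul_add, mul_add, t.dd, t.hh, zero_add, add_zero, t.dh]

theorem he (t : TCt δ d h) : h * δ tev = δ (fun n => tev (n + 1)) * h := by
  rw [t.hc, tev_two]

theorem ed (t : TCt δ d h) : δ tev * d = d * δ fun n => tev (n + 1) := by
  rw [t.dc, tev_two]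

theorem comm (t : TCt δ d h) (t' : TCt δ d₀ h₀) :
    δ tev * ((d + h) * (d₀ + h₀)) = (d + h) * (d₀ + h₀) * δ tev := by
  have a : δ tev * (d + h) = (d + h) * δ fun n => tev (n + 1) := by
    rw [mul_add, add_mul, t.ed, t.hc]
  have b : (d₀ + h₀) * δ tev = δ (fun n => tev (n + 1)) * (d₀ + h₀) := by
    rw [mul_add, add_mul, t'.he, t'.dc]
  rw [← mul_assoc, a, mul_assoc, mul_assoc, b]

theorem mul (t : TCt δ d₀ h₀) (t' : TCt δ d₁ h₁) (φ : R) :
    tU δ φ (d₀ + h₀) * tU δ (d₀ + h₀) (d₁ + h₁) = tU δ φ (d₁ + h₁) := by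
  have a := t.comm t'
  have b : (d₀ + h₀) * ((d₀ + h₀) * (d₁ + h₁)) = d₁ + h₁ := by rw [← mul_assoc, t.sq, t'.l]
  have e := tor_ee δ
  unfold tU
  generalize d₀ + h₀ = x at a b ⊢
  generalize d₁ + h₁ = y at a b ⊢
  generalize δ tev = E at a e ⊢
  have c : E * (x * y * E) = x * y * E := by rw [← mul_assoc, a, mul_assoc _ E, e]
  have f : φ * x * (x * y * E) = φ * y * E := by
    rw [mul_assoc φ, ← mul_assoc x, b, mul_assoc]
  simp only [add_mul, sub_mul, mul_add, mul_sub, mul_assoc _ E, c, e, f, one_mul, mul_one]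
  abel

theorem self (t : TCt δ d h) : tU δ (d + h) (d + h) = 1 := by
  rw [tU, t.sq, tor_l, add_sub_cancel_left]

theorem unit (t : TCt δ d h) (t' : TCt δ d₀ h₀) : IsUnit (tU δ (d + h) (d₀ + h₀)) :=
  ⟨⟨_, tU δ (d₀ + h₀) (d + h), (t'.mul t _).trans t.self, (t.mul t' _).trans t'.self⟩, rfl⟩

theorem dhd (t : TCt δ d h) : d * (h * d) = d := by
  rw [eq_sub_of_add_eq' t.dh, mul_sub, ← mul_assoc, t.dd, zero_mul, sub_zero, t.d2]

/-- Two contractions of one differential. -/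
theorem two (H : TEl L) (hb : ∃ m, ∀ c, (∀ n, n < m → c n = 0) → δ c = 0)
    (t : TCt δ d h) (t' : TCt δ d k) : L (tU δ (d + h) (d + k)) = 0 := by
  obtain ⟨m, hm⟩ := hb
  let g : ℕ → ℕ → ℤ := fun j n => if j ≤ n then 1 else 0
  have gs : ∀ j, (fun n => g (j + 1) (n + 1)) = g j := fun j => funext fun n => by simp [g]
  have gm : ∀ i j, i ≤ j → g i * g j = g j := fun i j l => funext fun n => by
    by_cases q : j ≤ n
    · simp [g, q, l.trans q]
    · simp [g, q]
  have g0 : g 0 = 1 := funext fun n => by simp [g]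
  have cm : ∀ c c', δ c * δ c' = δ c' * δ c := fun c c' => by rw [← map_mul, ← map_mul, mul_comm]
  have a : d * h * (d * (k - h) * δ tev) = d * (k - h) * δ tev := by
    rw [← mul_assoc, ← mul_assoc, mul_assoc d h d, t.dhd]
  have b : d * (k - h) * δ tev * (d * h) = 0 := by
    rw [mul_assoc, ← mul_assoc (δ tev), t.ed, ← mul_assoc, ← mul_assoc, mul_assoc d _ d, sub_mul,
      mul_sub, t.dhd, t'.dhd, sub_self, zero_mul, zero_mul]
  have cx : ∀ j, d * (k - h) * δ tev * δ (g j) = δ (g j) * (d * (k - h) * δ tev) := fun j => by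
    have : (k - h) * δ (g j) = δ (g (j + 1)) * (k - h) := by
      rw [mul_sub, t.hc, t'.hc, gs, sub_mul]
    rw [mul_assoc, cm, ← mul_assoc, mul_assoc d, this, ← mul_assoc, t.dc, gs]
    simp only [mul_assoc]
  have cy : ∀ j, h * k * δ tev * δ (g j) = δ (g (j + 1 + 1)) * (h * k * δ tev) := fun j => by
    rw [← mul_assoc, ← mul_assoc, t.hc, gs, mul_assoc h (δ _), t'.hc, gs, mul_assoc, cm]
    simp only [mul_assoc]
  have e : tU δ (d + h) (d + k) = 1 + d * (k - h) * δ tev + h * k * δ tev := by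
    rw [tU, add_mul, mul_add, mul_add, t.dd, eq_sub_of_add_eq' t.dh]
    simp only [add_mul, sub_mul, mul_sub, tor_l, zero_mul]
    abel
  have y1 : h * k * δ tev * δ (g 0) = h * k * δ tev := by rw [g0, mul_assoc, tor_r]
  have ee : d * h * (d * h) = d * h := by rw [← mul_assoc, mul_assoc d h d, t.dhd]
  generalize d * (k - h) * δ tev = x at a b cx e
  generalize h * k * δ tev = y at cy e y1
  have n := H.nil (fun j => δ (g j)) ((1 - x) * y) m
    (fun i j l => ⟨by rw [← map_mul, gm i j l], by rw [cm, ← map_mul, gm i j l]⟩)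
    (hm _ fun n l => if_neg (not_le.2 l)) fun j => by
      have : δ (g (j + 1)) * (1 - x) = (1 - x) * δ (g (j + 1)) := by
        rw [mul_sub, sub_mul, cx, mul_one, one_mul]
      rw [mul_assoc, cy, ← mul_assoc, this, mul_assoc, ← mul_assoc (δ _), ← map_mul,
        gm _ _ (Nat.le_succ _)]
  rw [mul_assoc, y1] at n
  have f : 1 + x + y = (1 + x) * (1 + (1 - x) * y) := by
    rw [mul_add (1 + x), ← mul_assoc, tor_inv (tor_sq a b), mul_one, one_mul]
  rw [e, f, H.mul _ _ (tor_unit (tor_sq a b)) n.1, n.2, H.el _ _ ee a b, add_zero]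

/-- The torsion does not depend on the contractions. -/
theorem indep (H : TEl L) (hb : ∃ m, ∀ c, (∀ n, n < m → c n = 0) → δ c = 0)
    (t : TCt δ d h) (t' : TCt δ d k) (u : TCt δ d₀ h₀) (u' : TCt δ d₀ k₀) :
    L (tU δ (d + h) (d₀ + h₀)) = L (tU δ (d + k) (d₀ + k₀)) := by
  rw [← t'.mul u (d + h), ← u'.mul u (d + k), H.mul _ _ (t.unit t') ((u'.mul u _).symm ▸ t'.unit u),
    H.mul _ _ (t'.unit u') (u'.unit u), t.two H hb t', u'.two H hb u, zero_add, add_zero]

theorem map (ρ : R →ₙ+* R') (t : TCt δ d h) : TCt (ρ.comp δ) (ρ d) (ρ h) where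
  d1 := (map_mul ρ _ _).symm.trans (congrArg ρ t.d1)
  dc c := (map_mul ρ _ _).symm.trans ((congrArg ρ (t.dc c)).trans (map_mul ρ _ _))
  h1 := (map_mul ρ _ _).symm.trans (congrArg ρ t.h1)
  hc c := (map_mul ρ _ _).symm.trans ((congrArg ρ (t.hc c)).trans (map_mul ρ _ _))
  dd := by rw [← map_mul, t.dd, map_zero]
  hh := by rw [← map_mul, t.hh, map_zero]
  dh := by rw [← map_mul, ← map_mul, ← map_add, t.dh]; rfl

end TCt

theorem tU_map (ρ : R →ₙ+* R') (φ ψ : R) :
    tU (ρ.comp δ) (ρ φ) (ρ ψ) = ρ (tU δ φ ψ) + 1 - ρ 1 := by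
  simp only [tU, map_sub, map_add, map_mul, NonUnitalRingHom.comp_apply]
  abel

/-- Two orthogonal gradings and their sum. -/
structure TSum (δ δ' δ'' : (ℕ → ℤ) →ₙ+* R) : Prop where
  add : ∀ c, δ c = δ' c + δ'' c
  l : ∀ c c', δ' c * δ'' c' = 0
  r : ∀ c c', δ'' c * δ' c' = 0

/-- A contraction of an extension from contractions of its ends. -/
theorem TSum.ext (s : TSum δ δ' δ'') (t' : TCt δ' d' h') (t'' : TCt δ'' d'' h'')
    (d1 : δ 1 * d = d) (dc : ∀ c, d * δ c = δ (fun n => c (n + 1)) * d) (dd : d * d = 0)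
    (a : d * δ' 1 = d') (b : δ'' 1 * d = d'') : ∃ h g, TCt δ d h ∧
      d + h = (d' + h') + (d'' + h'') + g ∧ δ' 1 * g = g ∧ g * δ'' 1 = g := by
  have d2 : d * δ 1 = d := (dc 1).trans d1
  obtain ⟨f, hf⟩ : ∃ f, f = δ' 1 * d * δ'' 1 := ⟨_, rfl⟩
  have f1 : δ' 1 * f = f := by rw [hf, ← mul_assoc, ← mul_assoc, tor_l]
  have f2 : f * δ'' 1 = f := by rw [hf, mul_assoc, tor_l]
  have e : d = d' + d'' + f := by
    have : δ' 1 * d = d' + f := by
      rw [← t'.d1, ← a, hf, mul_assoc, ← mul_add, ← mul_add, ← s.add, d2]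
    rw [← d1, s.add, add_mul, this, b]
    abel
  have l := s.l 1 1
  have r := s.r 1 1
  have z1 := tor_z t'.d2 t''.d1 l
  have z2 := tor_z t''.d2 t'.d1 r
  have z3 := tor_z t'.d2 t''.h2 l
  have z4 := tor_z t''.d2 t'.h2 r
  have z5 := tor_z t'.h1 t''.d1 l
  have z6 := tor_z t''.h1 t'.d1 r
  have z7 := tor_z t'.h1 t''.h2 l
  have z8 := tor_z t''.h1 t'.h2 r
  have z9 := tor_z f2 t'.d1 r
  have z10 := tor_z f2 t'.h2 r
  have z11 := tor_z t''.d2 f1 r
  have z12 := tor_z t''.h1 f1 r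
  have z13 := tor_z f2 f1 r
  have q : d' * f = -(f * d'') := by
    rw [e] at dd
    simp only [add_mul, mul_add, z1, z2, z9, z11, z13, t'.dd, t''.dd, add_zero, zero_add] at dd
    exact eq_neg_of_add_eq_zero_right dd
  have fc : ∀ c, δ' (fun n => c (n + 1)) * f = f * δ'' c := fun c => by
    have := congrArg (fun x => δ' 1 * x * δ'' 1) (dc c)
    simp only [s.add, mul_add, add_mul, mul_assoc, s.l, tor_r, mul_zero, zero_add] at this
    simp only [← mul_assoc, s.l, tor_l, zero_mul, add_zero] at this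
    rw [hf, ← mul_assoc, ← mul_assoc, tor_r, ← this, mul_assoc _ (δ'' 1), tor_l]
  have w1 : ∀ c, δ'' c * h' = 0 := fun c => tor_z (tor_r _ c) t'.h2 r
  have w2 : ∀ c, δ' c * h'' = 0 := fun c => tor_z (tor_r _ c) t''.h2 l
  have w3 : ∀ c, h' * δ'' c = 0 := fun c => tor_z t'.h1 (tor_l _ c) l
  have w4 : ∀ c, h'' * δ' c = 0 := fun c => tor_z t''.h1 (tor_l _ c) r
  have as : ∀ {x y : R}, x * y = 0 → ∀ z, x * (y * z) = 0 := fun o z => by
    rw [← mul_assoc, o, zero_mul]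
  refine ⟨h' + h'' - h' * (f * h''), f - h' * (f * h''), ⟨d1, dc, ?_, fun c => ?_, dd, ?_, ?_⟩,
    ?_, ?_, ?_⟩
  · simp only [s.add, mul_add, add_mul, sub_mul, mul_assoc, w3, w4, t'.h1, t''.h1, mul_zero,
      add_zero, zero_add, sub_zero, add_sub_assoc]
  · have : δ' c * (h' * (f * h'')) = h' * (f * (h'' * δ'' fun n => c (n + 1))) := by
      rw [← mul_assoc, t'.hc, mul_assoc, ← mul_assoc (δ' _), fc, mul_assoc, t''.hc]
    simp only [s.add, mul_add, add_mul, sub_mul, mul_sub, mul_assoc, w1, w2, w3, w4, as (w1 c),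
      this, t'.hc, t''.hc, mul_zero, add_zero, zero_add, sub_zero, add_sub_assoc]
  · simp only [mul_add, add_mul, sub_mul, mul_sub, mul_assoc, z7, z8, as z8, t'.hh, t''.hh,
      as t'.hh, mul_zero, add_zero, sub_zero]
  · have p1 : d' * (h' * (f * h'')) = f * h'' + h' * (f * (d'' * h'')) := by
      rw [← mul_assoc, eq_sub_of_add_eq t'.dh, sub_mul, ← mul_assoc, f1, mul_assoc h',
        ← mul_assoc d', q]
      simp only [neg_mul, mul_neg, mul_assoc, sub_neg_eq_add]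
    have p2 : h' * (f * (h'' * d'')) = h' * f - h' * (f * (d'' * h'')) := by
      rw [eq_sub_of_add_eq' t''.dh, mul_sub, f2, mul_sub]
    rw [e, s.add, ← t'.dh, ← t''.dh]
    simp only [mul_add, add_mul, sub_mul, mul_sub, mul_assoc, z3, z4, z5, z6, z10, z12, as z4,
      as z10, p1, p2, mul_zero, add_zero, zero_add, sub_zero]
    abel
  · rw [e]
    abel
  · rw [mul_sub, f1, ← mul_assoc, t'.h2]
  · rw [sub_mul, f2, mul_assoc, mul_assoc, t''.h1]

/-- Additivity of the torsion. -/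
theorem TSum.tor (H : TEl L) (s : TSum δ δ' δ'') {d₀' h₀' d₀'' h₀'' g g₀ : R}
    (t' : TCt δ' d' h') (t'' : TCt δ'' d'' h'') (u' : TCt δ' d₀' h₀') (u'' : TCt δ'' d₀'' h₀'')
    (g1 : δ' 1 * g = g) (g2 : g * δ'' 1 = g) (k1 : δ' 1 * g₀ = g₀) (k2 : g₀ * δ'' 1 = g₀) :
    L (tU δ ((d' + h') + (d'' + h'') + g) ((d₀' + h₀') + (d₀'' + h₀'') + g₀)) =
      L (tU δ' (d' + h') (d₀' + h₀')) + L (tU δ'' (d'' + h'') (d₀'' + h₀'')) := by
  have v' := t'.unit u'
  have v'' := t''.unit u''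
  have a1 := t'.l
  have a2 := t'.r
  have b1 := t''.l
  have b2 := t''.r
  have c1 := u'.l
  have c2 := u'.r
  have e1 := u''.l
  have e2 := u''.r
  generalize d' + h' = a at *
  generalize d'' + h'' = b at *
  generalize d₀' + h₀' = c at *
  generalize d₀'' + h₀'' = e at *
  have l := s.l 1 1
  have r := s.r 1 1
  have as : ∀ {x y : R}, x * y = 0 → ∀ z, x * (y * z) = 0 := fun o z => by
    rw [← mul_assoc, o, zero_mul]
  have x1 : c * δ'' tev = 0 := tor_z c2 (tor_l _ _) l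
  have x2 : e * δ' tev = 0 := tor_z e2 (tor_l _ _) r
  have x3 : g₀ * δ' tev = 0 := tor_z k2 (tor_l _ _) r
  have x4 : δ' tev * b = 0 := tor_z (tor_r _ _) b1 l
  have E : tU δ (a + b + g) (c + e + g₀) = tU δ' a c * tU δ'' b e + (a * g₀ + g * e) * δ'' tev := by
    simp only [tU, s.add, mul_add, add_mul, sub_mul, mul_sub, mul_assoc, x1, x2, x3, as x4, s.l,
      as (tor_z a2 e1 l), as (tor_z b2 c1 r), as (tor_z b2 k1 r), as (tor_z g2 c1 r),
      as (tor_z g2 k1 r), mul_zero, add_zero, zero_add, sub_zero, mul_one, one_mul]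
    abel
  have C' : δ' 1 * tU δ' a c = tU δ' a c * δ' 1 := by
    simp only [tU, mul_add, add_mul, sub_mul, mul_sub, tor_l, mul_assoc, tor_r, mul_one, one_mul]
    rw [← mul_assoc, a1]
  have C'' : δ' 1 * tU δ'' b e = tU δ'' b e * δ' 1 := by
    simp only [tU, mul_add, add_mul, sub_mul, mul_sub, mul_assoc, s.l, s.r,
      as (tor_z (tor_l _ _) b1 l), mul_zero, mul_one, one_mul]
  rw [E, H.tri (tor_l δ' 1) (v'.mul v'') (by rw [← mul_assoc, C', mul_assoc, C'', mul_assoc])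
    (by rw [← mul_assoc, mul_add, ← mul_assoc, ← mul_assoc, a1, g1])
    (by rw [mul_assoc, s.r, mul_zero]), H.mul _ _ v' v'']

end Pool.Agent.Lib.MP_5d3e93_al.Gr
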