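import Pool.Agent.Lib.MP_5d3e93_al.Gr.Am

/-! Definitions for the comparison with exact categories and for directed colimits. -/

open CategoryTheory Limits Pretriangulated ZeroObject

namespace Pool.Agent.Lib.MP_5d3e93_al.Gr

universe v u v' u'

section W2
variable {C : Type u} [Category.{v} C] [Preadditive C]
/-- Split short exact sequences. -/
def Spl {X Y Z : C} (i : X ⟶ Y) (p : Y ⟶ Z) : Prop :=
  ∃ r s, i ≫ r = 𝟙 _ ∧ s ≫ p = 𝟙 _ ∧ r ≫ i + p ≫ s = 𝟙 _
/-- The differential `b` is contractible. -/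
def Ctr (P : Bin C) (b : Bool) : Prop := ∃ h : ∀ n, P.X n ⟶ P.X (n + 1),
  h 0 ≫ P.d b 0 = 𝟙 _ ∧ ∀ n, h (n + 1) ≫ P.d b (n + 1) + P.d b n ≫ h n = 𝟙 _
/-- Bounded binary complexes. -/
def Bin.Bd (P : Bin C) : Prop := ∃ m, ∀ n, m ≤ n → IsZero (P.X n)
/-- Bounded binary complexes with terms in `P`. -/
def Pb (P : ObjectProperty C) : ObjectProperty (Bin C) := fun Q => Q.Bd ∧ ∀ n, P (Q.X n)
/-- Strictly bounded complexes with terms in `P`. -/
def Sb (P : ObjectProperty C) (K : CochainComplex C ℤ) : Prop :=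
  (∀ n, P (K.X n)) ∧ ∃ p q : ℤ, ∀ n, n < p ∨ q < n → IsZero (K.X n)
variable [HasZeroObject C] [HasBinaryBiproducts C]
/-- Classes of objects closed under finite sums. -/
class Ad (P : ObjectProperty C) : Prop where
  zero : ∀ X, IsZero X → P X
  iso : ∀ {X Y : C}, (X ≅ Y) → P X → P Y
  add : ∀ X Y, P X → P Y → P (X ⊞ Y)
instance : Ad (⊤ : ObjectProperty C) :=
  ⟨fun _ _ => trivial, fun _ _ => trivial, fun _ _ _ _ => trivial⟩
/-- The triangulated closure of a class of objects in the homotopy category. -/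
def genK (P : ObjectProperty C) : ObjectProperty (Kh C) :=
  Cl (P.map (HomotopyCategory.singleFunctor C 0))
instance (P : ObjectProperty C) : Tg (genK P) := inferInstanceAs (Tg (Cl _))
end W2

namespace Am
variable {a : Am.{v, u}} {b : Am.{v', u'}}
instance (P : ObjectProperty a.A) : Tg (a.gen P) := inferInstanceAs (Tg (Cl _))
instance : Tg a.bdd := inferInstanceAs (Tg (Cl _))
/-- The localisation functor as a map. -/
def ρ (a : Am.{v, u}) : Map (of a.A) a := ofMap (𝟭 a.A)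
/-- The kernel of a map on `S`. -/
abbrev Map.ker (f : Map a b) (S : ObjectProperty a.D) : ObjectProperty a.D :=
  S ⊓ Zr.inverseImage f.D
/-- Projective objects: no maps to trivial complexes. -/
def Pj (a : Am.{v, u}) (X : a.A) : Prop :=
  ∀ t, a.T t → ∀ φ : (HomotopyCategory.singleFunctor a.A 0).obj X ⟶ t, φ = 0
/-- The exact structure of the sequences split by `U`. -/
def exU {A : Type (max u v)} [Category.{v} A] [Preadditive A] [HasZeroObject A]
    [HasBinaryBiproducts A] {A₀ : Type u'} [Category.{v'} A₀] [Preadditive A₀] [HasZeroObject A₀]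
    [HasBinaryBiproducts A₀] (U : A ⥤ A₀) [U.Additive] : Am.{v, u} :=
  ⟨A, genK ⊤ ⊓ Zr.inverseImage (U.mapHomotopyCategory (.up ℤ))⟩
end Am

/-- A pointwise split exact structure on `a.A` and a class `P` with two out of three. -/
structure Pt (a : Am.{v, u}) (A : Type (max u v)) [Category.{v} A] [Preadditive A]
    [HasZeroObject A] [HasBinaryBiproducts A] (P : ObjectProperty a.A) where
  κ : Type
  e : κ → Am.Map a (Am.of A)
  refl : ∀ X, (∀ k, (Am.of A).Tb ((e k).K.obj X)) → a.Tb X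
  faith : ∀ {X Y : a.A} (f : X ⟶ Y), (∀ k, (e k).F.map f = 0) → f = 0
  ker : ∀ {Y Z : a.A} (p : Y ⟶ Z), (∀ k, ∃ s, s ≫ (e k).F.map p = 𝟙 _) → ∃ (X : a.A) (i : X ⟶ Y),
    (∀ k, Spl ((e k).F.map i) ((e k).F.map p)) ∧ ∀ (W : a.A) (t : W ⟶ Y), t ≫ p = 0 →
      ∃ l, l ≫ i = t
  ad : Ad P
  ext : ∀ {X Y Z : a.A} (i : X ⟶ Y) (p : Y ⟶ Z), (∀ k, Spl ((e k).F.map i) ((e k).F.map p)) →
    P Z → (P X ↔ P Y)

section Pt
variable {a : Am.{v, u}} {A : Type (max u v)} [Category.{v} A] [Preadditive A]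
  [HasZeroObject A] [HasBinaryBiproducts A] {P : ObjectProperty a.A}
/-- Bounded binary complexes with terms in `P` that are pointwise contractible. -/
def Pt.Pq (pt : Pt a A P) : ObjectProperty (Bin a.A) :=
  fun Q => Pb P Q ∧ ∀ b k, Ctr ((Bin.map (pt.e k).F).obj Q) b
end Pt

/-- A model of the exact category `E` inside `a` whose bounded derived category is `S`. -/
structure Mo (E : Ex.{v, u}) (a : Am.{v, u}) (A : Type (max u v)) [Category.{v} A] [Preadditive A]
    [HasZeroObject A] [HasBinaryBiproducts A] (S : ObjectProperty a.D) where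
  ι : E.C ⥤ a.A
  [add : ι.Additive]
  [full : ι.Full]
  [faith : ι.Faithful]
  P : ObjectProperty a.A
  pt : Pt a A P
  img : ∀ X, P X ↔ ι.essImage X
  ses : ∀ {X Y Z : E.C} (i : X ⟶ Y) (p : Y ⟶ Z), E.ses i p ↔
    ∀ k, Spl ((pt.e k).F.map (ι.map i)) ((pt.e k).F.map (ι.map p))
  [tg : Tg S]
  loc : Loc a.ρ.D (a.ρ.ker ((Am.of a.A).gen P)) ((Am.of a.A).gen P) S

set_option linter.checkUnivs false in
/-- A directed system of ambient categories with a cocone. -/
structure Sys (ι : Type*) [Preorder ι] where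
  x : ι → Am.{v, u}
  t : ∀ {i j}, i ≤ j → Am.Map (x i) (x j)
  a : Am.{v', u'}
  f : ∀ i, Am.Map (x i) a
  tt : ∀ {i j k} (h : i ≤ j) (h' : j ≤ k), (t h).comp (t h') = t (h.trans h')
  tf : ∀ {i j} (h : i ≤ j), (t h).comp (f j) = f i

/-- The class `S` is the colimit of the classes `P i`. -/
structure Sys.Col {ι : Type*} [Preorder ι] (s : Sys.{v, u, v', u'} ι)
    (P : ∀ i, ObjectProperty (s.x i).D) (S : ObjectProperty s.a.D) : Prop where
  mt : ∀ {i j} (h : i ≤ j), P i ≤ (P j).inverseImage (s.t h).D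
  mf : ∀ i, P i ≤ S.inverseImage (s.f i).D
  obj : ∀ X, S X → ∃ i Y, P i Y ∧ Nonempty ((s.f i).D.obj Y ≅ X)
  full : ∀ i X Y, P i X → P i Y → ∀ φ : (s.f i).D.obj X ⟶ (s.f i).D.obj Y, ∃ (j : ι) (h : i ≤ j)
    (ψ : (s.t h).D.obj X ⟶ (s.t h).D.obj Y), HEq ((s.f j).D.map ψ) φ
  faith : ∀ i X Y, P i X → P i Y → ∀ ψ : X ⟶ Y, (s.f i).D.map ψ = 0 →
    ∃ (j : ι) (h : i ≤ j), (s.t h).D.map ψ = 0

end Pool.Agent.Lib.MP_5d3e93_al.Gr
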