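import Pool.Agent.Lib.MP_5d3e93_al.Gr.Am

/-! Subquotients of the sum of the two representing binary complexes. -/

open CategoryTheory Limits ZeroObject

namespace Pool.Agent.Lib.MP_5d3e93_al.Gr.Zoo

universe v u v' u'

variable {C : Type u} [Category.{v} C] [Preadditive C] [HasZeroObject C]

open Classical in
/-- `X` or zero. -/
noncomputable def cut (p : Prop) (X : C) : C := if p then X else 0

omit [Preadditive C] in
theorem cut_pos {p : Prop} (h : p) (X : C) : cut p X = X := if_pos h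

open Classical in
/-- The inclusion. -/
noncomputable def ci (p : Prop) (X : C) : cut p X ⟶ X := if h : p then eqToHom (cut_pos h X) else 0

open Classical in
/-- The retraction. -/
noncomputable def cr (p : Prop) (X : C) : X ⟶ cut p X :=
  if h : p then eqToHom (cut_pos h X).symm else 0

theorem ci_cr (p : Prop) (X : C) : ci p X ≫ cr p X = 𝟙 _ := by
  by_cases h : p
  · simp [ci, cr, h]
  · exact ((isZero_zero C).of_iso (eqToIso (if_neg h))).eq_of_src _ _

variable [HasBinaryBiproducts C]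

/-- Two slots. -/
noncomputable abbrev Z (p q : Prop) (X : C) : C := cut p X ⊞ cut q X

variable {p q p' q' p'' q'' r s : Prop} {X Y W : C}

/-- The first coordinate. -/
noncomputable def oa (p q : Prop) (X : C) : Z p q X ⟶ X := biprod.fst ≫ ci p X
/-- The second coordinate. -/
noncomputable def ob (p q : Prop) (X : C) : Z p q X ⟶ X := biprod.snd ≫ ci q X
/-- The first slot. -/
noncomputable def ia (p q : Prop) (X : C) : X ⟶ Z p q X := cr p X ≫ biprod.inl
/-- The second slot. -/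
noncomputable def ib (p q : Prop) (X : C) : X ⟶ Z p q X := cr q X ≫ biprod.inr

open Classical in
@[simp] theorem ia_oa : ia p q X ≫ oa p q X = if p then 𝟙 X else 0 := by
  by_cases h : p <;> simp [ia, oa, ci, cr, h]

open Classical in
@[simp] theorem ib_ob : ib p q X ≫ ob p q X = if q then 𝟙 X else 0 := by
  by_cases h : q <;> simp [ib, ob, ci, cr, h]

@[reassoc (attr := simp)] theorem ia_ob : ia p q X ≫ ob p q X = 0 := by simp [ia, ob]

@[reassoc (attr := simp)] theorem ib_oa : ib p q X ≫ oa p q X = 0 := by simp [ib, oa]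

open Classical in
@[simp] theorem ia_oa_assoc (f : X ⟶ W) : ia p q X ≫ oa p q X ≫ f = if p then f else 0 := by
  rw [← Category.assoc, ia_oa]; split_ifs <;> simp

open Classical in
@[simp] theorem ib_ob_assoc (f : X ⟶ W) : ib p q X ≫ ob p q X ≫ f = if q then f else 0 := by
  rw [← Category.assoc, ib_ob]; split_ifs <;> simp

theorem tot : oa p q X ≫ ia p q X + ob p q X ≫ ib p q X = 𝟙 _ := by
  simp only [oa, ia, ob, ib, Category.assoc, reassoc_of% (ci_cr p X), reassoc_of% (ci_cr q X)]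
  exact biprod.total

theorem oa_zero (h : ¬p) : oa p q X = 0 := by simp [oa, ci, h]
theorem ob_zero (h : ¬q) : ob p q X = 0 := by simp [ob, ci, h]
theorem ia_zero (h : ¬p) : ia p q X = 0 := by simp [ia, cr, h]
theorem ib_zero (h : ¬q) : ib p q X = 0 := by simp [ib, cr, h]

theorem ext_from {f g : Z p q X ⟶ W} (h : p → ia p q X ≫ f = ia p q X ≫ g)
    (k : q → ib p q X ≫ f = ib p q X ≫ g) : f = g := by
  have h' : ia p q X ≫ f = ia p q X ≫ g := by
    by_cases e : p
    · exact h e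
    · simp [ia_zero e]
  have k' : ib p q X ≫ f = ib p q X ≫ g := by
    by_cases e : q
    · exact k e
    · simp [ib_zero e]
  rw [← Category.id_comp f, ← Category.id_comp g, ← tot]
  simp only [Preadditive.add_comp, Category.assoc, h', k']

theorem ext_to {f g : W ⟶ Z p q X} (h : p → f ≫ oa p q X = g ≫ oa p q X)
    (k : q → f ≫ ob p q X = g ≫ ob p q X) : f = g := by
  have h' : f ≫ oa p q X = g ≫ oa p q X := by
    by_cases e : p
    · exact h e
    · simp [oa_zero e]
  have k' : f ≫ ob p q X = g ≫ ob p q X := by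
    by_cases e : q
    · exact k e
    · simp [ob_zero e]
  rw [← Category.comp_id f, ← Category.comp_id g, ← tot]
  simp only [Preadditive.comp_add, reassoc_of% h', reassoc_of% k']

theorem ext4 {f g : Z p q X ⟶ Z p' q' Y}
    (h₁ : p → p' → ia p q X ≫ f ≫ oa p' q' Y = ia p q X ≫ g ≫ oa p' q' Y)
    (h₂ : p → q' → ia p q X ≫ f ≫ ob p' q' Y = ia p q X ≫ g ≫ ob p' q' Y)
    (h₃ : q → p' → ib p q X ≫ f ≫ oa p' q' Y = ib p q X ≫ g ≫ oa p' q' Y)
    (h₄ : q → q' → ib p q X ≫ f ≫ ob p' q' Y = ib p q X ≫ g ≫ ob p' q' Y) : f = g :=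
  ext_to (fun b => ext_from (fun a => h₁ a b) fun a => h₃ a b)
    fun b => ext_from (fun a => h₂ a b) fun a => h₄ a b

theorem isZero_Z (h : ¬p) (k : ¬q) : IsZero (Z p q X) :=
  (IsZero.iff_id_eq_zero _).2 (ext_from (fun a => (h a).elim) fun a => (k a).elim)

omit [HasZeroObject C] [HasBinaryBiproducts C] in
@[simp] theorem comp_ite (c : Prop) [Decidable c] {X Y W : C} (f : X ⟶ Y) (g : Y ⟶ W) :
    (f ≫ if c then g else 0) = if c then f ≫ g else 0 := by split_ifs <;> simp

omit [HasZeroObject C] [HasBinaryBiproducts C] in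
@[simp] theorem ite_comp (c : Prop) [Decidable c] {X Y W : C} (f : X ⟶ Y) (g : Y ⟶ W) :
    (if c then f else 0) ≫ g = if c then f ≫ g else 0 := by split_ifs <;> simp

/-- A morphism applied in both slots. -/
noncomputable def mp (p q p' q' : Prop) (f : X ⟶ Y) : Z p q X ⟶ Z p' q' Y :=
  oa p q X ≫ f ≫ ia p' q' Y + ob p q X ≫ f ≫ ib p' q' Y

/-- The differentials of the sum of the representing complexes. -/
noncomputable def dd (e : Bool) (p q p' q' : Prop) (X : C) : Z p q X ⟶ Z p' q' X :=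
  match e with
  | true => oa p q X ≫ ia p' q' X - oa p q X ≫ ib p' q' X
  | false => oa p q X ≫ ib p' q' X + ob p q X ≫ ib p' q' X

/-- The projections to the representing complexes. -/
noncomputable def pr (b : Bool) (p q : Prop) (X : C) : Z p q X ⟶ X :=
  match b with
  | true => oa p q X
  | false => oa p q X + ob p q X

/-- The inclusions of the representing complexes. -/
noncomputable def nc (b : Bool) (p q : Prop) (X : C) : X ⟶ Z p q X :=
  match b with
  | true => ia p q X - ib p q X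
  | false => ib p q X

theorem dd_sq (e : Bool) (h : p → q'' → (p' ↔ q')) :
    dd (!e) p q p' q' X ≫ dd e p' q' p'' q'' X = 0 := by
  cases e
  · refine ext4 (fun a b => ?_) (fun a b => ?_) (fun a b => ?_) (fun a b => ?_) <;>
      simp [dd, a, b]
    rw [propext (h a b), add_neg_cancel]
  · simp [dd]

theorem mp_dd (e : Bool) (f : X ⟶ Y) :
    mp p q p q f ≫ dd e p q p' q' Y = dd e p q p' q' X ≫ mp p' q' p' q' f := by
  cases e <;> refine ext4 (fun a b => ?_) (fun a b => ?_) (fun a b => ?_) (fun a b => ?_) <;>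
    simp [dd, mp, a, b]

theorem mp_id : mp p q p q (𝟙 X) = 𝟙 _ := by simpa [mp] using tot

theorem mp_mp (f : X ⟶ Y) (g : Y ⟶ W) (h : p → p'' → p') (k : q → q'' → q') :
    mp p q p' q' f ≫ mp p' q' p'' q'' g = mp p q p'' q'' (f ≫ g) :=
  ext4 (fun a b => by simp [mp, a, b, h a b]) (fun _ b => by simp [mp, b])
    (fun _ b => by simp [mp, b]) (fun a b => by simp [mp, a, b, k a b])

theorem mp_mp_zero (f : X ⟶ Y) (g : Y ⟶ W) (h : p → ¬p'') (k : q → ¬q'') :
    mp p q p' q' f ≫ mp p' q' p'' q'' g = 0 :=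
  ext4 (fun a b => (h a b).elim) (fun _ b => by simp [mp, b])
    (fun _ b => by simp [mp, b]) (fun a b => (k a b).elim)

theorem mp_add (f g : X ⟶ Y) : mp p q p' q' (f + g) = mp p q p' q' f + mp p q p' q' g := by
  simp only [mp, Preadditive.add_comp, Preadditive.comp_add]
  abel

theorem one_dd (e : Bool) (h₁ : p → s → (p' ↔ r)) (h₂ : p → q'' → (p' ↔ p''))
    (h₃ : q → q'' → (q' ↔ p'')) :
    mp p q p' q' (𝟙 X) ≫ dd e p' q' s q'' X = dd e p q r p'' X ≫ mp r p'' s q'' (𝟙 X) := by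
  cases e <;> refine ext4 (fun a b => ?_) (fun a b => ?_) (fun a b => ?_) (fun a b => ?_) <;>
    simp [dd, mp, a, b]
  · rw [propext (h₂ a b)]
  · rw [propext (h₃ a b)]
  · rw [propext (h₁ a b)]
  · rw [propext (h₂ a b)]

theorem swp_dd (e : Bool) (h : p → q'' → ¬r ∧ ¬q') :
    (oa p q X ≫ ib p' q' X) ≫ dd e p' q' s q'' X =
      dd e p q r p'' X ≫ oa r p'' X ≫ ib s q'' X := by
  cases e <;> refine ext4 (fun a b => ?_) (fun a b => ?_) (fun a b => ?_) (fun a b => ?_) <;>
    simp [dd, a, b]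
  · simp [h a b]
  · simp [h a b]

theorem pr_dd (b c e : Bool) (h : p → p' ∧ q') (k : q → q') :
    (pr b p q X ≫ if c = (b == e) then 𝟙 X else 0) = dd (c == e) p q p' q' X ≫ pr b p' q' X := by
  cases b <;> cases c <;> cases e <;> refine ext_from (fun a => ?_) (fun a => ?_) <;>
    first | simp [dd, pr, a, h a] | simp [dd, pr, a, k a]

theorem nc_dd (b c e : Bool) : nc b True True X ≫ dd (c == e) True True True True X =
    (if c = (b == e) then 𝟙 X else 0) ≫ nc b True True X := by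
  cases b <;> cases c <;> cases e <;> simp [dd, nc]

theorem lt_eq (b : Bool) : ∀ n, Bin.lt b n = (b == Bin.lt true n)
  | 0 => by cases b <;> rfl
  | n + 1 => by rw [Bin.lt, Bin.lt, lt_eq b n]; cases b <;> cases Bin.lt true n <;> rfl

theorem mp_oa (f : X ⟶ Y) (h : p → p') : mp p q p' q' f ≫ oa p' q' Y = oa p q X ≫ f :=
  ext_from (fun a => by simp [mp, a, h a]) fun _ => by simp [mp]

theorem mp_ob (f : X ⟶ Y) (h : q → q') : mp p q p' q' f ≫ ob p' q' Y = ob p q X ≫ f :=
  ext_from (fun _ => by simp [mp]) fun a => by simp [mp, a, h a]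

theorem ia_mp (f : X ⟶ Y) : ia p q X ≫ mp p q p q f = f ≫ ia p q Y :=
  ext_to (fun a => by simp [mp, a]) fun _ => by simp [mp]

theorem ib_mp (f : X ⟶ Y) : ib p q X ≫ mp p q p q f = f ≫ ib p q Y :=
  ext_to (fun _ => by simp [mp]) fun a => by simp [mp, a]

theorem mp_pr (b : Bool) (f : X ⟶ Y) (h : p → p') (k : q → q') :
    mp p q p' q' f ≫ pr b p' q' Y = pr b p q X ≫ f := by
  cases b <;> simp [pr, mp_oa f h, mp_ob f k]

theorem nc_mp (b : Bool) (f : X ⟶ Y) : f ≫ nc b p q Y = nc b p q X ≫ mp p q p q f := by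
  cases b <;> simp [nc, ia_mp, ib_mp]

theorem nc_pr (b : Bool) : nc b True True X ≫ pr b True True X = 𝟙 _ := by
  cases b <;> simp [nc, pr]

theorem pr_nc : pr true p q X ≫ nc true p q X + pr false p q X ≫ nc false p q X = 𝟙 _ := by
  rw [← tot]
  simp only [nc, pr, Preadditive.comp_sub, Preadditive.add_comp]
  abel

theorem mp_swp : mp False q p q (𝟙 X) ≫ oa p q X ≫ ib False p X = 0 :=
  ext_from (fun a => a.elim) fun a => by simp [mp]

theorem split (h : p' ↔ p ∨ p'') (h' : p → ¬p'') (k : q' ↔ q ∨ q'') (k' : q → ¬q'') :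
    ∃ (u : Z p' q' X ⟶ Z p q X) (w : Z p'' q'' X ⟶ Z p' q' X),
      mp p q p' q' (𝟙 X) ≫ u = 𝟙 _ ∧ w ≫ mp p' q' p'' q'' (𝟙 X) = 𝟙 _ ∧
        u ≫ mp p q p' q' (𝟙 X) + mp p' q' p'' q'' (𝟙 X) ≫ w = 𝟙 _ := by
  refine ⟨mp _ _ _ _ (𝟙 X), mp _ _ _ _ (𝟙 X), ?_, ?_, ?_⟩
  · rw [mp_mp _ _ (fun a _ => h.2 (.inl a)) fun a _ => k.2 (.inl a), Category.id_comp, mp_id]
  · rw [mp_mp _ _ (fun a _ => h.2 (.inr a)) fun a _ => k.2 (.inr a), Category.id_comp, mp_id]
  · refine ext4 (fun a _ => ?_) (fun _ b => ?_) (fun _ b => ?_) (fun a _ => ?_)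
    · rcases h.1 a with c | c
      · simp [mp, a, c, h' c]
      · simp [mp, a, c, mt h' (not_not.2 c)]
    · simp [mp, b]
    · simp [mp, b]
    · rcases k.1 a with c | c
      · simp [mp, a, c, k' c]
      · simp [mp, a, c, mt k' (not_not.2 c)]

theorem split' : ∃ (u : Z p q X ⟶ Z False q X) (w : Z False p X ⟶ Z p q X),
    mp False q p q (𝟙 X) ≫ u = 𝟙 _ ∧ w ≫ oa p q X ≫ ib False p X = 𝟙 _ ∧
      u ≫ mp False q p q (𝟙 X) + (oa p q X ≫ ib False p X) ≫ w = 𝟙 _ := by
  refine ⟨mp _ _ _ _ (𝟙 X), ob _ _ X ≫ ia _ _ X, ?_, ?_, ?_⟩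
  · rw [mp_mp _ _ (fun a _ => a.elim) fun a _ => a, Category.id_comp, mp_id]
  · exact ext4 (fun a _ => a.elim) (fun a _ => a.elim) (fun _ a => a.elim) fun a _ => by simp [a]
  · refine ext4 (fun a b => ?_) (fun a b => ?_) (fun a b => ?_) (fun a b => ?_) <;>
      simp [mp, a, b]

theorem isIso_swp (h : p) (k : ¬q) (h' : ¬p') (k' : q') : IsIso (oa p q X ≫ ib p' q' X) :=
  ⟨ob _ _ X ≫ ia _ _ X, ext_from (fun _ => by simp [h, k']) fun a => (k a).elim,
    ext_from (fun a => (h' a).elim) fun _ => by simp [h, k']⟩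

theorem isIso_ia (h : p) (k : ¬q) : IsIso (ia p q X) :=
  ⟨oa _ _ X, by simp [h], ext_from (fun _ => by simp [h]) fun a => (k a).elim⟩

theorem isIso_pr (b : Bool) (h : p) (k : ¬q) : IsIso (pr b p q X) :=
  ⟨ia _ _ X, ext_from (fun _ => by cases b <;> simp [pr, h]) fun a => (k a).elim,
    by cases b <;> simp [pr, h]⟩

section
variable {C' : Type u'} [Category.{v'} C'] [Preadditive C'] [HasZeroObject C']
  [HasBinaryBiproducts C'] (F : C ⥤ C') [F.Additive]

/-- Additive functors commute with the construction. -/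
noncomputable def cm (p q : Prop) (X : C) : F.obj (Z p q X) ⟶ Z p q (F.obj X) :=
  F.map (oa p q X) ≫ ia p q _ + F.map (ob p q X) ≫ ib p q _

@[reassoc] theorem cm_oa : cm F p q X ≫ oa p q _ = F.map (oa p q X) := by
  by_cases h : p
  · simp [cm, h]
  · simp [oa_zero h]

@[reassoc] theorem cm_ob : cm F p q X ≫ ob p q _ = F.map (ob p q X) := by
  by_cases h : q
  · simp [cm, h]
  · simp [ob_zero h]

@[reassoc] theorem ia_cm : F.map (ia p q X) ≫ cm F p q X = ia p q _ := by
  by_cases h : p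
  · simp [cm, ← F.map_comp_assoc, h]
  · simp [ia_zero h]

@[reassoc] theorem ib_cm : F.map (ib p q X) ≫ cm F p q X = ib p q _ := by
  by_cases h : q
  · simp [cm, ← F.map_comp_assoc, h]
  · simp [ib_zero h]

theorem isIso_cm : IsIso (cm F p q X) :=
  ⟨oa p q _ ≫ F.map (ia p q X) + ob p q _ ≫ F.map (ib p q X), by
    rw [Preadditive.comp_add, cm_oa_assoc, cm_ob_assoc, ← F.map_comp, ← F.map_comp, ← F.map_add,
      tot, F.map_id], by
    rw [Preadditive.add_comp, Category.assoc, Category.assoc, ia_cm, ib_cm, tot]⟩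

theorem cm_dd (e : Bool) : cm F p q X ≫ dd e p q p' q' _ =
    F.map (dd e p q p' q' X) ≫ cm F p' q' X := by
  cases e <;> simp [dd, cm_oa_assoc, cm_ob_assoc, ia_cm, ib_cm]

theorem mp_cm (f : X ⟶ Y) : F.map (mp p q p q f) ≫ cm F p q Y =
    cm F p q X ≫ mp p q p q (F.map f) := by
  simp [mp, cm_oa_assoc, cm_ob_assoc, ia_cm, ib_cm]

theorem cm_pr (b : Bool) : cm F p q X ≫ pr b p q _ = F.map (pr b p q X) := by
  cases b <;> simp [pr, cm_oa, cm_ob]

end

end Pool.Agent.Lib.MP_5d3e93_al.Gr.Zoo
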